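import Pool.Agent.ANO2.Geo2.BoxB

/-!
# ANO phase 2, Geo2: the local normal form of a quadratic differential, zeros

* `normal_form`.  `q` has a finite order `m` at `s` (`U` is connected, `q` is not identically zero):
  `q z = (z - s)^m g z` near `s`, `g` analytic, `g s ≠ 0`.  Let `h` be analytic near `s` with
  `h² = g`.  Put `n = m + 2` and `k z = ∫₀¹ t^(m/2) h (s + t (z - s)) dt` (real power `t^(m/2)`);
  `k` is analytic near `s`, `k s = h s / (n/2) ≠ 0` and `(n/2) k + (z - s) k' = h`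
  (integrate the derivative of `t^(n/2) h (s + t (z - s))` in `t`).
  (Another way: power series: if `h = ∑ h_j (z - s)^j` then `k = ∑ h_j / (n/2 + j) (z - s)^j`.)
  Let `κ` be analytic near `s` with `κ^n = k²` and put `ψ z = (z - s) κ z`, so
  `ψ^n = (z - s)^n k²`.  Differentiate:
  `n ψ^(n-1) ψ' = 2 (z - s)^(n-1) k ((n/2) k + (z - s) k') = 2 (z - s)^(n-1) k h`; square:
  `n² ψ^(2n-2) ψ'² = 4 (z - s)^(2n-2) k² h² = 4 ψ^n q`, so `q = (n/2)² ψ^(n-2) ψ'²` for
  `z ≠ s` near `s`, and at `s` by continuity.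
-/

set_option autoImplicit false

open Set Filter Topology

namespace Pool.Agent.ANO2.Geo2

variable {Q : QD}

/-- `(n, ψ)` is a chart of `q` at `s`: `q = (n/2)² ψ^(n-2) (ψ')²`, that is, `∫ √q = ψ^(n/2)`. -/
structure Chart (Q : QD) (s : ℂ) (n : ℕ) (ψ : ℂ → ℂ) : Prop where
  two_le : 2 ≤ n
  analytic : AnalyticAt ℂ ψ s
  zero : ψ s = 0
  deriv_ne : deriv ψ s ≠ 0
  eq : ∀ᶠ z in 𝓝 s, Q.q z = ((n : ℂ) / 2) ^ 2 * ψ z ^ (n - 2) * deriv ψ z ^ 2

/-- `n`-th roots of analytic functions. -/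
private theorem normal_root {f : ℂ → ℂ} {s : ℂ} (hf : AnalyticAt ℂ f s) (h0 : f s ≠ 0) {n : ℕ}
    (hn : 1 ≤ n) : ∃ h : ℂ → ℂ, AnalyticAt ℂ h s ∧ h s ≠ 0 ∧ ∀ᶠ z in 𝓝 s, h z ^ n = f z := by
  have hnC : (n : ℂ) ≠ 0 := by exact_mod_cast (by omega : n ≠ 0)
  obtain ⟨a, ha⟩ := IsAlgClosed.exists_pow_nat_eq (f s) hn
  have ha0 : a ≠ 0 := by
    rintro rfl
    rw [zero_pow (by omega)] at ha
    exact h0 ha.symm
  have hw : AnalyticAt ℂ (fun z => f z / f s) s := hf.div analyticAt_const h0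
  have hw1 : f s / f s = 1 := div_self h0
  refine ⟨fun z => a * Complex.exp (Complex.log (f z / f s) / n), ?_, ?_, ?_⟩
  · refine analyticAt_const.mul (AnalyticAt.cexp ?_)
    refine (AnalyticAt.clog hw ?_).div analyticAt_const hnC
    rw [hw1]
    exact Complex.one_mem_slitPlane
  · exact mul_ne_zero ha0 (Complex.exp_ne_zero _)
  · have hne0 : ∀ᶠ z in 𝓝 s, f z ≠ 0 := hf.continuousAt.eventually_ne h0
    filter_upwards [hne0] with z hz0
    have hzz : f z / f s ≠ 0 := div_ne_zero hz0 h0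
    have he : Complex.exp (Complex.log (f z / f s) / n) ^ n = f z / f s := by
      rw [← Complex.exp_nat_mul, mul_div_cancel₀ _ hnC, Complex.exp_log hzz]
    rw [mul_pow, he, ha, mul_div_cancel₀ _ h0]

/-- The analytic solution of `a k + (z - s) k' = h`. -/
private theorem normal_ode {h : ℂ → ℂ} {s : ℂ} (hh : AnalyticAt ℂ h s) {a : ℝ} (ha : 1 ≤ a) :
    ∃ k : ℂ → ℂ, AnalyticAt ℂ k s ∧ ∀ᶠ z in 𝓝 s, (a : ℂ) * k z + (z - s) * deriv k z = h z := by
  obtain ⟨R, hR, hRan⟩ : ∃ R > 0, ∀ z ∈ Metric.ball s R, AnalyticAt ℂ h z :=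
    Metric.eventually_nhds_iff_ball.mp hh.eventually_analyticAt
  set r : ℝ := R / 2 with hrdef
  have hr : 0 < r := by positivity
  have hrR : r < R := by rw [hrdef]; linarith
  have hcb : Metric.closedBall s r ⊆ Metric.ball s R := Metric.closedBall_subset_ball hrR
  have hanc : ∀ z ∈ Metric.closedBall s r, AnalyticAt ℂ h z := fun z hz => hRan z (hcb hz)
  have hseg : ∀ z ∈ Metric.closedBall s r, ∀ t ∈ Icc (0 : ℝ) 1,
      s + (t : ℂ) * (z - s) ∈ Metric.closedBall s r := by
    intro z hz t ht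
    rw [Metric.mem_closedBall, dist_eq_norm] at hz ⊢
    have h1 : s + (t : ℂ) * (z - s) - s = (t : ℂ) * (z - s) := by ring
    rw [h1, norm_mul, Complex.norm_real, Real.norm_of_nonneg ht.1]
    calc t * ‖z - s‖ ≤ 1 * ‖z - s‖ := by
          exact mul_le_mul_of_nonneg_right ht.2 (norm_nonneg _)
      _ ≤ r := by rw [one_mul]; exact hz
  have hcd : ContinuousOn (deriv h) (Metric.closedBall s r) := fun z hz =>
    (hanc z hz).deriv.continuousAt.continuousWithinAt
  obtain ⟨M, hM⟩ := (isCompact_closedBall s r).exists_bound_of_continuousOn hcd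
  have hline : ∀ z : ℂ, Continuous fun t : ℝ => s + (t : ℂ) * (z - s) := by
    intro z
    fun_prop
  have hpw : Continuous fun t : ℝ => ((t ^ (a - 1) : ℝ) : ℂ) := by
    have h1 : Continuous fun t : ℝ => t ^ (a - 1) :=
      Real.continuous_rpow_const (by linarith)
    exact Complex.continuous_ofReal.comp h1
  have hpw' : Continuous fun t : ℝ => ((t ^ a : ℝ) : ℂ) := by
    have h1 : Continuous fun t : ℝ => t ^ a :=
      Real.continuous_rpow_const (by linarith)
    exact Complex.continuous_ofReal.comp h1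
  set F : ℂ → ℝ → ℂ := fun z t => ((t ^ (a - 1) : ℝ) : ℂ) * h (s + (t : ℂ) * (z - s)) with hF
  set F' : ℂ → ℝ → ℂ := fun z t => ((t ^ (a - 1) : ℝ) : ℂ) * (deriv h (s + (t : ℂ) * (z - s)) * t)
    with hF'
  have hcF : ∀ z ∈ Metric.closedBall s r, ContinuousOn (F z) (Icc 0 1) := by
    intro z hz
    refine hpw.continuousOn.mul ?_
    intro t ht
    exact ((hanc _ (hseg z hz t ht)).continuousAt.comp
      (f := fun t : ℝ => s + (t : ℂ) * (z - s)) (hline z).continuousAt).continuousWithinAt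
  have hcF' : ∀ z ∈ Metric.closedBall s r, ContinuousOn (F' z) (Icc 0 1) := by
    intro z hz
    refine hpw.continuousOn.mul (ContinuousOn.mul ?_ Complex.continuous_ofReal.continuousOn)
    intro t ht
    exact ((hanc _ (hseg z hz t ht)).deriv.continuousAt.comp
      (f := fun t : ℝ => s + (t : ℂ) * (z - s)) (hline z).continuousAt).continuousWithinAt
  have hIoc : uIoc (0 : ℝ) 1 ⊆ Icc 0 1 := by
    rw [uIoc_of_le zero_le_one]
    exact Ioc_subset_Icc_self
  have hkd : ∀ z ∈ Metric.ball s r,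
      HasDerivAt (fun z => ∫ t in (0 : ℝ)..1, F z t) (∫ t in (0 : ℝ)..1, F' z t) z := by
    intro z hz
    have hzc := Metric.ball_subset_closedBall hz
    have hbs : Metric.ball s r ∈ 𝓝 z := Metric.isOpen_ball.mem_nhds hz
    refine (intervalIntegral.hasDerivAt_integral_of_dominated_loc_of_deriv_le
      (bound := fun _ => M) hbs ?_ ?_ ?_ ?_ ?_ ?_).2
    · filter_upwards [hbs] with w hw
      exact ((hcF w (Metric.ball_subset_closedBall hw)).mono hIoc).aestronglyMeasurable
        measurableSet_uIoc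
    · refine ContinuousOn.intervalIntegrable ?_
      rw [uIcc_of_le zero_le_one]
      exact hcF z hzc
    · exact ((hcF' z hzc).mono hIoc).aestronglyMeasurable measurableSet_uIoc
    · refine Eventually.of_forall fun t ht w hw => ?_
      have ht' := hIoc ht
      have h1 := hM _ (hseg w (Metric.ball_subset_closedBall hw) t ht')
      have h2 : (t ^ (a - 1) : ℝ) ≤ 1 := Real.rpow_le_one ht'.1 ht'.2 (by linarith)
      have h3 : 0 ≤ (t ^ (a - 1) : ℝ) := Real.rpow_nonneg ht'.1 _
      have hM0 : 0 ≤ M := (norm_nonneg _).trans h1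
      simp only [hF', norm_mul, Complex.norm_real, Real.norm_of_nonneg h3,
        Real.norm_of_nonneg ht'.1]
      calc (t ^ (a - 1) : ℝ) * (‖deriv h (s + (t : ℂ) * (w - s))‖ * t)
          ≤ 1 * (M * 1) := by
            apply mul_le_mul h2 _ (by have := ht'.1; positivity) zero_le_one
            exact mul_le_mul h1 ht'.2 ht'.1 hM0
        _ = M := by ring
    · exact intervalIntegrable_const
    · refine Eventually.of_forall fun t ht w hw => ?_
      have ht' := hIoc ht
      have h0 := hanc _ (hseg w (Metric.ball_subset_closedBall hw) t ht')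
      have h1 := h0.differentiableAt.hasDerivAt
      have h2 : HasDerivAt (fun w : ℂ => s + (t : ℂ) * (w - s)) (t : ℂ) w := by
        have h3 := (((hasDerivAt_id w).sub_const s).const_mul (t : ℂ)).const_add s
        simpa using h3
      exact (h1.comp w h2).const_mul _
  have hkan : AnalyticAt ℂ (fun z => ∫ t in (0 : ℝ)..1, F z t) s := by
    have h1 : DifferentiableOn ℂ (fun z => ∫ t in (0 : ℝ)..1, F z t) (Metric.ball s r) :=
      fun z hz => (hkd z hz).differentiableAt.differentiableWithinAt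
    exact h1.analyticAt (Metric.ball_mem_nhds s hr)
  refine ⟨fun z => ∫ t in (0 : ℝ)..1, F z t, hkan, ?_⟩
  filter_upwards [Metric.ball_mem_nhds s hr] with z hz
  have hzc := Metric.ball_subset_closedBall hz
  rw [(hkd z hz).deriv]
  have hint : ∀ t ∈ uIcc (0 : ℝ) 1, HasDerivAt
      (fun t : ℝ => ((t ^ a : ℝ) : ℂ) * h (s + (t : ℂ) * (z - s)))
      ((a : ℂ) * F z t + (z - s) * F' z t) t := by
    intro t ht
    rw [uIcc_of_le zero_le_one] at ht
    have h1 : HasDerivAt (fun t : ℝ => ((t ^ a : ℝ) : ℂ)) (((a * t ^ (a - 1) : ℝ)) : ℂ) t :=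
      (Real.hasDerivAt_rpow_const (Or.inr ha)).ofReal_comp
    have h2 : HasDerivAt (fun t : ℝ => s + (t : ℂ) * (z - s)) (z - s) t := by
      have h3 := ((Complex.ofRealCLM.hasDerivAt (x := t)).mul_const (z - s)).const_add s
      simpa using h3
    have h3 := (hanc _ (hseg z hzc t ht)).differentiableAt.hasDerivAt
    have h4 : HasDerivAt (fun t : ℝ => h (s + (t : ℂ) * (z - s)))
        (deriv h (s + (t : ℂ) * (z - s)) * (z - s)) t := h3.comp t h2
    have h5 := h1.mul h4
    have h6 : (t ^ a : ℝ) = t ^ (a - 1) * t := by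
      rcases eq_or_lt_of_le ht.1 with h0 | h0
      · rw [← h0, Real.zero_rpow (by linarith), mul_zero]
      · rw [← Real.rpow_add_one h0.ne']
        congr 1
        ring
    have h7 : (((a * t ^ (a - 1) : ℝ)) : ℂ) * h (s + (t : ℂ) * (z - s)) +
        ((t ^ a : ℝ) : ℂ) * (deriv h (s + (t : ℂ) * (z - s)) * (z - s)) =
        (a : ℂ) * F z t + (z - s) * F' z t := by
      rw [h6]
      simp only [hF, hF']
      push_cast
      ring
    rw [h7] at h5
    exact h5
  have hii : IntervalIntegrable (fun t => (a : ℂ) * F z t + (z - s) * F' z t)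
      MeasureTheory.volume 0 1 := by
    refine ContinuousOn.intervalIntegrable ?_
    rw [uIcc_of_le zero_le_one]
    exact (continuousOn_const.mul (hcF z hzc)).add (continuousOn_const.mul (hcF' z hzc))
  have hiF : IntervalIntegrable (F z) MeasureTheory.volume 0 1 := by
    refine ContinuousOn.intervalIntegrable ?_
    rw [uIcc_of_le zero_le_one]
    exact hcF z hzc
  have hiF' : IntervalIntegrable (F' z) MeasureTheory.volume 0 1 := by
    refine ContinuousOn.intervalIntegrable ?_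
    rw [uIcc_of_le zero_le_one]
    exact hcF' z hzc
  have h7 := intervalIntegral.integral_eq_sub_of_hasDerivAt hint hii
  rw [intervalIntegral.integral_add (hiF.const_mul _) (hiF'.const_mul _),
    intervalIntegral.integral_const_mul, intervalIntegral.integral_const_mul] at h7
  rw [h7, Real.zero_rpow (by linarith), Real.one_rpow]
  simp

private theorem normal_an (Q : QD) {s : ℂ} (hs : s ∈ Q.U) : AnalyticAt ℂ Q.q s :=
  Q.holo.analyticAt (Q.isOpen.mem_nhds hs)

private theorem normal_nz (Q : QD) {s : ℂ} (hs : s ∈ Q.U) : ¬ ∀ᶠ z in 𝓝 s, Q.q z = 0 := by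
  intro h
  obtain ⟨w, hw, hw0⟩ := Q.ne_zero
  have h1 : AnalyticOnNhd ℂ Q.q Q.U := fun z hz => normal_an Q hz
  exact hw0 (h1.eqOn_zero_of_preconnected_of_eventuallyEq_zero Q.convex.isPreconnected hs h hw)

theorem normal_form (Q : QD) {s : ℂ} (hs : s ∈ Q.U) : ∃ (n : ℕ) (ψ : ℂ → ℂ), Chart Q s n ψ := by
  obtain ⟨m, g, hg, hg0, hqg⟩ :=
    (normal_an Q hs).exists_eventuallyEq_pow_smul_nonzero_iff.mpr (normal_nz Q hs)
  obtain ⟨h, hh, hh0, hhg⟩ := normal_root hg hg0 (n := 2) (by norm_num)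
  set a : ℝ := ((m + 2 : ℕ) : ℝ) / 2 with hadef
  have ha : 1 ≤ a := by
    rw [hadef]
    push_cast
    have : (0 : ℝ) ≤ m := Nat.cast_nonneg m
    linarith
  have haC : (a : ℂ) = ((m + 2 : ℕ) : ℂ) / 2 := by
    rw [hadef]
    push_cast
    ring
  obtain ⟨k, hk, hkh⟩ := normal_ode hh ha
  have hk0 : k s ≠ 0 := by
    intro h1
    have h2 := hkh.self_of_nhds
    rw [h1, sub_self] at h2
    simp at h2
    exact hh0 h2.symm
  have hk2 : AnalyticAt ℂ (fun z => k z ^ 2) s := hk.pow 2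
  obtain ⟨κ, hκ, hκ0, hκk⟩ := normal_root hk2 (pow_ne_zero 2 hk0) (n := m + 2) (by omega)
  have hid : AnalyticAt ℂ (fun z : ℂ => z - s) s := analyticAt_id.sub analyticAt_const
  have hψ : AnalyticAt ℂ (fun z => (z - s) * κ z) s := hid.mul hκ
  have hder : HasDerivAt (fun z => (z - s) * κ z) (κ s) s := by
    have h1 : HasDerivAt (fun z : ℂ => z - s) 1 s := (hasDerivAt_id s).sub_const s
    have h2 := h1.mul hκ.differentiableAt.hasDerivAt
    have h3 : 1 * κ s + (s - s) * deriv κ s = κ s := by rw [sub_self]; ring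
    rw [h3] at h2
    exact h2
  refine ⟨m + 2, fun z => (z - s) * κ z, by omega, hψ, by simp, ?_, ?_⟩
  · rw [hder.deriv]
    exact hκ0
  · set ψ : ℂ → ℂ := fun z => (z - s) * κ z with hψdef
    have hrel : ∀ᶠ z in 𝓝 s, ψ z ^ (m + 2) = (z - s) ^ (m + 2) * k z ^ 2 := by
      filter_upwards [hκk] with z hz
      rw [hψdef]
      simp only
      rw [mul_pow, hz]
    have hder2 : ∀ᶠ z in 𝓝 s, ((m + 2 : ℕ) : ℂ) * ψ z ^ (m + 1) * deriv ψ z =
        2 * (z - s) ^ (m + 1) * k z * h z := by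
      filter_upwards [hrel.eventually_nhds, hψ.eventually_analyticAt, hk.eventually_analyticAt,
        hkh] with z h1 h2 h3 h4
      have h5 := h2.differentiableAt.hasDerivAt.pow (m + 2)
      have h6 : HasDerivAt (fun z : ℂ => z - s) 1 z := (hasDerivAt_id z).sub_const s
      have h7 := (h6.pow (m + 2)).mul (h3.differentiableAt.hasDerivAt.pow 2)
      have h8 := h5.unique (h7.congr_of_eventuallyEq h1)
      rw [show m + 2 - 1 = m + 1 from rfl] at h8
      rw [h8]
      rw [← h4, haC]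
      simp only [Pi.pow_apply]
      push_cast
      ring
    have hne : ∀ᶠ z in 𝓝[≠] s, ψ z ≠ 0 := by
      have h1 : ∀ᶠ z in 𝓝[≠] s, κ z ≠ 0 :=
        (hκ.continuousAt.eventually_ne hκ0).filter_mono nhdsWithin_le_nhds
      filter_upwards [h1, self_mem_nhdsWithin] with z hz hzs
      exact mul_ne_zero (sub_ne_zero.mpr hzs) hz
    have hpt : ∀ᶠ z in 𝓝[≠] s, Q.q z =
        (((m + 2 : ℕ) : ℂ) / 2) ^ 2 * ψ z ^ (m + 2 - 2) * deriv ψ z ^ 2 := by
      filter_upwards [hne, hrel.filter_mono nhdsWithin_le_nhds,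
        hder2.filter_mono nhdsWithin_le_nhds, hqg.filter_mono nhdsWithin_le_nhds,
        hhg.filter_mono nhdsWithin_le_nhds] with z h1 h2 h3 h4 h5
      rw [show m + 2 - 2 = m from rfl]
      have h6 : (((m + 2 : ℕ) : ℂ) * ψ z ^ (m + 1) * deriv ψ z) ^ 2 =
          (2 * (z - s) ^ (m + 1) * k z * h z) ^ 2 := by rw [h3]
      have h7 : (2 * (z - s) ^ (m + 1) * k z * h z) ^ 2 =
          4 * ((z - s) ^ (m + 2) * k z ^ 2) * ((z - s) ^ m * h z ^ 2) := by ring
      rw [h7, h5, ← h2] at h6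
      rw [smul_eq_mul] at h4
      rw [← h4] at h6
      have h8 : ψ z ^ (m + 2) ≠ 0 := pow_ne_zero _ h1
      apply mul_left_cancel₀ h8
      linear_combination (-1 / 4 : ℂ) * h6
    have hqc : ContinuousAt Q.q s := (normal_an Q hs).continuousAt
    have hrc : ContinuousAt (fun z => (((m + 2 : ℕ) : ℂ) / 2) ^ 2 * ψ z ^ (m + 2 - 2) *
        deriv ψ z ^ 2) s :=
      (continuousAt_const.mul (hψ.continuousAt.pow _)).mul (hψ.deriv.continuousAt.pow 2)
    exact (hqc.eventuallyEq_nhds_iff_eventuallyEq_nhdsNE hrc).1 hpt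

/-- The zeros of `q` are isolated. -/
theorem isolated (Q : QD) {s : ℂ} (hs : s ∈ Q.U) : ∀ᶠ z in 𝓝[≠] s, Q.q z ≠ 0 :=
  (normal_an Q hs).eventually_eq_zero_or_eventually_ne_zero.resolve_left (normal_nz Q hs)

theorem countable_zeros (Q : QD) : {z | z ∈ Q.U ∧ Q.q z = 0}.Countable := by
  set S : Set ℂ := {z | z ∈ Q.U ∧ Q.q z = 0} with hS
  have hd : DiscreteTopology S := by
    rw [discreteTopology_subtype_iff]
    intro z hz
    have h1 := isolated Q hz.1
    rw [← disjoint_iff, Filter.disjoint_principal_right]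
    filter_upwards [h1] with w hw hwS
    exact hw hwS.2
  have := hd
  exact Set.countable_coe_iff.mp countable_of_Lindelof_of_discrete

end Pool.Agent.ANO2.Geo2
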