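import Pool.Agent.ANO2.Geo2.AffA

/-!
# ANO phase 2, Geo2: affine homeomorphisms: inverse, composition, arcs

* `Aff.symm`: at a point `z` with `q z ≠ 0` the point `s = φ' z` satisfies `q s ≠ 0` by `Aff.zero`;
  take `AffAt` at `s` and invert: `D1 (φ' w) = str l⁻¹ (D2 w)` for `w` near `z = φ s`.
* `Aff.comp`: with `branch_unique`; `str l (± z + c) = ± str l z + str l c`,
  `str l (str k z) = str (l k) z`.
* `Aff.neg`: replace `D1, D2` by `i D1, i D2`; `i (str l z) = str l⁻¹ (i z)`.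
* `aff_of_isom`: at `z` with `q z ≠ 0` let `D2` be a branch of `∫ √q` at `g z` (`Box.D` of a flow
  box) and `D1 = D2 ∘ g`.
* `Aff.hor`: let `D1, D2` be as in `AffAt` at `σ t`; `(D1 ∘ σ)' t = e = ± 1` (its square is
  `q v² = 1`); the function `u ↦ D2 (φ (σ (u / l))) = str l (D1 (σ (u / l)))` has at `u = l t` the
  derivative
  `str l (e / l) = e`; `D2` has a differentiable inverse near `φ (σ t)` (`Aff.ne_zero`), so
  `u ↦ φ (σ (u / l))` is differentiable at `l t` with derivative `v' = e / D2' (φ (σ t))`,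
  `q v'² = 1`.
* `Aff.ver`: `Aff.hor` for `-q` and `l⁻¹`.
* `Aff.rp` (`l = 1`): `Aff.hor` and `Aff.ver` at the single times; continuity: composition.
-/

set_option autoImplicit false

open Set Filter Topology

namespace Pool.Agent.ANO2.Geo2

variable {Q : QD}

private theorem affb_str_add (l : ℝ) (z w : ℂ) : str l (z + w) = str l z + str l w := by
  apply Complex.ext <;> simp [str, mul_add]

private theorem affb_str_neg (l : ℝ) (z : ℂ) : str l (-z) = -str l z := by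
  apply Complex.ext <;> simp [str]

private theorem affb_str_sign (l : ℝ) {e : ℂ} (he : e = 1 ∨ e = -1) (z : ℂ) :
    str l (e * z) = e * str l z := by
  rcases he with rfl | rfl
  · rw [one_mul, one_mul]
  · rw [neg_one_mul, neg_one_mul, affb_str_neg]

private theorem affb_str_str (k l : ℝ) (z : ℂ) : str k (str l z) = str (k * l) z := by
  apply Complex.ext
  · simp [str, mul_assoc]
  · simp only [str, mul_inv]
    ring

private theorem affb_str_one (z : ℂ) : str 1 z = z := by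
  apply Complex.ext <;> simp [str]

private theorem affb_str_inv {l : ℝ} (hl : l ≠ 0) (z : ℂ) : str l⁻¹ (str l z) = z := by
  rw [affb_str_str, inv_mul_cancel₀ hl, affb_str_one]

private theorem affb_str_I (l : ℝ) (z : ℂ) : Complex.I * str l z = str l⁻¹ (Complex.I * z) := by
  apply Complex.ext <;> simp [str]

private theorem affb_sign_sq {e : ℂ} (he : e = 1 ∨ e = -1) : e ^ 2 = 1 := by
  rcases he with rfl | rfl <;> norm_num

/-- The real-linear map `str l` as a continuous linear map. -/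
private noncomputable def affbCLM (l : ℝ) : ℂ →L[ℝ] ℂ :=
  l • (Complex.ofRealCLM.comp Complex.reCLM) +
    l⁻¹ • ((ContinuousLinearMap.mul ℝ ℂ Complex.I).comp (Complex.ofRealCLM.comp Complex.imCLM))

private theorem affb_clm (l : ℝ) (z : ℂ) : affbCLM l z = str l z := by
  apply Complex.ext <;> simp [affbCLM, str]

/-- A branch of `∫ √q` near a regular point. -/
private theorem affb_branch (Q : QD) {z : ℂ} (hz : z ∈ Q.U) (h0 : Q.q z ≠ 0) :
    ∃ D : ℂ → ℂ, AnalyticAt ℂ D z ∧ ∀ᶠ w in 𝓝 z, deriv D w ^ 2 = Q.q w := by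
  obtain ⟨v, hv⟩ := IsAlgClosed.exists_pow_nat_eq (Q.q z)⁻¹ (n := 2) (by norm_num)
  have hv' : Q.q z * v ^ 2 = 1 := by rw [hv, mul_inv_cancel₀ h0]
  obtain ⟨ρ, hρ, B, ha, hb, hc, hd, hχ, -, -⟩ := box_exists Q hz hv' (W := univ) univ_mem
  have h0d : (0 : ℂ) ∈ B.dom := by
    rw [Box.dom, ha, hb, hc, hd, Complex.mem_reProdIm]
    simp [hρ]
  have hzB : z ∈ B.img := ⟨0, h0d, hχ⟩
  refine ⟨B.D, ?_, ?_⟩
  · exact B.D_holo.analyticAt (B.isOpen_img.mem_nhds hzB)
  · filter_upwards [B.isOpen_img.mem_nhds hzB] with w hw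
    exact B.deriv_D hw

theorem Aff.symm {φ φ' : ℂ → ℂ} {l : ℝ} (h : Aff Q φ φ' l) : Aff Q φ' φ l⁻¹ := by
  refine ⟨inv_pos.mpr h.pos, h.maps', h.maps, h.cont', h.cont, h.right, h.left, ?_⟩
  intro z hz h0
  have hs : φ' z ∈ Q.U := h.maps' hz
  have hs0 : Q.q (φ' z) ≠ 0 := by
    intro h1
    have h2 := h.zero hs h1
    rw [h.right z hz] at h2
    exact h0 h2
  obtain ⟨D1, D2, a1, a2, e1, e2, e3⟩ := h.aff _ hs hs0
  rw [h.right z hz] at a2 e2
  refine ⟨D2, D1, a2, a1, e2, e1, ?_⟩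
  have hc : Tendsto φ' (𝓝 z) (𝓝 (φ' z)) := (h.cont'.continuousAt (Q.isOpen.mem_nhds hz)).tendsto
  filter_upwards [hc.eventually e3, Q.isOpen.mem_nhds hz] with w hw hwU
  rw [h.right w hwU] at hw
  rw [hw, affb_str_inv h.pos.ne']

theorem Aff.comp {φ φ' χ χ' : ℂ → ℂ} {l k : ℝ} (h : Aff Q φ φ' l) (h' : Aff Q χ χ' k) :
    Aff Q (χ ∘ φ) (φ' ∘ χ') (k * l) := by
  refine ⟨mul_pos h'.pos h.pos, h'.maps.comp h.maps, h.maps'.comp h'.maps',
    h'.cont.comp h.cont h.maps, h.cont'.comp h'.cont' h'.maps', ?_, ?_, ?_⟩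
  · intro z hz
    simp only [Function.comp_apply]
    rw [h'.left _ (h.maps hz), h.left z hz]
  · intro z hz
    simp only [Function.comp_apply]
    rw [h.right _ (h'.maps' hz), h'.right z hz]
  · intro z hz h0
    obtain ⟨D1, D2, a1, a2, e1, e2, e3⟩ := h.aff z hz h0
    obtain ⟨E1, E2, b1, b2, f1, f2, f3⟩ := h'.aff (φ z) (h.maps hz) (h.ne_zero hz h0)
    obtain ⟨e, c, he, hec⟩ := branch_unique a2 b1 e2 f1 (h.ne_zero hz h0)
    refine ⟨fun w => e * D1 w + str l⁻¹ c, E2, (analyticAt_const.mul a1).add analyticAt_const,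
      b2, ?_, f2, ?_⟩
    · filter_upwards [a1.eventually_analyticAt, e1] with w hw hw1
      have h1 : HasDerivAt (fun w => e * D1 w + str l⁻¹ c) (e * deriv D1 w) w :=
        (hw.differentiableAt.hasDerivAt.const_mul e).add_const _
      rw [h1.deriv, mul_pow, affb_sign_sq he, one_mul, hw1]
    · have hc : Tendsto φ (𝓝 z) (𝓝 (φ z)) := (h.cont.continuousAt (Q.isOpen.mem_nhds hz)).tendsto
      filter_upwards [hc.eventually f3, hc.eventually hec, e3] with w hw1 hw2 hw3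
      simp only [Function.comp_apply]
      rw [hw1, hw2, hw3, affb_str_add, affb_str_add, affb_str_sign k he, affb_str_sign _ he,
        affb_str_str, affb_str_str, mul_assoc, mul_inv_cancel₀ h.pos.ne', mul_one]

theorem Aff.iterate {φ φ' : ℂ → ℂ} {l : ℝ} (h : Aff Q φ φ' l) (m : ℕ) :
    Aff Q φ^[m] φ'^[m] (l ^ m) := by
  induction m with
  | zero =>
    rw [pow_zero, Function.iterate_zero, Function.iterate_zero]
    refine ⟨one_pos, fun z hz => hz, fun z hz => hz, continuousOn_id, continuousOn_id,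
      fun z _ => rfl, fun z _ => rfl, ?_⟩
    intro z hz h0
    obtain ⟨D1, D2, a1, a2, e1, e2, e3⟩ := h.aff z hz h0
    refine ⟨D1, D1, a1, a1, e1, e1, Eventually.of_forall fun w => ?_⟩
    rw [affb_str_one]
    rfl
  | succ m ih =>
    have h1 := h.comp ih
    rw [← Function.iterate_succ, ← Function.iterate_succ', ← pow_succ] at h1
    exact h1

theorem Aff.neg {φ φ' : ℂ → ℂ} {l : ℝ} (h : Aff Q φ φ' l) : Aff Q.neg φ φ' l⁻¹ := by
  refine ⟨inv_pos.mpr h.pos, h.maps, h.maps', h.cont, h.cont', h.left, h.right, ?_⟩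
  intro z hz h0
  have h0' : Q.q z ≠ 0 := fun h1 => h0 (by
    change -Q.q z = 0
    rw [h1, neg_zero])
  obtain ⟨D1, D2, a1, a2, e1, e2, e3⟩ := h.aff z hz h0'
  refine ⟨fun w => Complex.I * D1 w, fun w => Complex.I * D2 w, analyticAt_const.mul a1,
    analyticAt_const.mul a2, ?_, ?_, ?_⟩
  · filter_upwards [a1.eventually_analyticAt, e1] with w hw hw1
    rw [(hw.differentiableAt.hasDerivAt.const_mul Complex.I).deriv, mul_pow, hw1, Complex.I_sq]
    change -1 * Q.q w = -Q.q w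
    ring
  · filter_upwards [a2.eventually_analyticAt, e2] with w hw hw1
    rw [(hw.differentiableAt.hasDerivAt.const_mul Complex.I).deriv, mul_pow, hw1, Complex.I_sq]
    change -1 * Q.q w = -Q.q w
    ring
  · filter_upwards [e3] with w hw
    rw [hw, affb_str_I]

/-- Holomorphic isometries. -/
theorem aff_of_isom {g g' : ℂ → ℂ} (h1 : MapsTo g Q.U Q.U) (h2 : MapsTo g' Q.U Q.U)
    (h3 : DifferentiableOn ℂ g Q.U) (h4 : ContinuousOn g' Q.U) (h5 : ∀ z ∈ Q.U, g' (g z) = z)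
    (h6 : ∀ z ∈ Q.U, g (g' z) = z) (h7 : ∀ z ∈ Q.U, Q.q (g z) * deriv g z ^ 2 = Q.q z) :
    Aff Q g g' 1 := by
  refine ⟨one_pos, h1, h2, h3.continuousOn, h4, h5, h6, ?_⟩
  intro z hz h0
  have hg0 : Q.q (g z) ≠ 0 := by
    intro h8
    have h9 := h7 z hz
    rw [h8, zero_mul] at h9
    exact h0 h9.symm
  obtain ⟨D, hD, hDe⟩ := affb_branch Q (h1 hz) hg0
  have hga : AnalyticAt ℂ g z := h3.analyticAt (Q.isOpen.mem_nhds hz)
  refine ⟨fun w => D (g w), D, hD.comp hga, hD, ?_, hDe, ?_⟩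
  · filter_upwards [hga.continuousAt.eventually hDe, Q.isOpen.mem_nhds hz,
      hga.continuousAt.eventually hD.eventually_analyticAt] with w hw hwU hwD
    have h8 : HasDerivAt g (deriv g w) w :=
      (h3.differentiableAt (Q.isOpen.mem_nhds hwU)).hasDerivAt
    have h9 : HasDerivAt (fun w => D (g w)) (deriv D (g w) * deriv g w) w :=
      hwD.differentiableAt.hasDerivAt.comp w h8
    rw [h9.deriv, mul_pow, hw, h7 w hwU]
  · exact Eventually.of_forall fun w => (affb_str_one _).symm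

theorem Aff.hor {φ φ' : ℂ → ℂ} {l : ℝ} (h : Aff Q φ φ' l) {σ : ℝ → ℂ} {t : ℝ}
    (hσ : Hor Q σ t) : Hor Q (fun u => φ (σ (u / l))) (l * t) := by
  have hl : l ≠ 0 := h.pos.ne'
  have hlt : l * t / l = t := by field_simp
  have h0 := hσ.q_ne
  obtain ⟨hz, v, hv, hqv⟩ := hσ
  obtain ⟨D1, D2, a1, a2, e1, e2, e3⟩ := h.aff _ hz h0
  have hqφ := h.ne_zero hz h0
  refine ⟨by simp only [hlt]; exact h.maps hz, ?_⟩
  have hD2 : deriv D2 (φ (σ t)) ^ 2 = Q.q (φ (σ t)) := e2.self_of_nhds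
  have hD20 : deriv D2 (φ (σ t)) ≠ 0 := by
    intro h1
    rw [h1] at hD2
    apply hqφ
    rw [← hD2]
    norm_num
  have he : (deriv D1 (σ t) * v) ^ 2 = 1 := by
    rw [mul_pow, e1.self_of_nhds, hqv]
  obtain ⟨e, hee, hev⟩ : ∃ e : ℝ, e ^ 2 = 1 ∧ deriv D1 (σ t) * v = e := by
    rcases sq_eq_one_iff.mp he with h1 | h1
    · exact ⟨1, by norm_num, by rw [h1]; norm_num⟩
    · exact ⟨-1, by norm_num, by rw [h1]; norm_num⟩
  have hE : HasDerivAt (fun u : ℝ => σ (u / l)) ((l⁻¹ : ℝ) • v) (l * t) := by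
    have h1 : HasDerivAt (fun u : ℝ => u / l) l⁻¹ (l * t) := by
      have h2 := (hasDerivAt_id (l * t)).div_const l
      simpa using h2
    have h3 : HasDerivAt σ v (l * t / l) := by rw [hlt]; exact hv
    exact h3.scomp (l * t) h1
  have hEc : Tendsto (fun u : ℝ => σ (u / l)) (𝓝 (l * t)) (𝓝 (σ t)) := by
    have h1 := hE.continuousAt.tendsto
    simp only [hlt] at h1
    exact h1
  have hDE : HasDerivAt (fun u : ℝ => D1 (σ (u / l))) ((l⁻¹ * e : ℝ) : ℂ) (l * t) := by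
    have h1 : HasDerivAt D1 (deriv D1 (σ t)) (σ (l * t / l)) := by
      rw [hlt]
      exact a1.differentiableAt.hasDerivAt
    have h2 := h1.comp (l * t) hE
    have h3 : deriv D1 (σ t) * ((l⁻¹ : ℝ) • v) = ((l⁻¹ * e : ℝ) : ℂ) := by
      rw [Complex.real_smul]
      push_cast
      rw [← hev]
      ring
    rw [h3] at h2
    exact h2
  have hSD : HasDerivAt (fun u : ℝ => str l (D1 (σ (u / l)))) (e : ℂ) (l * t) := by
    have h1 := (affbCLM l).hasFDerivAt.comp_hasDerivAt (l * t) hDE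
    have h2 : affbCLM l ((l⁻¹ * e : ℝ) : ℂ) = (e : ℂ) := by
      rw [affb_clm]
      apply Complex.ext
      · simp only [str, Complex.ofReal_re]
        field_simp
      · simp [str]
    rw [h2] at h1
    refine h1.congr_of_eventuallyEq (Eventually.of_forall fun u => ?_)
    simp only [Function.comp_apply]
    rw [affb_clm]
  have hφc : ContinuousAt φ (σ t) := h.cont.continuousAt (Q.isOpen.mem_nhds hz)
  have hpc : Tendsto (fun u : ℝ => φ (σ (u / l))) (𝓝 (l * t)) (𝓝 (φ (σ t))) :=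
    hφc.tendsto.comp hEc
  have hDp : HasDerivAt (fun u : ℝ => D2 (φ (σ (u / l)))) (e : ℂ) (l * t) :=
    hSD.congr_of_eventuallyEq (hEc.eventually e3)
  have hst : HasStrictDerivAt D2 (deriv D2 (φ (σ t))) (φ (σ t)) := a2.hasStrictDerivAt
  set G := hst.localInverse D2 (deriv D2 (φ (σ t))) (φ (σ t)) hD20 with hG
  have hGd : HasDerivAt G (deriv D2 (φ (σ t)))⁻¹ (D2 (φ (σ t))) :=
    (hst.to_localInverse hD20).hasDerivAt
  have hGl : ∀ᶠ x in 𝓝 (φ (σ t)), G (D2 x) = x := hst.eventually_left_inverse hD20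
  have hp : HasDerivAt (fun u : ℝ => φ (σ (u / l))) ((deriv D2 (φ (σ t)))⁻¹ * e) (l * t) := by
    have h1 : HasDerivAt G (deriv D2 (φ (σ t)))⁻¹ (D2 (φ (σ (l * t / l)))) := by
      rw [hlt]
      exact hGd
    have h2 := h1.comp (l * t) hDp
    refine h2.congr_of_eventuallyEq ?_
    filter_upwards [hpc.eventually hGl] with u hu
    exact hu.symm
  refine ⟨(deriv D2 (φ (σ t)))⁻¹ * e, hp, ?_⟩
  simp only [hlt]
  rw [← hD2, mul_pow, ← mul_assoc, ← mul_pow, mul_inv_cancel₀ hD20, one_pow, one_mul]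
  exact_mod_cast hee

theorem Aff.ver {φ φ' : ℂ → ℂ} {l : ℝ} (h : Aff Q φ φ' l) {σ : ℝ → ℂ} {t : ℝ}
    (hσ : Ver Q σ t) : Ver Q (fun u => φ (σ (l * u))) (t / l) := by
  have h1 := h.neg.hor hσ
  have h2 : (fun u : ℝ => φ (σ (u / l⁻¹))) = fun u => φ (σ (l * u)) := by
    funext u
    rw [div_inv_eq_mul, mul_comm]
  have h3 : l⁻¹ * t = t / l := by rw [div_eq_mul_inv, mul_comm]
  rw [h2, h3] at h1
  exact h1

theorem Aff.rp {φ φ' : ℂ → ℂ} (h : Aff Q φ φ' 1) {l : ℝ} {c : ℝ → ℂ} {A B : Set ℝ}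
    (hc : RP Q l c A B) : RP Q l (fun t => φ (c t)) A B := by
  refine ⟨hc.nonneg, hc.fin, h.cont.comp hc.cont hc.mem, fun t ht => h.maps (hc.mem t ht),
    ?_, ?_, hc.loc⟩
  · intro t ht hA hB
    have h1 := h.hor (hc.hor t ht hA hB)
    simpa using h1
  · intro t ht hA hB
    have h1 := h.ver (hc.ver t ht hA hB)
    simpa using h1

end Pool.Agent.ANO2.Geo2
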