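import Pool.Agent.ANO2.Geo2.Normal

/-!
# ANO phase 2, Geo2: short rectilinear paths

* `leave_ball`: zeros are isolated, so there are `0 < r1 < r2 < r` with
  `closedBall z r ⊆ U` (shrink `r`) and `|q| ≥ k > 0` on the closed annulus
  `r1 ≤ |w - z| ≤ r2`; the speed of `c` in the annulus is `|q|^(-1/2) ≤ k^(-1/2)` (outside the finite
  set `A`), so a path which starts in the ball of radius `η = r1` and leaves the ball of radius
  `r2` needs at least the time `(r2 - r1) √k`.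
-/

set_option autoImplicit false

open Set Filter Topology

namespace Pool.Agent.ANO2.Geo2

variable {Q : QD}

/-- A short rectilinear path which starts near `z` stays near `z`. -/
theorem leave_ball (Q : QD) {z : ℂ} (hz : z ∈ Q.U) {r : ℝ} (hr : 0 < r) :
    ∃ m > 0, ∃ η > 0, ∀ (l : ℝ) (c : ℝ → ℂ) (A B : Set ℝ), RP Q l c A B → ‖c 0 - z‖ < η →
      l < m → ∀ t ∈ Icc 0 l, ‖c t - z‖ < r := by
  have hU : ∀ᶠ w in 𝓝 z, w ∈ Q.U := Q.isOpen.mem_nhds hz
  have hi := isolated Q hz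
  rw [eventually_nhdsWithin_iff] at hi
  obtain ⟨R, hR, hRb⟩ := Metric.eventually_nhds_iff.mp (hU.and hi)
  obtain ⟨r2, hr2, hr2R, hr2r⟩ : ∃ r2 : ℝ, 0 < r2 ∧ r2 < R ∧ r2 < r := by
    obtain ⟨x, h1, h2⟩ := exists_between (lt_min hR hr)
    exact ⟨x, h1, h2.trans_le (min_le_left _ _), h2.trans_le (min_le_right _ _)⟩
  have hK : IsCompact {w : ℂ | r2 / 2 ≤ ‖w - z‖ ∧ ‖w - z‖ ≤ r2} := by
    refine (isCompact_closedBall z r2).of_isClosed_subset ?_ ?_
    · have hcw : Continuous fun w : ℂ => ‖w - z‖ := (continuous_id.sub continuous_const).norm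
      exact (isClosed_le continuous_const hcw).inter (isClosed_le hcw continuous_const)
    · intro w hw
      rw [mem_closedBall_iff_norm]
      exact hw.2
  have hin : ∀ w ∈ {w : ℂ | r2 / 2 ≤ ‖w - z‖ ∧ ‖w - z‖ ≤ r2}, w ∈ Q.U ∧ Q.q w ≠ 0 := by
    intro w hw
    have h1 : dist w z < R := by
      rw [dist_eq_norm]
      exact hw.2.trans_lt hr2R
    obtain ⟨h2, h3⟩ := hRb h1
    refine ⟨h2, h3 ?_⟩
    intro h4
    have h5 : w = z := h4
    have h6 := hw.1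
    rw [h5, sub_self, norm_zero] at h6
    linarith
  have hq : ContinuousOn (fun w => (Q.q w)⁻¹) {w : ℂ | r2 / 2 ≤ ‖w - z‖ ∧ ‖w - z‖ ≤ r2} :=
    (Q.holo.continuousOn.mono fun w hw => (hin w hw).1).inv₀ fun w hw => (hin w hw).2
  obtain ⟨C, hC⟩ := hK.exists_bound_of_continuousOn hq
  have hM : 0 < |C| + 1 := by positivity
  refine ⟨r2 / 2 / (|C| + 1), by positivity, r2 / 2, by positivity, ?_⟩
  intro l c A B h h0 hl t ht
  by_contra hcon
  push Not at hcon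
  have hcn : ContinuousOn (fun s => ‖c s - z‖) (Icc 0 l) := (h.cont.sub continuousOn_const).norm
  have hct : ContinuousOn (fun s => ‖c s - z‖) (Icc 0 t) :=
    hcn.mono (Icc_subset_Icc_right ht.2)
  have hS : IsCompact (Icc 0 t ∩ (fun s => ‖c s - z‖) ⁻¹' Ici r2) :=
    isCompact_Icc.of_isClosed_subset
      (hct.preimage_isClosed_of_isClosed isClosed_Icc isClosed_Ici) inter_subset_left
  obtain ⟨b, hb⟩ := hS.exists_isLeast ⟨t, ⟨ht.1, le_rfl⟩, le_trans hr2r.le hcon⟩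
  have hb1 : b ∈ Icc 0 t := hb.1.1
  have hb2 : r2 ≤ ‖c b - z‖ := hb.1.2
  have hb3 : ∀ s ∈ Icc 0 t, s < b → ‖c s - z‖ < r2 := by
    intro s hs hsb
    by_contra h1
    push Not at h1
    exact absurd (hb.2 ⟨hs, h1⟩) (not_le.mpr hsb)
  have hcb : ContinuousOn (fun s => ‖c s - z‖) (Icc 0 b) :=
    hct.mono (Icc_subset_Icc_right hb1.2)
  have hT : IsCompact (Icc 0 b ∩ (fun s => ‖c s - z‖) ⁻¹' Iic (r2 / 2)) :=
    isCompact_Icc.of_isClosed_subset
      (hcb.preimage_isClosed_of_isClosed isClosed_Icc isClosed_Iic) inter_subset_left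
  obtain ⟨a, ha⟩ := hT.exists_isGreatest ⟨0, ⟨le_rfl, hb1.1⟩, h0.le⟩
  have ha1 : a ∈ Icc 0 b := ha.1.1
  have ha2 : ‖c a - z‖ ≤ r2 / 2 := ha.1.2
  have ha3 : ∀ s ∈ Icc 0 b, a < s → r2 / 2 < ‖c s - z‖ := by
    intro s hs hsb
    by_contra h1
    push Not at h1
    exact absurd (ha.2 ⟨hs, h1⟩) (not_le.mpr hsb)
  have hd : ∀ s ∈ Ioo a b \ A, HasDerivAt c (deriv c s) s ∧ ‖deriv c s‖ ≤ |C| + 1 := by
    intro s hs
    have hs0 : 0 < s := ha1.1.trans_lt hs.1.1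
    have hsl : s < l := hs.1.2.trans_le (hb1.2.trans ht.2)
    have hsK : c s ∈ {w : ℂ | r2 / 2 ≤ ‖w - z‖ ∧ ‖w - z‖ ≤ r2} :=
      ⟨(ha3 s ⟨hs0.le, hs.1.2.le⟩ hs.1.1).le,
        (hb3 s ⟨hs0.le, hs.1.2.le.trans hb1.2⟩ hs.1.2).le⟩
    have h1 : ∃ v : ℂ, HasDerivAt c v s ∧ ‖Q.q (c s)‖ * ‖v‖ ^ 2 = 1 := by
      by_cases hsB : s ∈ B
      · obtain ⟨_, v, hv, hv2⟩ := h.hor s ⟨hs0, hsl⟩ hs.2 hsB
        refine ⟨v, hv, ?_⟩
        rw [← norm_pow, ← norm_mul, hv2, norm_one]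
      · obtain ⟨_, v, hv, hv2⟩ := h.ver s ⟨hs0, hsl⟩ hs.2 hsB
        refine ⟨v, hv, ?_⟩
        have hv3 : -Q.q (c s) * v ^ 2 = 1 := hv2
        rw [← norm_neg (Q.q (c s)), ← norm_pow, ← norm_mul, hv3, norm_one]
    obtain ⟨v, hv, hv2⟩ := h1
    rw [hv.deriv]
    refine ⟨hv, ?_⟩
    have h2 : ‖(Q.q (c s))⁻¹‖ ≤ C := hC _ hsK
    have h3 : ‖v‖ ^ 2 = ‖(Q.q (c s))⁻¹‖ := by
      rw [norm_inv]
      exact eq_inv_of_mul_eq_one_right hv2
    have h4 : ‖v‖ ^ 2 ≤ (|C| + 1) ^ 2 := by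
      rw [h3]
      have h5 := le_abs_self C
      have h6 := abs_nonneg C
      nlinarith
    exact (sq_le_sq₀ (norm_nonneg v) hM.le).mp h4
  have hAm : MeasurableSet (Ioo a b \ A) := measurableSet_Ioo.diff h.fin.measurableSet
  have hbd : ∀ s, ‖(Ioo a b \ A).indicator (deriv c) s‖ ≤ |C| + 1 := by
    intro s
    by_cases hs : s ∈ Ioo a b \ A
    · rw [indicator_of_mem hs]
      exact (hd s hs).2
    · rw [indicator_of_notMem hs, norm_zero]
      exact hM.le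
  have hint : IntervalIntegrable ((Ioo a b \ A).indicator (deriv c)) MeasureTheory.volume
      a b := by
    refine (intervalIntegrable_const (c := |C| + 1)).mono_fun'
      ((measurable_deriv c).indicator hAm).aestronglyMeasurable ?_
    exact Eventually.of_forall hbd
  have hcab : ContinuousOn c (Icc a b) :=
    h.cont.mono (Icc_subset_Icc ha1.1 (hb1.2.trans ht.2))
  have hI := MeasureTheory.integral_eq_of_hasDerivAt_off_countable_of_le c
    ((Ioo a b \ A).indicator (deriv c)) ha1.2 h.fin.countable hcab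
    (fun s hs => by rw [indicator_of_mem hs]; exact (hd s hs).1) hint
  have hN := intervalIntegral.norm_integral_le_of_norm_le_const (a := a) (b := b)
    (f := (Ioo a b \ A).indicator (deriv c)) (C := |C| + 1) (fun s _ => hbd s)
  rw [hI] at hN
  have h7 : r2 - r2 / 2 ≤ ‖c b - c a‖ := by
    have h8 := norm_sub_norm_le (c b - z) (c a - z)
    rw [sub_sub_sub_cancel_right] at h8
    linarith
  have h9 : |b - a| ≤ l := by
    rw [abs_of_nonneg (sub_nonneg.mpr ha1.2)]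
    linarith [ha1.1, hb1.2, ht.2]
  have h10 : (|C| + 1) * l < r2 / 2 := by
    rw [lt_div_iff₀ hM] at hl
    linarith
  have h11 : (|C| + 1) * |b - a| ≤ (|C| + 1) * l := mul_le_mul_of_nonneg_left h9 hM.le
  linarith

end Pool.Agent.ANO2.Geo2
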