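import Pool.Agent.ANO2.Defs
import Pool.Agent.ANO2.Geo2.Leave
import Pool.Agent.ANO2.Geo2.AffB

/-!
# ANO phase 2, Geo2: the quadratic differential of a closed surface is complete

* `mob_aff`: `aff_of_isom` with `g = lift (γ • ·)`; `dγ/dz = (c z + d)⁻²`, `h.equivar`.
* `pa_aff`: continuity of `lift S.f`: composition of continuous maps on the half plane; `aff`:
  `h.affine` (the neighbourhood filter of `(z : ℂ)` is the image of that of `z : ℍ`).
* `lift_aff`: `T z = γ • S.f^[n] z`: `Aff.iterate`, `Aff.comp`, `Aff.congr`.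
* `leave_unif`: for `a0 : ℍ` let `ρ > 0` be such that the Euclidean ball of radius `ρ` about `a0`
  is contained in the hyperbolic ball of radius `r / 2`, and `m, η` as in `leave_ball` with `ρ`;
  then the statement holds for the paths which start in the Euclidean ball of radius `η` about
  `a0`.  The compact set `K` of `S.cocompact` is covered by finitely many such balls, so there is
  an `m > 0` for all paths which start in `K`.  In general choose `γ ∈ S.Γ` with `γ • a ∈ K`, `a`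
  the starting point; the path `lift (γ • ·) ∘ c` is rectilinear of the same length (`Aff.rp`,
  `mob_aff`), and `dist_smul`.
* `leave_mul`: induction on `n`: cut the path at the time `t - m / 2`.
* `proper_qd`: `leave_mul` with `r = 1`: the points are in the closed hyperbolic ball of radius
  `n` about the starting point, which is compact; its image in `ℂ` is compact and contained in
  `U`.
-/

set_option autoImplicit false

open Set Filter Topology MeasureTheory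
open scoped UpperHalfPlane MatrixGroups

namespace Pool.Agent.ANO2.Geo2

open Pool.Agent.ANO

variable {S : ClosedSurface} {q : ℂ → ℂ}

/-- The quadratic differential `q dz²` on the upper half plane. -/
noncomputable def qd (h : IsQuadDiff S q) : QD where
  U := {z | 0 < z.im}
  isOpen := isOpen_lt continuous_const Complex.continuous_im
  convex := convex_halfSpace_im_gt 0
  q := q
  holo := h.holo
  ne_zero := by
    obtain ⟨z, hz⟩ := h.nonzero
    exact ⟨z, z.im_pos, hz⟩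

/-- A map of the upper half plane as a map of `ℂ`. -/
noncomputable def lift (φ : ℍ → ℍ) (z : ℂ) : ℂ := (φ (UpperHalfPlane.ofComplex z) : ℂ)

theorem lift_coe (φ : ℍ → ℍ) (z : ℍ) : lift φ z = φ z := by
  unfold lift
  rw [UpperHalfPlane.ofComplex_apply]

theorem mem_qd (h : IsQuadDiff S q) (z : ℍ) : (z : ℂ) ∈ (qd h).U := z.im_pos

theorem Aff.congr {Q : QD} {φ φ' χ χ' : ℂ → ℂ} {l : ℝ} (h : Aff Q φ φ' l)
    (h1 : EqOn χ φ Q.U) (h2 : EqOn χ' φ' Q.U) : Aff Q χ χ' l := by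
  have haff : ∀ z ∈ Q.U, Q.q z ≠ 0 → AffAt Q χ l z := by
    intro z hz h0
    obtain ⟨D1, D2, a1, a2, e1, e2, e3⟩ := h.aff z hz h0
    refine ⟨D1, D2, a1, by rw [h1 hz]; exact a2, e1, by rw [h1 hz]; exact e2, ?_⟩
    filter_upwards [e3, Q.isOpen.mem_nhds hz] with w hw hwU
    rw [h1 hwU]
    exact hw
  exact
    { pos := h.pos
      maps := fun z hz => by rw [h1 hz]; exact h.maps hz
      maps' := fun z hz => by rw [h2 hz]; exact h.maps' hz
      cont := h.cont.congr h1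
      cont' := h.cont'.congr h2
      left := fun z hz => by rw [h1 hz, h2 (h.maps hz), h.left z hz]
      right := fun z hz => by rw [h2 hz, h1 (h.maps' hz), h.right z hz]
      aff := haff }

/-- The derivative of a Moebius map. -/
private theorem mob_deriv_SurfA (γ : SL(2, ℝ)) (z : ℍ) :
    HasDerivAt (lift fun w => γ • w)
      (1 / (((γ 1 0 : ℝ) : ℂ) * z + ((γ 1 1 : ℝ) : ℂ)) ^ 2) (z : ℂ) := by
  have hopen : IsOpen {w : ℂ | 0 < w.im} := isOpen_lt continuous_const Complex.continuous_im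
  have hden : ((γ 1 0 : ℝ) : ℂ) * z + ((γ 1 1 : ℝ) : ℂ) ≠ 0 :=
    UpperHalfPlane.denom_ne_zero (γ : GL (Fin 2) ℝ) z
  have hdet : γ 0 0 * γ 1 1 - γ 0 1 * γ 1 0 = 1 := by
    have := γ.det_coe
    rwa [Matrix.det_fin_two] at this
  have hdetC :
      ((γ 0 0 : ℝ) : ℂ) * ((γ 1 1 : ℝ) : ℂ) - ((γ 0 1 : ℝ) : ℂ) * ((γ 1 0 : ℝ) : ℂ) = 1 := by
    exact_mod_cast hdet
  have hcoe : ∀ w : ℍ, ((γ • w : ℍ) : ℂ) =
      (((γ 0 0 : ℝ) : ℂ) * w + ((γ 0 1 : ℝ) : ℂ)) /
        (((γ 1 0 : ℝ) : ℂ) * w + ((γ 1 1 : ℝ) : ℂ)) := by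
    intro w
    have := UpperHalfPlane.coe_specialLinearGroup_apply γ w
    simpa using this
  have h1 : HasDerivAt (fun w : ℂ => ((γ 0 0 : ℝ) : ℂ) * w + ((γ 0 1 : ℝ) : ℂ))
      ((γ 0 0 : ℝ) : ℂ) (z : ℂ) := by
    simpa using ((hasDerivAt_id (z : ℂ)).const_mul ((γ 0 0 : ℝ) : ℂ)).add_const ((γ 0 1 : ℝ) : ℂ)
  have h2 : HasDerivAt (fun w : ℂ => ((γ 1 0 : ℝ) : ℂ) * w + ((γ 1 1 : ℝ) : ℂ))
      ((γ 1 0 : ℝ) : ℂ) (z : ℂ) := by
    simpa using ((hasDerivAt_id (z : ℂ)).const_mul ((γ 1 0 : ℝ) : ℂ)).add_const ((γ 1 1 : ℝ) : ℂ)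
  have h3 := h1.div h2 hden
  have h4 : (((γ 0 0 : ℝ) : ℂ) * (((γ 1 0 : ℝ) : ℂ) * z + ((γ 1 1 : ℝ) : ℂ)) -
      (((γ 0 0 : ℝ) : ℂ) * z + ((γ 0 1 : ℝ) : ℂ)) * ((γ 1 0 : ℝ) : ℂ)) = 1 := by
    linear_combination hdetC
  rw [h4] at h3
  refine h3.congr_of_eventuallyEq ?_
  filter_upwards [hopen.mem_nhds z.im_pos] with w hw
  have h5 : lift (fun w => γ • w) ((⟨w, hw⟩ : ℍ) : ℂ) = ((γ • (⟨w, hw⟩ : ℍ) : ℍ) : ℂ) :=
    lift_coe _ _
  rw [hcoe] at h5
  exact h5

private theorem lift_maps_SurfA (φ : ℍ → ℍ) (z : ℂ) : 0 < (lift φ z).im :=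
  UpperHalfPlane.im_pos _

private theorem lift_lift_SurfA (φ ψ : ℍ → ℍ) (z : ℂ) :
    lift φ (lift ψ z) = lift (fun w => φ (ψ w)) z := by
  unfold lift
  rw [UpperHalfPlane.ofComplex_apply]

private theorem lift_id_SurfA {φ : ℍ → ℍ} (hφ : ∀ w, φ w = w) {z : ℂ} (hz : 0 < z.im) :
    lift φ z = z := by
  have h1 : lift φ ((⟨z, hz⟩ : ℍ) : ℂ) = (φ ⟨z, hz⟩ : ℂ) := lift_coe _ _
  rw [hφ] at h1
  exact h1

private theorem lift_cont_SurfA {φ : ℍ → ℍ} (hφ : Continuous φ) :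
    ContinuousOn (lift φ) {z : ℂ | 0 < z.im} := by
  rw [continuousOn_iff_continuous_domRestrict]
  have h1 : Continuous fun w : {z : ℂ // 0 < z.im} => ((φ ⟨w.1, w.2⟩ : ℍ) : ℂ) :=
    UpperHalfPlane.continuous_coe.comp
      (hφ.comp (Continuous.upperHalfPlaneMk continuous_subtype_val fun w => w.2))
  refine h1.congr fun w => ?_
  exact (lift_coe φ ⟨w.1, w.2⟩).symm

theorem mob_aff (h : IsQuadDiff S q) {γ : SL(2, ℝ)} (hγ : γ ∈ S.Γ) :
    Aff (qd h) (lift fun z => γ • z) (lift fun z => γ⁻¹ • z) 1 := by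
  refine aff_of_isom (Q := qd h) (fun z _ => lift_maps_SurfA _ z)
    (fun z _ => lift_maps_SurfA _ z) ?_ ?_ ?_ ?_ ?_
  · intro z hz
    exact (mob_deriv_SurfA γ ⟨z, hz⟩).differentiableAt.differentiableWithinAt
  · intro z hz
    exact (mob_deriv_SurfA γ⁻¹ ⟨z, hz⟩).continuousAt.continuousWithinAt
  · intro z hz
    rw [lift_lift_SurfA]
    exact lift_id_SurfA (fun w => inv_smul_smul γ w) hz
  · intro z hz
    rw [lift_lift_SurfA]
    exact lift_id_SurfA (fun w => smul_inv_smul γ w) hz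
  · intro z hz
    have h1 := h.equivar γ hγ ⟨z, hz⟩
    have h2 : lift (fun w => γ • w) z = ((γ • (⟨z, hz⟩ : ℍ) : ℍ) : ℂ) :=
      lift_coe _ (⟨z, hz⟩ : ℍ)
    have h3 : deriv (lift fun w => γ • w) z =
        1 / (((γ 1 0 : ℝ) : ℂ) * z + ((γ 1 1 : ℝ) : ℂ)) ^ 2 :=
      (mob_deriv_SurfA γ ⟨z, hz⟩).deriv
    have hden : ((γ 1 0 : ℝ) : ℂ) * z + ((γ 1 1 : ℝ) : ℂ) ≠ 0 :=
      UpperHalfPlane.denom_ne_zero (γ : GL (Fin 2) ℝ) (⟨z, hz⟩ : ℍ)
    change q (lift (fun w => γ • w) z) * deriv (lift fun w => γ • w) z ^ 2 = q z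
    rw [h2, h1, h3]
    change (((γ 1 0 : ℝ) : ℂ) * z + ((γ 1 1 : ℝ) : ℂ)) ^ 4 * q z *
      (1 / (((γ 1 0 : ℝ) : ℂ) * z + ((γ 1 1 : ℝ) : ℂ)) ^ 2) ^ 2 = q z
    field_simp

theorem pa_aff {S : SurfaceMap} {l : ℝ} (h : IsPA S q l) :
    Aff (qd h.quad) (lift S.f) (lift S.f.symm) l := by
  refine
    { pos := zero_lt_one.trans h.one_lt
      maps := fun z _ => lift_maps_SurfA _ z
      maps' := fun z _ => lift_maps_SurfA _ z
      cont := lift_cont_SurfA S.f.continuous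
      cont' := lift_cont_SurfA S.f.symm.continuous
      left := fun z hz => by
        rw [lift_lift_SurfA]
        exact lift_id_SurfA (fun w => S.f.symm_apply_apply w) hz
      right := fun z hz => by
        rw [lift_lift_SurfA]
        exact lift_id_SurfA (fun w => S.f.apply_symm_apply w) hz
      aff := ?_ }
  intro z hz h0
  obtain ⟨D1, D2, a1, a2, e1, e2, e3⟩ := h.affine ⟨z, hz⟩ h0
  have hf : lift S.f z = (S.f ⟨z, hz⟩ : ℂ) := lift_coe _ (⟨z, hz⟩ : ℍ)
  refine ⟨D1, D2, a1, by rw [hf]; exact a2, e1, by rw [hf]; exact e2, ?_⟩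
  have h1 : ∀ᶠ w in 𝓝 (((⟨z, hz⟩ : ℍ)) : ℂ), D2 (lift S.f w) = str l (D1 w) := by
    rw [← UpperHalfPlane.isOpenEmbedding_coe.map_nhds_eq, eventually_map]
    filter_upwards [e3] with w hw
    rw [lift_coe, hw]
    rfl
  exact h1

/-- The lifts of powers of `f`. -/
theorem lift_aff {S : SurfaceMap} {l : ℝ} (h : IsPA S q l) {n : ℕ} {γ : SL(2, ℝ)} (hγ : γ ∈ S.Γ) :
    Aff (qd h.quad) (lift fun z => γ • S.f^[n] z) (lift fun z => S.f.symm^[n] (γ⁻¹ • z))
      (l ^ n) := by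
  have hit : ∀ (φ : ℍ → ℍ) (n : ℕ) (z : ℂ), 0 < z.im → (lift φ)^[n] z = lift φ^[n] z := by
    intro φ n
    induction n with
    | zero => exact fun z hz => (lift_id_SurfA (fun w => rfl) hz).symm
    | succ n ih =>
      intro z hz
      rw [Function.iterate_succ_apply, ih _ (lift_maps_SurfA φ z), lift_lift_SurfA]
      rfl
  have h1 := ((pa_aff h).iterate n).comp (mob_aff h.quad hγ)
  rw [one_mul] at h1
  refine h1.congr (fun z hz => ?_) (fun z hz => ?_)
  · change _ = lift (fun z => γ • z) ((lift S.f)^[n] z)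
    rw [hit _ _ _ hz, lift_lift_SurfA]
  · change _ = (lift S.f.symm)^[n] (lift (fun z => γ⁻¹ • z) z)
    rw [hit _ _ _ (lift_maps_SurfA _ z), lift_lift_SurfA]

/-- A piece of a rectilinear path, shifted to the starting time `0`. -/
theorem RP.restrict {Q : QD} {l : ℝ} {c : ℝ → ℂ} {A B : Set ℝ} (h : RP Q l c A B) {s t : ℝ}
    (hs : 0 ≤ s) (hst : s ≤ t) (ht : t ≤ l) :
    RP Q (t - s) (fun u => c (u + s)) ((fun u => u + s) ⁻¹' A) ((fun u => u + s) ⁻¹' B) := by
  have hIcc : ∀ u ∈ Icc 0 (t - s), u + s ∈ Icc 0 l := fun u hu =>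
    ⟨by linarith [hu.1], by linarith [hu.2]⟩
  have hIoo : ∀ u ∈ Ioo 0 (t - s), u + s ∈ Ioo 0 l := fun u hu =>
    ⟨by linarith [hu.1], by linarith [hu.2]⟩
  have hcont : Continuous fun u : ℝ => u + s := continuous_id.add continuous_const
  refine
    { nonneg := sub_nonneg.2 hst
      fin := h.fin.preimage ((add_left_injective s).injOn)
      cont := h.cont.comp hcont.continuousOn hIcc
      mem := fun u hu => h.mem _ (hIcc u hu)
      hor := fun u hu hA hB => (h.hor _ (hIoo u hu) hA hB).shift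
      ver := fun u hu hA hB => Hor.shift (Q := Q.neg) (h.ver _ (hIoo u hu) hA hB)
      loc := ?_ }
  intro u hu hA
  rcases h.loc _ (hIoo u hu) hA with h1 | h1
  · left
    exact hcont.continuousAt.eventually h1
  · right
    exact hcont.continuousAt.eventually h1

/-- Short paths are small, uniformly. -/
theorem leave_unif (h : IsQuadDiff S q) {r : ℝ} (hr : 0 < r) : ∃ m > 0, ∀ (l : ℝ) (c : ℝ → ℂ)
    (A B : Set ℝ), RP (qd h) l c A B → l < m → ∀ t ∈ Icc 0 l, ∀ a b : ℍ, (a : ℂ) = c 0 →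
      (b : ℂ) = c t → dist a b < r := by
  obtain ⟨K, hK, hcov⟩ := S.cocompact
  have key : ∃ m > 0, ∀ (l : ℝ) (c : ℝ → ℂ) (A B : Set ℝ), RP (qd h) l c A B → l < m →
      ∀ t ∈ Icc 0 l, ∀ a b : ℍ, a ∈ K → (a : ℂ) = c 0 → (b : ℂ) = c t → dist a b < r := by
    refine hK.induction_on (p := fun s => ∃ m > 0, ∀ (l : ℝ) (c : ℝ → ℂ) (A B : Set ℝ),
      RP (qd h) l c A B → l < m → ∀ t ∈ Icc 0 l, ∀ a b : ℍ, a ∈ s → (a : ℂ) = c 0 →
        (b : ℂ) = c t → dist a b < r) ?_ ?_ ?_ ?_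
    · exact ⟨1, one_pos, fun l c A B _ _ t _ a b ha => absurd ha (notMem_empty a)⟩
    · rintro s t hst ⟨m, hm, hp⟩
      exact ⟨m, hm, fun l c A B h1 h2 u hu a b ha => hp l c A B h1 h2 u hu a b (hst ha)⟩
    · rintro s t ⟨m, hm, hp⟩ ⟨m', hm', hp'⟩
      refine ⟨min m m', lt_min hm hm', fun l c A B h1 h2 u hu a b ha => ?_⟩
      rcases ha with ha | ha
      · exact hp l c A B h1 (h2.trans_le (min_le_left _ _)) u hu a b ha
      · exact hp' l c A B h1 (h2.trans_le (min_le_right _ _)) u hu a b ha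
    · intro a0 _
      have hev : ∀ᶠ w in 𝓝 (a0 : ℂ), ∃ w' : ℍ, (w' : ℂ) = w ∧ dist w' a0 < r / 2 := by
        rw [← UpperHalfPlane.isOpenEmbedding_coe.map_nhds_eq, eventually_map]
        filter_upwards [Metric.ball_mem_nhds a0 (half_pos hr)] with w hw
        exact ⟨w, rfl, hw⟩
      obtain ⟨ρ, hρ, hb⟩ := Metric.eventually_nhds_iff_ball.1 hev
      obtain ⟨m, hm, η, hη, hp⟩ := leave_ball (qd h) (mem_qd h a0) hρ
      refine ⟨{w : ℍ | ‖(w : ℂ) - a0‖ < η}, ?_, m, hm, ?_⟩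
      · refine mem_nhdsWithin_of_mem_nhds ?_
        have hcn : Continuous fun w : ℍ => ‖(w : ℂ) - a0‖ :=
          (UpperHalfPlane.continuous_coe.sub continuous_const).norm
        refine (isOpen_lt hcn continuous_const).mem_nhds ?_
        change ‖(a0 : ℂ) - a0‖ < η
        rw [sub_self, norm_zero]
        exact hη
      · intro l c A B hc hl t ht a b ha ha0 hb0
        have hin : ‖c 0 - a0‖ < η := by
          rw [← ha0]
          exact ha
        have h0 := hp l c A B hc hin hl 0 ⟨le_rfl, hc.nonneg⟩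
        have h1 := hp l c A B hc hin hl t ht
        obtain ⟨a', ha1, ha2⟩ := hb (c 0) (by rw [Metric.mem_ball, dist_eq_norm]; exact h0)
        obtain ⟨b', hb1, hb2⟩ := hb (c t) (by rw [Metric.mem_ball, dist_eq_norm]; exact h1)
        have h2 : a' = a := UpperHalfPlane.coe_injective (ha1.trans ha0.symm)
        have h3 : b' = b := UpperHalfPlane.coe_injective (hb1.trans hb0.symm)
        rw [h2] at ha2
        rw [h3] at hb2
        have h4 := dist_triangle_right a b a0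
        linarith
  obtain ⟨m, hm, hp⟩ := key
  refine ⟨m, hm, fun l c A B hc hl t ht a b ha hb => ?_⟩
  obtain ⟨γ, hγ, hγK⟩ := hcov a
  have h1 := (mob_aff h hγ).rp hc
  have h2 := hp l _ A B h1 hl t ht (γ • a) (γ • b) hγK
    (by rw [← ha]; exact (lift_coe _ a).symm) (by rw [← hb]; exact (lift_coe _ b).symm)
  rw [dist_smul] at h2
  exact h2

theorem leave_mul (h : IsQuadDiff S q) {r : ℝ} (hr : 0 < r) : ∃ m > 0, ∀ (n : ℕ) (l : ℝ)
    (c : ℝ → ℂ) (A B : Set ℝ), RP (qd h) l c A B → l < n * m → ∀ t ∈ Icc 0 l, ∀ a b : ℍ,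
      (a : ℂ) = c 0 → (b : ℂ) = c t → dist a b ≤ n * r := by
  obtain ⟨m, hm, hp⟩ := leave_unif h hr
  have hm2 : m / 2 < m := half_lt_self hm
  refine ⟨m / 2, half_pos hm, fun n l c A B hc hl t ht => ?_⟩
  have key : ∀ (n : ℕ) (t : ℝ), t ∈ Icc 0 l → t ≤ n * (m / 2) → ∀ a b : ℍ, (a : ℂ) = c 0 →
      (b : ℂ) = c t → dist a b ≤ n * r := by
    intro n
    induction n with
    | zero =>
      intro t ht h1 a b ha hb
      have h2 : t = 0 := by
        rw [Nat.cast_zero, zero_mul] at h1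
        exact le_antisymm h1 ht.1
      rw [h2] at hb
      have h3 : a = b := UpperHalfPlane.coe_injective (ha.trans hb.symm)
      rw [h3, dist_self, Nat.cast_zero, zero_mul]
    | succ n ih =>
      intro t ht h1 a b ha hb
      rw [Nat.cast_add, Nat.cast_one] at h1 ⊢
      rcases le_total t (m / 2) with h2 | h2
      · have h3 := hc.restrict le_rfl ht.1 ht.2
        have h4 := hp (t - 0) _ _ _ h3 (by linarith) t ⟨ht.1, by linarith⟩ a b
          (by rw [zero_add]; exact ha) (by rw [add_zero]; exact hb)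
        have h5 : 0 ≤ (n : ℝ) * r := mul_nonneg n.cast_nonneg hr.le
        linarith
      · have hs : t - m / 2 ∈ Icc 0 l := ⟨by linarith, by linarith [ht.2]⟩
        have hU := hc.mem _ hs
        have h3 := ih (t - m / 2) hs (by linarith) a ⟨c (t - m / 2), hU⟩ ha rfl
        have h4 := hc.restrict hs.1 (by linarith : t - m / 2 ≤ t) ht.2
        have h5 := hp _ _ _ _ h4 (by linarith) (m / 2) ⟨by linarith, by linarith⟩
          ⟨c (t - m / 2), hU⟩ b (by rw [zero_add]) (by rw [add_sub_cancel]; exact hb)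
        have h6 := dist_triangle a ⟨c (t - m / 2), hU⟩ b
        linarith
  exact key n t ht (by linarith [ht.2])

theorem proper_qd (h : IsQuadDiff S q) : Proper (qd h) := by
  intro z hz R
  obtain ⟨m, hm, hp⟩ := leave_mul h one_pos
  obtain ⟨n, hn⟩ := exists_nat_gt (R / m)
  rw [div_lt_iff₀ hm] at hn
  refine ⟨(fun w : ℍ => (w : ℂ)) '' Metric.closedBall (⟨z, hz⟩ : ℍ) (n * 1), ?_, ?_, ?_⟩
  · rintro _ ⟨w, -, rfl⟩
    exact w.im_pos
  · exact (isCompact_closedBall _ _).image UpperHalfPlane.continuous_coe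
  · intro l c A B hc h0 hl t ht
    have hU := hc.mem t ht
    refine ⟨⟨c t, hU⟩, ?_, rfl⟩
    rw [Metric.mem_closedBall, dist_comm]
    exact hp n l c A B hc (hl.trans_lt hn) t ht ⟨z, hz⟩ ⟨c t, hU⟩ h0.symm rfl

end Pool.Agent.ANO2.Geo2
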