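import Pool.Agent.ANO2.Geo2.Normal

/-!
# ANO phase 2, Geo2: horizontal arcs near a point

* `psi_arc`: `f t = ψ (σ t)^n` satisfies `f ≠ 0`, `f' = n ψ^(n-1) ψ' v`, `f'² = 4 f` (by the
  normal form and `q v² = 1`).  Near each time `t1` let `g` be a differentiable square root of `f`;
  `g' = f' / (2 g)`, `g'² = 1`; by Darboux `g' = e = ± 1` is constant, `g t = c + e t`,
  `f t = (t + e c)²` near `t1`.  So `f' / 2 - t` is locally constant, hence constant.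
* `short`: near a zero, `|ψ|^n < 1`, so `|x + t| < 1` for all `t ∈ [0, T]`, `T ≤ 2`; near a point
  which is not a zero use a flow box and `box_arc`.
* `end_points`: near a zero `s` with chart `(n, ψ)`, let `C_s` be the set of the `z` in a
  neighbourhood on which `ψ` is injective with `ψ z ^ n = (1/k)²` for some `k ≥ 1`; it is
  countable.  An arc which converges to `s` satisfies `ψ (σ t)^n = (t + c)²` near `T`, the limit
  is `0`, so `c = -T` and `σ (T - 1/k) ∈ C_s` for large `k`.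
-/

set_option autoImplicit false

open Set Filter Topology

namespace Pool.Agent.ANO2.Geo2

variable {Q : QD}

/-- A function with derivative `1` or `-1` at each point is affine. -/
private theorem line_PsiArc {h : ℝ → ℂ} {a b : ℝ}
    (hg : ∀ t ∈ Ioo a b, ∃ w : ℝ, (w = 1 ∨ w = -1) ∧ HasDerivAt h (w : ℂ) t) :
    ∃ (c : ℂ) (e : ℝ), (e = 1 ∨ e = -1) ∧ ∀ t ∈ Ioo a b, h t = c + e * t := by
  choose! w hw hd using hg
  have hre : ∀ t ∈ Ioo a b, HasDerivAt (fun u => (h u).re) (w t) t := by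
    intro t ht
    have h2 := Complex.reCLM.hasFDerivAt.comp_hasDerivAt t (hd t ht)
    rw [Complex.reCLM_apply, Complex.ofReal_re] at h2
    exact h2
  obtain ⟨e, he, hwe⟩ : ∃ e : ℝ, (e = 1 ∨ e = -1) ∧ ∀ t ∈ Ioo a b, w t = e := by
    have h1 := hasDerivWithinAt_forall_lt_or_forall_gt_of_forall_ne (m := (0 : ℝ))
      (convex_Ioo a b) (fun t ht => (hre t ht).hasDerivWithinAt (s := Ioo a b)) (by
        intro t ht h0
        rcases hw t ht with h | h <;> rw [h] at h0 <;> norm_num at h0)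
    rcases h1 with h1 | h1
    · refine ⟨-1, Or.inr rfl, fun t ht => ?_⟩
      rcases hw t ht with h | h
      · have := h1 t ht
        rw [h] at this
        norm_num at this
      · exact h
    · refine ⟨1, Or.inl rfl, fun t ht => ?_⟩
      rcases hw t ht with h | h
      · exact h
      · have := h1 t ht
        rw [h] at this
        norm_num at this
  have hz : ∀ t ∈ Ioo a b, HasDerivAt (fun u : ℝ => h u - e * u) 0 t := by
    intro t ht
    have h1 : HasDerivAt (fun u : ℝ => (e : ℂ) * u) (e : ℂ) t := by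
      have h2 : HasDerivAt (fun u : ℝ => (u : ℂ)) 1 t := by
        simpa using (hasDerivAt_id t).ofReal_comp
      have h3 := h2.const_mul (e : ℂ)
      rw [mul_one] at h3
      exact h3
    have h4 := (hd t ht).sub h1
    rw [hwe t ht, sub_self] at h4
    exact h4
  rcases (Ioo a b).eq_empty_or_nonempty with hem | ⟨t1, ht1⟩
  · refine ⟨0, 1, Or.inl rfl, fun t ht => ?_⟩
    rw [hem] at ht
    exact ht.elim
  refine ⟨h t1 - e * t1, e, he, fun t ht => ?_⟩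
  have hconst : h t - e * t = h t1 - e * t1 :=
    isOpen_Ioo.is_const_of_deriv_eq_zero isPreconnected_Ioo
      (fun u hu => (hz u hu).differentiableAt.differentiableWithinAt)
      (fun u hu => (hz u hu).deriv) ht ht1
  rw [← hconst]
  ring

/-- Near each time the function is the square of `t + c`. -/
private theorem sq_local_PsiArc {f f' : ℝ → ℂ} {a b : ℝ}
    (hd : ∀ t ∈ Ioo a b, HasDerivAt f (f' t) t) (h0 : ∀ t ∈ Ioo a b, f t ≠ 0)
    (h4 : ∀ t ∈ Ioo a b, f' t ^ 2 = 4 * f t) {t1 : ℝ} (ht1 : t1 ∈ Ioo a b) :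
    ∃ c : ℂ, ∀ᶠ t : ℝ in 𝓝 t1, f t = (t + c) ^ 2 := by
  obtain ⟨r, hr⟩ := IsAlgClosed.exists_pow_nat_eq (f t1) (n := 2) (by norm_num)
  have hf1 := h0 t1 ht1
  have hev : ∀ᶠ t in 𝓝 t1, f t / f t1 ∈ Complex.slitPlane ∧ t ∈ Ioo a b := by
    have hc : ContinuousAt (fun t => f t / f t1) t1 := (hd t1 ht1).continuousAt.div_const _
    have h1 : Complex.slitPlane ∈ 𝓝 (f t1 / f t1) := by
      rw [div_self hf1]
      exact Complex.isOpen_slitPlane.mem_nhds Complex.one_mem_slitPlane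
    exact (hc.eventually_mem h1).and (isOpen_Ioo.eventually_mem ht1)
  obtain ⟨ε, hε, hball⟩ := Metric.eventually_nhds_iff_ball.1 hev
  rw [Real.ball_eq_Ioo] at hball
  have hsq : ∀ t ∈ Ioo (t1 - ε) (t1 + ε),
      (r * Complex.exp (Complex.log (f t / f t1) / 2)) ^ 2 = f t := by
    intro t ht
    have hft := h0 t (hball t ht).2
    have h1 : Complex.exp (Complex.log (f t / f t1) / 2) ^ 2 = f t / f t1 := by
      rw [← Complex.exp_nat_mul]
      have h2 : ((2 : ℕ) : ℂ) * (Complex.log (f t / f t1) / 2) = Complex.log (f t / f t1) := by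
        push_cast
        ring
      rw [h2, Complex.exp_log (div_ne_zero hft hf1)]
    rw [mul_pow, hr, h1]
    field_simp
  have hder : ∀ t ∈ Ioo (t1 - ε) (t1 + ε), ∃ w : ℝ, (w = 1 ∨ w = -1) ∧
      HasDerivAt (fun u => r * Complex.exp (Complex.log (f u / f t1) / 2)) (w : ℂ) t := by
    intro t ht
    have hft := h0 t (hball t ht).2
    have h1 : HasDerivAt (fun u => f u / f t1) (f' t / f t1) t :=
      (hd t (hball t ht).2).div_const _
    have h2 := ((h1.clog_real (hball t ht).1).div_const 2).cexp.const_mul r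
    have h3 : (r * (Complex.exp (Complex.log (f t / f t1) / 2) *
        (f' t / f t1 / (f t / f t1) / 2))) ^ 2 = 1 := by
      have h5 := hsq t ht
      have h6 := h4 t (hball t ht).2
      have h7 : f' t / f t1 / (f t / f t1) / 2 = f' t / (2 * f t) := by
        field_simp
      rw [h7, ← mul_assoc, mul_pow, h5, div_pow, h6]
      field_simp
      norm_num
    rcases sq_eq_one_iff.1 h3 with h5 | h5
    · refine ⟨1, Or.inl rfl, ?_⟩
      rw [h5] at h2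
      simpa using h2
    · refine ⟨-1, Or.inr rfl, ?_⟩
      rw [h5] at h2
      simpa using h2
  obtain ⟨c, e, he, hl⟩ := line_PsiArc hder
  refine ⟨e * c, ?_⟩
  filter_upwards [Ioo_mem_nhds (show t1 - ε < t1 by linarith) (show t1 < t1 + ε by linarith)]
    with t ht
  rw [← hsq t ht, hl t ht]
  rcases he with rfl | rfl
  · push_cast
    ring
  · push_cast
    ring

private theorem sq_global_PsiArc {f f' : ℝ → ℂ} {a b : ℝ}
    (hd : ∀ t ∈ Ioo a b, HasDerivAt f (f' t) t) (h0 : ∀ t ∈ Ioo a b, f t ≠ 0)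
    (h4 : ∀ t ∈ Ioo a b, f' t ^ 2 = 4 * f t) :
    ∃ c : ℂ, ∀ t ∈ Ioo a b, f t = (t + c) ^ 2 := by
  have key : ∀ t1 ∈ Ioo a b, ∃ c : ℂ, ∀ᶠ t : ℝ in 𝓝 t1,
      f' t / 2 - t = c ∧ f t = (t + c) ^ 2 := by
    intro t1 ht1
    obtain ⟨c, hc⟩ := sq_local_PsiArc hd h0 h4 ht1
    refine ⟨c, ?_⟩
    filter_upwards [hc.eventually_nhds, isOpen_Ioo.eventually_mem ht1] with t ht htm
    have h1 : HasDerivAt (fun u : ℝ => ((u : ℂ) + c) ^ 2) (2 * (t + c)) t := by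
      have h2 : HasDerivAt (fun u : ℝ => (u : ℂ)) 1 t := by
        simpa using (hasDerivAt_id t).ofReal_comp
      have h3 : HasDerivAt (fun u : ℝ => ((u : ℂ) + c) ^ 2)
          (((2 : ℕ) : ℂ) * ((t : ℂ) + c) ^ (2 - 1) * 1) t := (h2.add_const c).pow 2
      simpa using h3
    have h2 : HasDerivAt f (2 * (t + c)) t := h1.congr_of_eventuallyEq ht
    have h3 := (hd t htm).unique h2
    refine ⟨?_, ht.self_of_nhds⟩
    rw [h3]
    ring
  rcases (Ioo a b).eq_empty_or_nonempty with hem | ⟨t2, ht2⟩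
  · exact ⟨0, fun t ht => by rw [hem] at ht; exact ht.elim⟩
  refine ⟨f' t2 / 2 - t2, fun t ht => ?_⟩
  have hG : ∀ u ∈ Ioo a b, HasDerivAt (fun u : ℝ => f' u / 2 - u) 0 u := by
    intro u hu
    obtain ⟨c, hc⟩ := key u hu
    exact (hasDerivAt_const u c).congr_of_eventuallyEq (hc.mono fun t ht => ht.1)
  have hconst : f' t / 2 - t = f' t2 / 2 - t2 :=
    isOpen_Ioo.is_const_of_deriv_eq_zero isPreconnected_Ioo
      (fun u hu => (hG u hu).differentiableAt.differentiableWithinAt)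
      (fun u hu => (hG u hu).deriv) ht ht2
  obtain ⟨c, hc⟩ := key t ht
  have h5 := hc.self_of_nhds
  rw [← hconst, h5.1]
  exact h5.2

/-- A horizontal arc in a chart, over an open interval. -/
private theorem psi_open_PsiArc {s : ℂ} {n : ℕ} {ψ : ℂ → ℂ} (hψ : Chart Q s n ψ) :
    ∃ W ∈ 𝓝 s, (∀ z ∈ W, ContinuousAt ψ z) ∧ ∀ (σ : ℝ → ℂ) (a b : ℝ),
      (∀ t ∈ Ioo a b, Hor Q σ t ∧ σ t ∈ W ∧ σ t ≠ s) →
      ∃ c : ℂ, ∀ t ∈ Ioo a b, ψ (σ t) ^ n = (t + c) ^ 2 := by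
  have h1 : ∀ᶠ z in 𝓝 s, AnalyticAt ℂ ψ z := hψ.analytic.eventually_analyticAt
  have h2 : ∀ᶠ z in 𝓝 s, z ≠ s → ψ z ≠ 0 := by
    have h3 := hψ.analytic.differentiableAt.hasDerivAt.eventually_ne (c := 0) hψ.deriv_ne
    exact eventually_nhdsWithin_iff.1 h3
  refine ⟨{z | AnalyticAt ℂ ψ z ∧ (z ≠ s → ψ z ≠ 0) ∧
    Q.q z = ((n : ℂ) / 2) ^ 2 * ψ z ^ (n - 2) * deriv ψ z ^ 2},
    h1.and (h2.and hψ.eq), fun z hz => hz.1.continuousAt, ?_⟩
  intro σ a b hσ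
  have hn := hψ.two_le
  have hv : ∀ t ∈ Ioo a b, ∃ v : ℂ, HasDerivAt σ v t ∧ Q.q (σ t) * v ^ 2 = 1 :=
    fun t ht => (hσ t ht).1.2
  choose! v hvd hvq using hv
  refine sq_global_PsiArc (f := fun t => ψ (σ t) ^ n)
    (f' := fun t => n * ψ (σ t) ^ (n - 1) * (deriv ψ (σ t) * v t)) ?_ ?_ ?_
  · intro t ht
    have h3 : HasDerivAt ψ (deriv ψ (σ t)) (σ t) :=
      (hσ t ht).2.1.1.differentiableAt.hasDerivAt
    have h4 : HasDerivAt (fun u => ψ (σ u)) (deriv ψ (σ t) * v t) t :=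
      HasDerivAt.comp (h₂ := ψ) t h3 (hvd t ht)
    exact h4.pow n
  · intro t ht
    exact pow_ne_zero n ((hσ t ht).2.1.2.1 (hσ t ht).2.2)
  · intro t ht
    have h3 := hvq t ht
    rw [(hσ t ht).2.1.2.2] at h3
    obtain ⟨m, rfl⟩ := Nat.exists_eq_add_of_le hn
    have e1 : 2 + m - 1 = m + 1 := by omega
    have e2 : 2 + m - 2 = m := by omega
    rw [e2] at h3
    simp only [e1]
    have e3 : (((2 + m : ℕ) : ℂ) * ψ (σ t) ^ (m + 1) * (deriv ψ (σ t) * v t)) ^ 2 =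
        4 * ψ (σ t) ^ (2 + m) * ((((2 + m : ℕ) : ℂ) / 2) ^ 2 * ψ (σ t) ^ m *
          deriv ψ (σ t) ^ 2 * v t ^ 2) := by
      ring
    rw [e3, h3, mul_one]

/-- A horizontal arc in a chart. -/
theorem psi_arc {s : ℂ} {n : ℕ} {ψ : ℂ → ℂ} (hψ : Chart Q s n ψ) :
    ∃ W ∈ 𝓝 s, ∀ (σ : ℝ → ℂ) (T : ℝ), 0 ≤ T → (∀ t ∈ Icc 0 T, Hor Q σ t ∧ σ t ∈ W ∧ σ t ≠ s) →
      ∃ x y : ℝ, ∀ t ∈ Icc 0 T, ψ (σ t) ^ n = (⟨x + t, y⟩ : ℂ) ^ 2 := by
  obtain ⟨W, hW, hWc, h⟩ := psi_open_PsiArc hψ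
  refine ⟨W, hW, fun σ T hT hσ => ?_⟩
  rcases hT.eq_or_lt with rfl | hT'
  · obtain ⟨r, hr⟩ := IsAlgClosed.exists_pow_nat_eq (ψ (σ 0) ^ n) (n := 2) (by norm_num)
    refine ⟨r.re, r.im, fun t ht => ?_⟩
    have ht0 : t = 0 := le_antisymm ht.2 ht.1
    rw [ht0, ← hr, add_zero]
  · obtain ⟨c, hc⟩ := h σ 0 T fun t ht => hσ t ⟨ht.1.le, ht.2.le⟩
    refine ⟨c.re, c.im, fun t ht => ?_⟩
    have h1 : EqOn (fun t : ℝ => ψ (σ t) ^ n) (fun t : ℝ => ((t : ℂ) + c) ^ 2) (Icc 0 T) := by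
      refine EqOn.of_subset_closure (s := Ioo 0 T) (fun t ht => hc t ht) ?_ ?_
        Ioo_subset_Icc_self ?_
      · intro t ht
        have h2 : ContinuousAt (fun u => ψ (σ u)) t :=
          ContinuousAt.comp (g := ψ) (hWc _ (hσ t ht).2.1) (hσ t ht).1.continuousAt
        exact (h2.pow n).continuousWithinAt
      · fun_prop
      · rw [closure_Ioo hT'.ne]
    have h2 : (⟨c.re + t, c.im⟩ : ℂ) = (t : ℂ) + c := by
      apply Complex.ext <;> simp [add_comm]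
    rw [h2]
    exact h1 ht

/-- Horizontal arcs in a small neighbourhood of a point have bounded length. -/
theorem short (Q : QD) {s : ℂ} (hs : s ∈ Q.U) : ∃ W ∈ 𝓝 s, ∃ M : ℝ, ∀ (σ : ℝ → ℂ) (T : ℝ), 0 ≤ T →
    (∀ t ∈ Icc 0 T, Hor Q σ t ∧ σ t ∈ W) → T ≤ M := by
  by_cases hq : Q.q s = 0
  · obtain ⟨n, ψ, hψ⟩ := normal_form Q hs
    obtain ⟨W, hW, h⟩ := psi_arc hψ
    have h1 : ∀ᶠ z in 𝓝 s, ‖ψ z ^ n‖ < 1 := by
      have h2 : ContinuousAt (fun z => ‖ψ z ^ n‖) s := (hψ.analytic.continuousAt.pow n).norm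
      refine h2.eventually_lt_const ?_
      have hn : n ≠ 0 := by have := hψ.two_le; omega
      change ‖ψ s ^ n‖ < 1
      rw [hψ.zero, zero_pow hn, norm_zero]
      exact one_pos
    refine ⟨W ∩ {z | ‖ψ z ^ n‖ < 1}, inter_mem hW h1, 2, fun σ T hT hσ => ?_⟩
    obtain ⟨x, y, hxy⟩ := h σ T hT fun t ht => ⟨(hσ t ht).1, (hσ t ht).2.1, fun he =>
      (hσ t ht).1.q_ne (by rw [he]; exact hq)⟩
    have h3 : ∀ t ∈ Icc 0 T, |x + t| < 1 := by
      intro t ht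
      have h4 : ‖ψ (σ t) ^ n‖ < 1 := (hσ t ht).2.2
      rw [hxy t ht, norm_pow] at h4
      have h5 : ‖(⟨x + t, y⟩ : ℂ)‖ < 1 := by
        by_contra hcon
        push Not at hcon
        have := one_le_pow₀ hcon (n := 2)
        linarith
      exact lt_of_le_of_lt (Complex.abs_re_le_norm (⟨x + t, y⟩ : ℂ)) h5
    have h4 := abs_lt.1 (h3 0 ⟨le_rfl, hT⟩)
    have h5 := abs_lt.1 (h3 T ⟨hT, le_rfl⟩)
    linarith [h4.1, h5.2]
  · obtain ⟨r, hr⟩ := IsAlgClosed.exists_pow_nat_eq (Q.q s)⁻¹ (n := 2) (by norm_num)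
    have hv : Q.q s * r ^ 2 = 1 := by rw [hr, mul_inv_cancel₀ hq]
    obtain ⟨ρ, hρ, B, ha, hb, hc, hd, hχ, -, -⟩ := box_exists Q hs hv (W := univ) univ_mem
    have h0dom : (0 : ℂ) ∈ B.dom := by
      unfold Box.dom
      rw [Complex.mem_reProdIm, ha, hb, hc, hd]
      simp [hρ]
    have himg : B.img ∈ 𝓝 s := by
      refine B.isOpen_img.mem_nhds ?_
      rw [← hχ]
      exact mem_image_of_mem _ h0dom
    refine ⟨B.img, himg, 2 * ρ, fun σ T hT hσ => ?_⟩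
    by_contra hcon
    push Not at hcon
    obtain ⟨x, y, e, he, hl⟩ := box_arc B (a := 0) (b := T) (by linarith)
      (fun t ht => (hσ t ⟨ht.1.le, ht.2.le⟩).1) (fun t ht => (hσ t ⟨ht.1.le, ht.2.le⟩).2)
    have h1 : ∀ t ∈ Ioo 0 T, -ρ < x + e * t ∧ x + e * t < ρ := by
      intro t ht
      have h2 := (hl t ht).1
      unfold Box.dom at h2
      rw [Complex.mem_reProdIm, ha, hb] at h2
      exact h2.1
    have h2 := h1 ((T - 2 * ρ) / 4) ⟨by linarith, by linarith⟩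
    have h3 := h1 (T - (T - 2 * ρ) / 4) ⟨by linarith, by linarith⟩
    rcases he with rfl | rfl
    · linarith [h2.1, h3.2]
    · linarith [h2.2, h3.1]

/-- The points near `s` at which `ψ ^ n` is the square of `1 / k`. -/
private theorem count_PsiArc {n : ℕ} (hn : 0 < n) {ψ : ℂ → ℂ} {V : Set ℂ} (hV : InjOn ψ V) :
    {z | z ∈ V ∧ ∃ k : ℕ, ψ z ^ n = (1 / (k : ℂ)) ^ 2}.Countable := by
  refine countable_of_injective_of_countable_image (f := ψ) (hV.mono fun z hz => hz.1) ?_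
  have h1 : (⋃ k : ℕ, {w : ℂ | w ^ n = (1 / (k : ℂ)) ^ 2}).Countable := by
    refine countable_iUnion fun k => Set.Finite.countable ?_
    refine (Polynomial.nthRoots n ((1 / (k : ℂ)) ^ 2)).toFinset.finite_toSet.subset ?_
    intro w hw
    rw [Finset.mem_coe, Multiset.mem_toFinset, Polynomial.mem_nthRoots hn]
    exact hw
  refine h1.mono ?_
  rintro w ⟨z, ⟨-, k, hk⟩, rfl⟩
  exact mem_iUnion.2 ⟨k, hk⟩

/-- The end points of the arcs which converge to a given zero. -/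
private theorem end_PsiArc (Q : QD) {s : ℂ} (hs : s ∈ Q.U) (hq : Q.q s = 0) :
    ∃ C : Set ℂ, C.Countable ∧ ∀ (σ : ℝ → ℂ) (T : ℝ), 0 < T →
    (∀ t ∈ Ioo 0 T, Hor Q σ t) → Tendsto σ (𝓝[<] T) (𝓝 s) → ∃ t ∈ Ioo 0 T, σ t ∈ C := by
  obtain ⟨n, ψ, hψ⟩ := normal_form Q hs
  obtain ⟨W, hW, -, h⟩ := psi_open_PsiArc hψ
  have hn : 0 < n := by have := hψ.two_le; omega
  obtain ⟨V, hV, hinj⟩ : ∃ V ∈ 𝓝 s, InjOn ψ V := by
    have h1 : HasStrictDerivAt ψ (deriv ψ s) s := hψ.analytic.hasStrictDerivAt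
    have h2 := h1.hasStrictFDerivAt_equiv hψ.deriv_ne
    exact ⟨_, (h2.toOpenPartialHomeomorph ψ).open_source.mem_nhds
      h2.mem_toOpenPartialHomeomorph_source, (h2.toOpenPartialHomeomorph ψ).injOn⟩
  refine ⟨_, count_PsiArc hn hinj, fun σ T hT hσ hlim => ?_⟩
  have h1 : ∀ᶠ t in 𝓝[<] T, σ t ∈ W ∩ V := hlim.eventually_mem (inter_mem hW hV)
  obtain ⟨t', ht', h2⟩ : ∃ t' ∈ Ico 0 T, ∀ t ∈ Ioo t' T, σ t ∈ W ∩ V := by
    obtain ⟨l, hl, hl2⟩ := (mem_nhdsLT_iff_exists_Ioo_subset' hT).1 h1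
    refine ⟨max l 0, ⟨le_max_right _ _, max_lt hl hT⟩, fun t ht => hl2 ⟨?_, ht.2⟩⟩
    exact lt_of_le_of_lt (le_max_left _ _) ht.1
  obtain ⟨c, hc⟩ := h σ t' T fun t ht => by
    have h3 := hσ t ⟨lt_of_le_of_lt ht'.1 ht.1, ht.2⟩
    exact ⟨h3, (h2 t ht).1, fun he => h3.q_ne (by rw [he]; exact hq)⟩
  have hcT : c = -(T : ℂ) := by
    have h3 : Tendsto (fun t : ℝ => ψ (σ t) ^ n) (𝓝[<] T) (𝓝 (ψ s ^ n)) :=
      ((hψ.analytic.continuousAt.tendsto.comp hlim).pow n)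
    have h4 : Tendsto (fun t : ℝ => ((t : ℂ) + c) ^ 2) (𝓝[<] T) (𝓝 (((T : ℂ) + c) ^ 2)) := by
      have h5 : Continuous fun t : ℝ => ((t : ℂ) + c) ^ 2 := by fun_prop
      exact (h5.tendsto T).mono_left nhdsWithin_le_nhds
    have h5 : (fun t : ℝ => ψ (σ t) ^ n) =ᶠ[𝓝[<] T] fun t : ℝ => ((t : ℂ) + c) ^ 2 := by
      filter_upwards [Ioo_mem_nhdsLT ht'.2] with t ht
      exact hc t ht
    have h6 := tendsto_nhds_unique (h3.congr' h5) h4
    rw [hψ.zero, zero_pow hn.ne'] at h6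
    have h7 : (T : ℂ) + c = 0 := pow_eq_zero_iff (two_ne_zero) |>.1 h6.symm
    linear_combination h7
  obtain ⟨k, hk⟩ := exists_nat_one_div_lt (show 0 < T - t' by linarith [ht'.2])
  have hk0 : (0 : ℝ) < 1 / ((k : ℝ) + 1) := by positivity
  have htk : T - 1 / ((k : ℝ) + 1) ∈ Ioo t' T := ⟨by linarith, by linarith⟩
  refine ⟨T - 1 / ((k : ℝ) + 1), ⟨lt_of_le_of_lt ht'.1 htk.1, htk.2⟩, (h2 _ htk).2, k + 1, ?_⟩
  rw [hc _ htk, hcT]
  push_cast
  ring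

/-- A countable set which meets every horizontal arc that ends at a zero. -/
theorem end_points (Q : QD) : ∃ C : Set ℂ, C.Countable ∧ ∀ (σ : ℝ → ℂ) (T : ℝ) (s : ℂ), 0 < T →
    (∀ t ∈ Ioo 0 T, Hor Q σ t) → s ∈ Q.U → Q.q s = 0 → Tendsto σ (𝓝[<] T) (𝓝 s) →
      ∃ t ∈ Ioo 0 T, σ t ∈ C := by
  have h : ∀ s : ℂ, ∃ C : Set ℂ, C.Countable ∧ (s ∈ Q.U → Q.q s = 0 →
      ∀ (σ : ℝ → ℂ) (T : ℝ), 0 < T → (∀ t ∈ Ioo 0 T, Hor Q σ t) →
        Tendsto σ (𝓝[<] T) (𝓝 s) → ∃ t ∈ Ioo 0 T, σ t ∈ C) := by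
    intro s
    by_cases hs : s ∈ Q.U ∧ Q.q s = 0
    · obtain ⟨C, hC, h1⟩ := end_PsiArc Q hs.1 hs.2
      exact ⟨C, hC, fun _ _ => h1⟩
    · exact ⟨∅, countable_empty, fun h1 h2 => absurd ⟨h1, h2⟩ hs⟩
  choose C hC hC2 using h
  refine ⟨⋃ s ∈ {z | z ∈ Q.U ∧ Q.q z = 0}, C s,
    (countable_zeros Q).biUnion fun s _ => hC s, ?_⟩
  intro σ T s hT hσ hs hq hlim
  obtain ⟨t, ht, h1⟩ := hC2 s hs hq σ T hT hσ hlim
  exact ⟨t, ht, mem_biUnion (show s ∈ {z | z ∈ Q.U ∧ Q.q z = 0} from ⟨hs, hq⟩) h1⟩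

end Pool.Agent.ANO2.Geo2
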