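import Pool.Agent.ANO2.Geo2.Chain
import Pool.Agent.ANO2.Geo2.PsiArc

/-!
# ANO phase 2, Geo2: `du` near a point and the sectors

`rx n ψ z = |Re ψ^(n/2)|`, `ry n ψ z = |Im ψ^(n/2)|` for a chart `(n, ψ)` at `s`.

* `Chart.neg`: with `ζ^n = -1` one has `-q = (n/2)² (ζ ψ)^(n-2) (ζ ψ)'²`; `(ζ ψ)^n = - ψ^n`, so
  `rx n (ζ ψ) = ry n ψ`.
* `rx_joins`: there is a ball `W` about `s` such that for every path inside `W` `rx` changes at most by
  the horizontal length.  Let `W` be an open ball about `s`, contained in `U`, on which `ψ` is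
  continuous and which is contained in the neighbourhoods of `psi_arc` for `q` and for `-q` (with
  `Chart.neg`).  Let `Q'` be the restriction of `Q` to `W` (`QD.restrict`).  A rectilinear path of
  `Q` with values in `W` is a rectilinear path of `Q'`; apply `joins_induction` for `Q'` with
  `motive z w x y := |rx z - rx w| ≤ x`.  Horizontal segment `σ : [0, T] → W`: if `σ t ≠ s` for all
  `t ∈ (0, T)` then by `psi_arc` on `[δ, T - δ]` `ψ (σ t)^n = (x + t + i y)²`, so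
  `rx (σ t) = |x + t|` and `|rx (σ δ) - rx (σ (T - δ))| ≤ T`; let `δ → 0` (`rx` is
  continuous on `W`).  If `σ t0 = s` for some `t0 ∈ (0, T)` then `s` is not a zero, `t0` is unique
  (shrink `W` to a flow box about `s`, or use `hor_injOn`); apply the first case
  to `[0, t0]` and `[t0, T]`.  Vertical segment: `ψ^n = - (x + t + i y)²`, so `rx = |y|` is constant.
-/

set_option autoImplicit false

open Set Filter Topology MeasureTheory

namespace Pool.Agent.ANO2.Geo2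

variable {Q : QD}

/-- `|Re ψ^(n/2)|` -/
noncomputable def rx (n : ℕ) (ψ : ℂ → ℂ) (z : ℂ) : ℝ := √((‖ψ z‖ ^ n + (ψ z ^ n).re) / 2)

/-- `|Im ψ^(n/2)|` -/
noncomputable def ry (n : ℕ) (ψ : ℂ → ℂ) (z : ℂ) : ℝ := √((‖ψ z‖ ^ n - (ψ z ^ n).re) / 2)

private lemma slit_SecA (w : ℂ) : 0 < ‖w‖ + w.re ↔ w ∈ Complex.slitPlane := by
  rw [Complex.mem_slitPlane_iff]
  have h1 : |w.re| ≤ ‖w‖ := Complex.abs_re_le_norm w
  have h2 := neg_abs_le w.re
  constructor
  · intro h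
    by_contra hcon
    rw [not_or, not_lt, not_not] at hcon
    have h3 : ‖w‖ = -w.re := by
      have h4 : w = (w.re : ℂ) := by
        apply Complex.ext
        · simp
        · simp [hcon.2]
      rw [h4, Complex.norm_real, Real.norm_eq_abs, Complex.ofReal_re, abs_of_nonpos hcon.1]
    linarith
  · rintro (h | h)
    · linarith [norm_nonneg w]
    · have h3 : |w.re| < ‖w‖ := Complex.abs_re_lt_norm.2 h
      linarith

theorem rx_pos {n : ℕ} {ψ : ℂ → ℂ} {z : ℂ} : 0 < rx n ψ z ↔ ψ z ^ n ∈ Complex.slitPlane := by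
  rw [rx, Real.sqrt_pos, ← slit_SecA, norm_pow]
  constructor <;> intro h <;> linarith

theorem ry_pos {n : ℕ} {ψ : ℂ → ℂ} {z : ℂ} : 0 < ry n ψ z ↔ - ψ z ^ n ∈ Complex.slitPlane := by
  rw [ry, Real.sqrt_pos, ← slit_SecA, norm_neg, norm_pow, Complex.neg_re]
  constructor <;> intro h <;> linarith

theorem Chart.neg {s : ℂ} {n : ℕ} {ψ : ℂ → ℂ} (h : Chart Q s n ψ) {ζ : ℂ} (hζ : ζ ^ n = -1) :
    Chart Q.neg s n (fun z => ζ * ψ z) := by
  have hζ0 : ζ ≠ 0 := by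
    rintro rfl
    rw [zero_pow (by have := h.two_le; omega)] at hζ
    norm_num at hζ
  have hd : ∀ z, deriv (fun z => ζ * ψ z) z = ζ * deriv ψ z := fun z => deriv_const_mul_field ζ
  refine ⟨h.two_le, analyticAt_const.mul h.analytic, ?_, ?_, ?_⟩
  · rw [h.zero, mul_zero]
  · rw [hd]
    exact mul_ne_zero hζ0 h.deriv_ne
  · filter_upwards [h.eq] with z hz
    rw [hd]
    show -Q.q z = _
    rw [hz]
    obtain ⟨m, hm⟩ : ∃ m, n = m + 2 := ⟨n - 2, by have := h.two_le; omega⟩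
    have h1 : ζ ^ (n - 2) * ζ ^ 2 = -1 := by
      rw [← pow_add, show n - 2 + 2 = n by omega, hζ]
    rw [mul_pow, mul_pow]
    linear_combination (-((n : ℂ) / 2) ^ 2 * ψ z ^ (n - 2) * deriv ψ z ^ 2) * h1

/-- The restriction of a quadratic differential to a smaller convex open set. -/
noncomputable def QD.restrict (Q : QD) (W : Set ℂ) (h1 : IsOpen W) (h2 : Convex ℝ W)
    (h3 : W ⊆ Q.U) (h4 : W.Nonempty) : QD where
  U := W
  isOpen := h1
  convex := h2
  q := Q.q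
  holo := Q.holo.mono h3
  ne_zero := by
    obtain ⟨z0, hz0⟩ := h4
    have h5 := isolated Q (h3 hz0)
    have h6 : ∀ᶠ z in 𝓝[≠] z0, z ∈ W := nhdsWithin_le_nhds (h1.mem_nhds hz0)
    obtain ⟨z, h7, h8⟩ := (h6.and h5).exists
    exact ⟨z, h7, h8⟩

private lemma cont_SecA {n : ℕ} {ψ : ℂ → ℂ} {z : ℂ} (h : ContinuousAt ψ z) :
    ContinuousAt (rx n ψ) z := by
  have h1 : ContinuousAt (fun z => (‖ψ z‖ ^ n + (ψ z ^ n).re) / 2) z :=
    ((h.norm.pow n).add (Complex.continuous_re.continuousAt.comp (h.pow n))).div_const 2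
  exact h1.sqrt

private lemma sq_SecA {n : ℕ} {ψ : ℂ → ℂ} {z : ℂ} {x y : ℝ} (h : ψ z ^ n = (⟨x, y⟩ : ℂ) ^ 2) :
    rx n ψ z = |x| := by
  have h1 : ‖ψ z‖ ^ n = x ^ 2 + y ^ 2 := by
    rw [← norm_pow, h, norm_pow, ← Complex.normSq_eq_norm_sq, Complex.normSq_mk]
    ring
  have h2 : ((⟨x, y⟩ : ℂ) ^ 2).re = x ^ 2 - y ^ 2 := by
    rw [pow_two, Complex.mul_re]
    ring
  rw [rx, h1, h, h2, show (x ^ 2 + y ^ 2 + (x ^ 2 - y ^ 2)) / 2 = x ^ 2 by ring,
    Real.sqrt_sq_eq_abs]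

private lemma nsq_SecA {n : ℕ} {ψ : ℂ → ℂ} {z : ℂ} {x y : ℝ}
    (h : -ψ z ^ n = (⟨x, y⟩ : ℂ) ^ 2) : rx n ψ z = |y| := by
  have h1 : ‖ψ z‖ ^ n = x ^ 2 + y ^ 2 := by
    rw [← norm_pow, ← norm_neg, h, norm_pow, ← Complex.normSq_eq_norm_sq, Complex.normSq_mk]
    ring
  have h2 : ((⟨x, y⟩ : ℂ) ^ 2).re = x ^ 2 - y ^ 2 := by
    rw [pow_two, Complex.mul_re]
    ring
  have h3 : (ψ z ^ n).re = -(x ^ 2 - y ^ 2) := by
    rw [← h2, ← h, Complex.neg_re, neg_neg]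
  rw [rx, h1, h3, show (x ^ 2 + y ^ 2 + -(x ^ 2 - y ^ 2)) / 2 = y ^ 2 by ring,
    Real.sqrt_sq_eq_abs]

/-- From closed intervals inside `(a, b)` to `[a, b]`. -/
private lemma limit_SecA {f : ℝ → ℝ} {a b K : ℝ} (hab : a < b) (hf : ContinuousOn f (Icc a b))
    (h : ∀ a' b', a < a' → a' ≤ b' → b' < b → |f a' - f b'| ≤ K) : |f a - f b| ≤ K := by
  have h1 : Tendsto (fun δ : ℝ => a + δ) (𝓝[>] 0) (𝓝[Icc a b] a) := by
    refine tendsto_nhdsWithin_iff.2 ⟨?_, ?_⟩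
    · have h2 : Tendsto (fun δ : ℝ => a + δ) (𝓝 0) (𝓝 (a + 0)) :=
        (continuous_const.add continuous_id).tendsto 0
      rw [add_zero] at h2
      exact h2.mono_left nhdsWithin_le_nhds
    · filter_upwards [Ioo_mem_nhdsGT (sub_pos.2 hab)] with δ hδ
      exact ⟨by linarith [hδ.1], by linarith [hδ.2]⟩
  have h2 : Tendsto (fun δ : ℝ => b - δ) (𝓝[>] 0) (𝓝[Icc a b] b) := by
    refine tendsto_nhdsWithin_iff.2 ⟨?_, ?_⟩
    · have h2 : Tendsto (fun δ : ℝ => b - δ) (𝓝 0) (𝓝 (b - 0)) :=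
        (continuous_const.sub continuous_id).tendsto 0
      rw [sub_zero] at h2
      exact h2.mono_left nhdsWithin_le_nhds
    · filter_upwards [Ioo_mem_nhdsGT (sub_pos.2 hab)] with δ hδ
      exact ⟨by linarith [hδ.2], by linarith [hδ.1]⟩
  have h3 : Tendsto (fun δ : ℝ => f (a + δ)) (𝓝[>] 0) (𝓝 (f a)) :=
    (hf a ⟨le_rfl, hab.le⟩).tendsto.comp h1
  have h4 : Tendsto (fun δ : ℝ => f (b - δ)) (𝓝[>] 0) (𝓝 (f b)) :=
    (hf b ⟨hab.le, le_rfl⟩).tendsto.comp h2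
  refine le_of_tendsto (h3.sub h4).abs ?_
  filter_upwards [Ioo_mem_nhdsGT (half_pos (sub_pos.2 hab))] with δ hδ
  exact h _ _ (by linarith [hδ.1]) (by linarith [hδ.2]) (by linarith [hδ.1])

/-- A function which vanishes on a closed set and is `k`-Lipschitz off it. -/
private lemma glue_SecA {f : ℝ → ℝ} {σ : ℝ → ℂ} {s : ℂ} {T k : ℝ} (hT : 0 < T) (hk : 0 ≤ k)
    (hσ : ContinuousOn σ (Icc 0 T)) (h0 : ∀ t ∈ Icc 0 T, σ t = s → f t = 0)
    (h : ∀ a b, 0 ≤ a → a ≤ b → b ≤ T → (∀ t ∈ Ioo a b, σ t ≠ s) → |f a - f b| ≤ k * (b - a)) :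
    |f 0 - f T| ≤ k * T := by
  by_cases hne : ∀ t ∈ Ioo 0 T, σ t ≠ s
  · have := h 0 T le_rfl hT.le le_rfl hne
    rwa [sub_zero] at this
  · push Not at hne
    obtain ⟨t0, ht0, ht0s⟩ := hne
    set Z : Set ℝ := Icc 0 T ∩ σ ⁻¹' {s} with hZ
    have hZc : IsClosed Z := hσ.preimage_isClosed_of_isClosed isClosed_Icc isClosed_singleton
    have hZk : IsCompact Z := isCompact_Icc.of_isClosed_subset hZc inter_subset_left
    have hZn : Z.Nonempty := ⟨t0, Ioo_subset_Icc_self ht0, ht0s⟩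
    have ha := hZk.sInf_mem hZn
    have hb := hZk.sSup_mem hZn
    have hab : sInf Z ≤ sSup Z := le_csSup hZk.bddAbove ha
    have h1 := h 0 (sInf Z) le_rfl ha.1.1 ha.1.2 (fun t ht hts =>
      notMem_of_lt_csInf ht.2 hZk.bddBelow ⟨⟨ht.1.le, ht.2.le.trans ha.1.2⟩, hts⟩)
    have h2 := h (sSup Z) T hb.1.1 hb.1.2 le_rfl (fun t ht hts =>
      notMem_of_csSup_lt ht.1 hZk.bddAbove ⟨⟨hb.1.1.trans ht.1.le, ht.2.le⟩, hts⟩)
    rw [h0 _ ha.1 ha.2] at h1
    rw [h0 _ hb.1 hb.2] at h2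
    have h3 : k * sInf Z ≤ k * sSup Z := mul_le_mul_of_nonneg_left hab hk
    rw [abs_le] at *
    constructor <;> linarith [h1.1, h1.2, h2.1, h2.2]

/-- Inside a small ball `rx` changes at most by the horizontal length of a path. -/
theorem rx_joins {s : ℂ} (hs : s ∈ Q.U) {n : ℕ} {ψ : ℂ → ℂ} (hψ : Chart Q s n ψ) :
    ∃ r > 0, ∀ (l : ℝ) (c : ℝ → ℂ) (A B : Set ℝ), RP Q l c A B → (∀ t ∈ Icc 0 l, ‖c t - s‖ < r) →
      ∀ t ∈ Icc 0 l, |rx n ψ (c t) - rx n ψ (c l)| ≤ vx l B := by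
  obtain ⟨ζ, hζ⟩ := IsAlgClosed.exists_pow_nat_eq (-1 : ℂ)
    (by have := hψ.two_le; omega : 0 < n)
  obtain ⟨W1, hW1, H1⟩ := psi_arc hψ
  obtain ⟨W2, hW2, H2⟩ := psi_arc (hψ.neg hζ)
  have hc : ∀ᶠ z in 𝓝 s, ContinuousAt ψ z := by
    filter_upwards [hψ.analytic.eventually_analyticAt] with z hz
    exact hz.continuousAt
  obtain ⟨r, hr, hball⟩ := Metric.eventually_nhds_iff_ball.1
    ((((show ∀ᶠ z in 𝓝 s, z ∈ W1 from hW1).and (show ∀ᶠ z in 𝓝 s, z ∈ W2 from hW2)).and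
      (Q.isOpen.eventually_mem hs)).and hc)
  have hn0 : n ≠ 0 := by have := hψ.two_le; omega
  have hrx0 : rx n ψ s = 0 := by
    rw [rx, hψ.zero, norm_zero, zero_pow hn0, zero_pow hn0, Complex.zero_re, add_zero, zero_div,
      Real.sqrt_zero]
  refine ⟨r, hr, ?_⟩
  intro l c A B hRP hcr t ht
  have hsub : Metric.ball s r ⊆ Q.U := fun z hz => (hball z hz).1.2
  let Q' : QD := Q.restrict (Metric.ball s r) Metric.isOpen_ball (convex_ball s r) hsub
    ⟨s, Metric.mem_ball_self hr⟩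
  have hQ'U : Q'.U = Metric.ball s r := rfl
  have hor' : ∀ {σ : ℝ → ℂ} {t : ℝ}, Hor Q' σ t → Hor Q σ t := by
    rintro σ t ⟨h1, v, h2, h3⟩
    exact ⟨hsub h1, v, h2, h3⟩
  have ver' : ∀ {σ : ℝ → ℂ} {t : ℝ}, Ver Q' σ t → Hor Q.neg σ t := by
    rintro σ t ⟨h1, v, h2, h3⟩
    exact ⟨hsub h1, v, h2, h3⟩
  have hRP' : RP Q' l c A B := by
    have hm : ∀ t ∈ Icc 0 l, c t ∈ Metric.ball s r := fun t ht => by
      rw [Metric.mem_ball, dist_eq_norm]
      exact hcr t ht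
    refine ⟨hRP.nonneg, hRP.fin, hRP.cont, hm, ?_, ?_, hRP.loc⟩
    · intro t h1 h2 h3
      obtain ⟨-, v, h4, h5⟩ := hRP.hor t h1 h2 h3
      exact ⟨hm t (Ioo_subset_Icc_self h1), v, h4, h5⟩
    · intro t h1 h2 h3
      obtain ⟨-, v, h4, h5⟩ := hRP.ver t h1 h2 h3
      exact ⟨hm t (Ioo_subset_Icc_self h1), v, h4, h5⟩
  have hfc : ∀ (σ : ℝ → ℂ) (T : ℝ), ContinuousOn σ (Icc 0 T) →
      (∀ t ∈ Icc 0 T, σ t ∈ Metric.ball s r) → ContinuousOn (fun t => rx n ψ (σ t)) (Icc 0 T) := by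
    intro σ T hσ hm t ht
    exact (cont_SecA (hball _ (hm t ht)).2).comp_continuousWithinAt (hσ t ht)
  have key : ∀ z w x y, Joins Q' z w x y → |rx n ψ z - rx n ψ w| ≤ x := by
    intro z w x y hJ
    refine joins_induction (Q := Q') (motive := fun z w x _ => |rx n ψ z - rx n ψ w| ≤ x)
      ?_ ?_ ?_ ?_ hJ
    · intro z _
      rw [sub_self, abs_zero]
    · intro z w z' x y x' y' h1 h2
      exact (abs_sub_le _ _ _).trans (add_le_add h1 h2)
    · intro σ T hT hσc hσm hσ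
      have h1 := glue_SecA (f := fun t => rx n ψ (σ t)) (s := s) hT zero_le_one hσc
        (fun t _ hts => by simp only [hts, hrx0]) (k := 1) ?_
      · simpa using h1
      · intro a b ha hab hb hne
        rcases hab.eq_or_lt with rfl | hab'
        · simp
        refine limit_SecA (f := fun t => rx n ψ (σ t)) hab'
          ((hfc σ T hσc hσm).mono (Icc_subset_Icc ha hb)) ?_
        intro a' b' h2 h3 h4
        obtain ⟨x, y, hxy⟩ := H1 (fun u => σ (u + a')) (b' - a') (by linarith) (by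
          intro u hu
          have h5 : u + a' ∈ Ioo a b := ⟨by linarith [hu.1], by linarith [hu.2]⟩
          have h6 : u + a' ∈ Ioo 0 T := ⟨by linarith [h5.1], by linarith [h5.2]⟩
          exact ⟨Hor.shift (hor' (hσ _ h6)), (hball _ (hσm _ (Ioo_subset_Icc_self h6))).1.1.1,
            hne _ h5⟩)
        have h5 := sq_SecA (hxy 0 ⟨le_rfl, by linarith⟩)
        have h6 := sq_SecA (hxy (b' - a') ⟨by linarith, le_rfl⟩)
        simp only [zero_add, add_zero, sub_add_cancel] at h5 h6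
        simp only [h5, h6]
        have h7 := abs_abs_sub_abs_le x (x + (b' - a'))
        rw [show x - (x + (b' - a')) = -(b' - a') by ring, abs_neg,
          abs_of_nonneg (by linarith : 0 ≤ b' - a')] at h7
        linarith
    · intro σ T hT hσc hσm hσ
      have h1 := glue_SecA (f := fun t => rx n ψ (σ t)) (s := s) hT le_rfl hσc
        (fun t _ hts => by simp only [hts, hrx0]) (k := 0) ?_
      · simpa using h1
      · intro a b ha hab hb hne
        rcases hab.eq_or_lt with rfl | hab'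
        · simp
        refine limit_SecA (f := fun t => rx n ψ (σ t)) hab'
          ((hfc σ T hσc hσm).mono (Icc_subset_Icc ha hb)) ?_
        intro a' b' h2 h3 h4
        obtain ⟨x, y, hxy⟩ := H2 (fun u => σ (u + a')) (b' - a') (by linarith) (by
          intro u hu
          have h5 : u + a' ∈ Ioo a b := ⟨by linarith [hu.1], by linarith [hu.2]⟩
          have h6 : u + a' ∈ Ioo 0 T := ⟨by linarith [h5.1], by linarith [h5.2]⟩
          exact ⟨Hor.shift (ver' (hσ _ h6)), (hball _ (hσm _ (Ioo_subset_Icc_self h6))).1.1.2,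
            hne _ h5⟩)
        simp only [mul_pow, hζ, neg_one_mul] at hxy
        have h5 := nsq_SecA (hxy 0 ⟨le_rfl, by linarith⟩)
        have h6 := nsq_SecA (hxy (b' - a') ⟨by linarith, le_rfl⟩)
        simp only [zero_add, sub_add_cancel] at h5 h6
        simp only [h5, h6, sub_self, abs_zero, zero_mul, le_refl]
  have h1 := key _ _ _ _ (hRP'.sub ht.1 ht.2 le_rfl)
  refine h1.trans ?_
  refine ENNReal.toReal_mono ?_ (measure_mono
    (inter_subset_inter_right B (Icc_subset_Icc_left ht.1)))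
  exact ne_top_of_le_ne_top (by rw [Real.volume_Icc]; exact ENNReal.ofReal_ne_top)
    (measure_mono (inter_subset_right : B ∩ Icc 0 l ⊆ Icc 0 l))

end Pool.Agent.ANO2.Geo2
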