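import Pool.Agent.ANO2.Geo2.Geo
import Pool.Agent.ANO2.Geo2.SectorA

/-!
# ANO phase 2, Geo2: points which are `du`-close to a sector

* `pathX`: let `W0` be a ball about `s` contained in `W` and in the ball of `rx_joins`; let
  `m, η` be as in `leave_ball` for this ball and
  `V = {z : |z - s| < η, d1 Q s z < m / 2}` (`d1_small`).  For `z, z' ∈ V` `d1 Q z z' < m`; for
  `0 < ε' ≤ ε / 3` small there is a path `c` from `z` to `z'` with `l < d1 Q z z' + ε' < m`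
  (`exists_d1`), it stays in `W0` (`leave_ball`); by `du_ge` `vx l B ≤ du Q z z' + 2 ε'`.  For
  `t ∈ [0, l]` the piece of `c` on `[t, l]` is a path inside `W0` from `c t` to `z'` of horizontal
  length `vol (B ∩ [t, l]) ≤ vx l B` (`RP.sub` for the restricted `Q'`), so
  `|rx (c t) - rx z'| ≤ vx l B`.
* `sector`: if `du Q z z' < rx z'`, choose `ε` with `du Q z z' + ε < rx z'`; the path of `pathX`
  stays in `{rx > 0} ∩ W`.  The image of the path is connected, so if it is covered by the disjoint open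
  sets (here: `S ∩ W'` and its complement in `{rx > 0} ∩ W'`) it is contained in one of them.
-/

set_option autoImplicit false

open Set Filter Topology MeasureTheory

namespace Pool.Agent.ANO2.Geo2

variable {Q : QD}

theorem pathX (hP : Proper Q) {s : ℂ} (hs : s ∈ Q.U) {n : ℕ} {ψ : ℂ → ℂ} (hψ : Chart Q s n ψ)
    {W : Set ℂ} (hW : W ∈ 𝓝 s) : ∃ V ∈ 𝓝 s, ∀ z ∈ V, ∀ z' ∈ V, ∀ ε > 0,
      ∃ (l : ℝ) (c : ℝ → ℂ), 0 ≤ l ∧ ContinuousOn c (Icc 0 l) ∧ c 0 = z ∧ c l = z' ∧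
        ∀ t ∈ Icc 0 l, c t ∈ W ∧ |rx n ψ (c t) - rx n ψ z'| ≤ du Q z z' + ε := by
  obtain ⟨r, hr, hrx⟩ := rx_joins hs hψ
  obtain ⟨ρ, hρ, hρW⟩ := Metric.mem_nhds_iff.mp hW
  obtain ⟨m, hm, η, hη, hlv⟩ := leave_ball Q hs (lt_min hr hρ)
  have hV : ∀ᶠ z in 𝓝 s, z ∈ Q.U ∧ ‖z - s‖ < η ∧ d1 Q s z < m / 2 := by
    filter_upwards [Q.isOpen.mem_nhds hs, Metric.ball_mem_nhds s hη,
      d1_small Q hs (half_pos hm)] with z h1 h2 h3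
    rw [Metric.mem_ball, dist_eq_norm] at h2
    exact ⟨h1, h2, h3⟩
  refine ⟨_, hV, ?_⟩
  rintro z ⟨hz, hzη, hzm⟩ z' ⟨hz', -, hzm'⟩ ε hε
  have h1 : d1 Q z z' < m := by
    have h2 := d1_triangle hz hs hz'
    rw [d1_symm z s] at h2
    linarith
  obtain ⟨ε', h2, h3, h4⟩ : ∃ ε' : ℝ, 0 < ε' ∧ 2 * ε' ≤ ε ∧ d1 Q z z' + ε' < m := by
    refine ⟨min (ε / 2) ((m - d1 Q z z') / 2), lt_min (by linarith) (by linarith), ?_, ?_⟩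
    · linarith [min_le_left (ε / 2) ((m - d1 Q z z') / 2)]
    · linarith [min_le_right (ε / 2) ((m - d1 Q z z') / 2)]
  obtain ⟨l, c, A, B, h, h0, hl, hlt⟩ := exists_d1 hz hz' h2
  have h5 := du_ge hP h h2.le (by rw [h0, hl]; exact hlt.le)
  rw [h0, hl] at h5
  have h6 := hlv l c A B h (by rw [h0]; exact hzη) (hlt.trans h4)
  refine ⟨l, c, h.nonneg, h.cont, h0, hl, fun t ht => ⟨hρW ?_, ?_⟩⟩
  · rw [Metric.mem_ball, dist_eq_norm]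
    exact (h6 t ht).trans_le (min_le_right _ _)
  · have h7 := hrx l c A B h (fun t ht => (h6 t ht).trans_le (min_le_left _ _)) t ht
    rw [hl] at h7
    linarith

private lemma rx_mul_SecB {n : ℕ} {ψ : ℂ → ℂ} {ζ : ℂ} (hζ : ζ ^ n = -1) (z : ℂ) :
    rx n (fun z => ζ * ψ z) z = ry n ψ z := by
  have h1 : ‖ζ‖ ^ n = 1 := by rw [← norm_pow, hζ, norm_neg, norm_one]
  rw [rx, ry, norm_mul, mul_pow, mul_pow, hζ, h1, one_mul, neg_one_mul, Complex.neg_re,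
    ← sub_eq_add_neg]

theorem pathY (hP : Proper Q) {s : ℂ} (hs : s ∈ Q.U) {n : ℕ} {ψ : ℂ → ℂ} (hψ : Chart Q s n ψ)
    {W : Set ℂ} (hW : W ∈ 𝓝 s) : ∃ V ∈ 𝓝 s, ∀ z ∈ V, ∀ z' ∈ V, ∀ ε > 0,
      ∃ (l : ℝ) (c : ℝ → ℂ), 0 ≤ l ∧ ContinuousOn c (Icc 0 l) ∧ c 0 = z ∧ c l = z' ∧
        ∀ t ∈ Icc 0 l, c t ∈ W ∧ |ry n ψ (c t) - ry n ψ z'| ≤ ds Q z z' + ε := by
  obtain ⟨ζ, hζ⟩ := IsAlgClosed.exists_pow_nat_eq (-1 : ℂ)
    (by have := hψ.two_le; omega : 0 < n)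
  obtain ⟨V, hV, H⟩ := pathX (Q := Q.neg) hP.neg hs (hψ.neg hζ) hW
  refine ⟨V, hV, fun z hz z' hz' ε hε => ?_⟩
  obtain ⟨l, c, h1, h2, h3, h4, h5⟩ := H z hz z' hz' ε hε
  refine ⟨l, c, h1, h2, h3, h4, fun t ht => ?_⟩
  have h6 := h5 t ht
  rwa [rx_mul_SecB hζ, rx_mul_SecB hζ, du_neg] at h6

private lemma mem_of_path_SecB {W S S' : Set ℂ} (hS : IsOpen S) (hS' : IsOpen S') {P : ℂ → Prop}
    (hcov : ∀ z ∈ W, P z → z ∈ S ∨ z ∈ S') (hdis : ∀ z ∈ W, ¬ (z ∈ S ∧ z ∈ S')) {l : ℝ}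
    {c : ℝ → ℂ} (hl : 0 ≤ l) (hc : ContinuousOn c (Icc 0 l))
    (hcW : ∀ t ∈ Icc 0 l, c t ∈ W ∧ P (c t)) (hcl : c l ∈ S) : c 0 ∈ S := by
  have h0 : (0 : ℝ) ∈ Icc 0 l := ⟨le_rfl, hl⟩
  have hll : l ∈ Icc 0 l := ⟨hl, le_rfl⟩
  rcases hcov _ (hcW 0 h0).1 (hcW 0 h0).2 with h | h
  · exact h
  · exfalso
    have h1 : IsPreconnected (c '' Icc 0 l) := isPreconnected_Icc.image c hc
    obtain ⟨x, ⟨t, ht, rfl⟩, hx1, hx2⟩ := h1 S S' hS hS' (by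
      rintro _ ⟨t, ht, rfl⟩
      exact hcov _ (hcW t ht).1 (hcW t ht).2) ⟨c l, mem_image_of_mem c hll, hcl⟩
      ⟨c 0, mem_image_of_mem c h0, h⟩
    exact hdis _ (hcW t ht).1 ⟨hx1, hx2⟩

/-- `S` is a union of components of `{ψ^n ∉ (-∞, 0]}` near `s` (for instance an open sector
`|arg (ψ exp (- 2 π i e / n))| < π / n`): points which are `du`-close to a point of `S` are
in `S`. -/
theorem sector (hP : Proper Q) {s : ℂ} (hs : s ∈ Q.U) {n : ℕ} {ψ : ℂ → ℂ}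
    (hψ : Chart Q s n ψ) {W : Set ℂ} (hW : W ∈ 𝓝 s) : ∃ V ∈ 𝓝 s, ∀ S S' : Set ℂ, IsOpen S →
      IsOpen S' → (∀ z ∈ W, ψ z ^ n ∈ Complex.slitPlane → z ∈ S ∨ z ∈ S') →
        (∀ z ∈ W, ¬ (z ∈ S ∧ z ∈ S')) → ∀ z ∈ V, ∀ z' ∈ V, z' ∈ S →
          du Q z z' < rx n ψ z' → z ∈ S := by
  obtain ⟨V, hV, H⟩ := pathX hP hs hψ hW
  refine ⟨V, hV, fun S S' hS hS' hcov hdis z hz z' hz' hzS hlt => ?_⟩
  obtain ⟨l, c, h1, h2, h3, h4, h5⟩ := H z hz z' hz' ((rx n ψ z' - du Q z z') / 2)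
    (by linarith)
  rw [← h3]
  refine mem_of_path_SecB hS hS' hcov hdis h1 h2 (fun t ht => ⟨(h5 t ht).1, ?_⟩)
    (by rw [h4]; exact hzS)
  rw [← rx_pos]
  have h6 := (abs_le.1 (h5 t ht).2).1
  linarith

/-- The same for the `y`-sectors. -/
theorem sectorY (hP : Proper Q) {s : ℂ} (hs : s ∈ Q.U) {n : ℕ} {ψ : ℂ → ℂ}
    (hψ : Chart Q s n ψ) {W : Set ℂ} (hW : W ∈ 𝓝 s) : ∃ V ∈ 𝓝 s, ∀ S S' : Set ℂ, IsOpen S →
      IsOpen S' → (∀ z ∈ W, - ψ z ^ n ∈ Complex.slitPlane → z ∈ S ∨ z ∈ S') →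
        (∀ z ∈ W, ¬ (z ∈ S ∧ z ∈ S')) → ∀ z ∈ V, ∀ z' ∈ V, z' ∈ S →
          ds Q z z' < ry n ψ z' → z ∈ S := by
  obtain ⟨V, hV, H⟩ := pathY hP hs hψ hW
  refine ⟨V, hV, fun S S' hS hS' hcov hdis z hz z' hz' hzS hlt => ?_⟩
  obtain ⟨l, c, h1, h2, h3, h4, h5⟩ := H z hz z' hz' ((ry n ψ z' - ds Q z z') / 2)
    (by linarith)
  rw [← h3]
  refine mem_of_path_SecB hS hS' hcov hdis h1 h2 (fun t ht => ⟨(h5 t ht).1, ?_⟩)
    (by rw [h4]; exact hzS)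
  rw [← ry_pos]
  have h6 := (abs_le.1 (h5 t ht).2).1
  linarith

end Pool.Agent.ANO2.Geo2
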