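import Pool.Agent.ANO2.Geo2.Small

/-!
# ANO phase 2, Geo2: the pseudo-metrics `du`, `ds`, `d1`

Formal consequences of `Chain` and `Small`; `d1_small` follows from `joins_small`.
For points outside `U` the sets are empty and `sInf ∅ = 0`.
-/

set_option autoImplicit false

open Set Filter Topology MeasureTheory

namespace Pool.Agent.ANO2.Geo2

variable {Q : QD}

private theorem bdd_u (z w : ℂ) : BddBelow {x | ∃ y, Joins Q z w x y} :=
  ⟨0, by rintro x ⟨y, h⟩; exact h.nonneg.1⟩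

private theorem bdd_s (z w : ℂ) : BddBelow {y | ∃ x, Joins Q z w x y} :=
  ⟨0, by rintro y ⟨x, h⟩; exact h.nonneg.2⟩

private theorem bdd_1 (z w : ℂ) : BddBelow {s | ∃ x y, Joins Q z w x y ∧ s = x + y} :=
  ⟨0, by rintro s ⟨x, y, h, rfl⟩; exact add_nonneg h.nonneg.1 h.nonneg.2⟩

private theorem ne_u {z w : ℂ} (hz : z ∈ Q.U) (hw : w ∈ Q.U) :
    {x | ∃ y, Joins Q z w x y}.Nonempty := by
  obtain ⟨x, y, h⟩ := joins_exists Q hz hw
  exact ⟨x, y, h⟩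

private theorem ne_s {z w : ℂ} (hz : z ∈ Q.U) (hw : w ∈ Q.U) :
    {y | ∃ x, Joins Q z w x y}.Nonempty := by
  obtain ⟨x, y, h⟩ := joins_exists Q hz hw
  exact ⟨y, x, h⟩

private theorem ne_1 {z w : ℂ} (hz : z ∈ Q.U) (hw : w ∈ Q.U) :
    {s | ∃ x y, Joins Q z w x y ∧ s = x + y}.Nonempty := by
  obtain ⟨x, y, h⟩ := joins_exists Q hz hw
  exact ⟨x + y, x, y, h, rfl⟩

private theorem joins_neg_iff {z w : ℂ} {x y : ℝ} : Joins Q.neg z w x y ↔ Joins Q z w y x := by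
  constructor
  · intro h
    have h1 := h.neg
    rwa [QD.neg_neg] at h1
  · intro h
    exact h.neg

private theorem joins_symm_iff {z w : ℂ} {x y : ℝ} : Joins Q z w x y ↔ Joins Q w z x y :=
  ⟨Joins.symm, Joins.symm⟩

theorem du_le {z w : ℂ} {x y : ℝ} (h : Joins Q z w x y) : du Q z w ≤ x :=
  csInf_le (bdd_u z w) ⟨y, h⟩

theorem ds_le {z w : ℂ} {x y : ℝ} (h : Joins Q z w x y) : ds Q z w ≤ y :=
  csInf_le (bdd_s z w) ⟨x, h⟩

theorem d1_le {z w : ℂ} {x y : ℝ} (h : Joins Q z w x y) : d1 Q z w ≤ x + y :=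
  csInf_le (bdd_1 z w) ⟨x, y, h, rfl⟩

theorem du_nonneg (z w : ℂ) : 0 ≤ du Q z w :=
  Real.sInf_nonneg (by rintro x ⟨y, h⟩; exact h.nonneg.1)

theorem ds_nonneg (z w : ℂ) : 0 ≤ ds Q z w :=
  Real.sInf_nonneg (by rintro y ⟨x, h⟩; exact h.nonneg.2)

theorem d1_nonneg (z w : ℂ) : 0 ≤ d1 Q z w :=
  Real.sInf_nonneg (by rintro s ⟨x, y, h, rfl⟩; exact add_nonneg h.nonneg.1 h.nonneg.2)

theorem du_neg (z w : ℂ) : du Q.neg z w = ds Q z w := by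
  unfold du ds
  simp only [joins_neg_iff]

theorem ds_neg (z w : ℂ) : ds Q.neg z w = du Q z w := by
  unfold du ds
  simp only [joins_neg_iff]

theorem d1_neg (z w : ℂ) : d1 Q.neg z w = d1 Q z w := by
  unfold d1
  congr 1
  ext s
  constructor
  · rintro ⟨x, y, h, rfl⟩
    exact ⟨y, x, joins_neg_iff.mp h, add_comm x y⟩
  · rintro ⟨x, y, h, rfl⟩
    exact ⟨y, x, h.neg, add_comm x y⟩

theorem du_symm (z w : ℂ) : du Q z w = du Q w z := by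
  unfold du
  congr 1
  ext x
  exact exists_congr fun y => joins_symm_iff

theorem ds_symm (z w : ℂ) : ds Q z w = ds Q w z := by
  unfold ds
  congr 1
  ext x
  exact exists_congr fun y => joins_symm_iff

theorem d1_symm (z w : ℂ) : d1 Q z w = d1 Q w z := by
  unfold d1
  congr 1
  ext s
  exact exists_congr fun x => exists_congr fun y => and_congr joins_symm_iff Iff.rfl

theorem du_triangle {z w z' : ℂ} (hz : z ∈ Q.U) (hw : w ∈ Q.U) (hz' : z' ∈ Q.U) :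
    du Q z z' ≤ du Q z w + du Q w z' := by
  apply le_of_forall_pos_le_add
  intro ε hε
  obtain ⟨x, ⟨y, h⟩, hx⟩ := Real.lt_sInf_add_pos (ne_u hz hw) (half_pos hε)
  obtain ⟨x', ⟨y', h'⟩, hx'⟩ := Real.lt_sInf_add_pos (ne_u hw hz') (half_pos hε)
  have h1 := du_le (h.trans h')
  change x < du Q z w + ε / 2 at hx
  change x' < du Q w z' + ε / 2 at hx'
  linarith

theorem ds_triangle {z w z' : ℂ} (hz : z ∈ Q.U) (hw : w ∈ Q.U) (hz' : z' ∈ Q.U) :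
    ds Q z z' ≤ ds Q z w + ds Q w z' := by
  apply le_of_forall_pos_le_add
  intro ε hε
  obtain ⟨x, ⟨y, h⟩, hx⟩ := Real.lt_sInf_add_pos (ne_s hz hw) (half_pos hε)
  obtain ⟨x', ⟨y', h'⟩, hx'⟩ := Real.lt_sInf_add_pos (ne_s hw hz') (half_pos hε)
  have h1 := ds_le (h.trans h')
  change x < ds Q z w + ε / 2 at hx
  change x' < ds Q w z' + ε / 2 at hx'
  linarith

theorem d1_triangle {z w z' : ℂ} (hz : z ∈ Q.U) (hw : w ∈ Q.U) (hz' : z' ∈ Q.U) :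
    d1 Q z z' ≤ d1 Q z w + d1 Q w z' := by
  apply le_of_forall_pos_le_add
  intro ε hε
  obtain ⟨s, ⟨x, y, h, rfl⟩, hx⟩ := Real.lt_sInf_add_pos (ne_1 hz hw) (half_pos hε)
  obtain ⟨s', ⟨x', y', h', rfl⟩, hx'⟩ := Real.lt_sInf_add_pos (ne_1 hw hz') (half_pos hε)
  have h1 := d1_le (h.trans h')
  change x + y < d1 Q z w + ε / 2 at hx
  change x' + y' < d1 Q w z' + ε / 2 at hx'
  linarith

theorem du_add_ds_le {z w : ℂ} (hz : z ∈ Q.U) (hw : w ∈ Q.U) :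
    du Q z w + ds Q z w ≤ d1 Q z w := by
  apply le_csInf (ne_1 hz hw)
  rintro s ⟨x, y, h, rfl⟩
  exact add_le_add (du_le h) (ds_le h)

/-- Almost minimising paths. -/
theorem exists_d1 {z w : ℂ} (hz : z ∈ Q.U) (hw : w ∈ Q.U) {ε : ℝ} (hε : 0 < ε) :
    ∃ (l : ℝ) (c : ℝ → ℂ) (A B : Set ℝ), RP Q l c A B ∧ c 0 = z ∧ c l = w ∧
      l < d1 Q z w + ε := by
  obtain ⟨s, ⟨x, y, h, rfl⟩, hx⟩ := Real.lt_sInf_add_pos (ne_1 hz hw) hε
  obtain ⟨l, c, A, B, hR, h0, h1, rfl, rfl⟩ := h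
  refine ⟨l, c, A, B, hR, h0, h1, ?_⟩
  change vx l B + (l - vx l B) < d1 Q z w + ε at hx
  linarith

theorem exists_du {z w : ℂ} (hz : z ∈ Q.U) (hw : w ∈ Q.U) {ε : ℝ} (hε : 0 < ε) :
    ∃ (l : ℝ) (c : ℝ → ℂ) (A B : Set ℝ), RP Q l c A B ∧ c 0 = z ∧ c l = w ∧
      vx l B < du Q z w + ε := by
  obtain ⟨x, ⟨y, h⟩, hx⟩ := Real.lt_sInf_add_pos (ne_u hz hw) hε
  obtain ⟨l, c, A, B, hR, h0, h1, rfl, rfl⟩ := h
  exact ⟨l, c, A, B, hR, h0, h1, hx⟩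

/-- Continuity of `d1`. -/
theorem d1_small (Q : QD) {s : ℂ} (hs : s ∈ Q.U) {ε : ℝ} (hε : 0 < ε) :
    ∀ᶠ z in 𝓝 s, d1 Q s z < ε := by
  filter_upwards [joins_small Q hs hε] with z hz
  obtain ⟨x, y, h, hxy⟩ := hz
  exact (d1_le h).trans_lt hxy

end Pool.Agent.ANO2.Geo2
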