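import Pool.Agent.ANO2.Geo2.AffB
import Pool.Agent.ANO2.Geo2.Metric

/-!
# ANO phase 2, Geo2: the effect of an affine homeomorphism on `du`, `ds`

* `Aff.joins`: `joins_induction` with
  `motive z w x y := Joins Q (φ z) (φ w) (l * x) (l⁻¹ * y)`; the horizontal segment
  `σ : [0, T] → U` is mapped to the horizontal segment `u ↦ φ (σ (u / l))`, `0 ≤ u ≤ l T`
  (`joins_hor`, `Aff.hor`), the vertical segment to `u ↦ φ (σ (l u))`, `0 ≤ u ≤ T / l`.
* `Aff.du`: `≤`: by `Aff.joins` (`z`, `w` are joined by some path, `joins_exists`); `≥`: apply it to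
  the inverse (`Aff.symm`).
-/

set_option autoImplicit false

open Set Filter Topology MeasureTheory

namespace Pool.Agent.ANO2.Geo2

variable {Q : QD}

theorem Aff.joins {φ φ' : ℂ → ℂ} {l : ℝ} (h : Aff Q φ φ' l) {z w : ℂ} {x y : ℝ}
    (hj : Joins Q z w x y) : Joins Q (φ z) (φ w) (l * x) (l⁻¹ * y) := by
  have hl := h.pos
  have hl0 : l ≠ 0 := hl.ne'
  refine joins_induction (motive := fun z w x y => Joins Q (φ z) (φ w) (l * x) (l⁻¹ * y))
    ?_ ?_ ?_ ?_ hj
  · intro z hz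
    simp only [mul_zero]
    exact Joins.refl (h.maps hz)
  · intro z w z' x y x' y' h1 h2
    simp only [mul_add]
    exact h1.trans h2
  · intro σ T hT hc hm hσ
    have hdiv : ∀ t ∈ Icc 0 (l * T), t / l ∈ Icc 0 T := by
      intro t ht
      refine ⟨div_nonneg ht.1 hl.le, ?_⟩
      rw [div_le_iff₀ hl, mul_comm]
      exact ht.2
    have hj1 := joins_hor (Q := Q) (σ := fun u => φ (σ (u / l))) (T := l * T) (by positivity)
      ?_ ?_ ?_
    · have e1 : l * T / l = T := by field_simp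
      simp only [zero_div, e1] at hj1
      rw [mul_zero]
      exact hj1
    · refine h.cont.comp (hc.comp (by fun_prop) hdiv) fun t ht => hm _ (hdiv t ht)
    · intro t ht
      exact h.maps (hm _ (hdiv t ht))
    · intro t ht
      have h1 : t / l ∈ Ioo 0 T := by
        refine ⟨div_pos ht.1 hl, ?_⟩
        rw [div_lt_iff₀ hl, mul_comm]
        exact ht.2
      have h2 := h.hor (hσ _ h1)
      have e1 : l * (t / l) = t := by field_simp
      rwa [e1] at h2
  · intro σ T hT hc hm hσ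
    have hmul : ∀ t ∈ Icc 0 (T / l), l * t ∈ Icc 0 T := by
      intro t ht
      refine ⟨mul_nonneg hl.le ht.1, ?_⟩
      have := ht.2
      rw [le_div_iff₀ hl, mul_comm] at this
      exact this
    have hj1 := joins_ver (Q := Q) (σ := fun u => φ (σ (l * u))) (T := T / l) (by positivity)
      ?_ ?_ ?_
    · have e1 : l * (T / l) = T := by field_simp
      have e2 : T / l = l⁻¹ * T := by rw [div_eq_mul_inv, mul_comm]
      simp only [mul_zero, e1] at hj1
      rw [e2] at hj1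
      rw [mul_zero]
      exact hj1
    · refine h.cont.comp (hc.comp (by fun_prop) hmul) fun t ht => hm _ (hmul t ht)
    · intro t ht
      exact h.maps (hm _ (hmul t ht))
    · intro t ht
      have h1 : l * t ∈ Ioo 0 T := by
        refine ⟨mul_pos hl ht.1, ?_⟩
        have := ht.2
        rw [lt_div_iff₀ hl, mul_comm] at this
        exact this
      have h2 := h.ver (hσ _ h1)
      have e1 : l * t / l = t := by field_simp
      rwa [e1] at h2

private theorem joins_back {φ φ' : ℂ → ℂ} {l : ℝ} (h : Aff Q φ φ' l) {z w : ℂ} (hz : z ∈ Q.U)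
    (hw : w ∈ Q.U) {x y : ℝ} (hj : Joins Q (φ z) (φ w) x y) :
    Joins Q z w (l⁻¹ * x) (l * y) := by
  have h1 := h.symm.joins hj
  rw [h.left z hz, h.left w hw, inv_inv] at h1
  exact h1

theorem Aff.du {φ φ' : ℂ → ℂ} {l : ℝ} (h : Aff Q φ φ' l) {z w : ℂ} (hz : z ∈ Q.U)
    (hw : w ∈ Q.U) : Geo2.du Q (φ z) (φ w) = l * Geo2.du Q z w := by
  have hl0 : l ≠ 0 := h.pos.ne'
  unfold Geo2.du
  rw [← smul_eq_mul, ← Real.sInf_smul_of_nonneg h.pos.le]
  congr 1
  ext x
  rw [Set.mem_smul_set]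
  constructor
  · rintro ⟨y, hj⟩
    refine ⟨l⁻¹ * x, ⟨_, joins_back h hz hw hj⟩, ?_⟩
    rw [smul_eq_mul, mul_inv_cancel_left₀ hl0]
  · rintro ⟨x', ⟨y, hj⟩, rfl⟩
    exact ⟨_, h.joins hj⟩

theorem Aff.ds {φ φ' : ℂ → ℂ} {l : ℝ} (h : Aff Q φ φ' l) {z w : ℂ} (hz : z ∈ Q.U)
    (hw : w ∈ Q.U) : Geo2.ds Q (φ z) (φ w) = l⁻¹ * Geo2.ds Q z w := by
  have hl0 : l ≠ 0 := h.pos.ne'
  unfold Geo2.ds
  rw [← smul_eq_mul, ← Real.sInf_smul_of_nonneg (inv_nonneg.2 h.pos.le)]
  congr 1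
  ext y
  rw [Set.mem_smul_set]
  constructor
  · rintro ⟨x, hj⟩
    refine ⟨l * y, ⟨_, joins_back h hz hw hj⟩, ?_⟩
    rw [smul_eq_mul, inv_mul_cancel_left₀ hl0]
  · rintro ⟨y', ⟨x, hj⟩, rfl⟩
    exact ⟨_, h.joins hj⟩

theorem Aff.d1_one {φ φ' : ℂ → ℂ} (h : Aff Q φ φ' 1) {z w : ℂ} (hz : z ∈ Q.U)
    (hw : w ∈ Q.U) : Geo2.d1 Q (φ z) (φ w) = Geo2.d1 Q z w := by
  unfold Geo2.d1
  congr 1
  ext s
  constructor
  · rintro ⟨x, y, hj, rfl⟩
    have h1 := joins_back h hz hw hj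
    rw [inv_one, one_mul, one_mul] at h1
    exact ⟨x, y, h1, rfl⟩
  · rintro ⟨x, y, hj, rfl⟩
    have h1 := h.joins hj
    rw [inv_one, one_mul, one_mul] at h1
    exact ⟨x, y, h1, rfl⟩

end Pool.Agent.ANO2.Geo2
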