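import Pool.Agent.ANO2.Geo2.LeafB

/-!
# ANO phase 2, Geo2: a complete leaf separates

Proof of `sep`.  Let `L0 = range σ`, a relatively closed subset of `U` (`leaf_closed`).  For `t : ℝ` choose a
flow box `χ_t` about `σ t` in the direction of `σ`: `χ_t` on the square of size `ρ_t` about `0`,
`χ_t 0 = σ t`, `χ_t u = σ (t + u)` for `|u| < ρ_t` (`box_exists` with `v = deriv σ t`, `box_arc`).  Put
`Up = ⋃_t χ_t (|x| < ρ_t, 0 < y < ρ_t)`, `Lo = ⋃_t χ_t (|x| < ρ_t, -ρ_t < y < 0)`, open sets.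

(a) `Up ∩ L0 = ∅ = Lo ∩ L0` by `leaf_box`.

(b) `Up ∩ Lo = ∅`.  Let `z = χ_t (x + i y) = χ_t' (x' - i y')`, `y, y' > 0`.  The vertical arcs
`α u = χ_t (x + i u)`, `0 ≤ u ≤ y`, from `σ (t + x)` to `z` and `β u = χ_t' (x' - i u)`, `0 ≤ u ≤ y'`,
from `σ (t' + x')` to `z` have a common end point (both are vertical on slightly larger intervals).
By `hor_two` for `-q` at `z` there are two cases.
(b1) `α (y + u) = β (y' - u)` near `u = 0`: `α` followed by the reversed `β` is a vertical arc of length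
`y + y'` from `σ (t + x)` to `σ (t' + x')`; with `Leaf.hc` and `HC.eq_of_vc` the length `y + y'` is `0`,
contradiction.
(b2) `α (y + u) = β (y' + u)` near `u = 0`.  If `y ≤ y'` (the other case is symmetric) then by `hor_eqOn`
`α (y + u) = β (y' + u)` for `-y ≤ u ≤ 0`, so `β (y' - y) = σ (t + x)` and `β` on `[0, y' - y]` is a vertical
arc from `σ (t' + x')` to `σ (t + x)`, so `y' = y` and `σ (t' + x') = σ (t + x)`, `t' + x' = t + x`.  So
`χ_t (x + i u) = χ_t' (x' - i u)` for small `|u|` (`hor_eqOn`), while both boxes map the horizontal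
direction to the direction of `σ` (`χ_t (x + v) = σ (t + x + v) = χ_t' (x' + v)`), so
`deriv χ_t x = deriv χ_t' x'` and `i deriv χ_t x = - i deriv χ_t' x'`: contradiction.

(c) `N = Up ∪ Lo ∪ L0` is open (it contains the full squares).  Let `u : ℂ → [0, 1]` be continuous on
`U`, `u = 1` on `L0`, `u = 0` on `U \ N` (Urysohn in the metric space `U`: quotient of distances, or
`exists_continuous_zero_one_of_isClosed` for the closed subsets of the subtype `U`).  Define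
`h z = exp (2 π i u z)` for `z ∈ Lo`, `h z = 1` for `z ∈ U \ Lo`.  `h : U → ℂ` is continuous (near a
point of `L0` one has `u → 1`; near a point of the frontier of `Lo` in `U` outside `L0` the point is not in
`N` (it is not in `Up`, open and disjoint from `Lo`), so `u → 0`), `|h| = 1`.  `U` is convex, so
there is a continuous `θ : U → ℝ` with `h = exp (2 π i θ)` (lifting through the covering
`exp`; as in `Pool/Agent/ANO/Geo/Sep.lean`).  Put `g = θ - u` on `Lo` and `g = θ` on `Up ∪ (U \ N)`; `g` is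
integer valued and continuous on `U \ L0`.  On `L0` `θ` is integer valued and continuous, `L0` is
connected, so `θ = k` on `L0`.  So near a point of `L0` `g = k` on `Up` and `g = k - 1` on `Lo`.

(d) `R = {g ≥ k}`, `L = {g ≤ k - 1}` are open, disjoint, their union is `U \ L0`.  If `τ` is vertical near
`t0` and `τ t0 = σ t` then near `t0` `τ` is the line `χ_t (i e (u - t0))`, `e = ± 1` (`box_arc_ver`), so
it crosses from `Lo` to `Up` or conversely.
-/

set_option autoImplicit false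

open Set Filter Topology

namespace Pool.Agent.ANO2.Geo2

variable {Q : QD}

/-- Two integers at real distance less than one are equal. -/
private lemma int_eq_Sep (a b : ℤ) (h : |(a : ℝ) - b| < 1) : a = b := by
  have h1 : |((a - b : ℤ) : ℝ)| < 1 := by push_cast; exact h
  have h2 : |a - b| < 1 := by
    rw [← Int.cast_abs] at h1
    exact_mod_cast h1
  have h3 := Int.abs_lt_one_iff.1 h2
  omega

/-- Lifting: a function which jumps by one across the closed connected set `L0`. -/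
private lemma jump_Sep {X : Type} [TopologicalSpace X] [NormalSpace X] [SimplyConnectedSpace X]
    [LocallyPathConnectedSpace X] (x0 : X) {Up Lo N L0 : Set X} (hUp : IsOpen Up) (hLo : IsOpen Lo)
    (hN : IsOpen N) (hL0 : IsClosed L0) (hd : Disjoint Up Lo) (hLN : L0 ⊆ N)
    (hN' : N ⊆ Up ∪ Lo ∪ L0) (hdL : Disjoint Lo L0) (hc : IsPreconnected L0) :
    ∃ (k : X → ℤ) (k0 : ℤ), (∀ p, p ∉ L0 → ∀ᶠ p' in 𝓝 p, k p' = k p) ∧
      ∀ m ∈ L0, ∀ᶠ p in 𝓝 m, (p ∈ Up → k p = k0) ∧ (p ∈ Lo → k p = k0 - 1) := by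
  classical
  have hpi : (0 : ℝ) < 2 * Real.pi := by positivity
  have hdis : Disjoint Nᶜ L0 := by
    rw [Set.disjoint_left]
    intro p h1 h2
    exact h1 (hLN h2)
  obtain ⟨u, hu0, hu1, -⟩ := exists_continuous_zero_one_of_isClosed hN.isClosed_compl hL0 hdis
  have hu0' : ∀ p, p ∉ N → u p = 0 := fun p h => hu0 h
  have hu1' : ∀ p, p ∈ L0 → u p = 1 := fun p h => hu1 h
  have hexp : ∀ p, p ∉ Lo → p ∉ Up → Circle.exp (2 * Real.pi * u p) = 1 := by
    intro p h1 h2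
    by_cases h3 : p ∈ L0
    · rw [hu1' p h3, mul_one, Circle.exp_two_pi]
    · have h4 : p ∉ N := fun h4 => by
        rcases hN' h4 with (h5 | h5) | h5
        · exact h2 h5
        · exact h1 h5
        · exact h3 h5
      rw [hu0' p h4, mul_zero, Circle.exp_zero]
  have hE : Continuous fun p => Circle.exp (2 * Real.pi * u p) :=
    Circle.exp.continuous.comp (continuous_const.mul u.continuous)
  have hcont : Continuous (fun p => if p ∈ Lo then Circle.exp (2 * Real.pi * u p) else 1) := by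
    rw [continuous_iff_continuousAt]
    intro p
    by_cases h1 : p ∈ Lo
    · refine hE.continuousAt.congr ?_
      filter_upwards [hLo.mem_nhds h1] with p' hp'
      rw [if_pos hp']
    · by_cases h2 : p ∈ Up
      · refine (continuousAt_const (y := (1 : Circle))).congr ?_
        filter_upwards [hUp.mem_nhds h2] with p' hp'
        rw [if_neg fun h3 => Set.disjoint_left.1 hd hp' h3]
      · have h3 : Tendsto (fun p' => Circle.exp (2 * Real.pi * u p')) (𝓝 p) (𝓝 1) := by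
          have h4 := hE.continuousAt (x := p)
          rw [ContinuousAt, hexp p h1 h2] at h4
          exact h4
        rw [ContinuousAt, if_neg h1]
        intro V hV
        show {p' | (if p' ∈ Lo then Circle.exp (2 * Real.pi * u p') else 1) ∈ V} ∈ 𝓝 p
        filter_upwards [h3 hV] with p' hp'
        show (if p' ∈ Lo then Circle.exp (2 * Real.pi * u p') else 1) ∈ V
        split_ifs
        · exact hp'
        · exact mem_of_mem_nhds hV
  let f : C(X, Circle) := ⟨_, hcont⟩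
  have hfv : ∀ p, f p = if p ∈ Lo then Circle.exp (2 * Real.pi * u p) else 1 := fun p => rfl
  have he : Circle.exp (Complex.arg (f x0)) = f x0 := Circle.exp_arg _
  obtain ⟨F, ⟨-, hF⟩, -⟩ := Circle.isCoveringMap_exp.existsUnique_continuousMap_lifts f
    x0 (Complex.arg (f x0)) he
  have hFp : ∀ p, Circle.exp (F p) = f p := fun p => congrFun hF p
  have key : ∀ p, ∃ k : ℤ, (p ∈ Lo → (k : ℝ) = F p / (2 * Real.pi) - u p) ∧
      (p ∉ Lo → (k : ℝ) = F p / (2 * Real.pi)) := by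
    intro p
    by_cases hlt : p ∈ Lo
    · have h2 : Circle.exp (F p) = Circle.exp (2 * Real.pi * u p) := by
        rw [hFp, hfv, if_pos hlt]
      obtain ⟨m, hm⟩ := Circle.exp_eq_exp.1 h2
      refine ⟨m, fun _ => ?_, fun h => absurd hlt h⟩
      rw [hm]
      field_simp
      ring
    · have h2 : Circle.exp (F p) = Circle.exp 0 := by
        rw [hFp, hfv, if_neg hlt, Circle.exp_zero]
      obtain ⟨m, hm⟩ := Circle.exp_eq_exp.1 h2
      refine ⟨m, fun h => absurd h hlt, fun _ => ?_⟩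
      rw [hm, zero_add]
      field_simp
  choose k hk1 hk2 using key
  have hθ : Continuous fun p => F p / (2 * Real.pi) := F.continuous.div_const _
  have hθn : ∀ p, ∀ᶠ p' in 𝓝 p, |F p' / (2 * Real.pi) - F p / (2 * Real.pi)| < 1 / 2 := by
    intro p
    have h := Metric.tendsto_nhds.1 (hθ.tendsto p) (1 / 2) (by norm_num)
    simpa only [Real.dist_eq] using h
  have hun : ∀ p, ∀ᶠ p' in 𝓝 p, |u p' - u p| < 1 / 2 := by
    intro p
    have h := Metric.tendsto_nhds.1 (u.continuous.tendsto p) (1 / 2) (by norm_num)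
    simpa only [Real.dist_eq] using h
  have hoff : ∀ p, p ∉ L0 → ∀ᶠ p' in 𝓝 p, k p' = k p := by
    intro p hp
    by_cases h : p ∈ Lo
    · filter_upwards [hθn p, hun p, hLo.mem_nhds h] with q h1 h2 h3
      refine int_eq_Sep _ _ ?_
      rw [hk1 q h3, hk1 p h]
      rw [abs_lt] at *
      constructor <;> linarith [h1.1, h1.2, h2.1, h2.2]
    · by_cases h' : p ∈ Up
      · filter_upwards [hθn p, hUp.mem_nhds h'] with q h1 h3
        refine int_eq_Sep _ _ ?_
        rw [hk2 q fun h4 => Set.disjoint_left.1 hd h3 h4, hk2 p h]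
        exact lt_trans h1 (by norm_num)
      · have hup : u p = 0 := by
          apply hu0'
          intro h4
          rcases hN' h4 with (h5 | h5) | h5
          · exact h' h5
          · exact h h5
          · exact hp h5
        filter_upwards [hθn p, hun p] with q h1 h2
        refine int_eq_Sep _ _ ?_
        rw [hk2 p h]
        rw [hup] at h2
        rw [abs_lt] at *
        by_cases h3 : q ∈ Lo
        · rw [hk1 q h3]
          constructor <;> linarith [h1.1, h1.2, h2.1, h2.2]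
        · rw [hk2 q h3]
          constructor <;> linarith [h1.1, h1.2]
  have hL0Lo : ∀ m ∈ L0, m ∉ Lo := fun m hm h => Set.disjoint_left.1 hdL h hm
  have hkc : ContinuousOn k L0 := by
    intro m hm
    have h : ∀ᶠ q in 𝓝[L0] m, k q = k m := by
      filter_upwards [nhdsWithin_le_nhds (hθn m), self_mem_nhdsWithin] with q h1 h2
      refine int_eq_Sep _ _ ?_
      rw [hk2 q (hL0Lo q h2), hk2 m (hL0Lo m hm)]
      exact lt_trans h1 (by norm_num)
    have h2 : ∀ᶠ q in 𝓝[L0] m, k m = k q := h.mono fun _ hq => hq.symm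
    exact (tendsto_const_nhds (x := k m) (f := 𝓝[L0] m)).congr' h2
  have hon : ∀ m ∈ L0, ∀ᶠ p in 𝓝 m, (p ∈ Up → k p = k m) ∧ (p ∈ Lo → k p = k m - 1) := by
    intro m hm
    filter_upwards [hθn m, hun m] with p h1 h2
    rw [hu1' m hm] at h2
    rw [abs_lt] at h1 h2
    constructor
    · intro h
      refine int_eq_Sep _ _ ?_
      rw [hk2 p fun h4 => Set.disjoint_left.1 hd h h4, hk2 m (hL0Lo m hm), abs_lt]
      constructor <;> linarith [h1.1, h1.2]
    · intro h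
      refine int_eq_Sep _ _ ?_
      push_cast
      rw [hk1 p h, hk2 m (hL0Lo m hm), abs_lt]
      constructor <;> linarith [h1.1, h1.2, h2.1, h2.2]
  rcases L0.eq_empty_or_nonempty with hLe | ⟨m₀, hm₀⟩
  · refine ⟨k, 0, hoff, ?_⟩
    intro m hm
    rw [hLe] at hm
    exact absurd hm (Set.notMem_empty m)
  · refine ⟨k, k m₀, hoff, ?_⟩
    intro m hm
    have h := hon m hm
    rw [hc.constant hkc hm hm₀] at h
    exact h

/-- The derivative of a flow box along the real line, as the derivative of a curve. -/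
private lemma box_line_Sep (B : Box Q) {w : ℂ} (hw : w ∈ B.dom) (v : ℂ) :
    HasDerivAt (fun u : ℝ => B.χ (w + (u : ℂ) * v)) (deriv B.χ w * v) 0 := by
  have h1 : HasDerivAt (fun u : ℝ => w + (u : ℂ) * v) v 0 := by
    have h2 : HasDerivAt (fun u : ℝ => (u : ℂ)) 1 (0 : ℝ) := Complex.ofRealCLM.hasDerivAt
    simpa using (h2.mul_const v).const_add w
  have h3 : HasDerivAt B.χ (deriv B.χ w) (w + ((0 : ℝ) : ℂ) * v) := by
    rw [Complex.ofReal_zero, zero_mul, add_zero]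
    exact (B.holo.differentiableAt (B.isOpen_dom.mem_nhds hw)).hasDerivAt
  exact HasDerivAt.comp (h₂ := B.χ) (0 : ℝ) h3 h1

/-- A flow box about a point of the leaf, in the direction of the leaf. -/
private lemma leafbox_Sep {σ : ℝ → ℂ} (hL : Leaf Q σ) (t : ℝ) : ∃ (ρ : ℝ) (B : Box Q), 0 < ρ ∧
    B.dom = Ioo (-ρ) ρ ×ℂ Ioo (-ρ) ρ ∧ ∀ u ∈ Ioo (-ρ) ρ, B.χ (u : ℂ) = σ (t + u) := by
  obtain ⟨hU, v, hv, hq⟩ := hL t
  obtain ⟨ρ, hρ, B, ha, hb, hc, hd, hχ, hder, -⟩ := box_exists Q hU hq (W := univ) univ_mem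
  have hdom : B.dom = Ioo (-ρ) ρ ×ℂ Ioo (-ρ) ρ := by rw [Box.dom, ha, hb, hc, hd]
  have h0 : (0 : ℂ) ∈ B.dom := by
    rw [hdom, Complex.mem_reProdIm]
    simp [hρ]
  have hmem : ∀ u ∈ Ioo (-ρ) ρ, (u : ℂ) ∈ B.dom := by
    intro u hu
    rw [hdom, Complex.mem_reProdIm]
    simp only [Complex.ofReal_re, Complex.ofReal_im]
    exact ⟨hu, by simp [hρ]⟩
  have hτ : ∀ u ∈ Ioo (-ρ) ρ, Hor Q (fun s : ℝ => B.χ (s : ℂ)) (0 + u) := by
    intro u hu
    rw [zero_add]
    have h1 := hor_of_box B (w := 0) (e := 1) (Or.inl rfl) (t := u)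
      (by simpa using hmem u hu)
    simpa using h1
  refine ⟨ρ, B, hρ, hdom, ?_⟩
  have hv0 : v ≠ 0 := by
    rintro rfl
    simp at hq
  have hσd : HasDerivAt (fun u : ℝ => σ (t + u)) v 0 := by
    have h1 : HasDerivAt σ v (t + 0) := by rwa [add_zero]
    exact HasDerivAt.comp_const_add t 0 h1
  have hχd : HasDerivAt (fun u : ℝ => B.χ (u : ℂ)) v 0 := by
    have h1 := box_line_Sep B h0 1
    simpa [hder] using h1
  rcases hor_two hρ (fun u _ => hL (t + u)) hτ (by simpa using hχ.symm) with h | h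
  · intro u hu
    have := h u hu
    simpa using this.symm
  · exfalso
    have h1 : HasDerivAt (fun u : ℝ => B.χ ((0 - u : ℝ) : ℂ)) (-v) 0 := by
      have h2 : HasDerivAt (fun u : ℝ => B.χ (u : ℂ)) v (0 - 0) := by rwa [sub_zero]
      exact HasDerivAt.comp_const_sub 0 0 h2
    have h3 : (fun u : ℝ => σ (t + u)) =ᶠ[𝓝 0] fun u : ℝ => B.χ ((0 - u : ℝ) : ℂ) := by
      filter_upwards [Ioo_mem_nhds (neg_neg_of_pos hρ) hρ] with u hu
      exact h u hu
    have h4 := (h1.congr_of_eventuallyEq h3).unique hσd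
    have h5 : v = 0 := by linear_combination (-1 / 2 : ℂ) * h4
    exact hv0 h5

/-- Points above and below the leaf in two flow boxes are different. -/
private lemma disj_Sep {σ : ℝ → ℂ} (hL : Leaf Q σ) {t t' ρ ρ' : ℝ} {B B' : Box Q}
    (hd : B.dom = Ioo (-ρ) ρ ×ℂ Ioo (-ρ) ρ) (hσ : ∀ u ∈ Ioo (-ρ) ρ, B.χ (u : ℂ) = σ (t + u))
    (hd' : B'.dom = Ioo (-ρ') ρ' ×ℂ Ioo (-ρ') ρ')
    (hσ' : ∀ u ∈ Ioo (-ρ') ρ', B'.χ (u : ℂ) = σ (t' + u)) {x y x' y' : ℝ}
    (hx : x ∈ Ioo (-ρ) ρ) (hy : y ∈ Ioo 0 ρ) (hx' : x' ∈ Ioo (-ρ') ρ') (hy' : y' ∈ Ioo 0 ρ')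
    (h : B.χ ((x : ℂ) + (y : ℂ) * Complex.I) = B'.χ ((x' : ℂ) + ((-1 * y' : ℝ) : ℂ) * Complex.I)) :
    False := by
  have hmem : ∀ (x u : ℝ), x ∈ Ioo (-ρ) ρ → u ∈ Ioo (-ρ) ρ →
      (x : ℂ) + (u : ℂ) * Complex.I ∈ B.dom := by
    intro x u hx hu
    rw [hd, Complex.mem_reProdIm]
    simp only [Complex.add_re, Complex.ofReal_re, Complex.mul_re, Complex.I_re, mul_zero,
      Complex.ofReal_im, Complex.I_im, mul_one, sub_self, add_zero, Complex.add_im,
      Complex.mul_im, zero_add]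
    exact ⟨hx, hu⟩
  have hmem' : ∀ (x u : ℝ), x ∈ Ioo (-ρ') ρ' → u ∈ Ioo (-ρ') ρ' →
      (x : ℂ) + (u : ℂ) * Complex.I ∈ B'.dom := by
    intro x u hx hu
    rw [hd', Complex.mem_reProdIm]
    simp only [Complex.add_re, Complex.ofReal_re, Complex.mul_re, Complex.I_re, mul_zero,
      Complex.ofReal_im, Complex.I_im, mul_one, sub_self, add_zero, Complex.add_im,
      Complex.mul_im, zero_add]
    exact ⟨hx, hu⟩
  have hρ : 0 < ρ := hy.1.trans hy.2
  have hρ' : 0 < ρ' := hy'.1.trans hy'.2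
  have h0 : (0 : ℝ) ∈ Ioo (-ρ) ρ := ⟨by linarith, hρ⟩
  have h0' : (0 : ℝ) ∈ Ioo (-ρ') ρ' := ⟨by linarith, hρ'⟩
  set α : ℝ → ℂ := fun u => B.χ ((x : ℂ) + ((1 * u : ℝ) : ℂ) * Complex.I) with hα
  set β : ℝ → ℂ := fun u => B'.χ ((x' : ℂ) + ((-1 * u : ℝ) : ℂ) * Complex.I) with hβ
  have hαv : ∀ u ∈ Ioo (-ρ) ρ, Hor Q.neg α u := fun u hu =>
    ver_of_box B (Or.inl rfl) (by rw [one_mul]; exact hmem x u hx hu)
  have hβv : ∀ u ∈ Ioo (-ρ') ρ', Hor Q.neg β u := fun u hu =>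
    ver_of_box B' (Or.inr rfl) (hmem' x' _ hx' ⟨by linarith [hu.2], by linarith [hu.1]⟩)
  have hα0 : α 0 = σ (t + x) := by
    rw [hα]
    simp only [mul_zero, Complex.ofReal_zero, zero_mul, add_zero]
    exact hσ x hx
  have hβ0 : β 0 = σ (t' + x') := by
    rw [hβ]
    simp only [mul_zero, Complex.ofReal_zero, zero_mul, add_zero]
    exact hσ' x' hx'
  have hαβ : α y = β y' := by
    rw [hα, hβ]
    simp only [one_mul]
    exact h
  have hc1 : HC Q.neg (σ (t + x)) (α y) y := ⟨hy.1.le, α, fun u hu =>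
    hαv u ⟨by linarith [hu.1], by linarith [hu.2, hy.2]⟩, hα0, rfl⟩
  have hc2 : HC Q.neg (σ (t' + x')) (α y) y' := ⟨hy'.1.le, β, fun u hu =>
    hβv u ⟨by linarith [hu.1], by linarith [hu.2, hy'.2]⟩, hβ0, hαβ.symm⟩
  obtain ⟨s'', hc3⟩ := hc1.trans hc2.symm
  obtain ⟨hpt, -, -⟩ := HC.eq_of_vc (hL.hc (t + x) (t' + x')) hc3
  have htt : t + x = t' + x' := hL.injective hpt
  -- the two vertical arcs have opposite velocities at their common starting point
  obtain ⟨-, v, hv, hq⟩ := hL (t + x)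
  have hv0 : v ≠ 0 := by
    rintro rfl
    simp at hq
  have hder : deriv B.χ (x : ℂ) = v := by
    have h1 := box_line_Sep B (w := (x : ℂ)) (by simpa using hmem x 0 hx h0) 1
    rw [mul_one] at h1
    have h2 : HasDerivAt (fun u : ℝ => σ (t + x + u)) v 0 := by
      have h3 : HasDerivAt σ v (t + x + 0) := by rwa [add_zero]
      exact HasDerivAt.comp_const_add (t + x) 0 h3
    refine h1.unique (h2.congr_of_eventuallyEq ?_)
    have h4 : ∀ᶠ u : ℝ in 𝓝 0, x + u ∈ Ioo (-ρ) ρ := by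
      have h5 : ContinuousAt (fun u : ℝ => x + u) 0 := by fun_prop
      exact h5.eventually_mem (Ioo_mem_nhds (by simpa using hx.1) (by simpa using hx.2))
    filter_upwards [h4] with u hu
    have h6 := hσ _ hu
    push_cast at h6
    rw [mul_one, h6, add_assoc]
  have hder' : deriv B'.χ (x' : ℂ) = v := by
    have h1 := box_line_Sep B' (w := (x' : ℂ)) (by simpa using hmem' x' 0 hx' h0') 1
    rw [mul_one] at h1
    have h2 : HasDerivAt (fun u : ℝ => σ (t' + x' + u)) v 0 := by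
      have h3 : HasDerivAt σ v (t' + x' + 0) := by rwa [add_zero, ← htt]
      exact HasDerivAt.comp_const_add (t' + x') 0 h3
    refine h1.unique (h2.congr_of_eventuallyEq ?_)
    have h4 : ∀ᶠ u : ℝ in 𝓝 0, x' + u ∈ Ioo (-ρ') ρ' := by
      have h5 : ContinuousAt (fun u : ℝ => x' + u) 0 := by fun_prop
      exact h5.eventually_mem (Ioo_mem_nhds (by simpa using hx'.1) (by simpa using hx'.2))
    filter_upwards [h4] with u hu
    have h6 := hσ' _ hu
    push_cast at h6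
    rw [mul_one, h6, add_assoc]
  have hαd : HasDerivAt α (v * Complex.I) 0 := by
    have h1 := box_line_Sep B (w := (x : ℂ)) (by simpa using hmem x 0 hx h0) Complex.I
    rw [hder] at h1
    simpa [hα] using h1
  have hβd : HasDerivAt β (v * (-Complex.I)) 0 := by
    have h1 := box_line_Sep B' (w := (x' : ℂ)) (by simpa using hmem' x' 0 hx' h0') (-Complex.I)
    rw [hder'] at h1
    simpa [hβ] using h1
  have hr : 0 < min ρ ρ' := lt_min hρ hρ'
  have key : ∀ u ∈ Ioo (-(min ρ ρ')) (min ρ ρ'), α (0 + u) = β (0 - u) := by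
    rcases hor_two (Q := Q.neg) (σ := α) (τ := β) (t0 := 0) (s0 := 0) hr
      (fun u hu => by
        rw [zero_add]
        exact hαv u ⟨by linarith [hu.1, min_le_left ρ ρ'], by linarith [hu.2, min_le_left ρ ρ']⟩)
      (fun u hu => by
        rw [zero_add]
        exact hβv u ⟨by linarith [hu.1, min_le_right ρ ρ'],
          by linarith [hu.2, min_le_right ρ ρ']⟩)
      (by rw [hα0, hβ0, hpt]) with h1 | h1
    · exfalso
      have h2 : α =ᶠ[𝓝 0] β := by
        filter_upwards [Ioo_mem_nhds (neg_neg_of_pos hr) hr] with u hu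
        simpa using h1 u hu
      have h3 := (hβd.congr_of_eventuallyEq h2).unique hαd
      have h4 : v * Complex.I = 0 := by linear_combination (-1 / 2 : ℂ) * h3
      rcases mul_eq_zero.1 h4 with h5 | h5
      · exact hv0 h5
      · exact Complex.I_ne_zero h5
    · exact h1
  -- the concatenation is an injective vertical arc
  have hγ : ∀ u ∈ Icc (-y') y, Hor Q.neg (fun s => if 0 ≤ s then α s else β (0 - s)) u := by
    intro u hu
    rcases lt_trichotomy u 0 with h1 | h1 | h1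
    · have h2 : Hor Q.neg (fun s => β (0 - s)) u :=
        Hor.neg_time (hβv _ ⟨by linarith, by linarith [hu.1, hy'.2]⟩)
      refine h2.congr ?_
      filter_upwards [Iio_mem_nhds h1] with s hs
      rw [if_neg (not_le.2 hs)]
    · subst h1
      refine (hαv 0 h0).congr ?_
      filter_upwards [Ioo_mem_nhds (neg_neg_of_pos hr) hr] with s hs
      split_ifs with h2
      · rfl
      · have := key s hs
        rw [zero_add] at this
        exact this.symm
    · refine (hαv u ⟨by linarith, by linarith [hu.2, hy.2]⟩).congr ?_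
      filter_upwards [Ioi_mem_nhds h1] with s hs
      rw [if_pos (le_of_lt hs)]
  have hinj := hor_injOn (Q := Q.neg) hγ
  have h1 : -y' = y := by
    apply hinj ⟨le_rfl, by linarith [hy.1, hy'.1]⟩ ⟨by linarith [hy.1, hy'.1], le_rfl⟩
    show (if 0 ≤ -y' then α (-y') else β (0 - -y')) = if 0 ≤ y then α y else β (0 - y)
    rw [if_pos hy.1.le, if_neg (by linarith [hy'.1]), hαβ]
    congr 1
    ring
  linarith [hy.1, hy'.1]

/-- The side of a box. -/
private lemma isOpen_side_Sep (B : Box Q) {ρ : ℝ} (hρ : 0 < ρ)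
    (hd : B.dom = Ioo (-ρ) ρ ×ℂ Ioo (-ρ) ρ) {c d : ℝ} (hcd : c < d) (hc : -ρ ≤ c) (hd' : d ≤ ρ) :
    IsOpen (B.χ '' (Ioo (-ρ) ρ ×ℂ Ioo c d)) := by
  have hsub : Ioo (-ρ) ρ ×ℂ Ioo c d ⊆ B.dom := by
    rw [hd]
    intro w hw
    rw [Complex.mem_reProdIm] at hw ⊢
    exact ⟨hw.1, ⟨by linarith [hw.2.1], by linarith [hw.2.2]⟩⟩
  exact (B.restrict (by linarith : -ρ < ρ) hcd hsub).isOpen_img

theorem sep {σ : ℝ → ℂ} (hL : Leaf Q σ) : ∃ L R : Set ℂ, IsOpen L ∧ IsOpen R ∧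
    Disjoint L R ∧ L ∪ R = Q.U \ range σ ∧
    ∀ (τ : ℝ → ℂ) (t0 : ℝ), (∀ᶠ t in 𝓝 t0, Ver Q τ t) → τ t0 ∈ range σ →
      ((∀ᶠ t in 𝓝[<] t0, τ t ∈ L) ∧ (∀ᶠ t in 𝓝[>] t0, τ t ∈ R)) ∨
      ((∀ᶠ t in 𝓝[<] t0, τ t ∈ R) ∧ (∀ᶠ t in 𝓝[>] t0, τ t ∈ L)) := by
  choose ρ B hρ hdom hσ using leafbox_Sep hL
  have hσU : ∀ t, σ t ∈ Q.U := fun t => (hL t).1
  have hσc : Continuous σ := continuous_iff_continuousAt.2 fun t => (hL t).continuousAt
  have h00 : ∀ t, (⟨0, 0⟩ : ℂ) ∈ (B t).dom := by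
    intro t
    rw [hdom, Complex.mem_reProdIm]
    exact ⟨⟨by simpa using hρ t, hρ t⟩, ⟨by simpa using hρ t, hρ t⟩⟩
  have hχ0 : ∀ t, (B t).χ ⟨0, 0⟩ = σ t := by
    intro t
    have h1 := hσ t 0 ⟨by linarith [hρ t], hρ t⟩
    rw [add_zero] at h1
    exact h1
  set Up : Set ℂ := ⋃ t, (B t).χ '' (Ioo (-ρ t) (ρ t) ×ℂ Ioo 0 (ρ t)) with hUpdef
  set Lo : Set ℂ := ⋃ t, (B t).χ '' (Ioo (-ρ t) (ρ t) ×ℂ Ioo (-ρ t) 0) with hLodef
  set N : Set ℂ := ⋃ t, (B t).img with hNdef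
  have hUp : IsOpen Up := isOpen_iUnion fun t =>
    isOpen_side_Sep (B t) (hρ t) (hdom t) (hρ t) (by linarith [hρ t]) le_rfl
  have hLo : IsOpen Lo := isOpen_iUnion fun t =>
    isOpen_side_Sep (B t) (hρ t) (hdom t) (by linarith [hρ t]) le_rfl (hρ t).le
  have hN : IsOpen N := isOpen_iUnion fun t => (B t).isOpen_img
  have hsubU : ∀ (t : ℝ) (w : ℂ), w ∈ Ioo (-ρ t) (ρ t) ×ℂ Ioo 0 (ρ t) → w ∈ (B t).dom := by
    intro t w hw
    rw [Complex.mem_reProdIm] at hw
    rw [hdom, Complex.mem_reProdIm]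
    exact ⟨hw.1, ⟨by linarith [hw.2.1, hρ t], hw.2.2⟩⟩
  have hsubL : ∀ (t : ℝ) (w : ℂ), w ∈ Ioo (-ρ t) (ρ t) ×ℂ Ioo (-ρ t) 0 → w ∈ (B t).dom := by
    intro t w hw
    rw [Complex.mem_reProdIm] at hw
    rw [hdom, Complex.mem_reProdIm]
    exact ⟨hw.1, ⟨hw.2.1, by linarith [hw.2.2, hρ t]⟩⟩
  have hUpL : ∀ z ∈ Up, z ∉ range σ := by
    intro z hz
    obtain ⟨t, w, hw, rfl⟩ := mem_iUnion.1 hz
    intro h1
    have h2 := (leaf_box hL (B t) (h00 t) ⟨t, (hχ0 t).symm⟩ (x := w.re) (y := w.im)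
      (hsubU t w hw)).1 h1
    rw [Complex.mem_reProdIm] at hw
    linarith [hw.2.1]
  have hLoL : ∀ z ∈ Lo, z ∉ range σ := by
    intro z hz
    obtain ⟨t, w, hw, rfl⟩ := mem_iUnion.1 hz
    intro h1
    have h2 := (leaf_box hL (B t) (h00 t) ⟨t, (hχ0 t).symm⟩ (x := w.re) (y := w.im)
      (hsubL t w hw)).1 h1
    rw [Complex.mem_reProdIm] at hw
    linarith [hw.2.2]
  have hUL : Disjoint Up Lo := by
    rw [Set.disjoint_left]
    intro z hz hz'
    obtain ⟨t, w, hw, rfl⟩ := mem_iUnion.1 hz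
    obtain ⟨t', w', hw', h1⟩ := mem_iUnion.1 hz'
    rw [Complex.mem_reProdIm] at hw hw'
    refine disj_Sep hL (hdom t) (hσ t) (hdom t') (hσ t') (x := w.re) (y := w.im) (x' := w'.re)
      (y' := -w'.im) hw.1 hw.2 hw'.1 ⟨by linarith [hw'.2.2], by linarith [hw'.2.1]⟩ ?_
    have h2 : ((-1 * -w'.im : ℝ) : ℂ) = (w'.im : ℂ) := by push_cast; ring
    rw [h2, Complex.re_add_im, Complex.re_add_im, h1]
  have hLN : range σ ⊆ N := by
    rintro _ ⟨t, rfl⟩
    exact mem_iUnion.2 ⟨t, ⟨0, 0⟩, h00 t, hχ0 t⟩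
  have hN' : N ⊆ Up ∪ Lo ∪ range σ := by
    intro z hz
    obtain ⟨t, w, hw, rfl⟩ := mem_iUnion.1 hz
    have hw' := hw
    rw [hdom, Complex.mem_reProdIm] at hw'
    rcases lt_trichotomy w.im 0 with h1 | h1 | h1
    · refine Or.inl (Or.inr (mem_iUnion.2 ⟨t, w, ?_, rfl⟩))
      rw [Complex.mem_reProdIm]
      exact ⟨hw'.1, ⟨hw'.2.1, h1⟩⟩
    · refine Or.inr ⟨t + w.re, ?_⟩
      rw [← hσ t w.re hw'.1]
      congr 1
      apply Complex.ext <;> simp [h1]
    · refine Or.inl (Or.inl (mem_iUnion.2 ⟨t, w, ?_, rfl⟩))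
      rw [Complex.mem_reProdIm]
      exact ⟨hw'.1, ⟨h1, hw'.2.2⟩⟩
  -- the space `U`
  have hcs : ContractibleSpace Q.U := Q.convex.contractibleSpace ⟨σ 0, hσU 0⟩
  have hlp : LocallyPathConnectedSpace Q.U := Q.isOpen.locallyPathConnectedSpace
  have hclosed : IsClosed ((↑) ⁻¹' range σ : Set Q.U) := by
    rw [← closure_subset_iff_isClosed]
    intro p hp
    have h1 := continuous_subtype_val.closure_preimage_subset (range σ) hp
    exact leaf_closed hL p.2 h1
  have hpre : IsPreconnected ((↑) ⁻¹' range σ : Set Q.U) := by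
    have h1 : ((↑) ⁻¹' range σ : Set Q.U) = range (fun t => (⟨σ t, hσU t⟩ : Q.U)) := by
      ext p
      constructor
      · rintro ⟨t, ht⟩
        exact ⟨t, Subtype.ext ht⟩
      · rintro ⟨t, rfl⟩
        exact ⟨t, rfl⟩
    rw [h1]
    exact isPreconnected_range (hσc.subtype_mk hσU)
  obtain ⟨k, k0, hk1, hk2⟩ := jump_Sep (X := Q.U) ⟨σ 0, hσU 0⟩
    (hUp.preimage continuous_subtype_val) (hLo.preimage continuous_subtype_val)
    (hN.preimage continuous_subtype_val) hclosed (hUL.preimage _) (preimage_mono hLN)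
    (by
      rw [← preimage_union, ← preimage_union]
      exact preimage_mono hN')
    (by
      rw [Set.disjoint_left]
      intro p h1 h2
      exact hLoL _ h1 h2) hpre
  have hop : ∀ P : ℤ → Prop,
      IsOpen ((↑) '' {p : Q.U | (p : ℂ) ∉ range σ ∧ P (k p)} : Set ℂ) := by
    intro P
    apply Q.isOpen.isOpenMap_subtype_val
    rw [isOpen_iff_mem_nhds]
    rintro p ⟨h1, h2⟩
    filter_upwards [hclosed.isOpen_compl.mem_nhds h1, hk1 p h1] with p' h3 h4
    exact ⟨h3, by rw [h4]; exact h2⟩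
  refine ⟨(↑) '' {p : Q.U | (p : ℂ) ∉ range σ ∧ k p < k0},
    (↑) '' {p : Q.U | (p : ℂ) ∉ range σ ∧ k0 ≤ k p}, hop fun n => n < k0,
    hop fun n => k0 ≤ n, ?_, ?_, ?_⟩
  · rw [Set.disjoint_left]
    rintro _ ⟨p, ⟨-, h1⟩, rfl⟩ ⟨p', ⟨-, h2⟩, h3⟩
    have h4 : p' = p := Subtype.ext h3
    subst h4
    omega
  · ext z
    constructor
    · rintro (⟨p, ⟨h1, -⟩, rfl⟩ | ⟨p, ⟨h1, -⟩, rfl⟩)
      · exact ⟨p.2, h1⟩
      · exact ⟨p.2, h1⟩
    · rintro ⟨h1, h2⟩
      rcases lt_or_ge (k ⟨z, h1⟩) k0 with h3 | h3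
      · exact Or.inl ⟨⟨z, h1⟩, ⟨h2, h3⟩, rfl⟩
      · exact Or.inr ⟨⟨z, h1⟩, ⟨h2, h3⟩, rfl⟩
  · intro τ t0 hτ h0
    obtain ⟨t, ht⟩ := h0
    -- near the leaf the sides are as expected
    have hside : ∀ᶠ z in 𝓝 (σ t),
        (z ∈ Up → z ∈ ((↑) '' {p : Q.U | (p : ℂ) ∉ range σ ∧ k0 ≤ k p} : Set ℂ)) ∧
        (z ∈ Lo → z ∈ ((↑) '' {p : Q.U | (p : ℂ) ∉ range σ ∧ k p < k0} : Set ℂ)) := by
      rw [← map_nhds_subtype_coe_eq_nhds (hσU t) (Q.isOpen.mem_nhds (hσU t)), eventually_map]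
      filter_upwards [hk2 ⟨σ t, hσU t⟩ ⟨t, rfl⟩] with p hp
      refine ⟨fun h1 => ⟨p, ⟨hUpL _ h1, ?_⟩, rfl⟩, fun h1 => ⟨p, ⟨hLoL _ h1, ?_⟩, rfl⟩⟩
      · rw [hp.1 h1]
      · rw [hp.2 h1]
        omega
    have hτc : ContinuousAt τ t0 := hτ.self_of_nhds.continuousAt
    have himg : ∀ᶠ s in 𝓝 t0, τ s ∈ (B t).img := by
      apply hτc.eventually_mem
      rw [← ht]
      exact (B t).isOpen_img.mem_nhds ⟨⟨0, 0⟩, h00 t, hχ0 t⟩
    obtain ⟨ε, hε, hball⟩ := Metric.eventually_nhds_iff_ball.1 (hτ.and himg)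
    rw [Real.ball_eq_Ioo] at hball
    obtain ⟨x, y, e, he, hline⟩ := box_arc_ver (B t) (a := t0 - ε) (b := t0 + ε) (by linarith)
      (fun s hs => (hball s hs).1) (fun s hs => (hball s hs).2)
    have ht0 := hline t0 ⟨by linarith, by linarith⟩
    have hxy : (⟨x, y + e * t0⟩ : ℂ) = ⟨0, 0⟩ := by
      apply (B t).inj ht0.1 (h00 t)
      rw [← ht0.2, hχ0 t, ht]
    have hx : x = 0 := congrArg Complex.re hxy
    have hy : y + e * t0 = 0 := congrArg Complex.im hxy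
    have hev : ∀ᶠ s in 𝓝 t0, (e * (s - t0) < 0 → τ s ∈
        ((↑) '' {p : Q.U | (p : ℂ) ∉ range σ ∧ k p < k0} : Set ℂ)) ∧ (0 < e * (s - t0) → τ s ∈
        ((↑) '' {p : Q.U | (p : ℂ) ∉ range σ ∧ k0 ≤ k p} : Set ℂ)) := by
      have h1 : ∀ᶠ s in 𝓝 t0, (τ s ∈ Up → τ s ∈
          ((↑) '' {p : Q.U | (p : ℂ) ∉ range σ ∧ k0 ≤ k p} : Set ℂ)) ∧
          (τ s ∈ Lo → τ s ∈ ((↑) '' {p : Q.U | (p : ℂ) ∉ range σ ∧ k p < k0} : Set ℂ)) := by
        rw [ht] at hside
        exact hτc.eventually hside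
      filter_upwards [h1, Ioo_mem_nhds (by linarith : t0 - ε < t0) (by linarith : t0 < t0 + ε)]
        with s h2 h3
      obtain ⟨h4, h5⟩ := hline s h3
      have h6 := h4
      rw [hdom, Complex.mem_reProdIm] at h6
      have h7 : y + e * s = e * (s - t0) := by linarith
      refine ⟨fun h8 => h2.2 (mem_iUnion.2 ⟨t, _, ?_, h5.symm⟩),
        fun h8 => h2.1 (mem_iUnion.2 ⟨t, _, ?_, h5.symm⟩)⟩
      · rw [Complex.mem_reProdIm]
        exact ⟨h6.1, ⟨h6.2.1, by show y + e * s < 0; linarith⟩⟩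
      · rw [Complex.mem_reProdIm]
        exact ⟨h6.1, ⟨by show 0 < y + e * s; linarith, h6.2.2⟩⟩
    rcases he with rfl | rfl
    · left
      constructor
      · filter_upwards [nhdsWithin_le_nhds hev, self_mem_nhdsWithin] with s h1 h2
        exact h1.1 (by have : s < t0 := h2; linarith)
      · filter_upwards [nhdsWithin_le_nhds hev, self_mem_nhdsWithin] with s h1 h2
        exact h1.2 (by have : t0 < s := h2; linarith)
    · right
      constructor
      · filter_upwards [nhdsWithin_le_nhds hev, self_mem_nhdsWithin] with s h1 h2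
        exact h1.2 (by have : s < t0 := h2; linarith)
      · filter_upwards [nhdsWithin_le_nhds hev, self_mem_nhdsWithin] with s h1 h2
        exact h1.1 (by have : t0 < s := h2; linarith)

/-- If a path `c` crosses the leaf exactly once, transversally, then every path with the same end
points meets the leaf.  (`c` restricted to `[a, t0)` is connected and avoids the leaf, so it is in
`L` or in `R`; the same for `(t0, b]`; by `sep` the end points of `c` are on different sides; if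
`c'` did not meet the leaf it would be in `L` or in `R`.) -/
theorem meets {σ : ℝ → ℂ} (hL : Leaf Q σ) {c : ℝ → ℂ} {a b t0 : ℝ} (ht0 : t0 ∈ Ioo a b)
    (hc : ContinuousOn c (Icc a b)) (hcU : ∀ t ∈ Icc a b, c t ∈ Q.U)
    (hv : ∀ᶠ t in 𝓝 t0, Ver Q c t) (h0 : c t0 ∈ range σ)
    (honce : ∀ t ∈ Icc a b, c t ∈ range σ → t = t0) {c' : ℝ → ℂ} {a' b' : ℝ} (hab' : a' ≤ b')
    (hc' : ContinuousOn c' (Icc a' b')) (hcU' : ∀ t ∈ Icc a' b', c' t ∈ Q.U)
    (ha : c' a' = c a) (hb : c' b' = c b) : ∃ s ∈ Icc a' b', c' s ∈ range σ := by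
  by_contra hno
  push Not at hno
  obtain ⟨L, R, hLo, hRo, hd, hu, hcr⟩ := sep hL
  have hS1 : c '' Ico a t0 ⊆ L ∪ R := by
    rw [hu]
    rintro _ ⟨t, ht, rfl⟩
    have htI : t ∈ Icc a b := ⟨ht.1, ht.2.le.trans ht0.2.le⟩
    exact ⟨hcU t htI, fun h1 => absurd (honce t htI h1) ht.2.ne⟩
  have hS2 : c '' Ioc t0 b ⊆ L ∪ R := by
    rw [hu]
    rintro _ ⟨t, ht, rfl⟩
    have htI : t ∈ Icc a b := ⟨ht0.1.le.trans ht.1.le, ht.2⟩
    exact ⟨hcU t htI, fun h1 => absurd (honce t htI h1) ht.1.ne'⟩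
  have hS3 : c' '' Icc a' b' ⊆ L ∪ R := by
    rw [hu]
    rintro _ ⟨t, ht, rfl⟩
    exact ⟨hcU' t ht, hno t ht⟩
  have hp1 : IsPreconnected (c '' Ico a t0) := isPreconnected_Ico.image c
    (hc.mono fun t ht => ⟨ht.1, ht.2.le.trans ht0.2.le⟩)
  have hp2 : IsPreconnected (c '' Ioc t0 b) := isPreconnected_Ioc.image c
    (hc.mono fun t ht => ⟨ht0.1.le.trans ht.1.le, ht.2⟩)
  have hp3 : IsPreconnected (c' '' Icc a' b') := isPreconnected_Icc.image c' hc'
  have hma : c a ∈ c '' Ico a t0 := ⟨a, ⟨le_rfl, ht0.1⟩, rfl⟩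
  have hmb : c b ∈ c '' Ioc t0 b := ⟨b, ⟨ht0.2, le_rfl⟩, rfl⟩
  have hma' : c a ∈ c' '' Icc a' b' := ⟨a', ⟨le_rfl, hab'⟩, ha⟩
  have hmb' : c b ∈ c' '' Icc a' b' := ⟨b', ⟨hab', le_rfl⟩, hb⟩
  have hdlr : ∀ z, z ∈ L → z ∈ R → False := fun z h1 h2 => Set.disjoint_left.1 hd h1 h2
  have hne1 : ∀ S : Set ℂ, (∀ᶠ t in 𝓝[<] t0, c t ∈ S) → (c '' Ico a t0 ∩ S).Nonempty := by
    intro S hS
    obtain ⟨t, h1, h2⟩ := (hS.and (Ioo_mem_nhdsLT ht0.1)).exists
    exact ⟨c t, ⟨t, ⟨h2.1.le, h2.2⟩, rfl⟩, h1⟩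
  have hne2 : ∀ S : Set ℂ, (∀ᶠ t in 𝓝[>] t0, c t ∈ S) → (c '' Ioc t0 b ∩ S).Nonempty := by
    intro S hS
    obtain ⟨t, h1, h2⟩ := (hS.and (Ioo_mem_nhdsGT ht0.2)).exists
    exact ⟨c t, ⟨t, ⟨h2.1, h2.2.le⟩, rfl⟩, h1⟩
  have h3 := hp3.subset_or_subset hLo hRo hd hS3
  rcases hcr c t0 hv h0 with ⟨h1, h2⟩ | ⟨h1, h2⟩
  · have e1 := hp1.subset_left_of_subset_union hLo hRo hd hS1 (hne1 L h1)
    have e2 := hp2.subset_right_of_subset_union hLo hRo hd hS2 (hne2 R h2)
    rcases h3 with h3 | h3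
    · exact hdlr _ (h3 hmb') (e2 hmb)
    · exact hdlr _ (e1 hma) (h3 hma')
  · have e1 := hp1.subset_right_of_subset_union hLo hRo hd hS1 (hne1 R h1)
    have e2 := hp2.subset_left_of_subset_union hLo hRo hd hS2 (hne2 L h2)
    rcases h3 with h3 | h3
    · exact hdlr _ (h3 hma') (e1 hma)
    · exact hdlr _ (e2 hmb) (h3 hmb')

end Pool.Agent.ANO2.Geo2
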