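import Pool.Agent.ANO2.Geo2.Meas
import Pool.Agent.ANO2.Geo2.Sep

/-!
# ANO phase 2, Geo2: a horizontal arc has the smallest horizontal length

Proof of `hlen`.  We may assume `S > 0`.  `σ` on `[0, S]` is a rectilinear path with `A0 = ∅`,
`B0 = univ`.  Let `G` be the set of the `t ∈ (0, S)` such that there is a complete vertical leaf
`τ` (`Leaf Q.neg τ`) with `τ 0 = σ t`; its complement in `(0, S)` is countable by
`exists_leaf_countable` for `Q.neg` (`QD.neg_neg`), so `G` is measurable and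
`vol G = S`.  For `t ∈ G` the leaf `τ` meets `σ` on `[0, S]` only at the time `t`: if `σ t' = τ u`
then
`HC Q (σ t) (σ t') _` and `HC Q.neg (σ t) (σ t') _`, so `t = t'` by `HC.eq_of_vc` and `hor_injOn`. 
`σ` is
transversal to `τ`; by `meets` for `Q.neg` (the path `σ`, vertical with respect to `-q`... that is
`Ver Q.neg σ`, i.e. `Hor Q.neg.neg σ = Hor Q σ`) the path `c` meets the range of `τ`:
`HC Q.neg (σ t) (c s) _` (`Leaf.hc`).  `meas` gives `S = vol G ≤ vol (B ∩ [0, l])`.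
-/

set_option autoImplicit false

open Set Filter Topology MeasureTheory

namespace Pool.Agent.ANO2.Geo2

variable {Q : QD}

theorem Proper.neg (hP : Proper Q) : Proper Q.neg := by
  intro z hz R
  obtain ⟨K, hK, hKc, h⟩ := hP z hz R
  refine ⟨K, hK, hKc, ?_⟩
  intro l c A B hRP
  have h1 : RP Q l c A Bᶜ := by
    have h2 := hRP.neg
    rw [QD.neg_neg] at h2
    exact h2
  exact h l c A Bᶜ h1

private theorem ver_neg {σ : ℝ → ℂ} {t : ℝ} (h : Hor Q σ t) : Ver Q.neg σ t := by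
  change Hor Q.neg.neg σ t
  rw [QD.neg_neg]
  exact h

theorem hlen (hP : Proper Q) {σ : ℝ → ℂ} {S : ℝ} (hS : 0 ≤ S) (hσ : ∀ t ∈ Icc 0 S, Hor Q σ t)
    {l : ℝ} {c : ℝ → ℂ} {A B : Set ℝ} (h : RP Q l c A B) (h0 : c 0 = σ 0) (h1 : c l = σ S) :
    S ≤ vx l B := by
  rcases hS.eq_or_lt with rfl | hS'
  · exact vx_nonneg l B
  have hσ' : ∀ t ∈ Ioo 0 S, Hor Q σ t := fun t ht => hσ t (Ioo_subset_Icc_self ht)
  have hσc : ContinuousOn σ (Icc 0 S) := fun t ht => (hσ t ht).continuousAt.continuousWithinAt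
  have hRP : RP Q S σ ∅ univ :=
    ⟨hS, finite_empty, hσc, fun t ht => (hσ t ht).mem, fun t ht _ _ => hσ' t ht,
      fun t _ _ h2 => absurd (mem_univ t) h2,
      fun t _ _ => Or.inl (Eventually.of_forall fun u => mem_univ u)⟩
  obtain ⟨D, hD⟩ : ∃ D : Set ℝ,
      D = {t | t ∈ Ioo 0 S ∧ ¬ ∃ τ : ℝ → ℂ, Leaf Q.neg τ ∧ τ 0 = σ t} := ⟨_, rfl⟩
  have hDc : D.Countable := by
    rw [hD]
    exact exists_leaf_countable hP.neg fun t ht => ver_neg (hσ' t ht)
  have hG : ∀ t ∈ Ioo 0 S \ D, t ∈ Ioo 0 S ∧ ∃ τ : ℝ → ℂ, Leaf Q.neg τ ∧ τ 0 = σ t := by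
    rintro t ⟨ht, htD⟩
    refine ⟨ht, ?_⟩
    by_contra hcon
    exact htD (by rw [hD]; exact ⟨ht, hcon⟩)
  have hvol : volume (Ioo 0 S \ D) = ENNReal.ofReal S := by
    rw [measure_sdiff_null (hDc.measure_zero volume), Real.volume_Ioo, sub_zero]
  have key : volume (Ioo 0 S \ D) ≤ volume (B ∩ Icc 0 l) := by
    refine meas hRP h (measurableSet_Ioo.diff hDc.measurableSet) ?_ ?_ ?_
    · intro t ht
      exact ⟨ht.1, notMem_empty t, mem_univ t⟩
    · intro t ht
      obtain ⟨ht1, τ, hτ, hτ0⟩ := hG t ht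
      obtain ⟨s, hs, u, hu⟩ := meets (Q := Q.neg) hτ ht1 hσc (fun u hu => (hσ u hu).mem)
        (by
          filter_upwards [Ioo_mem_nhds ht1.1 ht1.2] with u hu
          exact ver_neg (hσ' u hu)) ⟨0, hτ0⟩
        (by
          rintro t' ht' ⟨u, hu⟩
          have h2 := hor_ver_once (Q := Q) (σ := σ) (τ := τ) (a := 0) (b := S)
            (c := min 0 u) (d := max 0 u) (t := t') (t' := t) (s := u) (s' := 0) hσ
            (fun v _ => hτ v) ht' (Ioo_subset_Icc_self ht1) ⟨min_le_right _ _, le_max_right _ _⟩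
            ⟨min_le_left _ _, le_max_left _ _⟩ hu.symm hτ0.symm
          exact h2.1) h.nonneg h.cont h.mem h0 h1
      refine ⟨s, hs, |u - 0|, ?_⟩
      rw [← hτ0, ← hu]
      exact hτ.hc 0 u
    · intro t ht t' ht' S' hS'
      have h2 := HC.eq_of_vc (hc_of_hor hσ' ht.1 ht'.1) hS'
      have h3 : t' - t = 0 := abs_eq_zero.1 h2.2.1
      linarith
  rw [hvol] at key
  have hfin : volume (B ∩ Icc 0 l) ≠ ⊤ := by
    refine ((measure_mono inter_subset_right).trans_lt ?_).ne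
    rw [Real.volume_Icc]
    exact ENNReal.ofReal_lt_top
  exact (ENNReal.ofReal_le_iff_le_toReal hfin).1 key

/-- The same for a horizontal arc from `z` to `w`. -/
theorem HC.le_du (hP : Proper Q) {z w : ℂ} {s : ℝ} (h : HC Q z w s) : s ≤ du Q z w := by
  have hne : {x | ∃ y, Joins Q z w x y}.Nonempty := ⟨s, 0, h.joins⟩
  unfold du
  apply le_csInf hne
  rintro x ⟨y, l, c, A, B, hRP, hc0, hcl, rfl, -⟩
  obtain ⟨hs, σ, h1, h2, h3⟩ := h
  exact hlen hP hs h1 hRP (by rw [hc0, h2]) (by rw [hcl, h3])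

end Pool.Agent.ANO2.Geo2
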