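import Pool.Agent.ANO2.Geo2.SideB
import Pool.Agent.ANO2.Geo2.AffD
import Pool.Agent.ANO2.Geo2.HLen

/-!
# ANO phase 2, Geo2: the signed distance from an invariant leaf

Situation: `φ` is affine with factor `l < 1` and fixes the regular point `w`, preserving the local
orientations there: `D (φ z) = str l (D z)` near `w` for a branch `D` of `∫ √q` with `D w = 0`.

* `side_hor`: `S z = ds Q z w` for `z ∈ R`, `S z = - ds Q z w` otherwise.  `ds Q z w = 0` for `z ∈ Λ` (`Leaf.hc`,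
  `HC.joins`).
  (1) `|S z - S z'| ≤ ds Q z z'`: for `z, z'` in `R ∪ Λ` or both in `L ∪ Λ` by the triangle inequality.  Let
  `z ∈ R`, `z' ∈ L`; let `c` be any path from `z` to `z'`; it meets `Λ` at a time `t` (it is
  connected, `L`, `R` are open and disjoint), and with `p = c t` `ds Q z w ≤ ds Q z p`,
  `ds Q z' w ≤ ds Q p z'` (`ds Q p w = 0`), `ds Q z p + ds Q p z'` is at most the vertical length of
  `c` (`RP.sub`).  Take the infimum over `c`.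
  (2) `S (φ z) = l⁻¹ S z`: `Aff.ds` with `φ w = w`, and `side_inv` (and `φ L ⊆ L`, `φ Λ = Λ`).
  (3) both signs: let `τ` be a vertical arc with `τ 0 = w`.  For small `u > 0` the
  points `τ u`, `τ (-u)` are on different sides (`sep`) and `ds Q (τ (± u)) w ≥ u > 0`
  (`HC.le_du` for `Q.neg`).
-/

set_option autoImplicit false

open Set Filter Topology MeasureTheory

namespace Pool.Agent.ANO2.Geo2

variable {Q : QD}

private theorem sidec_zero {σ : ℝ → ℂ} (hσ : Leaf Q σ) {w : ℂ} (h0 : σ 0 = w) {p : ℂ}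
    (hp : p ∈ range σ) : ds Q p w = 0 := by
  obtain ⟨t, rfl⟩ := hp
  have h1 := ds_le (hσ.hc t 0).joins
  rw [h0] at h1
  exact le_antisymm h1 (ds_nonneg _ _)

private theorem sidec_le {σ : ℝ → ℂ} (hσ : Leaf Q σ) {w : ℂ} (h0 : σ 0 = w) {p z : ℂ}
    (hz : z ∈ Q.U) (hp : p ∈ range σ) : ds Q z w ≤ ds Q z p := by
  have hw : w ∈ Q.U := by
    rw [← h0]
    exact (hσ 0).mem
  have hpU : p ∈ Q.U := by
    obtain ⟨t, rfl⟩ := hp
    exact (hσ t).mem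
  have h1 := ds_triangle hz hpU hw
  rw [sidec_zero hσ h0 hp, add_zero] at h1
  exact h1

private theorem sidec_cross {σ : ℝ → ℂ} (hσ : Leaf Q σ) {w : ℂ} (h0 : σ 0 = w) {L R : Set ℂ}
    (hLo : IsOpen L) (hRo : IsOpen R) (hd : Disjoint L R) (hu : L ∪ R = Q.U \ range σ)
    {z z' : ℂ} (hz : z ∈ Q.U) (hz' : z' ∈ Q.U) (hzR : z ∈ R) (hz'R : z' ∉ R) :
    ds Q z w + ds Q z' w ≤ ds Q z z' := by
  obtain ⟨x0, y0, hj⟩ := joins_exists Q hz hz'
  have hne : {y | ∃ x, Joins Q z z' x y}.Nonempty := ⟨y0, x0, hj⟩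
  unfold ds at *
  change sInf _ + sInf _ ≤ sInf {y | ∃ x, Joins Q z z' x y}
  apply le_csInf hne
  rintro y ⟨x, l, c, A, B, hRP, hc0, hcl, -, rfl⟩
  have hmeet : ∃ t ∈ Icc 0 l, c t ∈ range σ := by
    by_contra hno
    push Not at hno
    have hS : c '' Icc 0 l ⊆ L ∪ R := by
      rw [hu]
      rintro _ ⟨t, ht, rfl⟩
      exact ⟨hRP.mem t ht, hno t ht⟩
    have hpc : IsPreconnected (c '' Icc 0 l) := isPreconnected_Icc.image c hRP.cont
    have hm0 : z ∈ c '' Icc 0 l := ⟨0, ⟨le_rfl, hRP.nonneg⟩, hc0⟩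
    have hml : z' ∈ c '' Icc 0 l := ⟨l, ⟨hRP.nonneg, le_rfl⟩, hcl⟩
    have h2 := hpc.subset_right_of_subset_union hLo hRo hd hS ⟨z, hm0, hzR⟩
    exact hz'R (h2 hml)
  obtain ⟨t, ht, hct⟩ := hmeet
  have e1 : ds Q z w ≤ ds Q z (c t) := sidec_le hσ h0 hz hct
  have e2 : ds Q z' w ≤ ds Q z' (c t) := sidec_le hσ h0 hz' hct
  have j1 := hRP.sub le_rfl ht.1 ht.2
  have j2 := hRP.sub ht.1 ht.2 le_rfl
  have e3 := ds_le j1
  have e4 := ds_le j2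
  rw [hc0] at e3
  rw [hcl, ds_symm] at e4
  have e5 : vx l B ≤ (volume (B ∩ Icc 0 t)).toReal + (volume (B ∩ Icc t l)).toReal := by
    unfold vx
    have f1 : volume (B ∩ Icc 0 t) ≠ ⊤ := by
      refine ((measure_mono inter_subset_right).trans_lt ?_).ne
      rw [Real.volume_Icc]
      exact ENNReal.ofReal_lt_top
    have f2 : volume (B ∩ Icc t l) ≠ ⊤ := by
      refine ((measure_mono inter_subset_right).trans_lt ?_).ne
      rw [Real.volume_Icc]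
      exact ENNReal.ofReal_lt_top
    rw [← ENNReal.toReal_add f1 f2]
    refine ENNReal.toReal_mono (ENNReal.add_ne_top.2 ⟨f1, f2⟩) ?_
    refine (measure_mono ?_).trans (measure_union_le _ _)
    rintro s ⟨hs1, hs2⟩
    rcases le_total s t with hst | hst
    · exact Or.inl ⟨hs1, hs2.1, hst⟩
    · exact Or.inr ⟨hs1, hst, hs2.2⟩
  change ds Q z w + ds Q z' w ≤ l - vx l B
  linarith

private theorem sidec_arc {z : ℂ} (hz : z ∈ Q.U) (h0 : Q.q z ≠ 0) :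
    ∃ (τ : ℝ → ℂ) (ρ : ℝ), 0 < ρ ∧ τ 0 = z ∧ ∀ t ∈ Ioo (-ρ) ρ, Ver Q τ t := by
  obtain ⟨v, hv⟩ := IsAlgClosed.exists_pow_nat_eq (Q.neg.q z)⁻¹ (n := 2) (by norm_num)
  have hq : Q.neg.q z ≠ 0 := neg_ne_zero.2 h0
  have hv1 : Q.neg.q z * v ^ 2 = 1 := by
    rw [hv, mul_inv_cancel₀ hq]
  obtain ⟨ρ, hρ, B, ha, hb, hc, hd, hχ, -, -⟩ :=
    box_exists Q.neg (z0 := z) hz hv1 (W := univ) univ_mem
  refine ⟨fun u => B.χ (0 + ((1 * u : ℝ) : ℂ)), ρ, hρ, ?_, ?_⟩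
  · simpa using hχ
  · intro t ht
    apply hor_of_box B (Or.inl rfl)
    change _ ∈ Ioo B.a B.b ×ℂ Ioo B.c B.d
    rw [ha, hb, hc, hd, Complex.mem_reProdIm]
    refine ⟨?_, ?_⟩
    · simpa using ht
    · simpa using hρ

/-- The signed vertical distance from the invariant horizontal leaf. -/
theorem side_hor (hP : Proper Q) {φ φ' : ℂ → ℂ} {l : ℝ} (h : Aff Q φ φ' l) (hl : l < 1) {w : ℂ}
    (hw : FixReg Q φ l w) : ∃ S : ℂ → ℝ, (∀ z ∈ Q.U, S (φ z) = l⁻¹ * S z) ∧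
      (∀ z ∈ Q.U, ∀ z' ∈ Q.U, |S z - S z'| ≤ ds Q z z') ∧ (∀ z ∈ Q.U, |S z| = ds Q z w) ∧
      (∃ z ∈ Q.U, 0 < S z) ∧ ∃ z ∈ Q.U, S z < 0 := by
  classical
  obtain ⟨σ, hσ, h0, h1⟩ := fixed_leaf hP h hl hw
  obtain ⟨L, R, hLo, hRo, hd, hu, hcr, hLL, hRR⟩ := side_inv hP h hl hw hσ h0 h1
  have hwU : w ∈ Q.U := hw.1
  have hφw : φ w = w := hw.2.2.1
  have hLU : L ⊆ Q.U := fun z hz => (hu.subset (Or.inl hz)).1
  have hRU : R ⊆ Q.U := fun z hz => (hu.subset (Or.inr hz)).1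
  have hRΛ : ∀ z ∈ R, z ∉ range σ := fun z hz => (hu.subset (Or.inr hz)).2
  have hdlr : ∀ z, z ∈ L → z ∉ R := fun z h2 h3 => Set.disjoint_left.1 hd h2 h3
  have hΛ : ∀ z ∈ range σ, φ z ∈ range σ := by
    rintro _ ⟨t, rfl⟩
    exact ⟨l * t, (h1 t).symm⟩
  have hdsφ : ∀ z ∈ Q.U, ds Q (φ z) w = l⁻¹ * ds Q z w := by
    intro z hz
    have h2 := h.ds hz hwU
    rw [hφw] at h2
    exact h2
  obtain ⟨S, hS⟩ : ∃ S : ℂ → ℝ, S = fun z => if z ∈ R then ds Q z w else - ds Q z w := ⟨_, rfl⟩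
  have hSR : ∀ z ∈ R, S z = ds Q z w := fun z hz => by rw [hS]; exact if_pos hz
  have hSL : ∀ z, z ∉ R → S z = - ds Q z w := fun z hz => by rw [hS]; exact if_neg hz
  refine ⟨S, ?_, ?_, ?_, ?_⟩
  · intro z hz
    by_cases hzR : z ∈ R
    · rw [hSR z hzR, hSR _ (hRR z hzR), hdsφ z hz]
    · have h3 : φ z ∉ R := by
        by_cases hzΛ : z ∈ range σ
        · exact fun h4 => hRΛ _ h4 (hΛ z hzΛ)
        · have h4 : z ∈ L ∪ R := by
            rw [hu]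
            exact ⟨hz, hzΛ⟩
          rcases h4 with h4 | h4
          · exact hdlr _ (hLL z h4)
          · exact absurd h4 hzR
      rw [hSL z hzR, hSL _ h3, hdsφ z hz]
      ring
  · intro z hz z' hz'
    have t1 := ds_triangle hz hz' hwU
    have t2 := ds_triangle hz' hz hwU
    rw [ds_symm z' z] at t2
    by_cases hzR : z ∈ R
    · by_cases hzR' : z' ∈ R
      · rw [hSR z hzR, hSR z' hzR', abs_le]
        exact ⟨by linarith, by linarith⟩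
      · have h3 := sidec_cross hσ h0 hLo hRo hd hu hz hz' hzR hzR'
        have p1 := ds_nonneg (Q := Q) z w
        have p2 := ds_nonneg (Q := Q) z' w
        rw [hSR z hzR, hSL z' hzR', abs_le]
        exact ⟨by linarith, by linarith⟩
    · by_cases hzR' : z' ∈ R
      · have h3 := sidec_cross hσ h0 hLo hRo hd hu hz' hz hzR' hzR
        rw [ds_symm z' z] at h3
        have p1 := ds_nonneg (Q := Q) z w
        have p2 := ds_nonneg (Q := Q) z' w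
        rw [hSL z hzR, hSR z' hzR', abs_le]
        exact ⟨by linarith, by linarith⟩
      · rw [hSL z hzR, hSL z' hzR', abs_le]
        exact ⟨by linarith, by linarith⟩
  · intro z hz
    by_cases hzR : z ∈ R
    · rw [hSR z hzR, abs_of_nonneg (ds_nonneg _ _)]
    · rw [hSL z hzR, abs_neg, abs_of_nonneg (ds_nonneg _ _)]
  · obtain ⟨τ, ρ, hρ, hτ0, hτ⟩ := sidec_arc hwU hw.2.1
    have hpos : ∀ t ∈ Ioo (-ρ) ρ, t ≠ 0 → 0 < ds Q (τ t) w := by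
      intro t ht ht0
      have h3 : HC Q.neg (τ t) (τ 0) |0 - t| :=
        hc_of_hor (Q := Q.neg) hτ ht ⟨by linarith, hρ⟩
      have h4 := h3.le_du hP.neg
      rw [du_neg, hτ0] at h4
      have h5 : 0 < |0 - t| := abs_pos.2 (by simpa using ht0)
      linarith
    have hev : ∀ᶠ t in 𝓝 (0 : ℝ), Ver Q τ t := by
      filter_upwards [Ioo_mem_nhds (by linarith : -ρ < 0) hρ] with t ht
      exact hτ t ht
    have hlt : ∀ X : Set ℂ, (∀ᶠ t in 𝓝[<] (0 : ℝ), τ t ∈ X) →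
        ∃ t ∈ Ioo (-ρ) ρ, t ≠ 0 ∧ τ t ∈ X := by
      intro X hX
      obtain ⟨t, h3, h4⟩ := (hX.and (Ioo_mem_nhdsLT (by linarith : -ρ < 0))).exists
      exact ⟨t, ⟨h4.1, h4.2.trans hρ⟩, h4.2.ne, h3⟩
    have hgt : ∀ X : Set ℂ, (∀ᶠ t in 𝓝[>] (0 : ℝ), τ t ∈ X) →
        ∃ t ∈ Ioo (-ρ) ρ, t ≠ 0 ∧ τ t ∈ X := by
      intro X hX
      obtain ⟨t, h3, h4⟩ := (hX.and (Ioo_mem_nhdsGT hρ)).exists
      exact ⟨t, ⟨by linarith [h4.1], h4.2⟩, h4.1.ne', h3⟩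
    have hfin : (∃ t ∈ Ioo (-ρ) ρ, t ≠ 0 ∧ τ t ∈ L) → (∃ t ∈ Ioo (-ρ) ρ, t ≠ 0 ∧ τ t ∈ R) →
        (∃ z ∈ Q.U, 0 < S z) ∧ ∃ z ∈ Q.U, S z < 0 := by
      rintro ⟨t, ht, ht0, htL⟩ ⟨t', ht', ht0', htR⟩
      refine ⟨⟨τ t', hRU htR, ?_⟩, ⟨τ t, hLU htL, ?_⟩⟩
      · rw [hSR _ htR]
        exact hpos t' ht' ht0'
      · rw [hSL _ (hdlr _ htL)]
        have := hpos t ht ht0
        linarith
    rcases hcr τ 0 hev (by rw [hτ0]; exact ⟨0, h0⟩) with ⟨h3, h4⟩ | ⟨h3, h4⟩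
    · exact hfin (hlt L h3) (hgt R h4)
    · exact hfin (hgt L h4) (hlt R h3)

/-- The signed horizontal distance from the invariant vertical leaf (`side_hor` for `-q`). -/
theorem side (hP : Proper Q) {φ φ' : ℂ → ℂ} {l : ℝ} (h : Aff Q φ φ' l) (hl : 1 < l) {w : ℂ}
    (hw : FixReg Q φ l w) : ∃ S : ℂ → ℝ, (∀ z ∈ Q.U, S (φ z) = l * S z) ∧
      (∀ z ∈ Q.U, ∀ z' ∈ Q.U, |S z - S z'| ≤ du Q z z') ∧ (∀ z ∈ Q.U, |S z| = du Q z w) ∧
      (∃ z ∈ Q.U, 0 < S z) ∧ ∃ z ∈ Q.U, S z < 0 := by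
  obtain ⟨S, h1, h2, h3, h4, h5⟩ :=
    side_hor (Q := Q.neg) hP.neg h.neg (inv_lt_one_of_one_lt₀ hl) hw.neg
  refine ⟨S, ?_, ?_, ?_, h4, h5⟩
  · intro z hz
    rw [h1 z hz, inv_inv]
  · intro z hz z' hz'
    rw [← ds_neg]
    exact h2 z hz z' hz'
  · intro z hz
    rw [← ds_neg]
    exact h3 z hz

end Pool.Agent.ANO2.Geo2
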