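import Pool.Agent.ANO2.Geo2.SurfB
import Pool.Agent.ANO2.Geo2.SideC
import Pool.Agent.ANO2.Iface

/-!
# ANO phase 2, Geo2: exports for a pseudo-Anosov surface map

* `fixReg_sq`: let `D` be a branch of `∫ √q` near `w` with `D w = 0` (`Box.D` of a flow box `B` with
  `B.χ 0 = w`).  By `h.aff w` and `branch_unique` (at `w` and at `φ w = w`) `D (φ z) = e str l (D z) + c` near
  `w` with `e = ± 1`; `z = w` gives `c = 0`; so `D (φ (φ z)) = e str l (e str l (D z)) = str (l l) (D z)`.
* `side_lift`: `lift_aff` for the lift `H` of `f^m`, `l ^ m > 1`; `fixReg_sq` for `φ = lift H`; `side` for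
  `φ ∘ φ` (`Aff.comp`) with the factor `l ^ m * l ^ m > 1`.  Put `s z = S (z : ℂ)`.  Continuity: `|s z - s z'| ≤ dU z z'`
  and `continuous_dU`.
* `paGeo`: collect.
-/

set_option autoImplicit false

open Set Filter Topology MeasureTheory
open scoped UpperHalfPlane MatrixGroups

namespace Pool.Agent.ANO2.Geo2

open Pool.Agent.ANO

private theorem surfc_str_sub (l : ℝ) (a b : ℂ) : str l (a - b) = str l a - str l b := by
  apply Complex.ext <;> simp [str] <;> ring

private theorem surfc_str_mul {e : ℂ} (he : e = 1 ∨ e = -1) (l : ℝ) (a : ℂ) :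
    str l (e * a) = e * str l a := by
  rcases he with rfl | rfl
  · rw [one_mul, one_mul]
  · apply Complex.ext <;> simp [str]

private theorem surfc_str_str (l : ℝ) (a : ℂ) : str l (str l a) = str (l * l) a := by
  apply Complex.ext
  · simp only [str]
    ring
  · simp only [str, mul_inv]
    ring

theorem fixReg_sq {Q : QD} {φ φ' : ℂ → ℂ} {l : ℝ} (h : Aff Q φ φ' l) {w : ℂ} (hw : w ∈ Q.U)
    (h0 : Q.q w ≠ 0) (h1 : φ w = w) : FixReg Q (φ ∘ φ) (l * l) w := by
  obtain ⟨D1, D2, a1, a2, e1, e2, hD⟩ := h.aff w hw h0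
  rw [h1] at a2 e2
  obtain ⟨e, c, he, hc⟩ := branch_unique a1 a2 e1 e2 h0
  have hee : e * e = 1 := by rcases he with rfl | rfl <;> ring
  have hcont : Tendsto φ (𝓝 w) (𝓝 w) := by
    have h2 : ContinuousAt φ w := h.cont.continuousAt (Q.isOpen.mem_nhds hw)
    have h3 : Tendsto φ (𝓝 w) (𝓝 (φ w)) := h2
    rw [h1] at h3
    exact h3
  have hev : ∀ᶠ z in 𝓝 w, D1 (φ z) = e * (str l (D1 z) - c) := by
    filter_upwards [hD, hcont.eventually hc] with z h2 h3
    rw [← h2, h3]
    linear_combination (-(D1 (φ z))) * hee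
  have hw1 : D1 w = e * (str l (D1 w) - c) := by
    have h2 := hev.self_of_nhds
    rw [h1] at h2
    exact h2
  have hev2 : ∀ᶠ z in 𝓝 w, D1 (φ z) - D1 w = e * str l (D1 z - D1 w) := by
    filter_upwards [hev] with z h2
    rw [surfc_str_sub, h2]
    linear_combination (-1 : ℂ) * hw1
  refine ⟨hw, h0, ?_, fun z => D1 z - D1 w, ?_, sub_self _, ?_, ?_⟩
  · change φ (φ w) = w
    rw [h1, h1]
  · exact a1.sub analyticAt_const
  · filter_upwards [e1] with z h2
    rw [deriv_sub_const]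
    exact h2
  · filter_upwards [hev2, hcont.eventually hev2] with z h2 h3
    change D1 (φ (φ z)) - D1 w = _
    rw [h3, h2, surfc_str_mul he, surfc_str_str, ← mul_assoc, hee, one_mul]

/-- The signed horizontal distance from the vertical leaf through a regular fixed point of a lift
of a power of `f`. -/
theorem side_lift {S : SurfaceMap} {q : ℂ → ℂ} {l : ℝ} (h : IsPA S q l) {m : ℕ} (hm : 0 < m)
    {H : ℍ → ℍ} (hH : IsLift S m H) {w : ℍ} (hw : H w = w) (hq : q w ≠ 0) :
    ∃ s : ℍ → ℝ, Continuous s ∧ (∀ z, s (H (H z)) = l ^ (2 * m) * s z) ∧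
      (∀ z z', |s z - s z'| ≤ dU h.quad z z') ∧ (∀ z, |s z| = dU h.quad z w) ∧
      (∃ z, 0 < s z) ∧ ∃ z, s z < 0 := by
  obtain ⟨γ, hγ, hH1⟩ := hH
  obtain rfl : H = fun z => γ • S.f^[m] z := funext hH1
  have A := lift_aff h (n := m) hγ
  have hwl : lift (fun z => γ • S.f^[m] z) (w : ℂ) = w := by
    rw [lift_coe]
    exact congrArg _ hw
  have hF := fixReg_sq A (mem_qd h.quad w) hq hwl
  have hl1 : 1 < l ^ m * l ^ m := by
    have h2 : 1 < l ^ m := one_lt_pow₀ h.one_lt hm.ne'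
    nlinarith
  obtain ⟨S0, s1, s2, s3, s4, s5⟩ := side (proper_qd h.quad) (A.comp A) hl1 hF
  have hlip : ∀ z z' : ℍ, |S0 z - S0 z'| ≤ dU h.quad z z' := fun z z' =>
    s2 z (mem_qd h.quad z) z' (mem_qd h.quad z')
  refine ⟨fun z => S0 z, ?_, ?_, hlip, fun z => s3 z (mem_qd h.quad z), ?_, ?_⟩
  · rw [continuous_iff_continuousAt]
    intro z0
    have h2 : Tendsto (fun z : ℍ => dU h.quad z z0) (𝓝 z0) (𝓝 (dU h.quad z0 z0)) := by
      have h3 : Continuous fun z : ℍ => dU h.quad z z0 :=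
        (continuous_dU h.quad).comp (continuous_id.prodMk continuous_const)
      exact h3.tendsto z0
    have h4 : dU h.quad z0 z0 = 0 :=
      le_antisymm (du_le (Joins.refl (mem_qd h.quad z0))) (dU_nonneg h.quad z0 z0)
    rw [h4] at h2
    change Tendsto (fun z : ℍ => S0 z) (𝓝 z0) (𝓝 (S0 z0))
    rw [tendsto_iff_dist_tendsto_zero]
    refine squeeze_zero (fun z => dist_nonneg) (fun z => ?_) h2
    rw [Real.dist_eq]
    exact hlip z z0
  · intro z
    have h2 := s1 z (mem_qd h.quad z)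
    rw [Function.comp_apply, lift_coe, lift_coe] at h2
    rw [two_mul, pow_add]
    exact h2
  · obtain ⟨z, hz, h2⟩ := s4
    exact ⟨⟨z, hz⟩, h2⟩
  · obtain ⟨z, hz, h2⟩ := s5
    exact ⟨⟨z, hz⟩, h2⟩

/-- The module Cone2 has to provide `cone` and `regular`. -/
theorem paGeo {S : SurfaceMap} {q : ℂ → ℂ} {l : ℝ} (h : IsPA S q l)
    (cone : SurfCone S (dU h.quad) (dS h.quad))
    (regular : ∃ (z : ℍ) (m : ℕ) (H : ℍ → ℍ), 0 < m ∧ IsLift S m H ∧
      ∀ j : ℕ, 0 < j → RegFixed z H^[j]) : Nonempty (PAGeo S) :=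
  ⟨{ l := l
     one_lt := h.one_lt
     du := dU h.quad
     ds := dS h.quad
     du_nonneg := dU_nonneg h.quad
     ds_nonneg := dS_nonneg h.quad
     du_symm := dU_symm h.quad
     ds_symm := dS_symm h.quad
     du_triangle := dU_triangle h.quad
     ds_triangle := dS_triangle h.quad
     du_inv := fun _ hγ a b => dU_inv h.quad hγ a b
     ds_inv := fun _ hγ a b => dS_inv h.quad hγ a b
     du_f := dU_f h
     ds_f := dS_f h
     upper := upper h.quad
     proper := Geo2.proper h.quad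
     eq_of_zero := fun _ _ h1 h2 => eq_of_dU_dS h.quad h1 h2
     cone := cone
     regular := regular }⟩

end Pool.Agent.ANO2.Geo2
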