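import Pool.Agent.ANO2.Geo2.BoxB
import Pool.Agent.ANO2.Geo2.Normal

/-!
# ANO phase 2, Geo2: affine homeomorphisms of a quadratic differential

`Aff Q φ φ' l`: `φ` is a homeomorphism of `U` with inverse `φ'` which is, in the charts
`∫ √q` at the regular points, of the form `z ↦ ± str l z + c`, `str l (x + i y) = l x + i y / l`.

* `branch_unique`: `q z ≠ 0`, so the quotient `D2' / D1'` is continuous near `z` with values `± 1`, hence
  constant.
* `deriv_ne_of_inj`: otherwise `D` is `D z + ζ^k`, `k ≥ 2`, in a suitable local coordinate `ζ`, or constant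
  near `z`; the points `ζ` and `exp (2 π i / k) ζ` have the same image.  (The coordinate:
  `D w - D z = (w - z)^k g w`, `g z ≠ 0`, take a `k`-th root of `g`.)
* `Aff.ne_zero`: let `D1, D2` be as in `AffAt` at `z`, `q z ≠ 0`.  `D1` is injective near `z` (`D1' z ≠ 0`),
  `str l` is injective, so `D2 w = str l (D1 (φ' w))` is injective near `φ z` (`φ'` is
  continuous and injective).  By `deriv_ne_of_inj` `q (φ z) = D2' (φ z)² ≠ 0`.
* `Aff.zero`: suppose `q s = 0`, `q (φ s) ≠ 0`.  Let `D2` be analytic near `φ s` with `D2'² = q`; `D2` is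
  injective near `φ s` (`D2' (φ s) ≠ 0`).  Put `D w = str l⁻¹ (D2 (φ w))`, continuous and injective
  near `s`.  For `w ≠ s` near `s` `q w ≠ 0` (`isolated`) and by `AffAt` at `w` (and `branch_unique` at
  `φ w`) `D = ± D1 + c` near `w` with `D1` analytic, `D1'² = q`.  So `D` is holomorphic in a punctured
  neighbourhood of `s` with `D'² = q` there and continuous at `s`, so `D` is
  holomorphic near `s` (removable singularity) and `D'(s)² = q s = 0` by continuity: contradiction to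
  the injectivity of `D` and `deriv_ne_of_inj`.
-/

set_option autoImplicit false

open Set Filter Topology

namespace Pool.Agent.ANO2.Geo2

variable {Q : QD}

/-- The real-linear map `x + i y ↦ l x + i l⁻¹ y` of the plane. -/
noncomputable def str (l : ℝ) (z : ℂ) : ℂ := ⟨l * z.re, l⁻¹ * z.im⟩

/-- `φ` is affine with factor `l` near `z`. -/
def AffAt (Q : QD) (φ : ℂ → ℂ) (l : ℝ) (z : ℂ) : Prop :=
  ∃ D1 D2 : ℂ → ℂ, AnalyticAt ℂ D1 z ∧ AnalyticAt ℂ D2 (φ z) ∧
    (∀ᶠ w in 𝓝 z, deriv D1 w ^ 2 = Q.q w) ∧ (∀ᶠ w in 𝓝 (φ z), deriv D2 w ^ 2 = Q.q w) ∧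
    ∀ᶠ w in 𝓝 z, D2 (φ w) = str l (D1 w)

/-- `φ` is an affine homeomorphism of `U` with factor `l` and inverse `φ'`. -/
structure Aff (Q : QD) (φ φ' : ℂ → ℂ) (l : ℝ) : Prop where
  pos : 0 < l
  maps : MapsTo φ Q.U Q.U
  maps' : MapsTo φ' Q.U Q.U
  cont : ContinuousOn φ Q.U
  cont' : ContinuousOn φ' Q.U
  left : ∀ z ∈ Q.U, φ' (φ z) = z
  right : ∀ z ∈ Q.U, φ (φ' z) = z
  aff : ∀ z ∈ Q.U, Q.q z ≠ 0 → AffAt Q φ l z

private theorem sq_one_AffA {a : ℂ} (h : a ^ 2 = 1) : a = 1 ∨ a = -1 := by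
  have h1 : (a - 1) * (a + 1) = 0 := by linear_combination h
  rcases mul_eq_zero.mp h1 with h2 | h2
  · left
    linear_combination h2
  · right
    linear_combination h2

/-- `n`-th roots of analytic functions. -/
private theorem root_AffA {f : ℂ → ℂ} {s : ℂ} (hf : AnalyticAt ℂ f s) (h0 : f s ≠ 0) {n : ℕ}
    (hn : 1 ≤ n) : ∃ h : ℂ → ℂ, AnalyticAt ℂ h s ∧ h s ≠ 0 ∧ ∀ᶠ z in 𝓝 s, h z ^ n = f z := by
  have hnC : (n : ℂ) ≠ 0 := by exact_mod_cast (by omega : n ≠ 0)
  obtain ⟨a, ha⟩ := IsAlgClosed.exists_pow_nat_eq (f s) hn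
  have ha0 : a ≠ 0 := by
    rintro rfl
    rw [zero_pow (by omega)] at ha
    exact h0 ha.symm
  have hw : AnalyticAt ℂ (fun z => f z / f s) s := hf.div analyticAt_const h0
  have hw1 : f s / f s = 1 := div_self h0
  refine ⟨fun z => a * Complex.exp (Complex.log (f z / f s) / n), ?_, ?_, ?_⟩
  · refine analyticAt_const.mul (AnalyticAt.cexp ?_)
    refine (AnalyticAt.clog hw ?_).div analyticAt_const hnC
    rw [hw1]
    exact Complex.one_mem_slitPlane
  · exact mul_ne_zero ha0 (Complex.exp_ne_zero _)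
  · have hne0 : ∀ᶠ z in 𝓝 s, f z ≠ 0 := hf.continuousAt.eventually_ne h0
    filter_upwards [hne0] with z hz0
    have hzz : f z / f s ≠ 0 := div_ne_zero hz0 h0
    have he : Complex.exp (Complex.log (f z / f s) / n) ^ n = f z / f s := by
      rw [← Complex.exp_nat_mul, mul_div_cancel₀ _ hnC, Complex.exp_log hzz]
    rw [mul_pow, he, ha, mul_div_cancel₀ _ h0]

private theorem str_inj_AffA {l : ℝ} (hl : l ≠ 0) {z w : ℂ} (h : str l z = str l w) : z = w := by
  have h1 := congrArg Complex.re h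
  have h2 := congrArg Complex.im h
  simp only [str] at h1 h2
  apply Complex.ext
  · exact mul_left_cancel₀ hl h1
  · exact mul_left_cancel₀ (inv_ne_zero hl) h2

private theorem str_inv_AffA {l : ℝ} (hl : l ≠ 0) (z : ℂ) : str l⁻¹ (str l z) = z := by
  apply Complex.ext
  · simp only [str]
    rw [← mul_assoc, inv_mul_cancel₀ hl, one_mul]
  · simp only [str]
    rw [inv_inv, ← mul_assoc, mul_inv_cancel₀ hl, one_mul]

private theorem str_add_AffA (l : ℝ) (z w : ℂ) : str l (z + w) = str l z + str l w := by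
  apply Complex.ext <;> simp [str, mul_add]

private theorem str_neg_AffA (l : ℝ) (z : ℂ) : str l (-z) = -str l z := by
  apply Complex.ext <;> simp [str]

private theorem str_cont_AffA (l : ℝ) : Continuous (str l) := by
  have h1 : str l = fun z : ℂ => ((l * z.re : ℝ) : ℂ) + ((l⁻¹ * z.im : ℝ) : ℂ) * Complex.I := by
    funext z
    apply Complex.ext <;> simp [str]
  rw [h1]
  fun_prop

/-- Two branches of `∫ √q` differ by a sign and a constant. -/
theorem branch_unique {D1 D2 : ℂ → ℂ} {z : ℂ} (h1 : AnalyticAt ℂ D1 z) (h2 : AnalyticAt ℂ D2 z)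
    (e1 : ∀ᶠ w in 𝓝 z, deriv D1 w ^ 2 = Q.q w) (e2 : ∀ᶠ w in 𝓝 z, deriv D2 w ^ 2 = Q.q w)
    (hz : Q.q z ≠ 0) : ∃ e c : ℂ, (e = 1 ∨ e = -1) ∧ ∀ᶠ w in 𝓝 z, D2 w = e * D1 w + c := by
  have hd1 : deriv D1 z ≠ 0 := by
    intro h0
    have h3 := e1.self_of_nhds
    rw [h0] at h3
    exact hz (by rw [← h3]; ring)
  set r : ℂ → ℂ := fun w => deriv D2 w / deriv D1 w with hr
  have hrc : ContinuousAt r z := h2.deriv.continuousAt.div h1.deriv.continuousAt hd1
  have hne : ∀ᶠ w in 𝓝 z, deriv D1 w ≠ 0 := h1.deriv.continuousAt.eventually_ne hd1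
  have hr2 : ∀ᶠ w in 𝓝 z, r w = 1 ∨ r w = -1 := by
    filter_upwards [e1, e2, hne] with w a1 a2 a3
    have h4 : r w ^ 2 = 1 := by
      rw [hr]
      simp only
      rw [div_pow, a1, a2, div_self]
      rw [← a1]
      exact pow_ne_zero 2 a3
    exact sq_one_AffA h4
  have hrz := hr2.self_of_nhds
  have hre : ∀ᶠ w in 𝓝 z, r w = r z := by
    have h5 : ∀ᶠ w in 𝓝 z, r w ≠ -r z := by
      refine hrc.eventually_ne ?_
      rcases hrz with h | h <;> rw [h] <;> norm_num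
    filter_upwards [hr2, h5] with w b1 b2
    rcases hrz with h | h
    · rcases b1 with b | b
      · rw [b, h]
      · exact absurd (by rw [b, h]) b2
    · rcases b1 with b | b
      · exact absurd (by rw [b, h, neg_neg]) b2
      · rw [b, h]
  have hd : ∀ᶠ w in 𝓝 z, deriv D2 w = r z * deriv D1 w := by
    filter_upwards [hre, hne] with w c1 c2
    rw [← c1, hr]
    simp only
    rw [div_mul_cancel₀ _ c2]
  have hall := (hd.and (h1.eventually_analyticAt.and h2.eventually_analyticAt))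
  obtain ⟨ε, hε, hb⟩ := Metric.eventually_nhds_iff_ball.mp hall
  refine ⟨r z, D2 z - r z * D1 z, hrz, ?_⟩
  filter_upwards [Metric.ball_mem_nhds z hε] with w hw
  have hopen : IsOpen (Metric.ball z ε) := Metric.isOpen_ball
  have hpre : IsPreconnected (Metric.ball z ε) := (convex_ball z ε).isPreconnected
  have hdiff : DifferentiableOn ℂ (fun w => D2 w - r z * D1 w) (Metric.ball z ε) := fun x hx =>
    ((hb x hx).2.2.differentiableAt.sub
      ((hb x hx).2.1.differentiableAt.const_mul _)).differentiableWithinAt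
  have hder : EqOn (deriv (fun w => D2 w - r z * D1 w)) 0 (Metric.ball z ε) := by
    intro x hx
    have h6 := (hb x hx).2.2.differentiableAt.hasDerivAt.sub
      ((hb x hx).2.1.differentiableAt.hasDerivAt.const_mul (r z))
    have h7 := h6.deriv
    have h8 : deriv (fun w => D2 w - r z * D1 w) x = deriv D2 x - r z * deriv D1 x := h7
    rw [h8, (hb x hx).1]
    simp
  have h9 := hopen.is_const_of_deriv_eq_zero hpre hdiff hder hw (Metric.mem_ball_self hε)
  linear_combination h9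

/-- An analytic function which is injective near a point has a nonzero derivative. -/
theorem deriv_ne_of_inj {D : ℂ → ℂ} {z : ℂ} (h : AnalyticAt ℂ D z) {W : Set ℂ} (hW : W ∈ 𝓝 z)
    (hi : InjOn D W) : deriv D z ≠ 0 := by
  intro hd0
  set F : ℂ → ℂ := fun w => D w - D z with hF
  have hFa : AnalyticAt ℂ F z := h.sub analyticAt_const
  have hnz : ¬ ∀ᶠ w in 𝓝 z, F w = 0 := by
    intro h0
    have h1 : ∀ᶠ w in 𝓝[≠] z, F w = 0 ∧ w ∈ W :=
      (h0.and hW).filter_mono nhdsWithin_le_nhds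
    obtain ⟨w, ⟨h2, h3⟩, h4⟩ := (h1.and self_mem_nhdsWithin).exists
    exact h4 (hi h3 (mem_of_mem_nhds hW) (sub_eq_zero.mp h2))
  obtain ⟨k, g, hg, hg0, hFg⟩ := hFa.exists_eventuallyEq_pow_smul_nonzero_iff.mpr hnz
  have hk0 : k ≠ 0 := by
    rintro rfl
    have h1 := hFg.self_of_nhds
    rw [pow_zero, one_smul] at h1
    apply hg0
    rw [← h1, hF]
    simp
  have hk1 : k ≠ 1 := by
    rintro rfl
    have h1 : HasDerivAt (fun w : ℂ => w - z) 1 z := (hasDerivAt_id z).sub_const z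
    have h2 := h1.mul hg.differentiableAt.hasDerivAt
    have h3 : HasDerivAt F (1 * g z + (z - z) * deriv g z) z := by
      refine h2.congr_of_eventuallyEq ?_
      filter_upwards [hFg] with w hw
      rw [hw, pow_one, smul_eq_mul]
      rfl
    have h4 : HasDerivAt F (deriv D z) z := h.differentiableAt.hasDerivAt.sub_const (D z)
    have h5 := h3.unique h4
    rw [sub_self, hd0] at h5
    apply hg0
    linear_combination h5
  obtain ⟨κ, hκ, hκ0, hκg⟩ := root_AffA hg hg0 (n := k) (by omega)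
  set ζ : ℂ → ℂ := fun w => (w - z) * κ w with hζ
  have hid : AnalyticAt ℂ (fun w : ℂ => w - z) z := analyticAt_id.sub analyticAt_const
  have hζa : AnalyticAt ℂ ζ z := hid.mul hκ
  have hζ0 : ζ z = 0 := by rw [hζ]; simp
  have hder : HasDerivAt ζ (κ z) z := by
    have h1 : HasDerivAt (fun w : ℂ => w - z) 1 z := (hasDerivAt_id z).sub_const z
    have h2 := h1.mul hκ.differentiableAt.hasDerivAt
    have h3 : 1 * κ z + (z - z) * deriv κ z = κ z := by rw [sub_self]; ring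
    rw [h3] at h2
    exact h2
  have hstrict : HasStrictDerivAt ζ (κ z) z := by
    have h1 := hζa.hasStrictDerivAt
    rwa [hder.deriv] at h1
  have hmap : map ζ (𝓝 z) = 𝓝 0 := by
    rw [← hζ0]
    exact hstrict.map_nhds_eq hκ0
  have hS : {w | w ∈ W ∧ F w = ζ w ^ k} ∈ 𝓝 z := by
    filter_upwards [hW, hFg, hκg] with w h1 h2 h3
    refine ⟨h1, ?_⟩
    rw [h2, hζ]
    simp only
    rw [mul_pow, h3, smul_eq_mul]
  have himg : ζ '' {w | w ∈ W ∧ F w = ζ w ^ k} ∈ 𝓝 (0 : ℂ) := by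
    rw [← hmap]
    exact image_mem_map hS
  obtain ⟨ε, hε, hb⟩ := Metric.mem_nhds_iff.mp himg
  have hprim := Complex.isPrimitiveRoot_exp k hk0
  set ω : ℂ := Complex.exp (2 * Real.pi * Complex.I / k) with hω
  have hωk : ω ^ k = 1 := hprim.pow_eq_one
  have hω1 : ω ≠ 1 := hprim.ne_one (by omega)
  have hωn : ‖ω‖ = 1 := Complex.norm_eq_one_of_pow_eq_one hωk hk0
  have ha : ((ε / 2 : ℝ) : ℂ) ∈ Metric.ball (0 : ℂ) ε := by
    rw [mem_ball_zero_iff, Complex.norm_real, Real.norm_eq_abs, abs_of_pos (by positivity)]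
    linarith
  have ha' : ω * ((ε / 2 : ℝ) : ℂ) ∈ Metric.ball (0 : ℂ) ε := by
    rw [mem_ball_zero_iff, norm_mul, hωn, one_mul, Complex.norm_real, Real.norm_eq_abs,
      abs_of_pos (by positivity)]
    linarith
  obtain ⟨w1, ⟨hw1, hF1⟩, hz1⟩ := hb ha
  obtain ⟨w2, ⟨hw2, hF2⟩, hz2⟩ := hb ha'
  have hne : ((ε / 2 : ℝ) : ℂ) ≠ 0 := by
    exact_mod_cast (by positivity : (ε / 2 : ℝ) ≠ 0)
  have hDD : D w1 = D w2 := by
    have h1 : F w1 = F w2 := by
      rw [hF1, hF2, hz1, hz2, mul_pow, hωk, one_mul]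
    have h2 : D w1 - D z = D w2 - D z := h1
    linear_combination h2
  have hw := hi hw1 hw2 hDD
  rw [hw, hz2] at hz1
  apply hω1
  have h3 : (ω - 1) * ((ε / 2 : ℝ) : ℂ) = 0 := by linear_combination hz1
  rcases mul_eq_zero.mp h3 with h4 | h4
  · linear_combination h4
  · exact absurd h4 hne

private theorem inj_AffA {D : ℂ → ℂ} {z : ℂ} (h : AnalyticAt ℂ D z) (hd : deriv D z ≠ 0) :
    ∃ V ∈ 𝓝 z, InjOn D V := by
  have h1 : HasStrictDerivAt D (deriv D z) z := h.hasStrictDerivAt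
  have h2 := h1.hasStrictFDerivAt_equiv hd
  exact ⟨h2.toOpenPartialHomeomorph.source, h2.toOpenPartialHomeomorph.open_source.mem_nhds
    h2.mem_toOpenPartialHomeomorph_source, h2.toOpenPartialHomeomorph.injOn⟩

theorem Aff.ne_zero {φ φ' : ℂ → ℂ} {l : ℝ} (h : Aff Q φ φ' l) {z : ℂ} (hz : z ∈ Q.U)
    (h0 : Q.q z ≠ 0) : Q.q (φ z) ≠ 0 := by
  obtain ⟨D1, D2, hD1, hD2, e1, e2, he⟩ := h.aff z hz h0
  have hl : l ≠ 0 := h.pos.ne'
  have hd1 : deriv D1 z ≠ 0 := by
    intro h1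
    have h2 := e1.self_of_nhds
    rw [h1] at h2
    exact h0 (by rw [← h2]; ring)
  obtain ⟨V, hV, hVi⟩ := inj_AffA hD1 hd1
  have hφU : φ z ∈ Q.U := h.maps hz
  have hc' : ContinuousAt φ' (φ z) := h.cont'.continuousAt (Q.isOpen.mem_nhds hφU)
  have hc2 : Tendsto φ' (𝓝 (φ z)) (𝓝 z) := by
    have h1 := hc'.tendsto
    rwa [h.left z hz] at h1
  have hS : {w | w ∈ Q.U ∧ φ' w ∈ V ∧ D2 w = str l (D1 (φ' w))} ∈ 𝓝 (φ z) := by
    filter_upwards [Q.isOpen.mem_nhds hφU, hc2.eventually hV, hc2.eventually he] with w h1 h2 h3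
    refine ⟨h1, h2, ?_⟩
    rwa [h.right w h1] at h3
  have hi : InjOn D2 {w | w ∈ Q.U ∧ φ' w ∈ V ∧ D2 w = str l (D1 (φ' w))} := by
    rintro a ⟨a1, a2, a3⟩ b ⟨b1, b2, b3⟩ hab
    rw [a3, b3] at hab
    have h1 := hVi a2 b2 (str_inj_AffA hl hab)
    rw [← h.right a a1, ← h.right b b1, h1]
  have h4 := deriv_ne_of_inj hD2 hS hi
  rw [← e2.self_of_nhds]
  exact pow_ne_zero 2 h4

theorem Aff.zero {φ φ' : ℂ → ℂ} {l : ℝ} (h : Aff Q φ φ' l) {z : ℂ} (hz : z ∈ Q.U)
    (h0 : Q.q z = 0) : Q.q (φ z) = 0 := by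
  by_contra hne
  have hl : l ≠ 0 := h.pos.ne'
  have hφU : φ z ∈ Q.U := h.maps hz
  obtain ⟨v, hv⟩ := IsAlgClosed.exists_pow_nat_eq (Q.q (φ z))⁻¹ (n := 2) (by norm_num)
  have hv2 : Q.q (φ z) * v ^ 2 = 1 := by rw [hv, mul_inv_cancel₀ hne]
  obtain ⟨ρ, hρ, B, hBa, hBb, hBc, hBd, hχ0, -, -⟩ := box_exists Q hφU hv2 (W := univ) univ_mem
  have h0dom : (0 : ℂ) ∈ B.dom := by
    rw [Box.dom, Complex.mem_reProdIm, hBa, hBb, hBc, hBd]
    simp [hρ]
  have himg : φ z ∈ B.img := ⟨0, h0dom, hχ0⟩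
  have himgn : B.img ∈ 𝓝 (φ z) := B.isOpen_img.mem_nhds himg
  have hcφ : ContinuousAt φ z := h.cont.continuousAt (Q.isOpen.mem_nhds hz)
  have hUn : Q.U ∈ 𝓝 z := Q.isOpen.mem_nhds hz
  have hS : {w | w ∈ Q.U ∧ φ w ∈ B.img} ∈ 𝓝 z := by
    filter_upwards [hUn, hcφ.tendsto himgn] with w h1 h2
    exact ⟨h1, h2⟩
  set D : ℂ → ℂ := fun w => str l⁻¹ (B.D (φ w)) with hD
  have hlinv : l⁻¹ ≠ 0 := inv_ne_zero hl
  have hDi : InjOn D {w | w ∈ Q.U ∧ φ w ∈ B.img} := by
    rintro a ⟨a1, a2⟩ b ⟨b1, b2⟩ hab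
    have h1 := str_inj_AffA hlinv hab
    have h2 : φ a = φ b := by rw [← B.χ_D a2, ← B.χ_D b2, h1]
    rw [← h.left a a1, ← h.left b b1, h2]
  have hDc : ContinuousAt D z := by
    have h1 : ContinuousAt B.D (φ z) := (B.D_holo.differentiableAt himgn).continuousAt
    exact (str_cont_AffA l⁻¹).continuousAt.comp (h1.comp hcφ)
  have key : ∀ w ∈ Q.U, φ w ∈ B.img → Q.q w ≠ 0 →
      AnalyticAt ℂ D w ∧ deriv D w ^ 2 = Q.q w := by
    intro w hw hwi hqw
    obtain ⟨D1, D2, hD1, hD2, e1, e2, he⟩ := h.aff w hw hqw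
    have hqφ := h.ne_zero hw hqw
    have himgw : B.img ∈ 𝓝 (φ w) := B.isOpen_img.mem_nhds hwi
    have hBan : AnalyticAt ℂ B.D (φ w) := B.D_holo.analyticAt himgw
    have hB2 : ∀ᶠ x in 𝓝 (φ w), deriv B.D x ^ 2 = Q.q x := by
      filter_upwards [himgw] with x hx
      exact B.deriv_D hx
    obtain ⟨e, c, hec, hrel⟩ := branch_unique hD2 hBan e2 hB2 hqφ
    have hcw : ContinuousAt φ w := h.cont.continuousAt (Q.isOpen.mem_nhds hw)
    have hDD : D =ᶠ[𝓝 w] fun x => e * D1 x + str l⁻¹ c := by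
      filter_upwards [hcw.tendsto.eventually hrel, he] with x hx1 hx2
      rw [hD]
      simp only
      rw [hx1, hx2, str_add_AffA]
      rcases hec with he1 | he1
      · rw [he1, one_mul, one_mul, str_inv_AffA hl]
      · rw [he1, neg_one_mul, neg_one_mul, str_neg_AffA, str_inv_AffA hl]
    have han : AnalyticAt ℂ (fun x => e * D1 x + str l⁻¹ c) w :=
      (analyticAt_const.mul hD1).add analyticAt_const
    refine ⟨han.congr hDD.symm, ?_⟩
    rw [hDD.deriv_eq]
    have h3 : deriv (fun x => e * D1 x + str l⁻¹ c) w = e * deriv D1 w :=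
      ((hD1.differentiableAt.hasDerivAt.const_mul e).add_const _).deriv
    rw [h3, mul_pow, e1.self_of_nhds]
    rcases hec with he1 | he1 <;> rw [he1] <;> ring
  have hp : ∀ᶠ w in 𝓝[≠] z, AnalyticAt ℂ D w ∧ deriv D w ^ 2 = Q.q w := by
    filter_upwards [isolated Q hz, mem_nhdsWithin_of_mem_nhds hS] with w h1 h2
    exact key w h2.1 h2.2 h1
  have hDa : AnalyticAt ℂ D z :=
    Complex.analyticAt_of_differentiable_on_punctured_nhds_of_continuousAt
      (hp.mono fun w hw => hw.1.differentiableAt) hDc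
  have hd := deriv_ne_of_inj hDa hS hDi
  have hqc : ContinuousAt Q.q z := (Q.holo.analyticAt hUn).continuousAt
  have h5 : ContinuousAt (fun w => deriv D w ^ 2) z := hDa.deriv.continuousAt.pow 2
  have h6 : (fun w => deriv D w ^ 2) =ᶠ[𝓝 z] Q.q :=
    (h5.eventuallyEq_nhds_iff_eventuallyEq_nhdsNE hqc).1 (hp.mono fun w hw => hw.2)
  have h7 := h6.self_of_nhds
  simp only at h7
  rw [h0] at h7
  exact pow_ne_zero 2 hd h7

end Pool.Agent.ANO2.Geo2
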