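import Mathlib

/-!
# A covering lemma for finitely many intervals

Proof of `cover_two`: among the subsets `t ⊆ s` with `⋃_{i ∈ t} I_i = ⋃_{i ∈ s} I_i` take a minimal one
(empty intervals are then excluded).  Sort `t` by the left end points: `i_1, .., i_m`.
By minimality no `I_i` is contained in the union of the others, so
`a (i_1) < a (i_2) < ..`, `b (i_1) < b (i_2) < ..` (strictly increasing) and
`b (i_j) ≤ a (i_(j+2))` (otherwise `I_(i_(j+1)) ⊆ I_(i_j) ∪ I_(i_(j+2))`).  So the intervals with odd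
index are pairwise disjoint, and so are those with even index; the measure of the union is at
most the sum of the two sums, each `≤ ε`.
(Here the two families are constructed greedily from the left, see `exists_two`.)
-/

set_option autoImplicit false

open Set MeasureTheory
open scoped ENNReal

namespace Pool.Agent.ANO2.Geo2

/-- Greedy selection from the left: two families of pairwise disjoint intervals which cover the part
of the union to the right of `c`, the first family being to the right of `c`. -/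
private theorem exists_two {ι : Type*} (a b : ι → ℝ) (s : Finset ι) :
    ∀ c : ℝ, (∀ i ∈ s, c < b i) → ∃ t₁ t₂ : Finset ι, t₁ ⊆ s ∧ t₂ ⊆ s ∧
      (∀ i ∈ t₁, ∀ j ∈ t₁, i ≠ j → Disjoint (Ioo (a i) (b i)) (Ioo (a j) (b j))) ∧
      (∀ i ∈ t₂, ∀ j ∈ t₂, i ≠ j → Disjoint (Ioo (a i) (b i)) (Ioo (a j) (b j))) ∧
      (∀ i ∈ t₁, c ≤ a i) ∧
      ∀ x, c ≤ x → ∀ i ∈ s, x ∈ Ioo (a i) (b i) →
        (∃ j ∈ t₁, x ∈ Ioo (a j) (b j)) ∨ ∃ j ∈ t₂, x ∈ Ioo (a j) (b j) := by
  classical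
  -- adding an interval on the left keeps a family disjoint
  have hins : ∀ (j : ι) (t : Finset ι), (∀ i ∈ t, b j ≤ a i) →
      (∀ i ∈ t, ∀ k ∈ t, i ≠ k → Disjoint (Ioo (a i) (b i)) (Ioo (a k) (b k))) →
      ∀ i ∈ insert j t, ∀ k ∈ insert j t, i ≠ k →
        Disjoint (Ioo (a i) (b i)) (Ioo (a k) (b k)) := by
    intro j t h1 h2 i hi k hk hik
    have h3 : ∀ i ∈ t, Disjoint (Ioo (a j) (b j)) (Ioo (a i) (b i)) := by
      intro i hi
      rw [Set.disjoint_left]
      intro x hx hx2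
      have := h1 i hi
      exact absurd (hx.2.trans_le this) (not_lt.2 hx2.1.le)
    rw [Finset.mem_insert] at hi hk
    rcases hi with rfl | hi
    · rcases hk with rfl | hk
      · exact absurd rfl hik
      · exact h3 k hk
    · rcases hk with rfl | hk
      · exact (h3 i hi).symm
      · exact h2 i hi k hk hik
  induction s using Finset.strongInduction with
  | H s ih =>
    intro c hc
    rcases s.eq_empty_or_nonempty with rfl | hne
    · exact ⟨∅, ∅, by simp, by simp, by simp, by simp, by simp, by simp⟩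
    -- the recursion: pass to the intervals which end after `b j`
    have hrec : ∀ j ∈ s, ∃ t₁ t₂ : Finset ι, t₁ ⊆ s ∧ t₂ ⊆ s ∧
        (∀ i ∈ t₁, ∀ j ∈ t₁, i ≠ j → Disjoint (Ioo (a i) (b i)) (Ioo (a j) (b j))) ∧
        (∀ i ∈ t₂, ∀ j ∈ t₂, i ≠ j → Disjoint (Ioo (a i) (b i)) (Ioo (a j) (b j))) ∧
        (∀ i ∈ t₁, b j ≤ a i) ∧ (∀ i ∈ t₁, b j < b i) ∧ (∀ i ∈ t₂, b j < b i) ∧
        ∀ x, b j ≤ x → ∀ i ∈ s, x ∈ Ioo (a i) (b i) →
          (∃ j ∈ t₁, x ∈ Ioo (a j) (b j)) ∨ ∃ j ∈ t₂, x ∈ Ioo (a j) (b j) := by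
      intro j hj
      have hss : s.filter (fun i => b j < b i) ⊂ s := by
        refine Finset.filter_ssubset.2 ⟨j, hj, lt_irrefl _⟩
      obtain ⟨t₁, t₂, h1, h2, h3, h4, h5, h6⟩ := ih _ hss (b j)
        (fun i hi => (Finset.mem_filter.1 hi).2)
      refine ⟨t₁, t₂, h1.trans (Finset.filter_subset _ _), h2.trans (Finset.filter_subset _ _),
        h3, h4, h5, fun i hi => (Finset.mem_filter.1 (h1 hi)).2,
        fun i hi => (Finset.mem_filter.1 (h2 hi)).2, fun x hx i hi hxi => ?_⟩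
      exact h6 x hx i (Finset.mem_filter.2 ⟨hi, hx.trans_lt hxi.2⟩) hxi
    rcases (s.filter (fun i => a i < c)).eq_empty_or_nonempty with he | hn
    · -- no interval crosses `c`
      have hge : ∀ i ∈ s, c ≤ a i := by
        intro i hi
        by_contra hlt
        have : i ∈ s.filter (fun i => a i < c) := Finset.mem_filter.2 ⟨hi, not_le.1 hlt⟩
        rw [he] at this
        exact absurd this (Finset.notMem_empty _)
      obtain ⟨j, hj, hmin⟩ := s.exists_min_image a hne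
      obtain ⟨t₁, t₂, h1, h2, h3, h4, h5, -, -, h6⟩ := hrec j hj
      refine ⟨insert j t₁, t₂, Finset.insert_subset hj h1, h2, hins j t₁ h5 h3, h4,
        fun i hi => hge i (Finset.insert_subset hj h1 hi), fun x hx i hi hxi => ?_⟩
      rcases lt_or_ge x (b j) with hlt | hle
      · exact Or.inl ⟨j, Finset.mem_insert_self _ _, (hmin i hi).trans_lt hxi.1, hlt⟩
      · rcases h6 x hle i hi hxi with ⟨k, hk, hk2⟩ | h7
        · exact Or.inl ⟨k, Finset.mem_insert_of_mem hk, hk2⟩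
        · exact Or.inr h7
    · -- take the interval across `c` with the largest right end point
      obtain ⟨j, hj, hmax⟩ := (s.filter (fun i => a i < c)).exists_max_image b hn
      rw [Finset.mem_filter] at hj
      obtain ⟨t₁, t₂, h1, h2, h3, h4, h5, -, h8, h6⟩ := hrec j hj.1
      refine ⟨t₂, insert j t₁, h2, Finset.insert_subset hj.1 h1, h4, hins j t₁ h5 h3,
        fun i hi => ?_, fun x hx i hi hxi => ?_⟩
      · by_contra hlt
        have h9 := hmax i (Finset.mem_filter.2 ⟨h2 hi, not_le.1 hlt⟩)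
        exact absurd (h8 i hi) (not_lt.2 h9)
      · rcases lt_or_ge x (b j) with hlt | hle
        · exact Or.inr ⟨j, Finset.mem_insert_self _ _, hj.2.trans_le hx, hlt⟩
        · rcases h6 x hle i hi hxi with ⟨k, hk, hk2⟩ | h7
          · exact Or.inr ⟨k, Finset.mem_insert_of_mem hk, hk2⟩
          · exact Or.inl h7

theorem cover_two {ι : Type*} (s : Finset ι) (a b : ι → ℝ) (μ : Measure ℝ) (ε : ℝ≥0∞)
    (h : ∀ t ⊆ s, (∀ i ∈ t, ∀ j ∈ t, i ≠ j → Disjoint (Ioo (a i) (b i)) (Ioo (a j) (b j))) →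
      ∑ i ∈ t, μ (Ioo (a i) (b i)) ≤ ε) : μ (⋃ i ∈ s, Ioo (a i) (b i)) ≤ 2 * ε := by
  classical
  -- the nonempty intervals
  set s' : Finset ι := s.filter (fun i => a i < b i) with hs'
  obtain ⟨c, hc⟩ : ∃ c : ℝ, ∀ i ∈ s, c ≤ a i := by
    rcases s.eq_empty_or_nonempty with rfl | hne
    · exact ⟨0, by simp⟩
    · obtain ⟨j, -, hmin⟩ := s.exists_min_image a hne
      exact ⟨a j, hmin⟩
  obtain ⟨t₁, t₂, h1, h2, h3, h4, -, h6⟩ := exists_two a b s' c (fun i hi => by
    rw [hs', Finset.mem_filter] at hi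
    exact (hc i hi.1).trans_lt hi.2)
  have hsub : s' ⊆ s := Finset.filter_subset _ _
  have hcov : (⋃ i ∈ s, Ioo (a i) (b i)) ⊆
      (⋃ i ∈ t₁, Ioo (a i) (b i)) ∪ ⋃ i ∈ t₂, Ioo (a i) (b i) := by
    intro x hx
    simp only [mem_iUnion, exists_prop] at hx
    obtain ⟨i, hi, hxi⟩ := hx
    have hi' : i ∈ s' := Finset.mem_filter.2 ⟨hi, hxi.1.trans hxi.2⟩
    rcases h6 x ((hc i hi).trans hxi.1.le) i hi' hxi with ⟨k, hk, hk2⟩ | ⟨k, hk, hk2⟩
    · left
      simp only [mem_iUnion, exists_prop]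
      exact ⟨k, hk, hk2⟩
    · right
      simp only [mem_iUnion, exists_prop]
      exact ⟨k, hk, hk2⟩
  calc μ (⋃ i ∈ s, Ioo (a i) (b i))
      ≤ μ ((⋃ i ∈ t₁, Ioo (a i) (b i)) ∪ ⋃ i ∈ t₂, Ioo (a i) (b i)) := measure_mono hcov
    _ ≤ μ (⋃ i ∈ t₁, Ioo (a i) (b i)) + μ (⋃ i ∈ t₂, Ioo (a i) (b i)) := measure_union_le _ _
    _ ≤ (∑ i ∈ t₁, μ (Ioo (a i) (b i))) + ∑ i ∈ t₂, μ (Ioo (a i) (b i)) :=
        add_le_add (measure_biUnion_finset_le _ _) (measure_biUnion_finset_le _ _)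
    _ ≤ ε + ε := add_le_add (h t₁ (h1.trans hsub) h3) (h t₂ (h2.trans hsub) h4)
    _ = 2 * ε := (two_mul ε).symm

end Pool.Agent.ANO2.Geo2
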