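import Pool.Agent.ANO2.Geo2.HLen
import Pool.Agent.ANO2.Geo2.Cov
import Pool.Agent.ANO2.Geo2.Metric

/-!
# ANO phase 2, Geo2: an almost shortest path crosses few vertical leaves twice

Proof of `bad`.  Let `P` be the set of pairs `(s, t)`, `0 ≤ s < t ≤ l`, with `HC Q.neg (c s) (c
t) S` for some `S`, and `O = ⋃_{(s, t) ∈ P} (s, t)`, an open set.

(1) Excess.  For `0 ≤ s ≤ t ≤ l` put `e (s, t) = (t - s) - d1 Q (c s) (c t)`; `e ≥ 0` (`RP.sub`,
`d1_le`), `e (s, t) + e (t, u) ≤ e (s, u)` (`d1_triangle`) and `e (0, l) ≤ ε`.  So for finitely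
many pairwise disjoint open intervals `(s_i, t_i) ⊆ (0, l)` we have `∑ e (s_i, t_i) ≤ ε`.

(2) For `(s, t) ∈ P` with the vertical arc of length `S`: `d1 Q (c s) (c t) ≤ S` (`HC.joins` for
`Q.neg`, `Joins.neg`), and `S ≤ ds Q (c s) (c t) ≤ (t - s) - vol (B ∩ [s, t])` (`HC.le_du` for
`Q.neg`, `du_neg`, `ds_le`, `RP.sub`).  So `vol (B ∩ [s, t]) ≤ e (s, t)`.

(3) By (1), (2) and `cover_two` with `μ = volume.restrict (B ∩ Icc 0 l)` every finite union of
intervals of `P` has `μ`-measure at most `2 ε`.  By Lindelöf `O` is a countable union of such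
intervals (`TopologicalSpace.isOpen_iUnion_countable`), so an increasing union of finite ones,
`μ O ≤ 2 ε`.

(4) Let `t ∈ (0, l) \ A`, `t ∈ B`, `t ∉ O`, `HC Q.neg (c t) (c s) S`, `s ≠ t`.  If `s ∈ (0, l) \
A`, `s ∈ B` then by `hol` (with `c0 = c1 = c`) `HC Q.neg (c (t + x)) (c (s + e x)) S` for small
`|x|`, with `x` of the right sign (`x < 0` if `t < s`, `x > 0` if `s < t`) the interval between
`t + x` and `s + e x` contains `t`, so `t ∈ O`: contradiction.  So `s ∈ A ∪ {0, l}` or `s` is in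
the open set `(0, l) \ A`, `s ∉ B`.  As in the proof of `meas` (1) a given `s ∈ A ∪ {0, l}`,
resp. a given component of this open set, serves at most countably many `t`; in fact at most
one: if it serves `t < t'` then `HC Q.neg (c t) (c t') _`, so `(t, t') ∈ P`; applying the
argument above to the pair `t, t'` (both in `B \ A`) gives `t ∈ O`, contradiction.
-/

set_option autoImplicit false

open Set Filter Topology MeasureTheory

namespace Pool.Agent.ANO2.Geo2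

variable {Q : QD}

/-- The excess of a piece of a path. -/
private noncomputable def exc (Q : QD) (c : ℝ → ℂ) (s t : ℝ) : ℝ := (t - s) - d1 Q (c s) (c t)

private theorem exc_nonneg {l : ℝ} {c : ℝ → ℂ} {A B : Set ℝ} (h : RP Q l c A B) {s t : ℝ}
    (hs : 0 ≤ s) (hst : s ≤ t) (ht : t ≤ l) : 0 ≤ exc Q c s t := by
  have h1 := d1_le (h.sub hs hst ht)
  unfold exc
  linarith

private theorem exc_add {l : ℝ} {c : ℝ → ℂ} {A B : Set ℝ} (h : RP Q l c A B) {s t u : ℝ}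
    (hs : 0 ≤ s) (hst : s ≤ t) (htu : t ≤ u) (hu : u ≤ l) :
    exc Q c s t + exc Q c t u ≤ exc Q c s u := by
  have h1 := d1_triangle (h.mem s ⟨hs, hst.trans (htu.trans hu)⟩)
    (h.mem t ⟨hs.trans hst, htu.trans hu⟩) (h.mem u ⟨hs.trans (hst.trans htu), hu⟩)
  unfold exc
  linarith

private theorem exc_sum {l : ℝ} {c : ℝ → ℂ} {A B : Set ℝ} (h : RP Q l c A B) {ι : Type*}
    (a b : ι → ℝ) (n : ℕ) : ∀ (t : Finset ι), t.card = n → ∀ x y : ℝ, 0 ≤ x → x ≤ y → y ≤ l →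
      (∀ i ∈ t, x ≤ a i ∧ a i < b i ∧ b i ≤ y) →
      (∀ i ∈ t, ∀ j ∈ t, i ≠ j → Disjoint (Ioo (a i) (b i)) (Ioo (a j) (b j))) →
      ∑ i ∈ t, exc Q c (a i) (b i) ≤ exc Q c x y := by
  classical
  induction n with
  | zero =>
    intro t ht x y hx hxy hy _ _
    rw [Finset.card_eq_zero] at ht
    subst ht
    simpa using exc_nonneg h hx hxy hy
  | succ n ih =>
    intro t ht x y hx hxy hy h1 h2
    have hne : t.Nonempty := by
      rw [← Finset.card_pos]
      omega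
    obtain ⟨p, hp, hmax⟩ := t.exists_max_image b hne
    obtain ⟨g1, g2, g3⟩ := h1 p hp
    have h3 : ∀ i ∈ t.erase p, x ≤ a i ∧ a i < b i ∧ b i ≤ a p := by
      intro i hi
      rw [Finset.mem_erase] at hi
      obtain ⟨k1, k2, k3⟩ := h1 i hi.2
      refine ⟨k1, k2, ?_⟩
      by_contra hlt
      rw [not_le] at hlt
      have hd := h2 i hi.2 p hp hi.1
      rw [Set.disjoint_left] at hd
      obtain ⟨z, hz1, hz2⟩ := exists_between (max_lt k2 hlt)
      have hm : z ∈ Ioo (a i) (b i) := ⟨(le_max_left _ _).trans_lt hz1, hz2⟩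
      exact hd hm ⟨(le_max_right _ _).trans_lt hz1, hz2.trans_le (hmax i hi.2)⟩
    have h4 := ih (t.erase p) (by rw [Finset.card_erase_of_mem hp, ht]; rfl) x (a p) hx g1
      (g2.le.trans (g3.trans hy)) h3 (fun i hi j hj hij => h2 i (Finset.mem_of_mem_erase hi) j
        (Finset.mem_of_mem_erase hj) hij)
    rw [← Finset.add_sum_erase t _ hp]
    have h5 := exc_add h hx g1 g2.le (g3.trans hy)
    have h6 := exc_add h hx (g1.trans g2.le) g3 hy
    have h7 := exc_nonneg h (hx.trans (g1.trans g2.le)) g3 hy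
    linarith

/-- The vertical relation. -/
private def VV (Q : QD) (z w : ℂ) : Prop := ∃ S, HC Q.neg z w S

private theorem VV.symm {z w : ℂ} (h : VV Q z w) : VV Q w z := by
  obtain ⟨S, hS⟩ := h
  exact ⟨S, hS.symm⟩

private theorem VV.trans {z w z' : ℂ} (h : VV Q z w) (h' : VV Q w z') : VV Q z z' := by
  obtain ⟨S, hS⟩ := h
  obtain ⟨S', hS'⟩ := h'
  exact hS.trans hS'

private theorem vol_le_exc (hP : Proper Q) {l : ℝ} {c : ℝ → ℂ} {A B : Set ℝ}
    (h : RP Q l c A B) {s t : ℝ} (hs : 0 ≤ s) (hst : s ≤ t) (ht : t ≤ l)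
    (hv : VV Q (c s) (c t)) : (volume (B ∩ Icc s t)).toReal ≤ exc Q c s t := by
  obtain ⟨S, hS⟩ := hv
  have h1 : d1 Q (c s) (c t) ≤ S := by
    have h2 : Joins Q.neg.neg (c s) (c t) 0 S := hS.joins.neg
    rw [QD.neg_neg] at h2
    simpa using d1_le h2
  have h3 : S ≤ ds Q (c s) (c t) := by
    have h4 := hS.le_du hP.neg
    rwa [du_neg] at h4
  have h5 := ds_le (h.sub hs hst ht)
  unfold exc
  linarith

private theorem ev_mem {l : ℝ} {A : Set ℝ} (hA : A.Finite) {t : ℝ} (ht : t ∈ Ioo 0 l)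
    (htA : t ∉ A) : ∀ᶠ u in 𝓝 t, u ∈ Ioo 0 l ∧ u ∉ A :=
  Filter.Eventually.and (Ioo_mem_nhds ht.1 ht.2) (hA.isClosed.isOpen_compl.mem_nhds htA)

private theorem ev_hor {l : ℝ} {c : ℝ → ℂ} {A B : Set ℝ} (h : RP Q l c A B) {t : ℝ}
    (ht : t ∈ Ioo 0 l) (htA : t ∉ A) (htB : t ∈ B) : ∀ᶠ u in 𝓝 t, Hor Q c u := by
  have h1 : ∀ᶠ u in 𝓝 t, u ∈ B := by
    rcases h.loc t ht htA with h1 | h1
    · exact h1
    · exact absurd htB h1.self_of_nhds
  filter_upwards [h1, ev_mem h.fin ht htA] with u h2 h3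
  exact h.hor u h3.1 h3.2 h2

private theorem ev_ver {l : ℝ} {c : ℝ → ℂ} {A B : Set ℝ} (h : RP Q l c A B) {t : ℝ}
    (ht : t ∈ Ioo 0 l) (htA : t ∉ A) (htB : t ∉ B) : ∀ᶠ u in 𝓝 t, Hor Q.neg c u := by
  have h1 : ∀ᶠ u in 𝓝 t, u ∉ B := by
    rcases h.loc t ht htA with h1 | h1
    · exact absurd h1.self_of_nhds htB
    · exact h1
  filter_upwards [h1, ev_mem h.fin ht htA] with u h2 h3
  exact h.ver u h3.1 h3.2 h2

/-- The set of the good pairs. -/
private def PP (Q : QD) (l : ℝ) (c : ℝ → ℂ) : Set (ℝ × ℝ) :=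
  {p | 0 ≤ p.1 ∧ p.1 < p.2 ∧ p.2 ≤ l ∧ VV Q (c p.1) (c p.2)}

private theorem mem_O {l : ℝ} {c : ℝ → ℂ} {A B : Set ℝ} (h : RP Q l c A B) {t s : ℝ}
    (ht : t ∈ Ioo 0 l) (htA : t ∉ A) (htB : t ∈ B) (hs : s ∈ Ioo 0 l) (hsA : s ∉ A)
    (hsB : s ∈ B) (hne : s ≠ t) (hv : VV Q (c t) (c s)) :
    t ∈ ⋃ p ∈ PP Q l c, Ioo p.1 p.2 := by
  obtain ⟨S, hS⟩ := hv
  obtain ⟨δ, hδ, e, he, hx⟩ := hol hS (ev_hor h ht htA htB) (ev_hor h hs hsA hsB)
  have hab : ∀ x : ℝ, |e * x| = |x| := by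
    intro x
    rcases he with rfl | rfl
    · rw [one_mul]
    · rw [neg_one_mul, abs_neg]
  obtain ⟨η, hη, k1, k2, k3, k4, k5, k6⟩ : ∃ η > 0, η < δ ∧ η < t ∧ η < l - t ∧ η < s ∧
      η < l - s ∧ 2 * η < |s - t| := by
    have hd : 0 < |s - t| := abs_pos.mpr (sub_ne_zero.mpr hne)
    have hm : 0 < min δ (min t (min (l - t) (min s (min (l - s) (|s - t| / 2))))) := by
      refine lt_min hδ (lt_min ht.1 (lt_min ?_ (lt_min hs.1 (lt_min ?_ (by linarith)))))
      · linarith [ht.2]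
      · linarith [hs.2]
    obtain ⟨η, h0, h1⟩ := exists_between hm
    simp only [lt_min_iff] at h1
    obtain ⟨a1, a2, a3, a4, a5, a6⟩ := h1
    exact ⟨η, h0, a1, a2, a3, a4, a5, by linarith⟩
  have hbd : ∀ x : ℝ, |x| = η → |e * x| = η := fun x hx => by rw [hab x, hx]
  rw [mem_iUnion₂]
  rcases lt_or_gt_of_ne hne with hlt | hlt
  · -- `s < t`
    have h1 := hbd η (abs_of_pos hη)
    have h2 := abs_le.1 h1.le
    rw [abs_of_neg (by linarith : s - t < 0)] at k6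
    refine ⟨(s + e * η, t + η), ⟨by dsimp only; linarith, by dsimp only; linarith,
      by dsimp only; linarith, ?_⟩, by dsimp only; linarith, by dsimp only; linarith⟩
    exact VV.symm ⟨S, hx η ⟨by linarith, k1⟩⟩
  · -- `t < s`
    have h1 := hbd (-η) (by rw [abs_neg, abs_of_pos hη])
    have h2 := abs_le.1 h1.le
    rw [abs_of_pos (by linarith : 0 < s - t)] at k6
    refine ⟨(t + -η, s + e * -η), ⟨by dsimp only; linarith, by dsimp only; linarith,
      by dsimp only; linarith, ?_⟩, by dsimp only; linarith, by dsimp only; linarith⟩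
    exact ⟨S, hx (-η) ⟨by linarith, by linarith⟩⟩

theorem bad (hP : Proper Q) {l : ℝ} {c : ℝ → ℂ} {A B : Set ℝ} (h : RP Q l c A B) {ε : ℝ}
    (hε : 0 ≤ ε) (hmin : l ≤ d1 Q (c 0) (c l) + ε) :
    ∃ O : Set ℝ, IsOpen O ∧ volume (O ∩ (B ∩ Icc 0 l)) ≤ ENNReal.ofReal (2 * ε) ∧
      {t | t ∈ Ioo 0 l ∧ t ∉ A ∧ t ∈ B ∧ t ∉ O ∧ ∃ s ∈ Icc 0 l, s ≠ t ∧
        ∃ S, HC Q.neg (c t) (c s) S}.Countable := by
  classical
  refine ⟨⋃ p ∈ PP Q l c, Ioo p.1 p.2, isOpen_biUnion fun p _ => isOpen_Ioo, ?_, ?_⟩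
  · -- the measure
    obtain ⟨T, hTP, hTc, hTU⟩ := TopologicalSpace.isOpen_biUnion_countable (PP Q l c)
      (fun p => Ioo p.1 p.2) (fun p _ => isOpen_Ioo)
    rw [← hTU]
    rcases T.eq_empty_or_nonempty with rfl | hTne
    · simp
    obtain ⟨f, rfl⟩ := hTc.exists_eq_range hTne
    have hf : ∀ n, f n ∈ PP Q l c := fun n => hTP ⟨n, rfl⟩
    have hU : (⋃ p ∈ range f, Ioo p.1 p.2) = ⋃ n, Ioo (f n).1 (f n).2 := by
      rw [biUnion_range]
    rw [hU]
    have hO : MeasurableSet (⋃ n, Ioo (f n).1 (f n).2) :=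
      MeasurableSet.iUnion fun n => measurableSet_Ioo
    have hm : (volume.restrict (B ∩ Icc 0 l)) (⋃ n, Ioo (f n).1 (f n).2) ≤
        ENNReal.ofReal (2 * ε) := by
      rw [measure_iUnion_eq_iSup_accumulate]
      refine iSup_le fun n => ?_
      have hacc : Set.accumulate (fun n => Ioo (f n).1 (f n).2) n =
          ⋃ i ∈ Finset.range (n + 1), Ioo (f i).1 (f i).2 := by
        ext x
        simp only [Set.mem_accumulate, mem_iUnion, Finset.mem_range, Nat.lt_succ_iff, exists_prop]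
      rw [hacc]
      have hmul : ENNReal.ofReal (2 * ε) = 2 * ENNReal.ofReal ε := by
        rw [ENNReal.ofReal_mul (by norm_num)]
        norm_num
      rw [hmul]
      apply cover_two
      intro t _ hdis
      have hle : ∀ i ∈ t, (volume.restrict (B ∩ Icc 0 l)) (Ioo (f i).1 (f i).2) ≤
          ENNReal.ofReal (exc Q c (f i).1 (f i).2) := by
        intro i _
        obtain ⟨a1, a2, a3, a4⟩ := hf i
        have h1 := vol_le_exc hP h a1 a2.le a3 a4
        have h2 : (volume.restrict (B ∩ Icc 0 l)) (Ioo (f i).1 (f i).2) ≤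
            volume (B ∩ Icc (f i).1 (f i).2) := by
          rw [Measure.restrict_apply measurableSet_Ioo]
          exact measure_mono fun x hx => ⟨hx.2.1, hx.1.1.le, hx.1.2.le⟩
        have h3 : volume (B ∩ Icc (f i).1 (f i).2) ≠ ⊤ :=
          ne_top_of_le_ne_top (by rw [Real.volume_Icc]; exact ENNReal.ofReal_ne_top)
            (measure_mono inter_subset_right)
        refine h2.trans ?_
        rw [← ENNReal.ofReal_toReal h3]
        exact ENNReal.ofReal_le_ofReal h1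
      refine (Finset.sum_le_sum hle).trans ?_
      rw [← ENNReal.ofReal_sum_of_nonneg]
      · apply ENNReal.ofReal_le_ofReal
        have h1 := exc_sum h (fun i => (f i).1) (fun i => (f i).2) t.card t rfl 0 l le_rfl
          h.nonneg le_rfl (fun i _ => ⟨(hf i).1, (hf i).2.1, (hf i).2.2.1⟩) hdis
        refine h1.trans ?_
        unfold exc
        linarith
      · intro i _
        obtain ⟨a1, a2, a3, -⟩ := hf i
        exact exc_nonneg h a1 a2.le a3
    rwa [Measure.restrict_apply hO] at hm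
  · -- countability
    set C : Set ℝ := {t | t ∈ Ioo 0 l ∧ t ∉ A ∧ t ∈ B ∧
      t ∉ (⋃ p ∈ PP Q l c, Ioo p.1 p.2) ∧ ∃ s ∈ Icc 0 l, s ≠ t ∧ ∃ S, HC Q.neg (c t) (c s) S}
      with hC
    set R : Set ℝ := (A ∪ {0, l}) ∪ range (fun q : ℚ => (q : ℝ)) with hR
    have hRc : R.Countable :=
      (h.fin.countable.union (by simp)).union (countable_range _)
    have hsub : C ⊆ ⋃ r ∈ R, {t | t ∈ C ∧ VV Q (c t) (c r)} := by
      intro t ht
      obtain ⟨h1, h2, h3, h4, s, hs, hst, S, hS⟩ := ht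
      have hv : VV Q (c t) (c s) := ⟨S, hS⟩
      rw [mem_iUnion₂]
      by_cases hsA : s ∈ A ∪ {0, l}
      · exact ⟨s, Or.inl hsA, ⟨h1, h2, h3, h4, s, hs, hst, S, hS⟩, hv⟩
      · have hsA' : s ∉ A := fun hh => hsA (Or.inl hh)
        have hs0 : s ≠ 0 := fun hh => hsA (Or.inr (by simp [hh]))
        have hsl : s ≠ l := fun hh => hsA (Or.inr (by simp [hh]))
        have hsI : s ∈ Ioo 0 l := ⟨lt_of_le_of_ne hs.1 hs0.symm, lt_of_le_of_ne hs.2 hsl⟩
        have hsB : s ∉ B := fun hh => h4 (mem_O h h1 h2 h3 hsI hsA' hh hst hv)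
        obtain ⟨δ, hδ, hball⟩ := Metric.eventually_nhds_iff.1 (ev_ver h hsI hsA' hsB)
        obtain ⟨q, hq1, hq2⟩ := exists_rat_btwn (show s < s + δ by linarith)
        have hhor : ∀ u ∈ Ioo (s - δ) (s + δ), Hor Q.neg c u := by
          intro u hu
          apply hball
          rw [Real.dist_eq, abs_lt]
          exact ⟨by linarith [hu.1], by linarith [hu.2]⟩
        have hv2 : VV Q (c s) (c q) :=
          ⟨_, hc_of_hor hhor (s := s) (t := q) ⟨by linarith, by linarith⟩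
            ⟨by linarith, hq2⟩⟩
        exact ⟨q, Or.inr ⟨q, rfl⟩, ⟨h1, h2, h3, h4, s, hs, hst, S, hS⟩, hv.trans hv2⟩
    refine (hRc.biUnion fun r _ => ?_).mono hsub
    apply Set.Subsingleton.countable
    rintro t ⟨ht, htv⟩ t' ⟨ht', htv'⟩
    by_contra hne
    exact ht.2.2.2.1 (mem_O h ht.1 ht.2.1 ht.2.2.1 ht'.1 ht'.2.1 ht'.2.2.1 (Ne.symm hne)
      (htv.trans htv'.symm))

end Pool.Agent.ANO2.Geo2
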