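import Pool.Agent.ANO2.Geo2.Defs

/-!
# ANO phase 2, Geo2: flow boxes and local uniqueness of horizontal arcs

All statements are local.  Paper proofs.

* `box_exists`: near a point `z0` with `q z0 ≠ 0` let `r` be the holomorphic branch of `√q` with
  `r z0 = v⁻¹` (so `r z0 ^ 2 = q z0`), on a small ball, let `D` be the primitive of `r` with
  `D z0 = 0` (`DifferentiableOn.isExactOn_ball` or similar); `D' z0 ≠ 0`, so `D` is injective near
  `z0` and its local inverse `χ` is holomorphic near `0` (inverse function theorem;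
  `HasStrictDerivAt.toOpenPartialHomeomorph`), `χ' = 1 / r(χ)`.  Take a small square about `0`.
* `Box.isOpen_img`: open mapping theorem (or `deriv χ ≠ 0` and the inverse function theorem).
* `hor_of_box` and `ver_of_box`: chain rule, `deriv χ w` resp. `I * deriv χ w`.
-/

set_option autoImplicit false

open Set Filter Topology

namespace Pool.Agent.ANO2.Geo2

variable {Q : QD}

theorem Hor.mem {σ : ℝ → ℂ} {t : ℝ} (h : Hor Q σ t) : σ t ∈ Q.U := h.1

theorem Hor.q_ne {σ : ℝ → ℂ} {t : ℝ} (h : Hor Q σ t) : Q.q (σ t) ≠ 0 := by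
  obtain ⟨-, v, -, h2⟩ := h
  intro h0
  rw [h0] at h2
  simp at h2

theorem Hor.continuousAt {σ : ℝ → ℂ} {t : ℝ} (h : Hor Q σ t) : ContinuousAt σ t := by
  obtain ⟨-, v, h1, -⟩ := h
  exact h1.continuousAt

/-- `Hor` depends only on the germ of `σ` at `t`. -/
theorem Hor.congr {σ τ : ℝ → ℂ} {t : ℝ} (h : Hor Q σ t) (he : τ =ᶠ[𝓝 t] σ) : Hor Q τ t := by
  obtain ⟨hm, v, h1, h2⟩ := h
  have he0 : τ t = σ t := he.eq_of_nhds
  refine ⟨by rw [he0]; exact hm, v, h1.congr_of_eventuallyEq he, by rw [he0]; exact h2⟩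

/-- Shift of the time. -/
theorem Hor.shift {σ : ℝ → ℂ} {t s : ℝ} (h : Hor Q σ (t + s)) : Hor Q (fun u => σ (u + s)) t := by
  obtain ⟨hm, v, h1, h2⟩ := h
  exact ⟨hm, v, HasDerivAt.comp_add_const t s h1, h2⟩

/-- Reversal of the time. -/
theorem Hor.neg_time {σ : ℝ → ℂ} {t s : ℝ} (h : Hor Q σ (s - t)) :
    Hor Q (fun u => σ (s - u)) t := by
  obtain ⟨hm, v, h1, h2⟩ := h
  exact ⟨hm, -v, HasDerivAt.comp_const_sub s t h1, by rw [neg_sq]; exact h2⟩

/-- A holomorphic branch of `√q` near a point which is not a zero of `q`. -/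
private theorem branch_exists (Q : QD) {z0 v : ℂ} (hz : z0 ∈ Q.U) (hv : Q.q z0 * v ^ 2 = 1) :
    ∃ (r : ℂ → ℂ) (δ : ℝ), 0 < δ ∧ DifferentiableOn ℂ r (Metric.ball z0 δ) ∧ r z0 = v⁻¹ ∧
      Metric.ball z0 δ ⊆ Q.U ∧ ∀ z, r z ≠ 0 ∧ (z ∈ Metric.ball z0 δ → r z ^ 2 = Q.q z) := by
  have hv0 : v ≠ 0 := by
    rintro rfl
    simp at hv
  have hq0 : Q.q z0 ≠ 0 := by
    intro h0
    rw [h0] at hv
    simp at hv
  have hqv : v⁻¹ ^ 2 = Q.q z0 := by
    rw [inv_pow]
    exact inv_eq_of_mul_eq_one_left hv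
  have hqc : ContinuousAt Q.q z0 := (Q.holo.continuousOn).continuousAt (Q.isOpen.mem_nhds hz)
  have hev : ∀ᶠ z in 𝓝 z0, Q.q z / Q.q z0 ∈ Complex.slitPlane := by
    have h1 : ContinuousAt (fun z => Q.q z / Q.q z0) z0 := hqc.div_const _
    refine h1.eventually (Complex.isOpen_slitPlane.mem_nhds ?_)
    change Q.q z0 / Q.q z0 ∈ Complex.slitPlane
    rw [div_self hq0]
    exact Complex.one_mem_slitPlane
  obtain ⟨δ, hδ, hball⟩ := Metric.eventually_nhds_iff_ball.1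
    (hev.and (Q.isOpen.eventually_mem hz))
  refine ⟨fun z => v⁻¹ * Complex.exp ((1 / 2 : ℂ) * Complex.log (Q.q z / Q.q z0)), δ, hδ,
    ?_, ?_, fun z h => (hball z h).2, fun z => ⟨?_, ?_⟩⟩
  · refine DifferentiableOn.const_mul (DifferentiableOn.cexp (DifferentiableOn.const_mul ?_ _)) _
    refine DifferentiableOn.clog ?_ fun z h => (hball z h).1
    exact (Q.holo.mono fun z h => (hball z h).2).div_const _
  · simp [div_self hq0]
  · exact mul_ne_zero (inv_ne_zero hv0) (Complex.exp_ne_zero _)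
  · intro h
    have h1 : Q.q z / Q.q z0 ≠ 0 := Complex.slitPlane_ne_zero (hball z h).1
    have h2 : Complex.exp ((1 / 2 : ℂ) * Complex.log (Q.q z / Q.q z0)) ^ 2 = Q.q z / Q.q z0 := by
      rw [← Complex.exp_nat_mul]
      have h3 : ((2 : ℕ) : ℂ) * ((1 / 2 : ℂ) * Complex.log (Q.q z / Q.q z0)) =
          Complex.log (Q.q z / Q.q z0) := by
        push_cast
        ring
      rw [h3, Complex.exp_log h1]
    change (v⁻¹ * Complex.exp ((1 / 2 : ℂ) * Complex.log (Q.q z / Q.q z0))) ^ 2 = Q.q z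
    rw [mul_pow, h2, hqv]
    field_simp

theorem box_exists (Q : QD) {z0 v : ℂ} (hz : z0 ∈ Q.U) (hv : Q.q z0 * v ^ 2 = 1) {W : Set ℂ}
    (hW : W ∈ 𝓝 z0) : ∃ ρ > 0, ∃ B : Box Q, B.a = -ρ ∧ B.b = ρ ∧ B.c = -ρ ∧ B.d = ρ ∧ B.χ 0 = z0 ∧
      deriv B.χ 0 = v ∧ B.img ⊆ W := by
  obtain ⟨r, δ, hδ, hr, hr0, hU, hr2⟩ := branch_exists Q hz hv
  have hv0 : v ≠ 0 := by
    rintro rfl
    simp at hv
  obtain ⟨D, hD0, hD⟩ := hr.isExactOn_ball.with_val_at z0 0
  have hopen : IsOpen (Metric.ball z0 δ) := Metric.isOpen_ball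
  have hDdiff : DifferentiableOn ℂ D (Metric.ball z0 δ) := fun z h =>
    (hD z h).differentiableAt.differentiableWithinAt
  have hz0 : z0 ∈ Metric.ball z0 δ := Metric.mem_ball_self hδ
  have hstrict : HasStrictDerivAt D (v⁻¹) z0 := by
    have h1 : ContDiffAt ℂ 1 D z0 :=
      (hDdiff.analyticAt (hopen.mem_nhds hz0)).contDiffAt
    have h2 := h1.hasStrictDerivAt (by norm_num)
    rw [(hD z0 hz0).deriv, hr0] at h2
    exact h2
  have hvi : v⁻¹ ≠ 0 := inv_ne_zero hv0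
  let e := (hstrict.hasStrictFDerivAt_equiv hvi).toOpenPartialHomeomorph D
  have heD : ∀ z, e z = D z := fun z => rfl
  have hsrc : z0 ∈ e.source :=
    (hstrict.hasStrictFDerivAt_equiv hvi).mem_toOpenPartialHomeomorph_source
  have htgt : (0 : ℂ) ∈ e.target := by
    have := e.map_source hsrc
    rw [heD, hD0] at this
    exact this
  have hsymm0 : e.symm 0 = z0 := by
    have := e.left_inv hsrc
    rw [heD, hD0] at this
    exact this
  have hnhds : ∀ᶠ w in 𝓝 (0 : ℂ), w ∈ e.target ∧ e.symm w ∈ Metric.ball z0 δ ∩ W := by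
    refine (e.open_target.eventually_mem htgt).and ?_
    have h1 : ContinuousAt e.symm 0 := e.symm.continuousAt htgt
    have h2 : Metric.ball z0 δ ∩ W ∈ 𝓝 (e.symm 0) := by
      rw [hsymm0]
      exact Filter.inter_mem (hopen.mem_nhds hz0) hW
    exact h1.eventually_mem h2
  obtain ⟨ε, hε, hεb⟩ := Metric.eventually_nhds_iff_ball.1 hnhds
  have hderiv : ∀ w ∈ e.target, e.symm w ∈ Metric.ball z0 δ →
      HasDerivAt e.symm (r (e.symm w))⁻¹ w := fun w hw hb =>
    e.hasDerivAt_symm hw (hr2 _).1 (hD _ hb)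
  have hsq : ∀ w ∈ Ioo (-(ε / 2)) (ε / 2) ×ℂ Ioo (-(ε / 2)) (ε / 2), w ∈ Metric.ball (0 : ℂ) ε := by
    intro w hw
    rw [Complex.mem_reProdIm] at hw
    rw [mem_ball_zero_iff]
    have h1 : |w.re| < ε / 2 := abs_lt.2 hw.1
    have h2 : |w.im| < ε / 2 := abs_lt.2 hw.2
    have h3 := Complex.norm_le_abs_re_add_abs_im w
    linarith
  refine ⟨ε / 2, half_pos hε, ⟨-(ε / 2), ε / 2, -(ε / 2), ε / 2, by linarith, by linarith, e.symm,
    ?_, ?_, ?_, ?_⟩, rfl, rfl, rfl, rfl, hsymm0, ?_, ?_⟩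
  · intro w hw
    obtain ⟨h1, h2, -⟩ := hεb w (hsq w hw)
    exact (hderiv w h1 h2).differentiableAt.differentiableWithinAt
  · intro w hw w' hw' h
    exact e.symm.injOn (hεb w (hsq w hw)).1 (hεb w' (hsq w' hw')).1 h
  · intro w hw
    exact hU (hεb w (hsq w hw)).2.1
  · intro w hw
    obtain ⟨h1, h2, -⟩ := hεb w (hsq w hw)
    rw [(hderiv w h1 h2).deriv, ← (hr2 (e.symm w)).2 h2, ← mul_pow,
      mul_inv_cancel₀ (hr2 _).1, one_pow]
  · have h1 := hderiv 0 htgt (by rw [hsymm0]; exact hz0)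
    rw [hsymm0, hr0, inv_inv] at h1
    exact h1.deriv
  · rintro z ⟨w, hw, rfl⟩
    exact (hεb w (hsq w hw)).2.2

theorem Box.isOpen_dom (B : Box Q) : IsOpen B.dom :=
  isOpen_Ioo.reProdIm isOpen_Ioo

theorem Box.deriv_ne (B : Box Q) {w : ℂ} (hw : w ∈ B.dom) : deriv B.χ w ≠ 0 := by
  intro h
  have h1 := B.eq w hw
  rw [h] at h1
  simp at h1

private theorem Box.strict (B : Box Q) {w : ℂ} (hw : w ∈ B.dom) :
    HasStrictDerivAt B.χ (deriv B.χ w) w := by
  have h1 : ContDiffAt ℂ 1 B.χ w :=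
    (B.holo.analyticAt (B.isOpen_dom.mem_nhds hw)).contDiffAt
  exact h1.hasStrictDerivAt (by norm_num)

private theorem Box.map_nhds (B : Box Q) {w : ℂ} (hw : w ∈ B.dom) :
    map B.χ (𝓝 w) = 𝓝 (B.χ w) :=
  (B.strict hw).map_nhds_eq (B.deriv_ne hw)

theorem Box.isOpen_img (B : Box Q) : IsOpen B.img := by
  rw [isOpen_iff_mem_nhds]
  rintro z ⟨w, hw, rfl⟩
  rw [← B.map_nhds hw]
  exact Filter.image_mem_map (B.isOpen_dom.mem_nhds hw)

/-- The inverse of the flow box. -/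
noncomputable def Box.D (B : Box Q) : ℂ → ℂ := Function.invFunOn B.χ B.dom

theorem Box.D_χ (B : Box Q) {w : ℂ} (hw : w ∈ B.dom) : B.D (B.χ w) = w :=
  B.inj.leftInvOn_invFunOn hw

theorem Box.χ_D (B : Box Q) {z : ℂ} (hz : z ∈ B.img) : B.χ (B.D z) = z :=
  Function.invFunOn_eq hz

theorem Box.D_mem (B : Box Q) {z : ℂ} (hz : z ∈ B.img) : B.D z ∈ B.dom :=
  Function.invFunOn_mem hz

private theorem Box.hasDerivAt_D (B : Box Q) {z : ℂ} (hz : z ∈ B.img) :
    HasDerivAt B.D (deriv B.χ (B.D z))⁻¹ z := by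
  have hw := B.D_mem hz
  have hcont : ContinuousAt B.D z := by
    have h1 : Tendsto B.D (𝓝 (B.χ (B.D z))) (𝓝 (B.D z)) := by
      rw [← B.map_nhds hw, tendsto_map'_iff]
      refine Tendsto.congr' ?_ tendsto_id
      filter_upwards [B.isOpen_dom.mem_nhds hw] with w' hw'
      exact (B.D_χ hw').symm
    rw [B.χ_D hz] at h1
    exact h1
  refine HasDerivAt.of_local_left_inverse (f := B.χ) hcont (B.strict hw).hasDerivAt
    (B.deriv_ne hw) ?_
  filter_upwards [B.isOpen_img.mem_nhds hz] with z' hz'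
  exact B.χ_D hz'

theorem Box.D_holo (B : Box Q) : DifferentiableOn ℂ B.D B.img := fun _ hz =>
  (B.hasDerivAt_D hz).differentiableAt.differentiableWithinAt

theorem Box.deriv_D (B : Box Q) {z : ℂ} (hz : z ∈ B.img) : deriv B.D z ^ 2 = Q.q z := by
  rw [(B.hasDerivAt_D hz).deriv, inv_pow]
  have h1 := B.eq _ (B.D_mem hz)
  rw [B.χ_D hz] at h1
  exact (eq_inv_of_mul_eq_one_left h1).symm

/-- Restriction of a flow box to a smaller rectangle. -/
def Box.restrict (B : Box Q) {a b c d : ℝ} (hab : a < b) (hcd : c < d)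
    (h : Ioo a b ×ℂ Ioo c d ⊆ B.dom) : Box Q where
  a := a
  b := b
  c := c
  d := d
  hab := hab
  hcd := hcd
  χ := B.χ
  holo := B.holo.mono h
  inj := B.inj.mono h
  mem := fun w hw => B.mem w (h hw)
  eq := fun w hw => B.eq w (h hw)

/-- The horizontal line through `w` in a flow box, traversed with velocity `e = ± 1`. -/
theorem hor_of_box (B : Box Q) {w : ℂ} {e : ℝ} (he : e = 1 ∨ e = -1) {t : ℝ}
    (h : w + (e * t : ℝ) ∈ B.dom) : Hor Q (fun u => B.χ (w + (e * u : ℝ))) t := by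
  have h1 : HasDerivAt (fun u : ℝ => w + ((e * u : ℝ) : ℂ)) (e : ℂ) t := by
    have h2 : HasDerivAt (fun u : ℝ => e * u) e t := by
      simpa using (hasDerivAt_id t).const_mul e
    exact h2.ofReal_comp.const_add w
  have h3 : HasDerivAt (fun u : ℝ => B.χ (w + ((e * u : ℝ) : ℂ)))
      (deriv B.χ (w + (e * t : ℝ)) * e) t :=
    HasDerivAt.comp (h₂ := B.χ) t (B.strict h).hasDerivAt h1
  refine ⟨B.mem _ h, _, h3, ?_⟩
  have he2 : (e : ℂ) ^ 2 = 1 := by
    rcases he with rfl | rfl <;> simp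
  rw [mul_pow, he2, mul_one]
  exact B.eq _ h

/-- The vertical line through `w` in a flow box. -/
theorem ver_of_box (B : Box Q) {w : ℂ} {e : ℝ} (he : e = 1 ∨ e = -1) {t : ℝ}
    (h : w + (e * t : ℝ) * Complex.I ∈ B.dom) :
    Ver Q (fun u => B.χ (w + (e * u : ℝ) * Complex.I)) t := by
  have h1 : HasDerivAt (fun u : ℝ => w + ((e * u : ℝ) : ℂ) * Complex.I)
      ((e : ℂ) * Complex.I) t := by
    have h2 : HasDerivAt (fun u : ℝ => e * u) e t := by
      simpa using (hasDerivAt_id t).const_mul e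
    exact (h2.ofReal_comp.mul_const Complex.I).const_add w
  have h3 : HasDerivAt (fun u : ℝ => B.χ (w + ((e * u : ℝ) : ℂ) * Complex.I))
      (deriv B.χ (w + (e * t : ℝ) * Complex.I) * (e * Complex.I)) t :=
    HasDerivAt.comp (h₂ := B.χ) t (B.strict h).hasDerivAt h1
  refine ⟨B.mem _ h, _, h3, ?_⟩
  have he2 : (e : ℂ) ^ 2 = 1 := by
    rcases he with rfl | rfl <;> simp
  change -Q.q (B.χ (w + (e * t : ℝ) * Complex.I)) * _ = 1
  rw [mul_pow, mul_pow, he2, Complex.I_sq, one_mul]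
  have h4 := B.eq _ h
  linear_combination h4

end Pool.Agent.ANO2.Geo2
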