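import Pool.Agent.ANO2.Geo2.BoxA

/-!
# ANO phase 2, Geo2: horizontal arcs in flow boxes, local uniqueness

* `box_arc`: on `B.img` the function `D = B.D` is holomorphic, `D'² = q` (`Box.deriv_D`), so
  `D ∘ σ` is differentiable on `(a, b)` with derivative `D'(σ t) v`, whose square is
  `q (σ t) v² = 1`: the derivative is `1` or `-1` at every time.  By Darboux
  (`exists_hasDerivWithinAt_eq_of_gt_of_lt` for the real part; the imaginary part has derivative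
  `0`) the sign `e` is constant.  So `D (σ t) = x + e t + i y`, `σ t = χ (D (σ t))`.
* `box_arc_ver`: the square of the derivative is `-1`.
* `hor_eqOn`: the set of `t ∈ (a, b)` such that `σ = τ` near `t` is open, contains `t0`, and is
  closed in `(a, b)`: at a limit point `t1` we have `σ t1 = τ t1`; take a flow box about this point
  (`box_exists`), by `box_arc` both arcs are lines `x + e t + i y`, `x' + e' t + i y'` near `t1`;
  they agree for some values of `t` in a small open interval, so they agree near `t1`.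
  (`IsPreconnected` of the interval.)
* `hor_two`: near `u = 0` both are lines through the same point of a flow box about
  `σ t0 = τ s0`; so they agree near `u = 0` after possibly replacing `u` by `-u` in the second one;
  apply `hor_eqOn` (to `u ↦ σ (t0 + u)`, `u ↦ τ (s0 ± u)`).
-/

set_option autoImplicit false

open Set Filter Topology

namespace Pool.Agent.ANO2.Geo2

variable {Q : QD}

/-- The common part of `box_arc` (`κ = 1`) and `box_arc_ver` (`κ = I`). -/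
private theorem arc_aux_BoxB (B : Box Q) {σ : ℝ → ℂ} {a b : ℝ} {κ : ℂ} (hκ : κ ≠ 0)
    (hσ : ∀ t ∈ Ioo a b, ∃ v : ℂ, HasDerivAt σ v t ∧ Q.q (σ t) * v ^ 2 = κ ^ 2)
    (hB : ∀ t ∈ Ioo a b, σ t ∈ B.img) : ∃ (c : ℂ) (e : ℝ), (e = 1 ∨ e = -1) ∧ ∀ t ∈ Ioo a b,
      c + e * t * κ ∈ B.dom ∧ σ t = B.χ (c + e * t * κ) := by
  have hg : ∀ t ∈ Ioo a b, ∃ w : ℝ, (w = 1 ∨ w = -1) ∧
      HasDerivAt (fun u => B.D (σ u)) (w * κ) t := by
    intro t ht
    obtain ⟨v, h1, h2⟩ := hσ t ht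
    have h3 : HasDerivAt B.D (deriv B.D (σ t)) (σ t) :=
      (B.D_holo.differentiableAt (B.isOpen_img.mem_nhds (hB t ht))).hasDerivAt
    have h4 : HasDerivAt (fun u => B.D (σ u)) (deriv B.D (σ t) * v) t :=
      HasDerivAt.comp (h₂ := B.D) t h3 h1
    have h5 : (deriv B.D (σ t) * v) ^ 2 = κ ^ 2 := by
      rw [mul_pow, B.deriv_D (hB t ht), h2]
    rcases sq_eq_sq_iff_eq_or_eq_neg.1 h5 with h6 | h6
    · refine ⟨1, Or.inl rfl, ?_⟩
      rw [h6] at h4
      simpa using h4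
    · refine ⟨-1, Or.inr rfl, ?_⟩
      rw [h6] at h4
      simpa using h4
  choose! w hw hd using hg
  have hre : ∀ t ∈ Ioo a b, HasDerivAt (fun u => (B.D (σ u) * κ⁻¹).re) (w t) t := by
    intro t ht
    have h1 := (hd t ht).mul_const κ⁻¹
    rw [mul_assoc, mul_inv_cancel₀ hκ, mul_one] at h1
    have h2 := Complex.reCLM.hasFDerivAt.comp_hasDerivAt t h1
    rw [Complex.reCLM_apply, Complex.ofReal_re] at h2
    exact h2
  obtain ⟨e, he, hwe⟩ : ∃ e : ℝ, (e = 1 ∨ e = -1) ∧ ∀ t ∈ Ioo a b, w t = e := by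
    have h1 := hasDerivWithinAt_forall_lt_or_forall_gt_of_forall_ne (m := (0 : ℝ))
      (convex_Ioo a b) (fun t ht => (hre t ht).hasDerivWithinAt (s := Ioo a b)) (by
        intro t ht h0
        rcases hw t ht with h | h <;> rw [h] at h0 <;> norm_num at h0)
    rcases h1 with h1 | h1
    · refine ⟨-1, Or.inr rfl, fun t ht => ?_⟩
      rcases hw t ht with h | h
      · have := h1 t ht
        rw [h] at this
        norm_num at this
      · exact h
    · refine ⟨1, Or.inl rfl, fun t ht => ?_⟩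
      rcases hw t ht with h | h
      · exact h
      · have := h1 t ht
        rw [h] at this
        norm_num at this
  have hz : ∀ t ∈ Ioo a b, HasDerivAt (fun u : ℝ => B.D (σ u) - e * u * κ) 0 t := by
    intro t ht
    have h1 : HasDerivAt (fun u : ℝ => (e : ℂ) * u * κ) (e * κ) t := by
      have h2 : HasDerivAt (fun u : ℝ => (u : ℂ)) 1 t := by
        simpa using (hasDerivAt_id t).ofReal_comp
      have h3 := (h2.const_mul (e : ℂ)).mul_const κ
      rw [mul_one] at h3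
      exact h3
    have h4 := (hd t ht).sub h1
    rw [hwe t ht, sub_self] at h4
    exact h4
  rcases (Ioo a b).eq_empty_or_nonempty with hem | ⟨t1, ht1⟩
  · refine ⟨0, 1, Or.inl rfl, fun t ht => ?_⟩
    rw [hem] at ht
    exact ht.elim
  refine ⟨B.D (σ t1) - e * t1 * κ, e, he, fun t ht => ?_⟩
  have hconst : B.D (σ t) - e * t * κ = B.D (σ t1) - e * t1 * κ :=
    isOpen_Ioo.is_const_of_deriv_eq_zero isPreconnected_Ioo
      (fun u hu => (hz u hu).differentiableAt.differentiableWithinAt)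
      (fun u hu => (hz u hu).deriv) ht ht1
  have hD : B.D (σ t1) - e * t1 * κ + e * t * κ = B.D (σ t) := by
    rw [← hconst]
    ring
  rw [hD]
  exact ⟨B.D_mem (hB t ht), (B.χ_D (hB t ht)).symm⟩

/-- A horizontal arc in a flow box is a piece of a horizontal line. -/
theorem box_arc (B : Box Q) {σ : ℝ → ℂ} {a b : ℝ} (hab : a < b) (hσ : ∀ t ∈ Ioo a b, Hor Q σ t)
    (hB : ∀ t ∈ Ioo a b, σ t ∈ B.img) : ∃ x y e : ℝ, (e = 1 ∨ e = -1) ∧ ∀ t ∈ Ioo a b,
      (⟨x + e * t, y⟩ : ℂ) ∈ B.dom ∧ σ t = B.χ ⟨x + e * t, y⟩ := by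
  obtain ⟨c, e, he, h⟩ := arc_aux_BoxB B (κ := 1) one_ne_zero (fun t ht => by
    obtain ⟨-, v, h1, h2⟩ := hσ t ht
    exact ⟨v, h1, by rw [h2, one_pow]⟩) hB
  refine ⟨c.re, c.im, e, he, fun t ht => ?_⟩
  have h1 : (⟨c.re + e * t, c.im⟩ : ℂ) = c + e * t * 1 := by
    apply Complex.ext <;> simp
  rw [h1]
  exact h t ht

/-- A vertical arc in a flow box is a piece of a vertical line. -/
theorem box_arc_ver (B : Box Q) {σ : ℝ → ℂ} {a b : ℝ} (hab : a < b)
    (hσ : ∀ t ∈ Ioo a b, Ver Q σ t) (hB : ∀ t ∈ Ioo a b, σ t ∈ B.img) :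
    ∃ x y e : ℝ, (e = 1 ∨ e = -1) ∧ ∀ t ∈ Ioo a b,
      (⟨x, y + e * t⟩ : ℂ) ∈ B.dom ∧ σ t = B.χ ⟨x, y + e * t⟩ := by
  obtain ⟨c, e, he, h⟩ := arc_aux_BoxB B (κ := Complex.I) Complex.I_ne_zero (fun t ht => by
    obtain ⟨-, v, h1, h2⟩ := hσ t ht
    refine ⟨v, h1, ?_⟩
    change -Q.q (σ t) * v ^ 2 = 1 at h2
    rw [Complex.I_sq]
    linear_combination -h2) hB
  refine ⟨c.re, c.im, e, he, fun t ht => ?_⟩
  have h1 : (⟨c.re, c.im + e * t⟩ : ℂ) = c + e * t * Complex.I := by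
    apply Complex.ext <;> simp
  rw [h1]
  exact h t ht

/-- A flow box about a common point of two horizontal arcs. -/
private theorem two_lines_BoxB {σ τ : ℝ → ℂ} {a b t1 : ℝ} (hσ : ∀ t ∈ Ioo a b, Hor Q σ t)
    (hτ : ∀ t ∈ Ioo a b, Hor Q τ t) (ht1 : t1 ∈ Ioo a b) (h0 : σ t1 = τ t1) :
    ∃ ε > 0, Ioo (t1 - ε) (t1 + ε) ⊆ Ioo a b ∧ ∃ (B : Box Q) (x y e x' y' e' : ℝ),
      (e = 1 ∨ e = -1) ∧ (e' = 1 ∨ e' = -1) ∧ ∀ t ∈ Ioo (t1 - ε) (t1 + ε),
        (⟨x + e * t, y⟩ : ℂ) ∈ B.dom ∧ σ t = B.χ ⟨x + e * t, y⟩ ∧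
        (⟨x' + e' * t, y'⟩ : ℂ) ∈ B.dom ∧ τ t = B.χ ⟨x' + e' * t, y'⟩ := by
  obtain ⟨hm, v, -, hv⟩ := hσ t1 ht1
  obtain ⟨ρ, hρ, B, ha, hb, hc, hd, hχ, -, -⟩ := box_exists Q hm hv (W := univ) univ_mem
  have h0dom : (0 : ℂ) ∈ B.dom := by
    unfold Box.dom
    rw [Complex.mem_reProdIm, ha, hb, hc, hd]
    simp [hρ]
  have himg : B.img ∈ 𝓝 (σ t1) := by
    refine B.isOpen_img.mem_nhds ?_
    rw [← hχ]
    exact mem_image_of_mem _ h0dom
  have h1 : ∀ᶠ t in 𝓝 t1, σ t ∈ B.img := (hσ t1 ht1).continuousAt.eventually_mem himg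
  have h2 : ∀ᶠ t in 𝓝 t1, τ t ∈ B.img := by
    rw [h0] at himg
    exact (hτ t1 ht1).continuousAt.eventually_mem himg
  have h3 : ∀ᶠ t in 𝓝 t1, t ∈ Ioo a b := isOpen_Ioo.eventually_mem ht1
  obtain ⟨ε, hε, hball⟩ := Metric.eventually_nhds_iff_ball.1 (h1.and (h2.and h3))
  rw [Real.ball_eq_Ioo] at hball
  obtain ⟨x, y, e, he, hl⟩ := box_arc B (a := t1 - ε) (b := t1 + ε) (by linarith)
    (fun t ht => hσ t (hball t ht).2.2) (fun t ht => (hball t ht).1)
  obtain ⟨x', y', e', he', hl'⟩ := box_arc B (a := t1 - ε) (b := t1 + ε) (by linarith)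
    (fun t ht => hτ t (hball t ht).2.2) (fun t ht => (hball t ht).2.1)
  exact ⟨ε, hε, fun t ht => (hball t ht).2.2, B, x, y, e, x', y', e', he, he',
    fun t ht => ⟨(hl t ht).1, (hl t ht).2, (hl' t ht).1, (hl' t ht).2⟩⟩

private theorem eqOn_BoxB {σ τ : ℝ → ℂ} {a b t0 : ℝ} (hσ : ∀ t ∈ Ioo a b, Hor Q σ t)
    (hτ : ∀ t ∈ Ioo a b, Hor Q τ t) (ht0 : t0 ∈ Ioo a b) (h0 : σ =ᶠ[𝓝 t0] τ) :
    EqOn σ τ (Ioo a b) := by
  have hopen : IsOpen {t | σ =ᶠ[𝓝 t] τ} := isOpen_setOfPred_eventually_nhds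
  have hsub : Ioo a b ⊆ {t | σ =ᶠ[𝓝 t] τ} := by
    refine isPreconnected_Ioo.subset_of_closure_inter_subset hopen ⟨t0, ht0, h0⟩ ?_
    rintro t1 ⟨hcl, ht1⟩
    have hfr : ∃ᶠ t in 𝓝 t1, σ =ᶠ[𝓝 t] τ := mem_closure_iff_frequently.1 hcl
    have hpt : σ t1 = τ t1 :=
      tendsto_nhds_unique_of_frequently_eq (hσ t1 ht1).continuousAt (hτ t1 ht1).continuousAt
        (hfr.mono fun t ht => ht.eq_of_nhds)
    obtain ⟨ε, hε, hsub, B, x, y, e, x', y', e', he, he', hl⟩ := two_lines_BoxB hσ hτ ht1 hpt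
    have hIoo : Ioo (t1 - ε) (t1 + ε) ∈ 𝓝 t1 := Ioo_mem_nhds (by linarith) (by linarith)
    obtain ⟨t2, ht2, ht2'⟩ := (hfr.and_eventually hIoo).exists
    have hev : ∀ᶠ t in 𝓝 t2, σ t = τ t ∧ t ∈ Ioo (t1 - ε) (t1 + ε) :=
      ht2.and (isOpen_Ioo.eventually_mem ht2')
    have hco : ∀ t, σ t = τ t ∧ t ∈ Ioo (t1 - ε) (t1 + ε) → x + e * t = x' + e' * t ∧ y = y' := by
      rintro t ⟨h1, h2⟩
      obtain ⟨h3, h4, h5, h6⟩ := hl t h2
      rw [h4, h6] at h1
      have h7 := B.inj h3 h5 h1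
      exact ⟨congrArg Complex.re h7, congrArg Complex.im h7⟩
    obtain ⟨δ, hδ, hball⟩ := Metric.eventually_nhds_iff_ball.1 hev
    have h7 := hco t2 (hball t2 (Metric.mem_ball_self hδ))
    have h8 := hco (t2 + δ / 2) (hball _ (by
      rw [Metric.mem_ball, Real.dist_eq, add_sub_cancel_left, abs_of_pos (half_pos hδ)]
      linarith))
    have h9 : (e - e') * (δ / 2) = 0 := by linarith [h7.1, h8.1]
    have h10 : e = e' := by
      rcases mul_eq_zero.1 h9 with h | h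
      · linarith
      · linarith
    have h11 : x = x' := by
      have := h7.1
      rw [h10] at this
      linarith
    filter_upwards [hIoo] with t ht
    obtain ⟨h3, h4, h5, h6⟩ := hl t ht
    rw [h4, h6, h10, h11, h7.2]
  exact fun t ht => (hsub ht).eq_of_nhds

/-- Two horizontal arcs with a common point coincide or are traversed in opposite directions. -/
theorem hor_two {σ τ : ℝ → ℂ} {r s0 t0 : ℝ} (hr : 0 < r)
    (hσ : ∀ u ∈ Ioo (-r) r, Hor Q σ (t0 + u)) (hτ : ∀ u ∈ Ioo (-r) r, Hor Q τ (s0 + u))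
    (h0 : σ t0 = τ s0) : (∀ u ∈ Ioo (-r) r, σ (t0 + u) = τ (s0 + u)) ∨
      (∀ u ∈ Ioo (-r) r, σ (t0 + u) = τ (s0 - u)) := by
  have hσ1 : ∀ u ∈ Ioo (-r) r, Hor Q (fun u => σ (t0 + u)) u := by
    intro u hu
    have h1 := hσ u hu
    rw [add_comm] at h1
    have h2 := h1.shift
    have h3 : (fun u => σ (u + t0)) = fun u => σ (t0 + u) := by
      funext u
      rw [add_comm]
    rw [h3] at h2
    exact h2
  have hτ1 : ∀ u ∈ Ioo (-r) r, Hor Q (fun u => τ (s0 + u)) u := by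
    intro u hu
    have h1 := hτ u hu
    rw [add_comm] at h1
    have h2 := h1.shift
    have h3 : (fun u => τ (u + s0)) = fun u => τ (s0 + u) := by
      funext u
      rw [add_comm]
    rw [h3] at h2
    exact h2
  have hτ2 : ∀ u ∈ Ioo (-r) r, Hor Q (fun u => τ (s0 - u)) u := by
    intro u hu
    have h1 := hτ (-u) ⟨by linarith [hu.2], by linarith [hu.1]⟩
    rw [← sub_eq_add_neg] at h1
    exact h1.neg_time
  have hz : (0 : ℝ) ∈ Ioo (-r) r := ⟨by linarith, hr⟩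
  obtain ⟨ε, hε, -, B, x, y, e, x', y', e', he, he', hl⟩ := two_lines_BoxB hσ1 hτ1 hz (by
    rw [add_zero, add_zero, h0])
  have hz' : (0 : ℝ) ∈ Ioo (0 - ε) (0 + ε) := ⟨by linarith, by linarith⟩
  obtain ⟨h3, h4, h5, h6⟩ := hl 0 hz'
  have h7 : B.χ ⟨x + e * 0, y⟩ = B.χ ⟨x' + e' * 0, y'⟩ := by
    rw [← h4, ← h6, add_zero, add_zero, h0]
  have h8 := B.inj h3 h5 h7
  have h9 : x = x' := by
    have := congrArg Complex.re h8
    change x + e * 0 = x' + e' * 0 at this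
    linarith
  have h10 : y = y' := congrArg Complex.im h8
  have hIoo : Ioo (0 - ε) (0 + ε) ∈ 𝓝 (0 : ℝ) := Ioo_mem_nhds (by linarith) (by linarith)
  by_cases hee : e = e'
  · left
    refine eqOn_BoxB hσ1 hτ1 hz ?_
    filter_upwards [hIoo] with t ht
    obtain ⟨k3, k4, k5, k6⟩ := hl t ht
    rw [k4, k6, h9, h10, hee]
  · right
    have hneg : e' = -e := by
      rcases he with h | h <;> rcases he' with h' | h' <;> rw [h, h'] at hee ⊢ <;>
        first | exact absurd rfl hee | norm_num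
    refine eqOn_BoxB hσ1 hτ2 hz ?_
    filter_upwards [hIoo] with t ht
    obtain ⟨k3, k4, -, -⟩ := hl t ht
    obtain ⟨-, -, k5, k6⟩ := hl (-t) ⟨by linarith [ht.2], by linarith [ht.1]⟩
    change τ (s0 + -t) = _ at k6
    rw [← sub_eq_add_neg] at k6
    rw [k4, k6, h9, h10, hneg, neg_mul_neg]

/-- Two horizontal arcs which agree near an interior point agree. -/
theorem hor_eqOn {σ τ : ℝ → ℂ} {a b t0 : ℝ} (hσ : ∀ t ∈ Ioo a b, Hor Q σ t)
    (hτ : ∀ t ∈ Ioo a b, Hor Q τ t) (ht0 : t0 ∈ Ioo a b) (h0 : σ =ᶠ[𝓝 t0] τ) :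
    EqOn σ τ (Ioo a b) :=
  eqOn_BoxB hσ hτ ht0 h0

end Pool.Agent.ANO2.Geo2
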