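import Pool.Agent.ANO2.Geo2.Long

/-!
# ANO phase 2, Geo2: calculus of rectilinear paths, the pseudo-metrics `du`, `ds`, `d1`

* `Joins.refl`: `l = 0`.  `Joins.symm`: `t ↦ c (l - t)`.  `Joins.trans`: `c` on `[0, l]` followed by
  `c'` shifted by `l`, the set `A ∪ (l + A') ∪ {l}`, the set
  `(B ∩ Iio l) ∪ ((l + B') ∩ Ioi l)`; `vx` is additive (the single point `l` has measure `0`;
  `B ∩ Ioo 0 l` is, up to the finite set `A`, open, hence null measurable).
* `Joins.induction`: sort the points of `A ∩ [0, l]`; on each complementary open interval `(s, t)`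
  the set of the times in `B` is open and closed (`RP.loc`), so the interval is contained in `B` or
  disjoint from `B`, and `c` restricted to `[s, t]` is a horizontal or a vertical segment.
-/

set_option autoImplicit false

open Set Filter Topology MeasureTheory

namespace Pool.Agent.ANO2.Geo2

variable {Q : QD}

theorem vx_nonneg (l : ℝ) (B : Set ℝ) : 0 ≤ vx l B := ENNReal.toReal_nonneg

private theorem vol_lt_top (B : Set ℝ) (s t : ℝ) : volume (B ∩ Icc s t) < ⊤ :=
  (measure_mono inter_subset_right).trans_lt (by rw [Real.volume_Icc]; exact ENNReal.ofReal_lt_top)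

private theorem vx_le' {l : ℝ} (hl : 0 ≤ l) (B : Set ℝ) : vx l B ≤ l := by
  unfold vx
  have h1 : volume (B ∩ Icc 0 l) ≤ ENNReal.ofReal l := by
    refine (measure_mono inter_subset_right).trans ?_
    rw [Real.volume_Icc, sub_zero]
  calc (volume (B ∩ Icc 0 l)).toReal ≤ (ENNReal.ofReal l).toReal :=
        ENNReal.toReal_mono ENNReal.ofReal_ne_top h1
    _ = l := ENNReal.toReal_ofReal hl

theorem RP.vx_le {l : ℝ} {c : ℝ → ℂ} {A B : Set ℝ} (h : RP Q l c A B) : vx l B ≤ l :=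
  vx_le' h.nonneg B

theorem RP.neg {l : ℝ} {c : ℝ → ℂ} {A B : Set ℝ} (h : RP Q l c A B) : RP Q.neg l c A Bᶜ where
  nonneg := h.nonneg
  fin := h.fin
  cont := h.cont
  mem := h.mem
  hor := fun t ht hA hB => h.ver t ht hA hB
  ver := fun t ht hA hB => by
    have h1 := h.hor t ht hA (not_not.mp hB)
    show Hor Q.neg.neg c t
    rw [QD.neg_neg]
    exact h1
  loc := fun t ht hA => by
    rcases h.loc t ht hA with h1 | h1
    · right
      filter_upwards [h1] with s hs
      exact fun h2 => h2 hs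
    · left
      filter_upwards [h1] with s hs
      exact hs

/-- Up to the finite set `A` the set `B ∩ (0, l)` is open. -/
theorem RP.measurable {l : ℝ} {c : ℝ → ℂ} {A B : Set ℝ} (h : RP Q l c A B) :
    MeasurableSet (B ∩ Icc 0 l) := by
  have h1 : IsOpen ((B ∩ Ioo 0 l) \ A) := by
    rw [isOpen_iff_mem_nhds]
    rintro t ⟨⟨hB, ht⟩, hA⟩
    have h2 : ∀ᶠ s in 𝓝 t, s ∈ B := by
      rcases h.loc t ht hA with h3 | h3
      · exact h3
      · exact absurd hB h3.self_of_nhds
    have h4 : ∀ᶠ s in 𝓝 t, s ∉ A := h.fin.isClosed.isOpen_compl.mem_nhds hA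
    filter_upwards [h2, h4, isOpen_Ioo.mem_nhds ht] with s h5 h6 h7
    exact ⟨⟨h5, h7⟩, h6⟩
  have h2 : B ∩ Icc 0 l = ((B ∩ Ioo 0 l) \ A) ∪ ((B ∩ Icc 0 l) ∩ (A ∪ {0, l})) := by
    ext t
    constructor
    · rintro ⟨hB, ht⟩
      by_cases hA : t ∈ A ∪ {0, l}
      · exact Or.inr ⟨⟨hB, ht⟩, hA⟩
      · left
        have hA1 : t ∉ A := fun h => hA (Or.inl h)
        have h0 : t ≠ 0 := fun h => hA (Or.inr (Or.inl h))
        have hl : t ≠ l := fun h => hA (Or.inr (Or.inr h))
        exact ⟨⟨hB, lt_of_le_of_ne ht.1 h0.symm, lt_of_le_of_ne ht.2 hl⟩, hA1⟩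
    · rintro (⟨⟨hB, ht⟩, -⟩ | ⟨h3, -⟩)
      · exact ⟨hB, Ioo_subset_Icc_self ht⟩
      · exact h3
  rw [h2]
  refine h1.measurableSet.union ?_
  exact ((h.fin.union (Set.toFinite _)).subset inter_subset_right).measurableSet

theorem RP.vx_compl {l : ℝ} {c : ℝ → ℂ} {A B : Set ℝ} (h : RP Q l c A B) :
    vx l Bᶜ = l - vx l B := by
  have h1 : volume (B ∩ Icc 0 l) + volume (Bᶜ ∩ Icc 0 l) = ENNReal.ofReal l := by
    rw [← measure_union' _ h.measurable]
    · have : B ∩ Icc 0 l ∪ Bᶜ ∩ Icc 0 l = Icc 0 l := by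
        rw [← union_inter_distrib_right, union_compl_self, univ_inter]
      rw [this, Real.volume_Icc, sub_zero]
    · exact (disjoint_compl_right.mono inter_subset_left inter_subset_left)
  have h2 := congrArg ENNReal.toReal h1
  rw [ENNReal.toReal_add (vol_lt_top _ _ _).ne (vol_lt_top _ _ _).ne,
    ENNReal.toReal_ofReal h.nonneg] at h2
  unfold vx
  linarith

theorem Joins.refl {z : ℂ} (hz : z ∈ Q.U) : Joins Q z z 0 0 := by
  refine ⟨0, fun _ => z, ∅, ∅, ⟨le_rfl, finite_empty, continuousOn_const, fun _ _ => hz,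
    ?_, ?_, ?_⟩, rfl, rfl, ?_, ?_⟩
  · rintro t ⟨h1, h2⟩; linarith
  · rintro t ⟨h1, h2⟩; linarith
  · rintro t ⟨h1, h2⟩; linarith
  · simp [vx]
  · simp [vx]

theorem Joins.symm {z w : ℂ} {x y : ℝ} (h : Joins Q z w x y) : Joins Q w z x y := by
  obtain ⟨l, c, A, B, hR, h0, h1, rfl, rfl⟩ := h
  have hvx : vx l ((fun t => l - t) ⁻¹' B) = vx l B := by
    unfold vx
    have h2 : (fun t => l - t) ⁻¹' B ∩ Icc 0 l = (fun t => l - t) ⁻¹' (B ∩ Icc 0 l) := by
      ext t
      simp only [mem_inter_iff, mem_preimage, mem_Icc]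
      constructor
      · rintro ⟨h3, h4, h5⟩
        exact ⟨h3, by linarith, by linarith⟩
      · rintro ⟨h3, h4, h5⟩
        exact ⟨h3, by linarith, by linarith⟩
    rw [h2, (Measure.measurePreserving_sub_left volume l).measure_preimage
      hR.measurable.nullMeasurableSet]
  refine ⟨l, fun t => c (l - t), (fun t => l - t) ⁻¹' A, (fun t => l - t) ⁻¹' B, ?_,
    by simpa using h1, by simpa using h0, hvx.symm, by rw [hvx]⟩
  have hcont : Continuous (fun t : ℝ => l - t) := by fun_prop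
  refine ⟨hR.nonneg, ?_, ?_, ?_, ?_, ?_, ?_⟩
  · exact hR.fin.preimage (fun a _ b _ hab => by simpa using hab)
  · refine hR.cont.comp hcont.continuousOn ?_
    intro t ht
    exact ⟨by linarith [ht.2], by linarith [ht.1]⟩
  · intro t ht
    exact hR.mem _ ⟨by linarith [ht.2], by linarith [ht.1]⟩
  · intro t ht hA hB
    exact Hor.neg_time (hR.hor _ ⟨by linarith [ht.2], by linarith [ht.1]⟩ hA hB)
  · intro t ht hA hB
    exact Hor.neg_time (hR.ver _ ⟨by linarith [ht.2], by linarith [ht.1]⟩ hA hB)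
  · intro t ht hA
    rcases hR.loc (l - t) ⟨by linarith [ht.2], by linarith [ht.1]⟩ hA with h2 | h2
    · exact Or.inl (hcont.continuousAt.eventually h2)
    · exact Or.inr (hcont.continuousAt.eventually h2)

/-- restriction of a path -/
private theorem restr {l : ℝ} {c : ℝ → ℂ} {A B : Set ℝ} (h : RP Q l c A B) {s t : ℝ} (hs : 0 ≤ s)
    (hst : s ≤ t) (ht : t ≤ l) :
    RP Q (t - s) (fun u => c (u + s)) ((fun u => u + s) ⁻¹' A) ((fun u => u + s) ⁻¹' B) := by
  have hcont : Continuous (fun u : ℝ => u + s) := by fun_prop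
  refine ⟨by linarith, ?_, ?_, ?_, ?_, ?_, ?_⟩
  · exact h.fin.preimage (fun a _ b _ hab => by simpa using hab)
  · refine h.cont.comp hcont.continuousOn ?_
    intro u hu
    exact ⟨by linarith [hu.1], by linarith [hu.2]⟩
  · intro u hu
    exact h.mem _ ⟨by linarith [hu.1], by linarith [hu.2]⟩
  · intro u hu hA hB
    exact Hor.shift (h.hor _ ⟨by linarith [hu.1], by linarith [hu.2]⟩ hA hB)
  · intro u hu hA hB
    exact Hor.shift (h.ver _ ⟨by linarith [hu.1], by linarith [hu.2]⟩ hA hB)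
  · intro u hu hA
    rcases h.loc (u + s) ⟨by linarith [hu.1], by linarith [hu.2]⟩ hA with h2 | h2
    · exact Or.inl (hcont.continuousAt.eventually h2)
    · exact Or.inr (hcont.continuousAt.eventually h2)

private theorem vx_shift (B : Set ℝ) (s t : ℝ) :
    vx (t - s) ((fun u => u + s) ⁻¹' B) = (volume (B ∩ Icc s t)).toReal := by
  unfold vx
  have h2 : (fun u => u + s) ⁻¹' B ∩ Icc 0 (t - s) = (fun u => u + s) ⁻¹' (B ∩ Icc s t) := by
    ext u
    simp only [mem_inter_iff, mem_preimage, mem_Icc]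
    constructor
    · rintro ⟨h3, h4, h5⟩
      exact ⟨h3, by linarith, by linarith⟩
    · rintro ⟨h3, h4, h5⟩
      exact ⟨h3, by linarith, by linarith⟩
  rw [h2, measure_preimage_add_right]

private theorem vol_split {B : Set ℝ} {a b c : ℝ} (hab : a ≤ b) (hbc : b ≤ c)
    (hm : MeasurableSet (B ∩ Icc b c)) :
    volume (B ∩ Icc a c) = volume (B ∩ Icc a b) + volume (B ∩ Icc b c) := by
  have h1 : B ∩ Icc a c = (B ∩ Icc a b) ∪ (B ∩ Icc b c) := by
    rw [← inter_union_distrib_left, Icc_union_Icc_eq_Icc hab hbc]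
  rw [h1]
  refine measure_union₀ hm.nullMeasurableSet ?_
  refine measure_mono_null (t := {b}) ?_ (measure_singleton b)
  rintro u ⟨⟨-, h2⟩, -, h3⟩
  exact le_antisymm h2.2 h3.1

private theorem vx_split {l : ℝ} {c : ℝ → ℂ} {A B : Set ℝ} (h : RP Q l c A B) {a : ℝ}
    (ha : 0 ≤ a) (hal : a ≤ l) :
    vx l B = vx a B + vx (l - a) ((fun u => u + a) ⁻¹' B) := by
  rw [vx_shift]
  unfold vx
  have hm : MeasurableSet (B ∩ Icc a l) := by
    have : B ∩ Icc a l = (B ∩ Icc 0 l) ∩ Icc a l := by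
      ext u
      simp only [mem_inter_iff, mem_Icc]
      constructor
      · rintro ⟨h1, h2, h3⟩
        exact ⟨⟨h1, by linarith, h3⟩, h2, h3⟩
      · rintro ⟨⟨h1, -, -⟩, h2, h3⟩
        exact ⟨h1, h2, h3⟩
    rw [this]
    exact h.measurable.inter measurableSet_Icc
  rw [vol_split ha hal hm, ENNReal.toReal_add (vol_lt_top _ _ _).ne (vol_lt_top _ _ _).ne]

theorem Joins.trans {z w z' : ℂ} {x y x' y' : ℝ} (h : Joins Q z w x y)
    (h' : Joins Q w z' x' y') : Joins Q z z' (x + x') (y + y') := by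
  classical
  obtain ⟨l, c, A, B, hR, h0, h1, rfl, rfl⟩ := h
  obtain ⟨l', c', A', B', hR', h0', h1', rfl, rfl⟩ := h'
  have hl := hR.nonneg
  have hl' := hR'.nonneg
  set C : ℝ → ℂ := fun t => if t ≤ l then c t else c' (t + -l) with hC
  set AA : Set ℝ := A ∪ (fun t => t + -l) ⁻¹' A' ∪ {l} with hAA
  set BB : Set ℝ := {t | (t < l ∧ t ∈ B) ∨ (l < t ∧ t + -l ∈ B')} with hBB
  have hsh : Continuous (fun t : ℝ => t + -l) := by fun_prop
  have hlow : ∀ t, t < l → C =ᶠ[𝓝 t] c := by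
    intro t ht
    filter_upwards [Iio_mem_nhds ht] with u hu
    rw [hC]
    exact if_pos (le_of_lt hu)
  have hhigh : ∀ t, l < t → C =ᶠ[𝓝 t] fun u => c' (u + -l) := by
    intro t ht
    filter_upwards [Ioi_mem_nhds ht] with u hu
    rw [hC]
    exact if_neg (not_le.mpr hu)
  have hRP : RP Q (l + l') C AA BB := by
    refine ⟨by linarith, ?_, ?_, ?_, ?_, ?_, ?_⟩
    · exact (hR.fin.union (hR'.fin.preimage (fun a _ b _ hab => by simpa using hab))).union
        (finite_singleton l)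
    · have e : Icc 0 (l + l') = Icc 0 l ∪ Icc l (l + l') :=
        (Icc_union_Icc_eq_Icc hl (by linarith)).symm
      rw [e]
      refine ContinuousOn.union_of_isClosed ?_ ?_ isClosed_Icc isClosed_Icc
      · refine hR.cont.congr fun t ht => ?_
        rw [hC]
        exact if_pos ht.2
      · have h2 : ContinuousOn (fun u => c' (u + -l)) (Icc l (l + l')) := by
          refine hR'.cont.comp hsh.continuousOn ?_
          intro t ht
          exact ⟨by linarith [ht.1], by linarith [ht.2]⟩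
        refine h2.congr fun t ht => ?_
        rcases eq_or_lt_of_le ht.1 with h3 | h3
        · rw [hC]
          simp only
          rw [if_pos h3.ge, ← h3, h1, add_neg_cancel, h0']
        · rw [hC]
          exact if_neg (not_le.mpr h3)
    · intro t ht
      rw [hC]
      simp only
      split_ifs with h2
      · exact hR.mem t ⟨ht.1, h2⟩
      · exact hR'.mem _ ⟨by linarith [not_le.mp h2], by linarith [ht.2]⟩
    · intro t ht hA hB
      rcases hB with ⟨h2, h3⟩ | ⟨h2, h3⟩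
      · exact (hR.hor t ⟨ht.1, h2⟩ (fun h => hA (Or.inl (Or.inl h))) h3).congr (hlow t h2)
      · have h4 : Hor Q (fun u => c' (u + -l)) t := Hor.shift
          (hR'.hor (t + -l) ⟨by linarith, by linarith [ht.2]⟩
            (fun h => hA (Or.inl (Or.inr h))) h3)
        exact h4.congr (hhigh t h2)
    · intro t ht hA hB
      rcases lt_trichotomy t l with h2 | h2 | h2
      · have h4 : Ver Q c t := hR.ver t ⟨ht.1, h2⟩ (fun h => hA (Or.inl (Or.inl h)))
          (fun h => hB (Or.inl ⟨h2, h⟩))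
        exact Hor.congr h4 (hlow t h2)
      · exact absurd (Or.inr h2) hA
      · have h4 : Hor Q.neg (fun u => c' (u + -l)) t := Hor.shift
          (hR'.ver (t + -l) ⟨by linarith, by linarith [ht.2]⟩
            (fun h => hA (Or.inl (Or.inr h))) (fun h => hB (Or.inr ⟨h2, h⟩)))
        exact Hor.congr h4 (hhigh t h2)
    · intro t ht hA
      rcases lt_trichotomy t l with h2 | h2 | h2
      · rcases hR.loc t ⟨ht.1, h2⟩ (fun h => hA (Or.inl (Or.inl h))) with h3 | h3
        · left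
          filter_upwards [h3, Iio_mem_nhds h2] with u h4 h5
          exact Or.inl ⟨h5, h4⟩
        · right
          filter_upwards [h3, Iio_mem_nhds h2] with u h4 h5
          rintro (⟨-, h6⟩ | ⟨h6, -⟩)
          · exact h4 h6
          · exact absurd h6 (not_lt.mpr (le_of_lt h5))
      · exact absurd (Or.inr h2) hA
      · rcases hR'.loc (t + -l) ⟨by linarith, by linarith [ht.2]⟩
          (fun h => hA (Or.inl (Or.inr h))) with h3 | h3
        · left
          filter_upwards [hsh.continuousAt.eventually h3, Ioi_mem_nhds h2] with u h4 h5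
          exact Or.inr ⟨h5, h4⟩
        · right
          filter_upwards [hsh.continuousAt.eventually h3, Ioi_mem_nhds h2] with u h4 h5
          rintro (⟨h6, -⟩ | ⟨-, h6⟩)
          · exact absurd h6 (not_lt.mpr (le_of_lt h5))
          · exact h4 h6
  have hvx : vx (l + l') BB = vx l B + vx l' B' := by
    rw [vx_split hRP hl (by linarith : l ≤ l + l')]
    have e1 : vx l BB = vx l B := by
      unfold vx
      congr 1
      refine measure_congr ?_
      have hae : ∀ᵐ t : ℝ, t ≠ l := by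
        rw [ae_iff]
        simp
      filter_upwards [hae] with t ht
      show (t ∈ BB ∩ Icc 0 l) = (t ∈ B ∩ Icc 0 l)
      apply propext
      constructor
      · rintro ⟨h2 | h2, h3⟩
        · exact ⟨h2.2, h3⟩
        · exact absurd h3.2 (not_le.mpr h2.1)
      · rintro ⟨h2, h3⟩
        exact ⟨Or.inl ⟨lt_of_le_of_ne h3.2 ht, h2⟩, h3⟩
    have e2 : vx (l + l' - l) ((fun u => u + l) ⁻¹' BB) = vx l' B' := by
      rw [add_sub_cancel_left]
      unfold vx
      congr 1
      refine measure_congr ?_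
      have hae : ∀ᵐ t : ℝ, t ≠ 0 := by
        rw [ae_iff]
        simp
      filter_upwards [hae] with t ht
      show (t ∈ (fun u => u + l) ⁻¹' BB ∩ Icc 0 l') = (t ∈ B' ∩ Icc 0 l')
      apply propext
      constructor
      · rintro ⟨h2 | h2, h3⟩
        · exact absurd h2.1 (not_lt.mpr (by linarith [h3.1]))
        · refine ⟨?_, h3⟩
          have := h2.2
          rwa [add_neg_cancel_right] at this
      · rintro ⟨h2, h3⟩
        refine ⟨Or.inr ⟨?_, ?_⟩, h3⟩
        · have := lt_of_le_of_ne h3.1 ht.symm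
          linarith
        · rw [add_neg_cancel_right]; exact h2
    rw [e1, e2]
  refine ⟨l + l', C, AA, BB, hRP, ?_, ?_, hvx.symm, ?_⟩
  · rw [hC]
    simp only
    rw [if_pos hl, h0]
  · rw [hC]
    simp only
    split_ifs with h2
    · have h3 : l' = 0 := by linarith
      rw [← h1', h3, add_zero, h1, h0']
    · rw [← h1']
      congr 1
      ring
  · rw [hvx]; ring

theorem Joins.neg {z w : ℂ} {x y : ℝ} (h : Joins Q z w x y) : Joins Q.neg z w y x := by
  obtain ⟨l, c, A, B, hR, h0, h1, rfl, rfl⟩ := h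
  refine ⟨l, c, A, Bᶜ, hR.neg, h0, h1, hR.vx_compl.symm, ?_⟩
  rw [hR.vx_compl]
  ring

theorem Joins.nonneg {z w : ℂ} {x y : ℝ} (h : Joins Q z w x y) : 0 ≤ x ∧ 0 ≤ y := by
  obtain ⟨l, c, A, B, hR, h0, h1, rfl, rfl⟩ := h
  exact ⟨vx_nonneg _ _, sub_nonneg.mpr hR.vx_le⟩

theorem Joins.mem {z w : ℂ} {x y : ℝ} (h : Joins Q z w x y) : z ∈ Q.U ∧ w ∈ Q.U := by
  obtain ⟨l, c, A, B, hR, rfl, rfl, -, -⟩ := h
  exact ⟨hR.mem 0 ⟨le_rfl, hR.nonneg⟩, hR.mem l ⟨hR.nonneg, le_rfl⟩⟩

private theorem vx_full {T : ℝ} (hT : 0 ≤ T) {B : Set ℝ} (h : Ioo 0 T ⊆ B) : vx T B = T := by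
  refine le_antisymm (vx_le' hT B) ?_
  unfold vx
  have h1 : volume (Ioo 0 T) ≤ volume (B ∩ Icc 0 T) :=
    measure_mono (subset_inter h Ioo_subset_Icc_self)
  rw [Real.volume_Ioo, sub_zero] at h1
  calc T = (ENNReal.ofReal T).toReal := (ENNReal.toReal_ofReal hT).symm
    _ ≤ _ := ENNReal.toReal_mono (vol_lt_top _ _ _).ne h1

private theorem vx_none {T : ℝ} {B : Set ℝ} (h : ∀ t ∈ Ioo 0 T, t ∉ B) : vx T B = 0 := by
  unfold vx
  have h1 : volume (B ∩ Icc 0 T) = 0 := by
    refine measure_mono_null (t := {0, T}) ?_ ((Set.toFinite _).measure_zero _)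
    rintro t ⟨h2, h3⟩
    by_contra h4
    rw [mem_insert_iff, mem_singleton_iff, not_or] at h4
    exact h t ⟨lt_of_le_of_ne h3.1 (Ne.symm h4.1), lt_of_le_of_ne h3.2 h4.2⟩ h2
  rw [h1, ENNReal.toReal_zero]

/-- A horizontal segment (it may start or end at a zero of `q`). -/
theorem joins_hor {σ : ℝ → ℂ} {T : ℝ} (hT : 0 ≤ T) (hc : ContinuousOn σ (Icc 0 T))
    (hm : ∀ t ∈ Icc 0 T, σ t ∈ Q.U) (hσ : ∀ t ∈ Ioo 0 T, Hor Q σ t) :
    Joins Q (σ 0) (σ T) T 0 := by
  refine ⟨T, σ, ∅, univ, ⟨hT, finite_empty, hc, hm, fun t ht _ _ => hσ t ht,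
    fun t _ _ h => absurd (mem_univ t) h, fun t _ _ => Or.inl (Eventually.of_forall fun s =>
      mem_univ s)⟩, rfl, rfl, ?_, ?_⟩
  · rw [vx_full hT (subset_univ _)]
  · rw [vx_full hT (subset_univ _), sub_self]

theorem joins_ver {σ : ℝ → ℂ} {T : ℝ} (hT : 0 ≤ T) (hc : ContinuousOn σ (Icc 0 T))
    (hm : ∀ t ∈ Icc 0 T, σ t ∈ Q.U) (hσ : ∀ t ∈ Ioo 0 T, Ver Q σ t) :
    Joins Q (σ 0) (σ T) 0 T := by
  refine ⟨T, σ, ∅, ∅, ⟨hT, finite_empty, hc, hm, fun t _ _ h => absurd h (Set.notMem_empty t),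
    fun t ht _ _ => hσ t ht, fun t _ _ => Or.inr (Eventually.of_forall fun s =>
      Set.notMem_empty s)⟩, rfl, rfl, ?_, ?_⟩
  · rw [vx_none fun t _ => Set.notMem_empty t]
  · rw [vx_none fun t _ => Set.notMem_empty t, sub_zero]

theorem HC.joins {z w : ℂ} {s : ℝ} (h : HC Q z w s) : Joins Q z w s 0 := by
  obtain ⟨hs, σ, h1, rfl, rfl⟩ := h
  exact joins_hor hs (fun t ht => (h1 t ht).continuousAt.continuousWithinAt)
    (fun t ht => (h1 t ht).mem) (fun t ht => h1 t (Ioo_subset_Icc_self ht))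

private theorem clopen_dich {l : ℝ} {B : Set ℝ}
    (h : ∀ t ∈ Ioo 0 l, (∀ᶠ s in 𝓝 t, s ∈ B) ∨ (∀ᶠ s in 𝓝 t, s ∉ B)) :
    Ioo 0 l ⊆ B ∨ ∀ t ∈ Ioo 0 l, t ∉ B := by
  by_contra hcon
  rw [not_or, not_subset] at hcon
  obtain ⟨⟨t, ht, htB⟩, h2⟩ := hcon
  push Not at h2
  obtain ⟨u, hu, huB⟩ := h2
  have hpre : IsPreconnected (Ioo (0 : ℝ) l) := isPreconnected_Ioo
  have := hpre {s | ∀ᶠ r in 𝓝 s, r ∈ B} {s | ∀ᶠ r in 𝓝 s, r ∉ B} isOpen_setOfPred_eventually_nhds
    isOpen_setOfPred_eventually_nhds (fun s hs => h s hs) ⟨u, hu, ?_⟩ ⟨t, ht, ?_⟩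
  · obtain ⟨s, -, h3, h4⟩ := this
    exact h4.self_of_nhds h3.self_of_nhds
  · rcases h u hu with h3 | h3
    · exact h3
    · exact absurd huB h3.self_of_nhds
  · rcases h t ht with h3 | h3
    · exact absurd h3.self_of_nhds htB
    · exact h3

/-- Every rectilinear path is a finite chain of horizontal and vertical segments. -/
theorem joins_induction {motive : ℂ → ℂ → ℝ → ℝ → Prop}
    (refl : ∀ z ∈ Q.U, motive z z 0 0)
    (trans : ∀ z w z' x y x' y', motive z w x y → motive w z' x' y' →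
      motive z z' (x + x') (y + y'))
    (hor : ∀ (σ : ℝ → ℂ) (T : ℝ), 0 < T → ContinuousOn σ (Icc 0 T) → (∀ t ∈ Icc 0 T, σ t ∈ Q.U) →
      (∀ t ∈ Ioo 0 T, Hor Q σ t) → motive (σ 0) (σ T) T 0)
    (ver : ∀ (σ : ℝ → ℂ) (T : ℝ), 0 < T → ContinuousOn σ (Icc 0 T) → (∀ t ∈ Icc 0 T, σ t ∈ Q.U) →
      (∀ t ∈ Ioo 0 T, Ver Q σ t) → motive (σ 0) (σ T) 0 T)
    {z w : ℂ} {x y : ℝ} (h : Joins Q z w x y) : motive z w x y := by
  have key : ∀ n : ℕ, ∀ (l : ℝ) (c : ℝ → ℂ) (A B : Set ℝ), RP Q l c A B →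
      (A ∩ Ioo 0 l).ncard ≤ n → motive (c 0) (c l) (vx l B) (l - vx l B) := by
    intro n
    induction n with
    | zero =>
      intro l c A B hR hn
      have hfin : (A ∩ Ioo 0 l).Finite := hR.fin.subset inter_subset_left
      have hemp : A ∩ Ioo 0 l = ∅ := (Set.ncard_eq_zero hfin).mp (Nat.le_zero.mp hn)
      have hno : ∀ t ∈ Ioo 0 l, t ∉ A := by
        intro t ht hA
        have : t ∈ A ∩ Ioo 0 l := ⟨hA, ht⟩
        rw [hemp] at this
        exact this
      rcases eq_or_lt_of_le hR.nonneg with h0 | h0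
      · have e1 : vx l B = 0 := vx_none (fun t ht => by
          exfalso
          rw [← h0] at ht
          exact lt_irrefl _ (ht.1.trans ht.2))
        rw [e1, sub_zero, ← h0]
        exact refl _ (hR.mem 0 ⟨le_rfl, hR.nonneg⟩)
      · rcases clopen_dich (fun t ht => hR.loc t ht (hno t ht)) with h1 | h1
        · rw [vx_full hR.nonneg h1, sub_self]
          exact hor c l h0 hR.cont hR.mem (fun t ht => hR.hor t ht (hno t ht) (h1 ht))
        · rw [vx_none h1, sub_zero]
          exact ver c l h0 hR.cont hR.mem (fun t ht => hR.ver t ht (hno t ht) (h1 t ht))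
    | succ n ih =>
      intro l c A B hR hn
      have hfin : (A ∩ Ioo 0 l).Finite := hR.fin.subset inter_subset_left
      by_cases hemp : A ∩ Ioo 0 l = ∅
      · exact ih l c A B hR (by rw [hemp, Set.ncard_empty]; omega)
      · obtain ⟨a, haA, ha⟩ := Set.nonempty_iff_ne_empty.mpr hemp
        have h1 : RP Q a c A B := by
          refine ⟨ha.1.le, hR.fin, hR.cont.mono (Icc_subset_Icc_right ha.2.le),
            fun t ht => hR.mem t ⟨ht.1, ht.2.trans ha.2.le⟩,
            fun t ht => hR.hor t ⟨ht.1, ht.2.trans ha.2⟩,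
            fun t ht => hR.ver t ⟨ht.1, ht.2.trans ha.2⟩,
            fun t ht => hR.loc t ⟨ht.1, ht.2.trans ha.2⟩⟩
        have h2 := restr hR ha.1.le ha.2.le le_rfl
        have hc1 : (A ∩ Ioo 0 a).ncard ≤ n := by
          have : A ∩ Ioo 0 a ⊂ A ∩ Ioo 0 l := by
            refine ⟨fun t ht => ⟨ht.1, ht.2.1, ht.2.2.trans ha.2⟩, fun hsub => ?_⟩
            exact lt_irrefl a (hsub ⟨haA, ha⟩).2.2
          have := Set.ncard_lt_ncard this hfin
          omega
        have hc2 : ((fun u => u + a) ⁻¹' A ∩ Ioo 0 (l - a)).ncard ≤ n := by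
          have hinj : Function.Injective (fun u : ℝ => u + a) := fun _ _ hab => by simpa using hab
          rw [← Set.ncard_image_of_injective _ hinj]
          have : (fun u => u + a) '' ((fun u => u + a) ⁻¹' A ∩ Ioo 0 (l - a)) ⊂ A ∩ Ioo 0 l := by
            refine ⟨?_, fun hsub => ?_⟩
            · rintro _ ⟨u, ⟨hu1, hu2⟩, rfl⟩
              exact ⟨hu1, by linarith [hu2.1, ha.1], by linarith [hu2.2]⟩
            · obtain ⟨u, ⟨-, hu2⟩, hu3⟩ := hsub ⟨haA, ha⟩
              have : u + a = a := hu3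
              linarith [hu2.1]
          have := Set.ncard_lt_ncard this hfin
          omega
        have m1 := ih a c A B h1 hc1
        have m2 := ih (l - a) _ _ _ h2 hc2
        have m3 := trans _ _ _ _ _ _ _ m1 (by simpa using m2)
        have e1 := vx_split hR ha.1.le ha.2.le
        have e2 : a - vx a B + (l - a - vx (l - a) ((fun u => u + a) ⁻¹' B)) = l - vx l B := by
          rw [e1]; ring
        rw [← e1] at m3
        rw [← e2]
        exact m3
  obtain ⟨l, c, A, B, hR, rfl, rfl, rfl, rfl⟩ := h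
  exact key _ l c A B hR le_rfl

/-- A piece of a rectilinear path. -/
theorem RP.sub {l : ℝ} {c : ℝ → ℂ} {A B : Set ℝ} (h : RP Q l c A B) {s t : ℝ} (hs : 0 ≤ s)
    (hst : s ≤ t) (ht : t ≤ l) :
    Joins Q (c s) (c t) (volume (B ∩ Icc s t)).toReal
      ((t - s) - (volume (B ∩ Icc s t)).toReal) := by
  refine ⟨t - s, fun u => c (u + s), _, _, restr h hs hst ht, ?_, ?_, ?_, ?_⟩
  · simp
  · simp
  · rw [vx_shift]
  · rw [vx_shift]

end Pool.Agent.ANO2.Geo2
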