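import Pool.Agent.ANO2.Geo2.NB
import Pool.Agent.ANO2.Geo2.BoxB

/-!
# ANO phase 2, Geo2: closing a horizontal arc inside a flow box

Proof of `close_up`: apply `gb` to the closed curve `γ` on `[0, P]`, `P = (r - s) + m`,
`γ u = σ (s + u)` for `u ≤ r - s` and `γ u = χ (p (u - (r - s)))` for `u ≥ r - s`, with
`V u = deriv σ (s + u)` resp. `deriv χ (p ..) * p' ..`, `F = {r - s}`, and to
`L u = Λ 0` for `u ≤ r - s`, `L u = Λ (u - (r - s))` afterwards.  The function `deriv σ` is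
continuous
on `[s, r]` (at the interior points by `box_arc`, `σ = χ(line)` locally; at the end points the
continuity from inside, also by `box_arc` in a flow box at the end point and the velocity
there); `q (σ t) (deriv σ t)² = 1` and `q (χ w) (χ' w p')² = p'²`, `exp (Λ 0) = (p' 0)² = 1` because
`deriv σ r = χ' (p 0) p' 0`.  `V P = V 0` is the second velocity condition.
-/

set_option autoImplicit false

open Set Filter Topology

namespace Pool.Agent.ANO2.Geo2

variable {Q : QD}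

theorem hor_deriv_eq {σ : ℝ → ℂ} {t : ℝ} (h : Hor Q σ t) :
    HasDerivAt σ (deriv σ t) t ∧ Q.q (σ t) * deriv σ t ^ 2 = 1 := by
  obtain ⟨-, v, h1, h2⟩ := h
  rw [h1.deriv]
  exact ⟨h1, h2⟩

/-- The derivative of a horizontal arc is continuous. -/
theorem hor_deriv_cont {σ : ℝ → ℂ} {s r : ℝ} (hσ : ∀ t ∈ Icc s r, Hor Q σ t) :
    ContinuousOn (deriv σ) (Icc s r) := by
  intro t0 ht0
  obtain ⟨h1, h2⟩ := hor_deriv_eq (hσ t0 ht0)
  obtain ⟨ρ, hρ, B, hBa, hBb, hBc, hBd, hχ0, -, -⟩ :=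
    box_exists Q (hσ t0 ht0).mem h2 (W := univ) univ_mem
  have h0 : (0 : ℂ) ∈ B.dom := by
    rw [Box.dom, Complex.mem_reProdIm, hBa, hBb, hBc, hBd]
    simp [hρ]
  have himg : σ t0 ∈ B.img := ⟨0, h0, hχ0⟩
  have hev : ∀ᶠ t in 𝓝 t0, σ t ∈ B.img :=
    h1.continuousAt.eventually_mem (B.isOpen_img.mem_nhds himg)
  obtain ⟨η, hη, hball⟩ := Metric.eventually_nhds_iff_ball.1 hev
  obtain ⟨J, hJdef⟩ : ∃ J : Set ℝ, J = Icc s r ∩ Metric.ball t0 η := ⟨_, rfl⟩
  have hJs : ∀ t ∈ J, t ∈ Icc s r := fun t ht => (hJdef ▸ ht : t ∈ Icc s r ∩ _).1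
  have hJb : ∀ t ∈ J, σ t ∈ B.img := fun t ht =>
    hball t (hJdef ▸ ht : t ∈ Icc s r ∩ Metric.ball t0 η).2
  have hJ : Convex ℝ J := by
    rw [hJdef]
    exact (convex_Icc s r).inter (convex_ball t0 η)
  have ht0J : t0 ∈ J := by
    rw [hJdef]
    exact ⟨ht0, Metric.mem_ball_self hη⟩
  have hJn : J ∈ 𝓝[Icc s r] t0 := by
    rw [hJdef]
    exact inter_mem_nhdsWithin _ (Metric.ball_mem_nhds t0 hη)
  have hD : ∀ z ∈ B.img, HasDerivAt B.D (deriv B.D z) z := fun z hz =>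
    (B.D_holo.differentiableAt (B.isOpen_img.mem_nhds hz)).hasDerivAt
  have hsq : ∀ t ∈ J, (deriv B.D (σ t) * deriv σ t) ^ 2 = 1 := by
    intro t ht
    rw [mul_pow, B.deriv_D (hJb t ht)]
    exact (hor_deriv_eq (hσ t (hJs t ht))).2
  have hpm : ∀ t ∈ J, deriv B.D (σ t) * deriv σ t = 1 ∨ deriv B.D (σ t) * deriv σ t = -1 :=
    fun t ht => mul_self_eq_one_iff.1 (by rw [← sq]; exact hsq t ht)
  have hder : ∀ t ∈ J, HasDerivWithinAt (fun u => (B.D (σ u)).re)
      ((deriv B.D (σ t) * deriv σ t).re) J t := by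
    intro t ht
    have h3 := HasDerivAt.comp t (hD _ (hJb t ht)) (hor_deriv_eq (hσ t (hJs t ht))).1
    exact (Complex.reCLM.hasFDerivAt.comp_hasDerivAt t h3).hasDerivWithinAt
  have hne : ∀ t ∈ J, (deriv B.D (σ t) * deriv σ t).re ≠ 0 := by
    intro t ht
    rcases hpm t ht with h | h
    · rw [h]; simp
    · rw [h]; simp
  have hconst : ∀ t ∈ J, deriv B.D (σ t) * deriv σ t = deriv B.D (σ t0) * deriv σ t0 := by
    intro t ht
    rcases hasDerivWithinAt_forall_lt_or_forall_gt_of_forall_ne hJ hder hne with h | h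
    · have h3 := h t ht
      have h4 := h t0 ht0J
      rcases hpm t ht with h5 | h5
      · rw [h5] at h3; norm_num at h3
      · rcases hpm t0 ht0J with h6 | h6
        · rw [h6] at h4; norm_num at h4
        · rw [h5, h6]
    · have h3 := h t ht
      have h4 := h t0 ht0J
      rcases hpm t ht with h5 | h5
      · rcases hpm t0 ht0J with h6 | h6
        · rw [h5, h6]
        · rw [h6] at h4; norm_num at h4
      · rw [h5] at h3; norm_num at h3
  have hD0 : ∀ t ∈ J, deriv B.D (σ t) ≠ 0 := by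
    intro t ht h3
    have h4 := hsq t ht
    rw [h3] at h4
    simp at h4
  have hDc : ContinuousWithinAt (fun t => deriv B.D (σ t)) (Icc s r) t0 := by
    have h3 : ContinuousAt (deriv B.D) (σ t0) :=
      ((B.D_holo.deriv B.isOpen_img).differentiableAt (B.isOpen_img.mem_nhds himg)).continuousAt
    exact (ContinuousAt.comp (f := σ) (x := t0) h3 h1.continuousAt).continuousWithinAt
  have hfin : ContinuousWithinAt
      (fun t => (deriv B.D (σ t0) * deriv σ t0) * (deriv B.D (σ t))⁻¹) (Icc s r) t0 :=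
    continuousWithinAt_const.mul (hDc.inv₀ (hD0 t0 ht0J))
  refine hfin.congr_of_eventuallyEq ?_ ?_
  · filter_upwards [hJn] with t ht
    rw [← hconst t ht]
    field_simp [hD0 t ht]
  · field_simp [hD0 t0 ht0J]

private theorem close_glue {f g : ℝ → ℂ} {c P : ℝ} (h0 : 0 ≤ c) (hP : c ≤ P)
    (hf : ContinuousOn f (Icc 0 c)) (hg : ContinuousOn g (Icc c P)) (hfg : f c = g c) :
    ContinuousOn (fun u => if u ≤ c then f u else g u) (Icc 0 P) := by
  rw [← Icc_union_Icc_eq_Icc h0 hP]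
  apply ContinuousOn.union_of_isClosed _ _ isClosed_Icc isClosed_Icc
  · refine hf.congr fun u hu => ?_
    simp [hu.2]
  · refine hg.congr fun u hu => ?_
    by_cases h : u ≤ c
    · have h1 : u = c := le_antisymm h hu.1
      rw [h1]
      simp [hfg]
    · simp [h]

theorem close_up (B : Box Q) {σ : ℝ → ℂ} {s r m : ℝ} (hsr : s < r) (hm : 0 < m)
    (hσ : ∀ t ∈ Icc s r, Hor Q σ t) (hinj : InjOn σ (Icc s r)) (p p' : ℝ → ℂ)
    (hp : ∀ u ∈ Icc 0 m, HasDerivAt p (p' u) u) (hpc : ContinuousOn p' (Icc 0 m))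
    (hpd : ∀ u ∈ Icc 0 m, p u ∈ B.dom) (hp0 : ∀ u ∈ Icc 0 m, p' u ≠ 0)
    (hpi : InjOn p (Icc 0 m)) (hr : B.χ (p 0) = σ r) (hs : B.χ (p m) = σ s)
    (hvr : deriv σ r = deriv B.χ (p 0) * p' 0) (hvs : deriv σ s = deriv B.χ (p m) * p' m)
    (hdis : ∀ u ∈ Ioo 0 m, ∀ t ∈ Icc s r, B.χ (p u) ≠ σ t) (Λ : ℝ → ℂ)
    (hΛ : ContinuousOn Λ (Icc 0 m)) (hexp : ∀ u ∈ Icc 0 m, Complex.exp (Λ u) = p' u ^ 2) :
    4 * Real.pi ≤ |(Λ m - Λ 0).im| := by
  obtain ⟨c, hc⟩ : ∃ c : ℝ, c = r - s := ⟨_, rfl⟩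
  have hc0 : 0 < c := by rw [hc]; linarith
  have h0m : (0 : ℝ) ∈ Icc 0 m := ⟨le_rfl, hm.le⟩
  have hmm : m ∈ Icc 0 m := ⟨hm.le, le_rfl⟩
  have hBeq : ∀ w ∈ B.dom, Q.q (B.χ w) * deriv B.χ w ^ 2 = 1 := B.eq
  have hBd : ∀ w ∈ B.dom, HasDerivAt B.χ (deriv B.χ w) w := fun w hw =>
    (B.holo.differentiableAt (B.isOpen_dom.mem_nhds hw)).hasDerivAt
  have hmemσ : ∀ u ∈ Icc 0 c, s + u ∈ Icc s r := by
    intro u hu
    rw [hc] at hu
    exact ⟨by linarith [hu.1], by linarith [hu.2]⟩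
  have hmemp : ∀ u ∈ Icc c (c + m), u - c ∈ Icc 0 m := by
    intro u hu
    exact ⟨by linarith [hu.1], by linarith [hu.2]⟩
  have hscr : s + c = r := by rw [hc]; ring
  -- continuity of the pieces
  have hσc : ContinuousOn (fun u => σ (s + u)) (Icc 0 c) := by
    intro u hu
    have h1 : ContinuousAt σ (s + u) := (hσ _ (hmemσ u hu)).continuousAt
    have h2 : ContinuousAt (fun u : ℝ => s + u) u := by fun_prop
    exact (ContinuousAt.comp (f := fun u : ℝ => s + u) (x := u) h1 h2).continuousWithinAt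
  have hσ'c : ContinuousOn (fun u => deriv σ (s + u)) (Icc 0 c) :=
    (hor_deriv_cont hσ).comp (f := fun u : ℝ => s + u) (by fun_prop) hmemσ
  have hpcont : ContinuousOn p (Icc 0 m) := fun u hu =>
    (hp u hu).continuousAt.continuousWithinAt
  have hχc : ContinuousOn (fun u => B.χ (p u)) (Icc 0 m) :=
    (ContinuousOn.comp (f := p) (g := B.χ) (t := B.dom) B.holo.continuousOn hpcont hpd)
  have hχ'c : ContinuousOn (fun u => deriv B.χ (p u) * p' u) (Icc 0 m) :=
    (ContinuousOn.comp (f := p) (g := deriv B.χ) (t := B.dom)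
      (DifferentiableOn.deriv B.holo B.isOpen_dom).continuousOn hpcont hpd).mul hpc
  have hsub : ContinuousOn (fun u : ℝ => u - c) (Icc c (c + m)) := by fun_prop
  have hgc : ContinuousOn (fun u => B.χ (p (u - c))) (Icc c (c + m)) :=
    hχc.comp (f := fun u : ℝ => u - c) hsub hmemp
  have hg'c : ContinuousOn (fun u => deriv B.χ (p (u - c)) * p' (u - c)) (Icc c (c + m)) :=
    hχ'c.comp (f := fun u : ℝ => u - c) hsub hmemp
  have hLc : ContinuousOn (fun u => Λ (u - c)) (Icc c (c + m)) :=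
    hΛ.comp (f := fun u : ℝ => u - c) hsub hmemp
  have hcm : c ≤ c + m := by linarith
  -- the curve
  obtain ⟨γ, hγ⟩ : ∃ γ : ℝ → ℂ, γ = fun u => if u ≤ c then σ (s + u) else B.χ (p (u - c)) :=
    ⟨_, rfl⟩
  obtain ⟨V, hV⟩ : ∃ V : ℝ → ℂ, V = fun u => if u ≤ c then deriv σ (s + u)
      else deriv B.χ (p (u - c)) * p' (u - c) := ⟨_, rfl⟩
  obtain ⟨L, hL⟩ : ∃ L : ℝ → ℂ, L = fun u => if u ≤ c then Λ 0 else Λ (u - c) := ⟨_, rfl⟩
  have hγ1 : ∀ u, u ≤ c → γ u = σ (s + u) := fun u hu => by rw [hγ]; simp [hu]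
  have hγ2 : ∀ u, c < u → γ u = B.χ (p (u - c)) := fun u hu => by
    rw [hγ]; simp [not_le.2 hu]
  have hV1 : ∀ u, u ≤ c → V u = deriv σ (s + u) := fun u hu => by rw [hV]; simp [hu]
  have hV2 : ∀ u, c < u → V u = deriv B.χ (p (u - c)) * p' (u - c) := fun u hu => by
    rw [hV]; simp [not_le.2 hu]
  have hL1 : ∀ u, u ≤ c → L u = Λ 0 := fun u hu => by rw [hL]; simp [hu]
  have hL2 : ∀ u, c < u → L u = Λ (u - c) := fun u hu => by
    rw [hL]; simp [not_le.2 hu]
  have hP : c < c + m := by linarith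
  have hsc : SimpleClosed (c + m) γ V {c} := by
    refine ⟨by linarith, finite_singleton c, ?_, ?_, ?_, ?_, ?_, ?_, ?_⟩
    · rw [hγ]
      apply close_glue hc0.le hcm hσc hgc
      simp only [sub_self]
      rw [hscr, hr]
    · rw [hV]
      apply close_glue hc0.le hcm hσ'c hg'c
      simp only [sub_self]
      rw [hscr, hvr]
    · intro t ht htc
      rw [mem_singleton_iff] at htc
      rcases lt_or_gt_of_ne htc with h | h
      · have h1 : HasDerivAt σ (deriv σ (s + t)) (s + t) :=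
          (hor_deriv_eq (hσ _ (hmemσ t ⟨ht.1.le, h.le⟩))).1
        have h2 : HasDerivAt (fun u => σ (s + u)) (deriv σ (s + t)) t :=
          h1.comp_const_add s t
        rw [hV1 t h.le]
        refine h2.congr_of_eventuallyEq ?_
        filter_upwards [eventually_lt_nhds h] with u hu
        exact hγ1 u hu.le
      · have hm1 : t - c ∈ Icc 0 m := hmemp t ⟨h.le, ht.2.le⟩
        have h1 : HasDerivAt (fun u => B.χ (p u)) (deriv B.χ (p (t - c)) * p' (t - c)) (t - c) :=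
          HasDerivAt.comp (t - c) (hBd _ (hpd _ hm1)) (hp _ hm1)
        have h2 : HasDerivAt (fun u => B.χ (p (u - c)))
            (deriv B.χ (p (t - c)) * p' (t - c)) t :=
          h1.comp_sub_const t c
        rw [hV2 t h]
        refine h2.congr_of_eventuallyEq ?_
        filter_upwards [eventually_gt_nhds h] with u hu
        exact hγ2 u hu
    · intro t ht
      rcases le_or_gt t c with h | h
      · rw [hV1 t h]
        intro h0
        have h1 := (hor_deriv_eq (hσ _ (hmemσ t ⟨ht.1, h⟩))).2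
        rw [h0] at h1
        simp at h1
      · rw [hV2 t h]
        have hm1 : t - c ∈ Icc 0 m := hmemp t ⟨h.le, ht.2⟩
        exact mul_ne_zero (B.deriv_ne (hpd _ hm1)) (hp0 _ hm1)
    · rw [hγ1 0 hc0.le, hγ2 _ hP, add_zero, add_sub_cancel_left, hs]
    · rw [hV1 0 hc0.le, hV2 _ hP, add_zero, add_sub_cancel_left, hvs]
    · have key : ∀ u v, u ∈ Ico 0 (c + m) → v ∈ Ico 0 (c + m) → u ≤ c → c < v → γ u ≠ γ v := by
        intro u v hu hv huc hcv
        rw [hγ1 u huc, hγ2 v hcv]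
        intro h
        exact hdis (v - c) ⟨by linarith, by linarith [hv.2]⟩ (s + u)
          (hmemσ u ⟨hu.1, huc⟩) h.symm
      intro u hu v hv huv
      rcases le_or_gt u c with h1 | h1
      · rcases le_or_gt v c with h2 | h2
        · rw [hγ1 u h1, hγ1 v h2] at huv
          have h3 := hinj (hmemσ u ⟨hu.1, h1⟩) (hmemσ v ⟨hv.1, h2⟩) huv
          linarith
        · exact absurd huv (key u v hu hv h1 h2)
      · rcases le_or_gt v c with h2 | h2
        · exact absurd huv.symm (key v u hv hu h2 h1)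
        · rw [hγ2 u h1, hγ2 v h2] at huv
          have hu1 := hmemp u ⟨h1.le, hu.2.le⟩
          have hv1 := hmemp v ⟨h2.le, hv.2.le⟩
          have h3 := B.inj (hpd _ hu1) (hpd _ hv1) huv
          have h4 := hpi hu1 hv1 h3
          linarith
  have hp1 : p' 0 ^ 2 = 1 := by
    have h1 := (hor_deriv_eq (hσ r ⟨hsr.le, le_rfl⟩)).2
    have h2 := hBeq _ (hpd 0 h0m)
    rw [hvr, ← hr, mul_pow, ← mul_assoc, h2, one_mul] at h1
    exact h1
  have hfinal := gb Q hsc (fun t ht => ?_) L ?_ (fun t ht => ?_)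
  · rw [hL2 _ hP, hL1 0 hc0.le, add_sub_cancel_left] at hfinal
    exact hfinal
  · rcases le_or_gt t c with h | h
    · rw [hγ1 t h]
      have h1 := hσ _ (hmemσ t ⟨ht.1, h⟩)
      exact ⟨h1.mem, h1.q_ne⟩
    · rw [hγ2 t h]
      have hm1 : t - c ∈ Icc 0 m := hmemp t ⟨h.le, ht.2⟩
      refine ⟨B.mem _ (hpd _ hm1), ?_⟩
      intro h0
      have h1 := hBeq _ (hpd _ hm1)
      rw [h0] at h1
      simp at h1
  · rw [hL]
    apply close_glue hc0.le hcm continuousOn_const hLc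
    simp
  · rcases le_or_gt t c with h | h
    · rw [hγ1 t h, hV1 t h, hL1 t h, hexp 0 h0m, hp1]
      exact (hor_deriv_eq (hσ _ (hmemσ t ⟨ht.1, h⟩))).2.symm
    · have hm1 : t - c ∈ Icc 0 m := hmemp t ⟨h.le, ht.2⟩
      rw [hγ2 t h, hV2 t h, hL2 t h, hexp _ hm1, mul_pow, ← mul_assoc, hBeq _ (hpd _ hm1),
        one_mul]

end Pool.Agent.ANO2.Geo2
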