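import Mathlib

/-!
# ANO phase 2, module Geo2: horizontal and vertical arcs of a quadratic differential

Everything is stated for horizontal objects of `q`; the vertical objects of `q` are the horizontal
objects of `-q` (`QD.neg`).
-/

set_option autoImplicit false

open Set Filter Topology MeasureTheory

namespace Pool.Agent.ANO2.Geo2

/-- A holomorphic quadratic differential `q dz²`, not identically zero, on a convex open set. -/
structure QD where
  U : Set ℂ
  isOpen : IsOpen U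
  convex : Convex ℝ U
  q : ℂ → ℂ
  holo : DifferentiableOn ℂ q U
  ne_zero : ∃ z ∈ U, q z ≠ 0

/-- The quadratic differential `-q`. -/
def QD.neg (Q : QD) : QD where
  U := Q.U
  isOpen := Q.isOpen
  convex := Q.convex
  q := fun z => - Q.q z
  holo := Q.holo.neg
  ne_zero := by
    obtain ⟨z, h1, h2⟩ := Q.ne_zero
    exact ⟨z, h1, neg_ne_zero.mpr h2⟩

/-- `σ` moves horizontally with unit speed at time `t`: the derivative `v` of `σ` at `t` satisfies
`q v² = 1`.  In particular `σ t` is not a zero of `q`. -/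
def Hor (Q : QD) (σ : ℝ → ℂ) (t : ℝ) : Prop :=
  σ t ∈ Q.U ∧ ∃ v : ℂ, HasDerivAt σ v t ∧ Q.q (σ t) * v ^ 2 = 1

/-- `σ` moves vertically with unit speed at time `t`. -/
def Ver (Q : QD) (σ : ℝ → ℂ) (t : ℝ) : Prop := Hor Q.neg σ t

/-- A flow box: the inverse `χ` of a branch of `∫ √q`, injective on an open rectangle. -/
structure Box (Q : QD) where
  a : ℝ
  b : ℝ
  c : ℝ
  d : ℝ
  hab : a < b
  hcd : c < d
  χ : ℂ → ℂ
  holo : DifferentiableOn ℂ χ (Ioo a b ×ℂ Ioo c d)
  inj : InjOn χ (Ioo a b ×ℂ Ioo c d)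
  mem : ∀ w ∈ Ioo a b ×ℂ Ioo c d, χ w ∈ Q.U
  eq : ∀ w ∈ Ioo a b ×ℂ Ioo c d, Q.q (χ w) * deriv χ w ^ 2 = 1

/-- The rectangle of a flow box. -/
def Box.dom {Q : QD} (B : Box Q) : Set ℂ := Ioo B.a B.b ×ℂ Ioo B.c B.d

/-- The image of a flow box. -/
def Box.img {Q : QD} (B : Box Q) : Set ℂ := B.χ '' B.dom

/-- A rectilinear path `c : [0, l] → U` of unit speed: outside the finite set `A` it moves
horizontally at the times in `B` and vertically at the other times. -/
structure RP (Q : QD) (l : ℝ) (c : ℝ → ℂ) (A B : Set ℝ) : Prop where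
  nonneg : 0 ≤ l
  fin : A.Finite
  cont : ContinuousOn c (Icc 0 l)
  mem : ∀ t ∈ Icc 0 l, c t ∈ Q.U
  hor : ∀ t ∈ Ioo 0 l, t ∉ A → t ∈ B → Hor Q c t
  ver : ∀ t ∈ Ioo 0 l, t ∉ A → t ∉ B → Ver Q c t
  loc : ∀ t ∈ Ioo 0 l, t ∉ A → (∀ᶠ s in 𝓝 t, s ∈ B) ∨ (∀ᶠ s in 𝓝 t, s ∉ B)

/-- The horizontal length of a rectilinear path. -/
noncomputable def vx (l : ℝ) (B : Set ℝ) : ℝ := (volume (B ∩ Icc 0 l)).toReal

/-- `z` and `w` are joined by a rectilinear path of horizontal length `x` and vertical length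
`y`. -/
def Joins (Q : QD) (z w : ℂ) (x y : ℝ) : Prop :=
  ∃ (l : ℝ) (c : ℝ → ℂ) (A B : Set ℝ), RP Q l c A B ∧ c 0 = z ∧ c l = w ∧ x = vx l B ∧
    y = l - vx l B

/-- The infimum of the horizontal lengths of the rectilinear paths from `z` to `w`. -/
noncomputable def du (Q : QD) (z w : ℂ) : ℝ := sInf {x | ∃ y, Joins Q z w x y}

/-- The infimum of the vertical lengths of the rectilinear paths from `z` to `w`. -/
noncomputable def ds (Q : QD) (z w : ℂ) : ℝ := sInf {y | ∃ x, Joins Q z w x y}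

/-- The infimum of the lengths of the rectilinear paths from `z` to `w`. -/
noncomputable def d1 (Q : QD) (z w : ℂ) : ℝ := sInf {s | ∃ x y, Joins Q z w x y ∧ s = x + y}

/-- Rectilinear paths of bounded length which start at `z` stay in a compact subset of `U`. -/
def Proper (Q : QD) : Prop :=
  ∀ z ∈ Q.U, ∀ R : ℝ, ∃ K ⊆ Q.U, IsCompact K ∧ ∀ (l : ℝ) (c : ℝ → ℂ) (A B : Set ℝ),
    RP Q l c A B → c 0 = z → l ≤ R → ∀ t ∈ Icc 0 l, c t ∈ K

/-- A complete horizontal leaf (it contains no zero of `q`). -/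
def Leaf (Q : QD) (σ : ℝ → ℂ) : Prop := ∀ t, Hor Q σ t

/-- The curve `γ : [0, P] → ℂ` is closed, simple and of class `C¹`, with nowhere zero derivative
`V`.  (At the finitely many points of `F` the derivative is not assumed to exist, but `V` is
continuous.) -/
structure SimpleClosed (P : ℝ) (γ V : ℝ → ℂ) (F : Set ℝ) : Prop where
  pos : 0 < P
  fin : F.Finite
  cont : ContinuousOn γ (Icc 0 P)
  contV : ContinuousOn V (Icc 0 P)
  deriv : ∀ t ∈ Ioo 0 P, t ∉ F → HasDerivAt γ (V t) t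
  ne : ∀ t ∈ Icc 0 P, V t ≠ 0
  closed : γ 0 = γ P
  closedV : V 0 = V P
  inj : ∀ s ∈ Ico 0 P, ∀ t ∈ Ico 0 P, γ s = γ t → s = t

end Pool.Agent.ANO2.Geo2
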