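import Pool.Agent.ANO2.Geo2.Bad

/-!
# ANO phase 2, Geo2: `d1 = du + ds`

Proof of `du_ge`: let `O` be as in `bad`, and let `G` be the set of the `t ∈ (0, l) \ A`, `t ∈ B`, `t ∉ O` which
are not in the countable set of `bad` and such that there is a complete vertical leaf through `c t`
(all but countably many `t`, by `exists_leaf_countable` for `Q.neg` on each of the countably many
components of the open set `(0, l) \ A`, `t ∈ B`).  `G` is measurable,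
`vol G ≥ vol (B ∩ [0, l]) - 2 ε`.  Let `c'` be any rectilinear path from `c 0` to `c l`.  For `t ∈ G` the
leaf `τ`, `Leaf Q.neg τ`, `τ 0 = c t`, meets `c` only at the time `t` (if `c s ∈ range τ` then
`HC Q.neg (c t) (c s) _` by `Leaf.hc`, so `s = t`), and `c` is horizontal near `t`, so by `meets` for
`Q.neg` the path `c'` meets `range τ`: `HC Q.neg (c t) (c' s) _`.  By `meas` (with `c0 = c`)
`vol G ≤ vol (B' ∩ [0, l'])`.  So `vx l B - 2 ε ≤ vx l' B'`.  (If there is no path then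
`c` itself is one.)

`geo`: `≥` is `du_add_ds_le`.  `≤`: for `ε > 0` take `c` by `exists_d1`; `du_ge` gives
`du ≥ vx l B - 2 ε`, and `du_ge` for `Q.neg` and `RP.neg` gives `ds ≥ (l - vx l B) - 2 ε`.  So
`d1 ≤ l ≤ du + ds + 4 ε`.

`eq_of_zero`: `d1 Q z w = 0`; if `z ≠ w` apply `leave_ball` at `z` with `r = ‖w - z‖`: every path from `z` to `w`
has length at least `m > 0`.
-/

set_option autoImplicit false

open Set Filter Topology MeasureTheory

namespace Pool.Agent.ANO2.Geo2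

variable {Q : QD}

/-- All but countably many regular horizontal times of `c` are on complete vertical leaves. -/
private theorem leafless_countable (hP : Proper Q) {l : ℝ} {c : ℝ → ℂ} {A B : Set ℝ}
    (h : RP Q l c A B) : {t | t ∈ Ioo 0 l ∧ t ∉ A ∧ t ∈ B ∧
      ¬ ∃ σ : ℝ → ℂ, Leaf Q.neg σ ∧ σ 0 = c t}.Countable := by
  set N : Set ℝ := {t | t ∈ Ioo 0 l ∧ t ∉ A ∧ t ∈ B ∧
      ¬ ∃ σ : ℝ → ℂ, Leaf Q.neg σ ∧ σ 0 = c t} with hN
  have hloc : ∀ t ∈ N, ∃ δ > 0, ∀ s ∈ Ioo (t - δ) (t + δ), Ver Q.neg c s := by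
    rintro t ⟨ht, htA, htB, -⟩
    have h1 : ∀ᶠ s in 𝓝 t, s ∈ B := by
      rcases h.loc t ht htA with h1 | h1
      · exact h1
      · exact absurd htB h1.self_of_nhds
    have h2 : ∀ᶠ s in 𝓝 t, s ∈ Ioo 0 l := isOpen_Ioo.mem_nhds ht
    have h3 : ∀ᶠ s in 𝓝 t, s ∉ A := h.fin.isClosed.isOpen_compl.mem_nhds htA
    obtain ⟨δ, hδ, hb⟩ := Metric.eventually_nhds_iff.mp (h1.and (h2.and h3))
    refine ⟨δ, hδ, fun s hs => ?_⟩
    obtain ⟨g1, g2, g3⟩ := hb (y := s) (by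
      rw [Real.dist_eq, abs_lt]
      constructor <;> linarith [hs.1, hs.2])
    show Hor Q.neg.neg c s
    rw [QD.neg_neg]
    exact h.hor s g2 g3 g1
  choose! δ hδ hver using hloc
  obtain ⟨T, hTN, hTc, hT⟩ := TopologicalSpace.countable_cover_nhdsWithin
    (f := fun x => Ioo (x - δ x) (x + δ x)) (s := N) (fun x hx =>
      mem_nhdsWithin_of_mem_nhds (isOpen_Ioo.mem_nhds ⟨by linarith [hδ x hx],
        by linarith [hδ x hx]⟩))
  have hsub : N ⊆ ⋃ x ∈ T, {t | t ∈ Ioo (x - δ x) (x + δ x) ∧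
      ¬ ∃ σ : ℝ → ℂ, Leaf Q.neg σ ∧ σ 0 = c t} := by
    intro t ht
    obtain ⟨x, hx, hx'⟩ := mem_iUnion₂.mp (hT ht)
    exact mem_iUnion₂.mpr ⟨x, hx, hx', ht.2.2.2⟩
  refine Countable.mono hsub (hTc.biUnion fun x hx => ?_)
  exact exists_leaf_countable hP.neg (hver x (hTN hx))

theorem du_ge (hP : Proper Q) {l : ℝ} {c : ℝ → ℂ} {A B : Set ℝ} (h : RP Q l c A B) {ε : ℝ}
    (hε : 0 ≤ ε) (hmin : l ≤ d1 Q (c 0) (c l) + ε) : vx l B - 2 * ε ≤ du Q (c 0) (c l) := by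
  obtain ⟨O, hO, hOv, hC⟩ := bad hP h hε hmin
  have hN := leafless_countable hP h
  set C : Set ℝ := {t | t ∈ Ioo 0 l ∧ t ∉ A ∧ t ∈ B ∧ t ∉ O ∧ ∃ s ∈ Icc 0 l, s ≠ t ∧
        ∃ S, HC Q.neg (c t) (c s) S} with hCdef
  set N : Set ℝ := {t | t ∈ Ioo 0 l ∧ t ∉ A ∧ t ∈ B ∧
      ¬ ∃ σ : ℝ → ℂ, Leaf Q.neg σ ∧ σ 0 = c t} with hNdef
  set E : Set ℝ := A ∪ {0, l} ∪ C ∪ N with hE
  have hEc : E.Countable := ((h.fin.countable.union (by simp)).union hC).union hN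
  set G : Set ℝ := ((B ∩ Icc 0 l) \ O) \ E with hG
  have hGm : MeasurableSet G := (h.measurable.diff hO.measurableSet).diff hEc.measurableSet
  have hG1 : ∀ t ∈ G, t ∈ Ioo 0 l ∧ t ∉ A ∧ t ∈ B ∧ t ∉ O ∧ t ∉ C ∧ t ∉ N := by
    rintro t ⟨⟨⟨h1, h2⟩, h3⟩, h4⟩
    rw [hE] at h4
    simp only [mem_union, mem_insert_iff, mem_singleton_iff, not_or] at h4
    obtain ⟨⟨⟨h5, h6, h7⟩, h8⟩, h9⟩ := h4
    exact ⟨⟨lt_of_le_of_ne h2.1 (Ne.symm h6), lt_of_le_of_ne h2.2 h7⟩, h5, h1, h3, h8, h9⟩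
  have hvol : volume (B ∩ Icc 0 l) ≤ volume G + ENNReal.ofReal (2 * ε) := by
    have hsub : B ∩ Icc 0 l ⊆ G ∪ (O ∩ (B ∩ Icc 0 l)) ∪ E := by
      intro t ht
      by_cases h1 : t ∈ O
      · exact Or.inl (Or.inr ⟨h1, ht⟩)
      · by_cases h2 : t ∈ E
        · exact Or.inr h2
        · exact Or.inl (Or.inl ⟨⟨ht, h1⟩, h2⟩)
    calc volume (B ∩ Icc 0 l) ≤ volume (G ∪ (O ∩ (B ∩ Icc 0 l)) ∪ E) := measure_mono hsub
      _ ≤ volume (G ∪ (O ∩ (B ∩ Icc 0 l))) + volume E := measure_union_le _ _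
      _ = volume (G ∪ (O ∩ (B ∩ Icc 0 l))) := by rw [hEc.measure_zero, add_zero]
      _ ≤ volume G + volume (O ∩ (B ∩ Icc 0 l)) := measure_union_le _ _
      _ ≤ volume G + ENNReal.ofReal (2 * ε) := by gcongr
  -- every path is at least as long
  have key : ∀ (l' : ℝ) (c' : ℝ → ℂ) (A' B' : Set ℝ), RP Q l' c' A' B' → c' 0 = c 0 →
      c' l' = c l → vx l B - 2 * ε ≤ vx l' B' := by
    intro l' c' A' B' h' e0 e1
    have h3 : ∀ t ∈ G, ∀ s ∈ Icc 0 l, ∀ S, HC Q.neg (c t) (c s) S → s = t := by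
      intro t ht s hs S hS
      obtain ⟨g1, g2, g3, g4, g5, -⟩ := hG1 t ht
      by_contra hne
      exact g5 ⟨g1, g2, g3, g4, s, hs, hne, S, hS⟩
    have hm : volume G ≤ volume (B' ∩ Icc 0 l') := by
      refine meas h h' hGm (fun t ht => ?_) (fun t ht => ?_) (fun t ht t' ht' S hS => ?_)
      · obtain ⟨g1, g2, g3, -⟩ := hG1 t ht
        exact ⟨g1, g2, g3⟩
      · obtain ⟨g1, g2, g3, g4, g5, g6⟩ := hG1 t ht
        obtain ⟨τ, hτ, hτ0⟩ : ∃ σ : ℝ → ℂ, Leaf Q.neg σ ∧ σ 0 = c t := by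
          by_contra hno
          exact g6 ⟨g1, g2, g3, hno⟩
        have hB : ∀ᶠ s in 𝓝 t, s ∈ B := by
          rcases h.loc t g1 g2 with h1 | h1
          · exact h1
          · exact absurd g3 h1.self_of_nhds
        have hI : ∀ᶠ s in 𝓝 t, s ∈ Ioo 0 l := isOpen_Ioo.mem_nhds g1
        have hA : ∀ᶠ s in 𝓝 t, s ∉ A := h.fin.isClosed.isOpen_compl.mem_nhds g2
        have hv : ∀ᶠ s in 𝓝 t, Ver Q.neg c s := by
          filter_upwards [hB, hI, hA] with s h1 h2 h4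
          show Hor Q.neg.neg c s
          rw [QD.neg_neg]
          exact h.hor s h2 h4 h1
        obtain ⟨s, hs, u, hu⟩ := meets (Q := Q.neg) hτ g1 h.cont h.mem hv ⟨0, hτ0⟩
          (fun s hs hr => by
            obtain ⟨u, hu⟩ := hr
            have := hτ.hc 0 u
            rw [hτ0, hu] at this
            exact h3 t ht s hs _ this) h'.nonneg h'.cont h'.mem e0 e1
        refine ⟨s, hs, |u - 0|, ?_⟩
        have := hτ.hc 0 u
        rwa [hτ0, hu] at this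
      · have g1 := (hG1 t' ht').1
        exact (h3 t ht t' ⟨g1.1.le, g1.2.le⟩ S hS).symm
    have hfin : volume (B' ∩ Icc 0 l') ≠ ⊤ :=
      ne_top_of_le_ne_top (by simp) (measure_mono inter_subset_right)
    have h4 : volume (B ∩ Icc 0 l) ≤ volume (B' ∩ Icc 0 l') + ENNReal.ofReal (2 * ε) :=
      hvol.trans (by gcongr)
    have h5 := ENNReal.toReal_mono (ENNReal.add_ne_top.mpr ⟨hfin, ENNReal.ofReal_ne_top⟩) h4
    rw [ENNReal.toReal_add hfin ENNReal.ofReal_ne_top, ENNReal.toReal_ofReal (by linarith)] at h5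
    unfold vx
    linarith
  unfold du
  refine le_csInf ⟨vx l B, _, l, c, A, B, h, rfl, rfl, rfl, rfl⟩ ?_
  rintro x ⟨y, l', c', A', B', h', e0, e1, rfl, -⟩
  exact key l' c' A' B' h' e0 e1

theorem geo (hP : Proper Q) {z w : ℂ} (hz : z ∈ Q.U) (hw : w ∈ Q.U) :
    d1 Q z w = du Q z w + ds Q z w := by
  refine le_antisymm ?_ (du_add_ds_le hz hw)
  refine le_of_forall_pos_le_add fun ε hε => ?_
  obtain ⟨l, c, A, B, h, h0, h1, hl⟩ := exists_d1 hz hw (ε := ε / 4) (by linarith)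
  have h2 := du_ge hP h (ε := ε / 4) (by linarith) (by rw [h0, h1]; exact hl.le)
  have h3 := du_ge hP.neg h.neg (ε := ε / 4) (by linarith)
    (by rw [d1_neg, h0, h1]; exact hl.le)
  rw [h.vx_compl, h0, h1, du_neg] at h3
  rw [h0, h1] at h2
  have h4 : d1 Q z w ≤ vx l B + (l - vx l B) := d1_le ⟨l, c, A, B, h, h0, h1, rfl, rfl⟩
  linarith

theorem eq_of_zero (hP : Proper Q) {z w : ℂ} (hz : z ∈ Q.U) (hw : w ∈ Q.U)
    (h1 : du Q z w = 0) (h2 : ds Q z w = 0) : z = w := by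
  by_contra hne
  have h3 := geo hP hz hw
  rw [h1, h2, add_zero] at h3
  have hr : 0 < ‖w - z‖ := norm_pos_iff.mpr (sub_ne_zero.mpr (Ne.symm hne))
  obtain ⟨m, hm, η, hη, hb⟩ := leave_ball Q hz hr
  obtain ⟨l, c, A, B, h, h0, h4, hl⟩ := exists_d1 hz hw hm
  rw [h3, zero_add] at hl
  have h5 := hb l c A B h (by rw [h0, sub_self, norm_zero]; exact hη) hl l ⟨h.nonneg, le_rfl⟩
  rw [h4] at h5
  exact lt_irrefl _ h5

end Pool.Agent.ANO2.Geo2
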