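import Pool.Agent.ANO2.Geo2.Long

/-!
# ANO phase 2, Geo2: holonomy along a vertical arc

Proof: let `B` be the long box about `τ` (`long_box_ver`): `B.χ (i u) = τ u`, `0 ≤ u ≤ S`.
Near `t0` the arc `c0` is in `B.img`, so by `box_arc` `c0 (t0 + x) = B.χ (e0 x)` for small `|x|` (the line through
`B.χ 0 = c0 t0`), and `c1 (t1 + x) = B.χ (e1 x + i S)`.  The vertical line
`u ↦ B.χ (e0 x + i u)`, `0 ≤ u ≤ S`, joins `c0 (t0 + x)` and `c1 (t1 + e0 e1 x)`.  `e = e0 e1`.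
-/

set_option autoImplicit false

open Set Filter Topology

namespace Pool.Agent.ANO2.Geo2

variable {Q : QD}

private theorem local_line_Hol (B : Box Q) {c : ℝ → ℂ} {t0 p q : ℝ}
    (hp : (⟨p, q⟩ : ℂ) ∈ B.dom) (hc : c t0 = B.χ ⟨p, q⟩) (h : ∀ᶠ t in 𝓝 t0, Hor Q c t) :
    ∃ r > 0, ∃ e : ℝ, (e = 1 ∨ e = -1) ∧ ∀ u ∈ Ioo (-r) r,
      (⟨p + e * u, q⟩ : ℂ) ∈ B.dom ∧ c (t0 + u) = B.χ ⟨p + e * u, q⟩ := by
  have hcont : ContinuousAt c t0 := h.self_of_nhds.continuousAt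
  have himg : c t0 ∈ B.img := ⟨_, hp, hc.symm⟩
  have h1 : ∀ᶠ t in 𝓝 t0, Hor Q c t ∧ c t ∈ B.img :=
    h.and (hcont.eventually_mem (B.isOpen_img.mem_nhds himg))
  obtain ⟨r, hr, hb⟩ := Metric.eventually_nhds_iff_ball.1 h1
  have hmem : ∀ t ∈ Ioo (t0 - r) (t0 + r), Hor Q c t ∧ c t ∈ B.img := by
    intro t ht
    apply hb
    rw [Real.ball_eq_Ioo]
    exact ht
  obtain ⟨x, y, e, he, hl⟩ := box_arc B (a := t0 - r) (b := t0 + r) (by linarith)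
    (fun t ht => (hmem t ht).1) (fun t ht => (hmem t ht).2)
  have h0 := hl t0 ⟨by linarith, by linarith⟩
  have hi : (⟨x + e * t0, y⟩ : ℂ) = ⟨p, q⟩ := by
    apply B.inj h0.1 hp
    rw [← h0.2, hc]
  have hx : x + e * t0 = p := congrArg Complex.re hi
  have hy : y = q := congrArg Complex.im hi
  refine ⟨r, hr, e, he, fun u hu => ?_⟩
  have h2 := hl (t0 + u) ⟨by linarith [hu.1], by linarith [hu.2]⟩
  have h3 : (⟨x + e * (t0 + u), y⟩ : ℂ) = ⟨p + e * u, q⟩ := by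
    rw [hy, ← hx]
    congr 1
    ring
  rw [h3] at h2
  exact h2

theorem hol {c0 c1 : ℝ → ℂ} {t0 t1 S : ℝ} (h : HC Q.neg (c0 t0) (c1 t1) S)
    (h0 : ∀ᶠ t in 𝓝 t0, Hor Q c0 t) (h1 : ∀ᶠ t in 𝓝 t1, Hor Q c1 t) :
    ∃ δ > 0, ∃ e : ℝ, (e = 1 ∨ e = -1) ∧ ∀ x ∈ Ioo (-δ) δ,
      HC Q.neg (c0 (t0 + x)) (c1 (t1 + e * x)) S := by
  obtain ⟨hS, τ, hτ, hτ0, hτS⟩ := h
  obtain ⟨B, ha, hb, hc, hd, hB⟩ := long_box_ver hS hτ
  have hdom : ∀ x t : ℝ, (⟨x, t⟩ : ℂ) ∈ B.dom ↔ x ∈ Ioo B.a B.b ∧ t ∈ Ioo B.c B.d := by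
    intro x t
    rw [Box.dom, Complex.mem_reProdIm]
  have hI : ∀ t : ℝ, ((t : ℂ) * Complex.I) = ⟨0, t⟩ := by
    intro t
    apply Complex.ext <;> simp
  obtain ⟨r0, hr0, e0, he0, hl0⟩ := local_line_Hol B (c := c0) (t0 := t0) (p := 0) (q := 0)
    ((hdom 0 0).2 ⟨⟨ha, hb⟩, hc, by linarith⟩) (by
      rw [← hτ0, ← hB 0 ⟨le_rfl, hS⟩, hI]) h0
  obtain ⟨r1, hr1, e1, he1, hl1⟩ := local_line_Hol B (c := c1) (t0 := t1) (p := 0) (q := S)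
    ((hdom 0 S).2 ⟨⟨ha, hb⟩, by linarith, hd⟩) (by
      rw [← hτS, ← hB S ⟨hS, le_rfl⟩, hI]) h1
  have hee : e1 * e1 = 1 := by rcases he1 with rfl | rfl <;> norm_num
  have hee0 : |e0| = 1 := by rcases he0 with rfl | rfl <;> simp
  have hee1 : |e1| = 1 := by rcases he1 with rfl | rfl <;> simp
  refine ⟨min r0 r1, lt_min hr0 hr1, e0 * e1, ?_, ?_⟩
  · rcases he0 with rfl | rfl <;> rcases he1 with rfl | rfl <;> norm_num
  · intro x hx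
    have hx0 : x ∈ Ioo (-r0) r0 :=
      ⟨by linarith [hx.1, min_le_left r0 r1], by linarith [hx.2, min_le_left r0 r1]⟩
    have hx1 : e0 * e1 * x ∈ Ioo (-r1) r1 := by
      have h2 : |e0 * e1 * x| = |x| := by
        rw [abs_mul, abs_mul, hee0, hee1, one_mul, one_mul]
      have h3 : |x| < r1 := by
        rw [abs_lt]
        exact ⟨by linarith [hx.1, min_le_right r0 r1], by linarith [hx.2, min_le_right r0 r1]⟩
      rw [← h2, abs_lt] at h3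
      exact h3
    obtain ⟨m0, q0⟩ := hl0 x hx0
    obtain ⟨m1, q1⟩ := hl1 _ hx1
    rw [zero_add] at m0 q0
    have hE : (0 : ℝ) + e1 * (e0 * e1 * x) = e0 * x := by
      calc (0 : ℝ) + e1 * (e0 * e1 * x) = (e1 * e1) * (e0 * x) := by ring
        _ = e0 * x := by rw [hee, one_mul]
    rw [hE] at m1 q1
    have hre := ((hdom _ _).1 m0).1
    have hw : ∀ t : ℝ, (⟨e0 * x, 0⟩ : ℂ) + ((1 * t : ℝ) : ℂ) * Complex.I = ⟨e0 * x, t⟩ := by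
      intro t
      apply Complex.ext <;> simp
    refine ⟨hS, fun u => B.χ ((⟨e0 * x, 0⟩ : ℂ) + ((1 * u : ℝ) : ℂ) * Complex.I), ?_, ?_, ?_⟩
    · intro t ht
      apply ver_of_box B (Or.inl rfl)
      rw [hw, hdom]
      exact ⟨hre, by linarith [ht.1], by linarith [ht.2]⟩
    · show B.χ ((⟨e0 * x, 0⟩ : ℂ) + ((1 * (0 : ℝ) : ℝ) : ℂ) * Complex.I) = c0 (t0 + x)
      rw [hw, q0]
    · show B.χ ((⟨e0 * x, 0⟩ : ℂ) + ((1 * S : ℝ) : ℂ) * Complex.I) = c1 (t1 + e0 * e1 * x)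
      rw [hw, q1]

end Pool.Agent.ANO2.Geo2
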