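import Pool.Agent.ANO2.Geo2.Long
import Pool.Agent.ANO2.Geo2.PsiArc
import Pool.Agent.ANO2.Geo2.Leave

/-!
# ANO phase 2, Geo2: complete horizontal leaves

* `proper_limit`: for `0 < t0 < T` the restriction of `σ` to `[t0, T')`, `T' < T`, is a rectilinear path
  (`A = ∅`, `B = univ`) of length `< T`, so `σ t` stays in a compact set `K ⊆ U` for
  `t ∈ [t0, T)`.  Let `z ∈ K` be a cluster point for `t → T`.  For every small ball about `z`
  there are `m, η` as in `leave_ball`; for some `t1 > T - m` the point `σ t1` is in the ball of radius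
  `η`, so `σ t` is in the given ball for `t ∈ [t1, T)`.  So `σ t → z`.
* `ray`: let `J` be the set of the `T > 0` such that there is an arc `σ` which is horizontal at the
  times in `(-δ, T)` for some `δ > 0`, with `σ 0 = z` and derivative `v` at `0`.  `J ≠ ∅`
  (`box_exists`).  Any two such arcs agree on the common domain near `[0, ..)` (`hor_two` and
  `hor_eqOn`), so if `J` is not bounded they glue to a ray.  If `T = sup J < ∞` they glue
  to an arc on `(-δ, T)` which has a limit `s ∈ U` at `T` by `proper_limit`; if `q s ≠ 0` then the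
  arc can be continued beyond `T` (`extend` on `[T/2, T]` and glue), contradiction.
* `two_rays`: apply `ray` to `v` and to `-v` and glue.
* `exists_leaf_countable`: let `C` be the countable set of `end_points`.  If there is no leaf
  through `c t` then by `two_rays` there is a horizontal arc from `c t` which ends at a zero, so
  it meets `C`: `HC Q (c t) p s` for some `p ∈ C`, `s ≥ 0`.  If the same `p` serves `t` and `t'` then
  `HC Q (c t) (c t') s''` by `HC.symm`, `HC.trans`, and `HC Q.neg (c t) (c t') |t' - t|` by `hc_of_hor`,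
  so `t = t'` by `HC.eq_of_vc`.  So the bad set injects into `C`.
* `Leaf.mem_of_hc`: an arc which starts at `σ t` coincides with `u ↦ σ (t + u)` or `u ↦ σ (t - u)`
  (near `0` for `u > 0` by flow boxes and continuity of the velocity, then by
  `hor_eqOn`; at the end point by continuity, or apply `extend` first).
-/

set_option autoImplicit false

open Set Filter Topology

namespace Pool.Agent.ANO2.Geo2

variable {Q : QD}

private theorem rp_hor_LeafA {σ : ℝ → ℂ} {l : ℝ} (hl : 0 ≤ l) (hσ : ∀ t ∈ Icc 0 l, Hor Q σ t) :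
    RP Q l σ ∅ univ where
  nonneg := hl
  fin := finite_empty
  cont := fun t ht => (hσ t ht).continuousAt.continuousWithinAt
  mem := fun t ht => (hσ t ht).mem
  hor := fun t ht _ _ => hσ t (Ioo_subset_Icc_self ht)
  ver := fun t _ _ h => absurd (mem_univ t) h
  loc := fun t _ _ => Or.inl (Eventually.of_forall fun s => mem_univ s)

theorem proper_limit (hP : Proper Q) {σ : ℝ → ℂ} {T : ℝ} (hT : 0 < T)
    (hσ : ∀ t ∈ Ioo 0 T, Hor Q σ t) : ∃ z ∈ Q.U, Tendsto σ (𝓝[<] T) (𝓝 z) := by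
  have hpath : ∀ a b : ℝ, 0 < a → a ≤ b → b < T →
      RP Q (b - a) (fun u => σ (u + a)) ∅ univ := by
    intro a b ha hab hb
    refine rp_hor_LeafA (sub_nonneg.2 hab) fun t ht => Hor.shift (hσ _ ⟨?_, ?_⟩)
    · linarith [ht.1]
    · linarith [ht.2]
  have h0 : T / 2 ∈ Ioo 0 T := ⟨by linarith, by linarith⟩
  obtain ⟨K, hKU, hK, hK2⟩ := hP (σ (T / 2)) (hσ _ h0).mem T
  have hmem : ∀ t ∈ Ico (T / 2) T, σ t ∈ K := by
    intro t ht
    have h1 := hK2 (t - T / 2) _ ∅ univ (hpath (T / 2) t h0.1 ht.1 ht.2) (by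
      show σ (0 + T / 2) = σ (T / 2)
      rw [zero_add]) (by linarith [ht.2, h0.1]) (t - T / 2) ⟨by linarith [ht.1], le_rfl⟩
    have h2 : t - T / 2 + T / 2 = t := by ring
    simpa only [h2] using h1
  have hev : ∀ᶠ t in 𝓝[<] T, σ t ∈ K := by
    filter_upwards [Ico_mem_nhdsLT h0.2] with t ht using hmem t ht
  obtain ⟨z, hz, hcl⟩ := hK.exists_clusterPt (f := map σ (𝓝[<] T)) (by
    rw [le_principal_iff]
    exact hev)
  refine ⟨z, hKU hz, ?_⟩
  rw [Metric.tendsto_nhds]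
  intro r hr
  obtain ⟨m, hm, η, hη, hball⟩ := leave_ball Q (hKU hz) hr
  have hfr : ∃ᶠ t in 𝓝[<] T, σ t ∈ Metric.ball z η := by
    have h1 := hcl.frequently (Metric.ball_mem_nhds z hη)
    exact h1
  have hlt : ∀ᶠ t in 𝓝[<] T, t ∈ Ioo (max (T / 2) (T - m)) T :=
    Ioo_mem_nhdsLT (max_lt h0.2 (by linarith))
  obtain ⟨t1, ht1, ht1'⟩ := (hfr.and_eventually hlt).exists
  have ha : 0 < t1 := lt_trans h0.1 (lt_of_le_of_lt (le_max_left _ _) ht1'.1)
  filter_upwards [Ioo_mem_nhdsLT ht1'.2] with t ht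
  have h1 := hball (t - t1) _ ∅ univ (hpath t1 t ha ht.1.le ht.2) (by
    show ‖σ (0 + t1) - z‖ < η
    rw [zero_add, ← dist_eq_norm]
    exact ht1) (by
      have := lt_of_le_of_lt (le_max_right _ _) ht1'.1
      linarith [ht.2]) (t - t1) ⟨by linarith [ht.1], le_rfl⟩
  have h2 : t - t1 + t1 = t := by ring
  rw [dist_eq_norm]
  simpa only [h2] using h1

/-- gluing of arcs which agree near `0` -/
private theorem glue_LeafA {σ0 : ℝ → ℂ} {δ : ℝ} (hδ : 0 < δ) (I : Set ℝ)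
    (hI : ∀ t ∈ I, -δ < t) (hδI : ∀ t ∈ Ioo (-δ) δ, t ∈ I)
    (h : ∀ t ∈ I, ∃ T > t, 0 < T ∧ ∃ σ : ℝ → ℂ, EqOn σ σ0 (Ioo (-δ) δ) ∧
      ∀ t ∈ Ioo (-δ) T, Hor Q σ t) :
    ∃ ρ : ℝ → ℂ, EqOn ρ σ0 (Ioo (-δ) δ) ∧ ∀ t ∈ interior I, Hor Q ρ t := by
  classical
  choose! T hT hT0 σ hσ hH using h
  have key : ∀ s ∈ I, ∀ t ∈ I, s < T t → σ s s = σ t s := by
    intro s hs t ht hst
    refine hor_eqOn (a := -δ) (b := min (T s) (T t)) (t0 := 0)
      (fun u hu => hH s hs u ⟨hu.1, lt_of_lt_of_le hu.2 (min_le_left _ _)⟩)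
      (fun u hu => hH t ht u ⟨hu.1, lt_of_lt_of_le hu.2 (min_le_right _ _)⟩)
      ⟨neg_lt_zero.2 hδ, lt_min (hT0 s hs) (hT0 t ht)⟩ ?_ ⟨hI s hs, lt_min (hT s hs) hst⟩
    filter_upwards [Ioo_mem_nhds (neg_lt_zero.2 hδ) hδ] with u hu
    rw [hσ s hs hu, hσ t ht hu]
  refine ⟨fun t => σ t t, fun t ht => hσ t (hδI t ht) ht, fun t ht => ?_⟩
  have htI := interior_subset ht
  refine (hH t htI t ⟨hI t htI, hT t htI⟩).congr ?_
  filter_upwards [isOpen_interior.mem_nhds ht, Iio_mem_nhds (hT t htI)] with s hs hs'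
  exact key s (interior_subset hs) t htI hs'

theorem ray (hP : Proper Q) {z v : ℂ} (hz : z ∈ Q.U) (hv : Q.q z * v ^ 2 = 1) :
    (∃ (σ : ℝ → ℂ) (δ : ℝ), 0 < δ ∧ σ 0 = z ∧ HasDerivAt σ v 0 ∧ ∀ t > -δ, Hor Q σ t) ∨
    (∃ (σ : ℝ → ℂ) (δ T : ℝ) (s : ℂ), 0 < δ ∧ 0 < T ∧ σ 0 = z ∧ HasDerivAt σ v 0 ∧
      (∀ t ∈ Ioo (-δ) T, Hor Q σ t) ∧ s ∈ Q.U ∧ Q.q s = 0 ∧ Tendsto σ (𝓝[<] T) (𝓝 s)) := by
  classical
  -- the initial arc
  obtain ⟨δ, hδ, B, ha, hb, hc, hd, hχ, hχ', -⟩ := box_exists Q hz hv (W := univ) univ_mem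
  obtain ⟨σ0, hσ0⟩ : ∃ σ0 : ℝ → ℂ, σ0 = fun u : ℝ => B.χ ((0 : ℂ) + ((1 * u : ℝ) : ℂ)) :=
    ⟨_, rfl⟩
  have hH0 : ∀ t ∈ Ioo (-δ) δ, Hor Q σ0 t := by
    intro t ht
    rw [hσ0]
    refine hor_of_box B (Or.inl rfl) ?_
    rw [Box.dom, Complex.mem_reProdIm, ha, hb, hc, hd]
    simp only [one_mul, zero_add, Complex.ofReal_re, Complex.ofReal_im]
    exact ⟨ht, by linarith, hδ⟩
  have h00 : σ0 0 = z := by
    rw [hσ0]
    simp only [mul_zero, Complex.ofReal_zero, add_zero]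
    exact hχ
  have hD0 : HasDerivAt σ0 v 0 := by
    have h1 : (0 : ℂ) ∈ B.dom := by
      rw [Box.dom, Complex.mem_reProdIm, ha, hb, hc, hd]
      simp only [Complex.zero_re, Complex.zero_im]
      exact ⟨⟨by linarith, hδ⟩, by linarith, hδ⟩
    have hopen : IsOpen B.dom := isOpen_Ioo.reProdIm isOpen_Ioo
    have h2 : HasDerivAt B.χ v ((0 : ℝ) : ℂ) := by
      rw [Complex.ofReal_zero, ← hχ']
      exact ((B.holo.differentiableAt (hopen.mem_nhds h1)).hasDerivAt)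
    have h3 := h2.comp_ofReal
    rw [hσ0]
    refine h3.congr_of_eventuallyEq (Eventually.of_forall fun u => ?_)
    simp
  have fin : ∀ ρ : ℝ → ℂ, EqOn ρ σ0 (Ioo (-δ) δ) → ρ 0 = z ∧ HasDerivAt ρ v 0 := by
    intro ρ hρ
    refine ⟨by rw [hρ ⟨neg_lt_zero.2 hδ, hδ⟩, h00], hD0.congr_of_eventuallyEq ?_⟩
    filter_upwards [Ioo_mem_nhds (neg_lt_zero.2 hδ) hδ] with u hu using hρ hu
  let A : ℝ → Prop := fun T => ∃ σ : ℝ → ℂ, EqOn σ σ0 (Ioo (-δ) δ) ∧
    ∀ t ∈ Ioo (-δ) T, Hor Q σ t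
  have hAmono : ∀ T T', T' ≤ T → A T → A T' := by
    rintro T T' hle ⟨σ, h1, h2⟩
    exact ⟨σ, h1, fun t ht => h2 t ⟨ht.1, lt_of_lt_of_le ht.2 hle⟩⟩
  have hAδ : A δ := ⟨σ0, fun t _ => rfl, hH0⟩
  by_cases hall : ∀ T, A T
  · left
    obtain ⟨ρ, h1, h2⟩ := glue_LeafA (Q := Q) (σ0 := σ0) hδ (Ioi (-δ)) (fun t ht => ht)
      (fun t ht => ht.1) (fun t ht => ⟨|t| + 1, lt_of_le_of_lt (le_abs_self t) (lt_add_one _),
        by positivity, hall _⟩)
    rw [isOpen_Ioi.interior_eq] at h2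
    exact ⟨ρ, δ, hδ, (fin ρ h1).1, (fin ρ h1).2, fun t ht => h2 t ht⟩
  · right
    push Not at hall
    obtain ⟨T1, hT1⟩ := hall
    have hbdd : BddAbove {T | A T} := ⟨T1, fun T hT => by
      by_contra hlt
      exact hT1 (hAmono T T1 (not_le.1 hlt).le hT)⟩
    have hne : {T | A T}.Nonempty := ⟨δ, hAδ⟩
    obtain ⟨T, hTdef⟩ : ∃ T, T = sSup {T | A T} := ⟨_, rfl⟩
    have hδT : δ ≤ T := hTdef ▸ le_csSup hbdd hAδ
    have hT0 : 0 < T := lt_of_lt_of_le hδ hδT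
    have hlt : ∀ t ∈ Ioo (-δ) T, ∃ T' > t, 0 < T' ∧ A T' := by
      intro t ht
      obtain ⟨T', hT', h1⟩ := exists_lt_of_lt_csSup hne (hTdef ▸ ht.2)
      exact ⟨max T' δ, lt_max_of_lt_left h1, lt_max_of_lt_right hδ, by
        rcases max_choice T' δ with h | h
        · rw [h]; exact hT'
        · rw [h]; exact hAδ⟩
    obtain ⟨ρ, h1, h2⟩ := glue_LeafA (Q := Q) (σ0 := σ0) hδ (Ioo (-δ) T) (fun t ht => ht.1)
      (fun t ht => ⟨ht.1, lt_of_lt_of_le ht.2 hδT⟩) hlt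
    rw [isOpen_Ioo.interior_eq] at h2
    obtain ⟨s, hs, hlim⟩ := proper_limit hP hT0 (fun t ht => h2 t ⟨by linarith [ht.1], ht.2⟩)
    refine ⟨ρ, δ, T, s, hδ, hT0, (fin ρ h1).1, (fin ρ h1).2, h2, hs, ?_, hlim⟩
    by_contra hq
    -- extension beyond `T`
    obtain ⟨ρ1, hρ1⟩ : ∃ ρ1, ρ1 = Function.update ρ T s := ⟨_, rfl⟩
    have hρ1T : ρ1 T = s := by rw [hρ1, Function.update_self]
    have hρ1ne : ∀ t, t ≠ T → ρ1 t = ρ t := fun t ht => by
      rw [hρ1, Function.update_of_ne ht]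
    have hh1 : ∀ t ∈ Ioo (-δ) T, Hor Q ρ1 t := by
      intro t ht
      refine (h2 t ht).congr ?_
      filter_upwards [Iio_mem_nhds ht.2] with u hu using hρ1ne u (ne_of_lt hu)
    have hcont : ContinuousOn ρ1 (Icc (T / 2) T) := by
      intro t ht
      rcases eq_or_lt_of_le ht.2 with h | h
      · rw [h, ContinuousWithinAt, hρ1T]
        have h3 : Tendsto ρ1 (𝓝[<] T) (𝓝 s) := by
          refine hlim.congr' ?_
          filter_upwards [self_mem_nhdsWithin] with u hu using (hρ1ne u (ne_of_lt hu)).symm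
        have h4 : Tendsto ρ1 (𝓝[≤] T) (𝓝 s) := by
          rw [← Iio_insert, nhdsWithin_insert, tendsto_sup]
          exact ⟨by rw [tendsto_pure_left]; intro u hu; rw [hρ1T]; exact mem_of_mem_nhds hu, h3⟩
        exact h4.mono_left (nhdsWithin_mono _ Icc_subset_Iic_self)
      · exact (hh1 t ⟨by linarith [ht.1], h⟩).continuousAt.continuousWithinAt
    have hhalf : T / 2 ∈ Ioo (-δ) T := ⟨by linarith, by linarith⟩
    obtain ⟨ε, τ, hε, hτ1, hτ2⟩ := extend (Q := Q) (σ := ρ1) (a := T / 2) (b := T)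
      (by linarith) hcont (fun t ht => hh1 t ⟨by linarith [ht.1], ht.2⟩)
      ⟨(hh1 _ hhalf).mem, (hh1 _ hhalf).q_ne⟩ (by rw [hρ1T]; exact ⟨hs, hq⟩)
    have hτρ : ∀ t ∈ Ico (T / 2) T, τ t = ρ t := fun t ht => by
      rw [hτ2 ⟨ht.1, ht.2.le⟩, hρ1ne t (ne_of_lt ht.2)]
    have hA' : A (T + ε) := by
      refine ⟨fun t => if t < 3 * T / 4 then ρ t else τ t, fun t ht => ?_, fun t ht => ?_⟩
      · by_cases h3 : t < 3 * T / 4
        · simp only [h3, if_true]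
          exact h1 ht
        · simp only [h3, if_false]
          rw [hτρ t ⟨by linarith [not_lt.1 h3], lt_of_lt_of_le ht.2 hδT⟩]
          exact h1 ht
      · rcases lt_or_ge t (3 * T / 4) with h3 | h3
        · refine (h2 t ⟨ht.1, by linarith⟩).congr ?_
          filter_upwards [Iio_mem_nhds h3] with u hu
          have hu' : u < 3 * T / 4 := hu
          simp only [hu', if_true]
        · refine (hτ1 t ⟨by linarith, ht.2⟩).congr ?_
          filter_upwards [Ioi_mem_nhds (show T / 2 < t by linarith)] with u hu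
          by_cases h4 : u < 3 * T / 4
          · simp only [h4, if_true]
            exact (hτρ u ⟨le_of_lt hu, by linarith⟩).symm
          · simp only [h4, if_false]
    have h5 : T + ε ≤ T := by
      conv_rhs => rw [hTdef]
      exact le_csSup hbdd hA'
    linarith

/-- Through a regular point there is a complete leaf, or a horizontal arc from this point ends at a
zero. -/
theorem two_rays (hP : Proper Q) {z : ℂ} (hz : z ∈ Q.U) (h0 : Q.q z ≠ 0) :
    (∃ σ : ℝ → ℂ, Leaf Q σ ∧ σ 0 = z) ∨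
    (∃ (σ : ℝ → ℂ) (δ T : ℝ) (s : ℂ), 0 < δ ∧ 0 < T ∧ σ 0 = z ∧
      (∀ t ∈ Ioo (-δ) T, Hor Q σ t) ∧ s ∈ Q.U ∧ Q.q s = 0 ∧ Tendsto σ (𝓝[<] T) (𝓝 s)) := by
  obtain ⟨v, hv⟩ : ∃ v : ℂ, v ^ 2 = (Q.q z)⁻¹ :=
    IsAlgClosed.exists_pow_nat_eq _ (by norm_num)
  have hv1 : Q.q z * v ^ 2 = 1 := by rw [hv, mul_inv_cancel₀ h0]
  have hv2 : Q.q z * (-v) ^ 2 = 1 := by rw [neg_sq, hv1]
  rcases ray hP hz hv1 with ⟨σ, δ, hδ, a1, a2, a3⟩ | ⟨σ, δ, T, s, h1, h2, h3, h4, h5, h6, h7, h8⟩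
  swap
  · exact Or.inr ⟨σ, δ, T, s, h1, h2, h3, h5, h6, h7, h8⟩
  rcases ray hP hz hv2 with ⟨τ, ε, hε, b1, b2, b3⟩ | ⟨σ, δ, T, s, h1, h2, h3, h4, h5, h6, h7, h8⟩
  swap
  · exact Or.inr ⟨σ, δ, T, s, h1, h2, h3, h5, h6, h7, h8⟩
  left
  obtain ⟨r, hr, hrδ, hrε⟩ : ∃ r > 0, r ≤ δ ∧ r ≤ ε :=
    ⟨min δ ε, lt_min hδ hε, min_le_left _ _, min_le_right _ _⟩
  have hvne : v ≠ 0 := by
    rintro rfl
    simp at hv1
  -- near `0` the two rays are one arc
  have hloc : ∀ u ∈ Ioo (-r) r, σ u = τ (-u) := by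
    rcases hor_two (Q := Q) (σ := σ) (τ := τ) (r := r) (s0 := 0) (t0 := 0) hr
      (fun u hu => a3 _ (by linarith [hu.1])) (fun u hu => b3 _ (by linarith [hu.1]))
      (by rw [a1, b1]) with h | h
    · exfalso
      have h1 : HasDerivAt σ (-v) 0 := by
        refine b2.congr_of_eventuallyEq ?_
        filter_upwards [Ioo_mem_nhds (neg_lt_zero.2 hr) hr] with u hu
        have := h u hu
        rwa [zero_add] at this
      have h2 := h1.unique a2
      have h3 : v = 0 := by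
        have : v + v = 0 := by
          nth_rewrite 1 [← h2]
          ring
        exact add_self_eq_zero.1 this
      exact hvne h3
    · intro u hu
      have := h u hu
      rwa [zero_add, zero_sub] at this
  refine ⟨fun t => if 0 ≤ t then σ t else τ (-t), fun t => ?_, by simp [a1]⟩
  rcases lt_trichotomy t 0 with ht | ht | ht
  · have h1 : Hor Q (fun u => τ (0 - u)) t := Hor.neg_time (b3 _ (by linarith))
    refine h1.congr ?_
    filter_upwards [Iio_mem_nhds ht] with u hu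
    have hu' : ¬ 0 ≤ u := not_le.2 hu
    simp only [hu', if_false, zero_sub]
  · subst ht
    refine (a3 0 (by linarith)).congr ?_
    filter_upwards [Ioo_mem_nhds (neg_lt_zero.2 hr) hr] with u hu
    by_cases h1 : 0 ≤ u
    · simp only [h1, if_true]
    · simp only [h1, if_false]
      exact (hloc u hu).symm
  · refine (a3 t (by linarith)).congr ?_
    filter_upwards [Ioi_mem_nhds ht] with u hu
    have hu' : 0 ≤ u := le_of_lt hu
    simp only [hu', if_true]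

/-- All but countably many points of a vertical arc are on complete horizontal leaves. -/
theorem exists_leaf_countable (hP : Proper Q) {c : ℝ → ℂ} {a b : ℝ}
    (hc : ∀ t ∈ Ioo a b, Ver Q c t) :
    {t | t ∈ Ioo a b ∧ ¬ ∃ σ : ℝ → ℂ, Leaf Q σ ∧ σ 0 = c t}.Countable := by
  obtain ⟨C, hC, hC2⟩ := end_points Q
  have key : ∀ t ∈ {t | t ∈ Ioo a b ∧ ¬ ∃ σ : ℝ → ℂ, Leaf Q σ ∧ σ 0 = c t},
      ∃ p ∈ C, ∃ s, HC Q (c t) p s := by
    rintro t ⟨ht, hno⟩
    have h1 : c t ∈ Q.U := (hc t ht).mem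
    have h2 : Q.q (c t) ≠ 0 := by
      have := (hc t ht).q_ne
      intro h
      apply this
      show - Q.q (c t) = 0
      rw [h, neg_zero]
    rcases two_rays hP h1 h2 with h | ⟨σ, δ, T, s, hδ, hT, g1, g2, g3, g4, g5⟩
    · exact absurd h hno
    obtain ⟨u, hu, hu2⟩ := hC2 σ T s hT (fun t ht => g2 t ⟨by linarith [ht.1], ht.2⟩) g3 g4 g5
    refine ⟨σ u, hu2, |u - 0|, ?_⟩
    rw [← g1]
    exact hc_of_hor g2 ⟨by linarith, hT⟩ ⟨by linarith [hu.1], hu.2⟩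
  choose! p hp s hs using key
  refine Set.MapsTo.countable_of_injOn (f := p) (fun t ht => hp t ht) ?_ hC
  intro t ht t' ht' he
  by_contra hne
  have h1 := hs t ht
  have h2 := hs t' ht'
  rw [← he] at h2
  obtain ⟨s'', h3⟩ := h1.trans h2.symm
  have h4 : HC Q.neg (c t) (c t') |t' - t| := hc_of_hor hc ht.1 ht'.1
  obtain ⟨-, -, h5⟩ := h3.eq_of_vc h4
  exact hne (sub_eq_zero.1 (abs_eq_zero.1 h5)).symm

theorem Leaf.injective {σ : ℝ → ℂ} (h : Leaf Q σ) : Function.Injective σ := by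
  intro s t hst
  exact hor_injOn (a := min s t) (b := max s t) (fun u _ => h u)
    ⟨min_le_left _ _, le_max_left _ _⟩ ⟨min_le_right _ _, le_max_right _ _⟩ hst

theorem Leaf.shift {σ : ℝ → ℂ} (h : Leaf Q σ) (s : ℝ) : Leaf Q (fun t => σ (t + s)) :=
  fun t => (h (t + s)).shift

theorem Leaf.hc {σ : ℝ → ℂ} (h : Leaf Q σ) (s t : ℝ) : HC Q (σ s) (σ t) |t - s| :=
  hc_of_hor (a := min s t - 1) (b := max s t + 1) (fun u _ => h u)
    ⟨by linarith [min_le_left s t], by linarith [le_max_left s t]⟩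
    ⟨by linarith [min_le_right s t], by linarith [le_max_right s t]⟩

theorem Leaf.mem_of_hc {σ : ℝ → ℂ} (h : Leaf Q σ) {z w : ℂ} (hz : z ∈ range σ) {s : ℝ}
    (hw : HC Q z w s) : w ∈ range σ := by
  obtain ⟨t0, rfl⟩ := hz
  obtain ⟨hs, τ, h1, h2, rfl⟩ := hw
  rcases hs.eq_or_lt with rfl | hs
  · exact ⟨t0, h2.symm⟩
  obtain ⟨δ, τ', hδ, k1, k2⟩ := extend hs (fun t ht => (h1 t ht).continuousAt.continuousWithinAt)
    (fun t ht => h1 t (Ioo_subset_Icc_self ht)) ⟨(h1 0 ⟨le_rfl, hs.le⟩).mem,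
      (h1 0 ⟨le_rfl, hs.le⟩).q_ne⟩ ⟨(h1 s ⟨hs.le, le_rfl⟩).mem, (h1 s ⟨hs.le, le_rfl⟩).q_ne⟩
  have hr : 0 < min δ s := lt_min hδ hs
  have h0 : τ' 0 = τ 0 := k2 ⟨le_rfl, hs.le⟩
  have hτs : τ s = τ' s := (k2 ⟨hs.le, le_rfl⟩).symm
  have key : ∀ ρ : ℝ → ℂ, (∀ t, Hor Q ρ t) → (∀ u ∈ Ioo (-(min δ s)) (min δ s), ρ u = τ' u) →
      ρ s = τ' s := by
    intro ρ hρ he
    refine hor_eqOn (a := 0 - δ) (b := s + δ) (t0 := 0) (fun t _ => hρ t) k1
      ⟨by linarith, by linarith⟩ ?_ ⟨by linarith, by linarith⟩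
    filter_upwards [Ioo_mem_nhds (neg_lt_zero.2 hr) hr] with u hu using he u hu
  rcases hor_two (Q := Q) (σ := σ) (τ := τ') (r := min δ s) (s0 := 0) (t0 := t0) hr
      (fun u _ => h _) (fun u hu => k1 _ ⟨by
        have := hu.1; have h3 := min_le_left δ s; linarith, by
        have := hu.2; have h3 := min_le_right δ s; linarith⟩) (by rw [h0, h2]) with h3 | h3
  · refine ⟨t0 + s, ?_⟩
    rw [hτs]
    refine key (fun u => σ (t0 + u)) (fun t => ?_) (fun u hu => by rw [h3 u hu, zero_add])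
    have := (h (t + t0)).shift
    simpa only [add_comm t0] using this
  · refine ⟨t0 - s, ?_⟩
    rw [hτs]
    refine key (fun u => σ (t0 - u)) (fun t => (h (t0 - t)).neg_time) (fun u hu => ?_)
    have h4 := h3 (-u) ⟨by linarith [hu.2], by linarith [hu.1]⟩
    rw [zero_sub, neg_neg, ← sub_eq_add_neg] at h4
    exact h4

end Pool.Agent.ANO2.Geo2
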