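import Pool.Agent.ANO2.Geo2.LeafA

/-!
# ANO phase 2, Geo2: a complete leaf is closed and meets a flow box in one line

* `leaf_box`: if `B.χ (x, y)` is in the range of `σ` too then the arc of `σ` between the two points
  is in the box and it is a piece of a horizontal line (`arc_in_box`), so
  `y = y0`.  Conversely the horizontal line through `B.χ (x0, y0)` is in the range of `σ`
  (`Leaf.mem_of_hc`, `hor_of_box`).
* `leaf_closed`: at a point `z` with `q z ≠ 0` take a flow box about `z`: the leaf meets it in at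
  most one line, so `z` is on this line (shrink the box in the vertical direction).
  If `q z = 0` let `W`, `M` be as in `short`, and `r > 0` so small that the closed ball of radius
  `r` about `z` is contained in `W ∩ U` and contains no other zero.  Let `σ (t n) → z`.  For large
  `n` the point `σ (t n)` is in the open ball and, as an arc in `W` has length at most `M`, there
  is `t' n ∈ [t n, t n + M + 1]` with `|σ (t' n) - z| = r`.  A subsequence of `σ (t' n)` converges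
  to a point `z'` with `|z' - z| = r`, `q z' ≠ 0`, so `z' = σ s` by the first case, and in a flow
  box about `z'` we see that `t' n - s` is bounded.  So `t n` is bounded, and `z` is in the range
  of `σ` by compactness, contradiction.
-/

set_option autoImplicit false

open Set Filter Topology

namespace Pool.Agent.ANO2.Geo2

variable {Q : QD}

private theorem line_hc (B : Box Q) {x0 x y : ℝ} (h0 : (⟨x0, y⟩ : ℂ) ∈ B.dom)
    (hw : (⟨x, y⟩ : ℂ) ∈ B.dom) : HC Q (B.χ ⟨x0, y⟩) (B.χ ⟨x, y⟩) |x - x0| := by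
  have e0 := h0
  have e1 := hw
  rw [Box.dom, Complex.mem_reProdIm] at e0 e1
  simp only [mem_Ioo] at e0 e1
  obtain ⟨e, he, hes⟩ : ∃ e : ℝ, (e = 1 ∨ e = -1) ∧ e * |x - x0| = x - x0 := by
    rcases le_total x0 x with h | h
    · exact ⟨1, Or.inl rfl, by rw [abs_of_nonneg (by linarith)]; ring⟩
    · exact ⟨-1, Or.inr rfl, by rw [abs_of_nonpos (by linarith)]; ring⟩
  have hlin : ∀ u : ℝ, (⟨x0, y⟩ : ℂ) + ((e * u : ℝ) : ℂ) = ⟨x0 + e * u, y⟩ := by
    intro u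
    apply Complex.ext <;> simp
  refine ⟨abs_nonneg _, fun u => B.χ (⟨x0, y⟩ + ((e * u : ℝ) : ℂ)), ?_, ?_, ?_⟩
  · intro t ht
    apply hor_of_box B he
    rw [hlin, Box.dom, Complex.mem_reProdIm]
    simp only [mem_Ioo]
    refine ⟨?_, e0.2⟩
    rcases le_total x0 x with h | h
    · rw [abs_of_nonneg (by linarith)] at ht hes
      rcases he with rfl | rfl
      · exact ⟨by linarith [ht.1, e0.1.1], by linarith [ht.2, e1.1.2]⟩
      · have : x = x0 := by linarith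
        have : t = 0 := le_antisymm (by linarith [ht.2]) ht.1
        subst this
        exact ⟨by linarith [e0.1.1], by linarith [e0.1.2]⟩
    · rw [abs_of_nonpos (by linarith)] at ht hes
      rcases he with rfl | rfl
      · have : x = x0 := by linarith
        have : t = 0 := le_antisymm (by linarith [ht.2]) ht.1
        subst this
        exact ⟨by linarith [e0.1.1], by linarith [e0.1.2]⟩
      · exact ⟨by linarith [ht.2, e1.1.1], by linarith [ht.1, e0.1.2]⟩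
  · show B.χ (⟨x0, y⟩ + ((e * 0 : ℝ) : ℂ)) = _
    rw [hlin, mul_zero, add_zero]
  · show B.χ (⟨x0, y⟩ + ((e * |x - x0| : ℝ) : ℂ)) = _
    rw [hlin, hes, add_sub_cancel]

theorem leaf_box {σ : ℝ → ℂ} (hL : Leaf Q σ) (B : Box Q) {x0 y0 : ℝ}
    (h0 : (⟨x0, y0⟩ : ℂ) ∈ B.dom) (h : B.χ ⟨x0, y0⟩ ∈ range σ) {x y : ℝ}
    (hw : (⟨x, y⟩ : ℂ) ∈ B.dom) : B.χ ⟨x, y⟩ ∈ range σ ↔ y = y0 := by
  constructor
  · rintro ⟨s, hs⟩
    obtain ⟨t, ht⟩ := h
    obtain ⟨hT, σ1, h1, h2, h3⟩ := hL.hc s t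
    have e0 : σ1 0 ∈ B.img := by
      rw [h2, hs]
      exact ⟨_, hw, rfl⟩
    have e1 : σ1 |t - s| ∈ B.img := by
      rw [h3, ht]
      exact ⟨_, h0, rfl⟩
    obtain ⟨x', y', e, he, H⟩ := arc_in_box B hT h1 e0 e1
    have HA := H 0 ⟨le_rfl, hT⟩
    have HB := H _ ⟨hT, le_rfl⟩
    have i1 := B.inj HA.1 hw (by rw [← HA.2, h2, hs])
    have i2 := B.inj HB.1 h0 (by rw [← HB.2, h3, ht])
    have j1 : y' = y := congrArg Complex.im i1
    have j2 : y' = y0 := congrArg Complex.im i2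
    rw [← j1, ← j2]
  · rintro rfl
    exact hL.mem_of_hc h (line_hc B h0 hw)

private theorem box_at {z : ℂ} (hz : z ∈ Q.U) (h0 : Q.q z ≠ 0) :
    ∃ ρ > 0, ∃ B : Box Q, B.a = -ρ ∧ B.b = ρ ∧ B.c = -ρ ∧ B.d = ρ ∧ B.χ 0 = z := by
  obtain ⟨v, hv⟩ : ∃ v : ℂ, v ^ 2 = (Q.q z)⁻¹ :=
    IsAlgClosed.exists_pow_nat_eq _ (by norm_num)
  obtain ⟨ρ, hρ, B, ha, hb, hc, hd, hχ, -, -⟩ :=
    box_exists Q hz (v := v) (by rw [hv, mul_inv_cancel₀ h0]) (W := univ) univ_mem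
  exact ⟨ρ, hρ, B, ha, hb, hc, hd, hχ⟩

private theorem closed_reg {σ : ℝ → ℂ} (hL : Leaf Q σ) {z : ℂ} (hz : z ∈ Q.U) (h0 : Q.q z ≠ 0)
    (h : z ∈ closure (range σ)) : z ∈ range σ := by
  obtain ⟨ρ, hρ, B, ha, hb, hc, hd, hχ⟩ := box_at hz h0
  have hdom : ∀ w : ℂ, w ∈ B.dom ↔ (-ρ < w.re ∧ w.re < ρ) ∧ (-ρ < w.im ∧ w.im < ρ) := by
    intro w
    rw [Box.dom, Complex.mem_reProdIm, ha, hb, hc, hd]
    simp only [mem_Ioo]
  have hz0 : (0 : ℂ) ∈ B.dom := by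
    rw [hdom]
    simp [hρ]
  have hzimg : z ∈ B.img := ⟨0, hz0, hχ⟩
  obtain ⟨p, hp1, hp2⟩ := mem_closure_iff_nhds.1 h B.img (B.isOpen_img.mem_nhds hzimg)
  obtain ⟨⟨x0, y0⟩, hw0, rfl⟩ := hp1
  have hline : ∀ {x y : ℝ}, (⟨x, y⟩ : ℂ) ∈ B.dom → (B.χ ⟨x, y⟩ ∈ range σ ↔ y = y0) :=
    fun {x y} hw => leaf_box hL B hw0 hp2 hw
  by_cases hy : y0 = 0
  · have h1 := (hline (x := 0) (y := 0) hz0).2 hy.symm
    have h2 : B.χ ⟨0, 0⟩ = z := hχ
    rwa [h2] at h1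
  · exfalso
    obtain ⟨η, hη⟩ : ∃ η : ℝ, η = |y0| := ⟨_, rfl⟩
    have hη0 : 0 < η := hη ▸ abs_pos.2 hy
    have hηρ : η < ρ := by
      rw [hη, abs_lt]
      exact ((hdom _).1 hw0).2
    have hsub : Ioo (-ρ) ρ ×ℂ Ioo (-η) η ⊆ B.dom := by
      intro w hw
      rw [Complex.mem_reProdIm] at hw
      rw [hdom]
      exact ⟨hw.1, by linarith [hw.2.1], by linarith [hw.2.2]⟩
    have hz1 : z ∈ (B.restrict (a := -ρ) (b := ρ) (c := -η) (d := η) (by linarith)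
        (by linarith) hsub).img := by
      refine ⟨0, ?_, hχ⟩
      show (0 : ℂ) ∈ Ioo (-ρ) ρ ×ℂ Ioo (-η) η
      rw [Complex.mem_reProdIm]
      simp [hρ, hη0]
    obtain ⟨p, hp1, hp3⟩ := mem_closure_iff_nhds.1 h _
      ((B.restrict (a := -ρ) (b := ρ) (c := -η) (d := η) (by linarith)
        (by linarith) hsub).isOpen_img.mem_nhds hz1)
    obtain ⟨⟨x, y⟩, hw1, rfl⟩ := hp1
    have hw2 : (⟨x, y⟩ : ℂ) ∈ Ioo (-ρ) ρ ×ℂ Ioo (-η) η := hw1
    have h3 : y = y0 := (hline (hsub hw2)).1 hp3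
    rw [Complex.mem_reProdIm] at hw2
    have h4 : |y| < η := abs_lt.2 hw2.2
    rw [h3, hη] at h4
    exact lt_irrefl _ h4

theorem leaf_closed {σ : ℝ → ℂ} (hL : Leaf Q σ) {z : ℂ} (hz : z ∈ Q.U)
    (h : z ∈ closure (range σ)) : z ∈ range σ := by
  by_cases h0 : Q.q z ≠ 0
  · exact closed_reg hL hz h0 h
  push Not at h0
  exfalso
  have hcont : Continuous σ := continuous_iff_continuousAt.2 fun t => (hL t).continuousAt
  have hne : ∀ t, σ t ≠ z := fun t ht => (hL t).q_ne (by rw [ht, h0])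
  obtain ⟨W, hW, M, hM⟩ := short Q hz
  obtain ⟨r0, hr0, hball⟩ : ∃ r0 > 0, ∀ w ∈ Metric.ball z r0,
      w ∈ W ∧ w ∈ Q.U ∧ (w ≠ z → Q.q w ≠ 0) := by
    have h1 : ∀ᶠ w in 𝓝 z, w ≠ z → Q.q w ≠ 0 := eventually_nhdsWithin_iff.1 (isolated Q hz)
    have h2 : ∀ᶠ w in 𝓝 z, w ∈ W := hW
    have h3 : ∀ᶠ w in 𝓝 z, w ∈ Q.U := Q.isOpen.mem_nhds hz
    exact Metric.eventually_nhds_iff_ball.1 (h2.and (h3.and h1))
  obtain ⟨r, hr, hrr⟩ : ∃ r > 0, r < r0 := ⟨r0 / 2, by linarith, by linarith⟩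
  have hcl : ∀ w, dist w z ≤ r → w ∈ W ∧ w ∈ Q.U ∧ (w ≠ z → Q.q w ≠ 0) := fun w hw =>
    hball w (Metric.mem_ball.2 (lt_of_le_of_lt hw hrr))
  obtain ⟨M', hM'0, hM'⟩ : ∃ M' ≥ 0, M < M' := ⟨|M| + 1, by positivity, by
    linarith [le_abs_self M]⟩
  have hexit : ∀ t, dist (σ t) z < r → ∃ t' ∈ Icc t (t + M'), dist (σ t') z = r := by
    intro t ht
    have h1 : ∃ u ∈ Icc t (t + M'), r ≤ dist (σ u) z := by
      by_contra hcon
      push Not at hcon
      have h2 := hM (fun u => σ (u + t)) M' hM'0 (fun u hu => by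
        refine ⟨Hor.shift (hL (u + t)), ?_⟩
        exact (hcl _ (hcon (u + t) ⟨by linarith [hu.1], by linarith [hu.2]⟩).le).1)
      linarith
    obtain ⟨u, hu, hur⟩ := h1
    have h3 : r ∈ (fun s => dist (σ s) z) '' Icc t u := by
      apply intermediate_value_Icc hu.1
      · exact (hcont.dist continuous_const).continuousOn
      · exact ⟨ht.le, hur⟩
    obtain ⟨t', ht', h4⟩ := h3
    exact ⟨t', ⟨ht'.1, ht'.2.trans hu.2⟩, h4⟩
  obtain ⟨x, hx, hxz⟩ := mem_closure_iff_seq_limit.1 h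
  choose t ht using hx
  have hev : ∀ᶠ n in atTop, dist (σ (t n)) z < r := by
    have h1 := Metric.tendsto_nhds.1 hxz r hr
    filter_upwards [h1] with n hn
    rwa [ht n]
  obtain ⟨N, hN⟩ := eventually_atTop.1 hev
  choose t' ht' ht'r using fun n : ℕ => hexit (t (n + N)) (hN (n + N) (by omega))
  have hmem : ∀ n, σ (t' n) ∈ Metric.sphere z r := fun n => Metric.mem_sphere.2 (ht'r n)
  obtain ⟨z', hz', φ, hφ, hlim⟩ := (isCompact_sphere z r).tendsto_subseq hmem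
  have hz'd : dist z' z = r := Metric.mem_sphere.1 hz'
  have hz'ne : z' ≠ z := by
    rintro rfl
    rw [dist_self] at hz'd
    exact hr.ne hz'd
  obtain ⟨-, hz'U, hz'q⟩ := hcl z' hz'd.le
  have hz'q := hz'q hz'ne
  have hz'cl : z' ∈ closure (range σ) :=
    mem_closure_of_tendsto hlim (Eventually.of_forall fun n => ⟨t' (φ n), rfl⟩)
  obtain ⟨s, hs⟩ := closed_reg hL hz'U hz'q hz'cl
  obtain ⟨ρ, hρ, B, ha, hb, hc, hd, hχ⟩ := box_at hz'U hz'q
  have hz'img : z' ∈ B.img := by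
    refine ⟨0, ?_, hχ⟩
    rw [Box.dom, Complex.mem_reProdIm, ha, hb, hc, hd]
    simp [hρ]
  have hev2 : ∀ᶠ n in atTop, σ (t' (φ n)) ∈ B.img :=
    hlim.eventually_mem (B.isOpen_img.mem_nhds hz'img)
  have hbd : ∀ u, σ u ∈ B.img → |u - s| ≤ 2 * ρ := by
    intro u hu
    obtain ⟨hT, σ1, h1, h2, h3⟩ := hL.hc s u
    obtain ⟨x', y', e, he, H⟩ := arc_in_box B hT h1 (by rw [h2, hs]; exact hz'img)
      (by rw [h3]; exact hu)
    have HA := (H 0 ⟨le_rfl, hT⟩).1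
    have HB := (H _ ⟨hT, le_rfl⟩).1
    rw [Box.dom, Complex.mem_reProdIm, ha, hb, hc, hd] at HA HB
    simp only [mem_Ioo] at HA HB
    rcases he with rfl | rfl
    · linarith [HA.1.1, HB.1.2]
    · linarith [HA.1.2, HB.1.1]
  have hK : IsCompact (σ '' Icc (s - 2 * ρ - M') (s + 2 * ρ + M')) :=
    isCompact_Icc.image hcont
  have hxlim : Tendsto (fun n => x (φ n + N)) atTop (𝓝 z) :=
    hxz.comp ((tendsto_add_atTop_nat N).comp hφ.tendsto_atTop)
  have hzK : z ∈ σ '' Icc (s - 2 * ρ - M') (s + 2 * ρ + M') := by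
    refine hK.isClosed.mem_of_tendsto hxlim ?_
    filter_upwards [hev2] with n hn
    have h1 := abs_le.1 (hbd _ hn)
    have h2 := ht' (φ n)
    exact ⟨t (φ n + N), ⟨by linarith [h1.1, h2.2], by linarith [h1.2, h2.1]⟩, ht (φ n + N)⟩
  obtain ⟨u, -, hu⟩ := hzK
  exact hne u hu

end Pool.Agent.ANO2.Geo2
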