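import Pool.Agent.ANO2.Geo2.BoxB

/-!
# ANO phase 2, Geo2: the immersed strip about a compact horizontal arc

Proof of `strip`: let `Z ⊆ [0, T]` be the set of `t` such that there are `δ > 0` and `χ` as required
for `[0, t]` (with `T` replaced by `t`).  `0 ∈ Z` by `box_exists` at `σ 0` with the velocity `v` of
`σ` at `0` (near `0` and for `t ≥ 0` one has `χ t = σ t`: `hor_two` / `box_arc` on `(0, η)` and
continuity and the velocity at `0`).  If `t ∈ Z`, take the flow box at `σ t` in the direction of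
`σ`; it agrees with `χ (· - ...)` near `t` (two holomorphic functions `χ1`, `χ2` on a common
rectangle which agree on a real interval agree, `AnalyticOnNhd.eqOn_of_preconnected_of_eventuallyEq`
resp. the identity theorem), glue.  Closed: the same with a flow box at the limit point `t`.
Alternatively: Lebesgue number: there is `ρ > 0` such that for every `t ∈ [0, T]` there is a flow
box `χ_t` on the square of size `ρ` about `0` with `χ_t u = σ (t + u)` for `|u| < ρ`,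
`t + u ∈ [0, T]`; define `χ` on the strip by `χ (x + i y) = χ_(t) (x - t + i y)` for the nearest
multiple `t` of `ρ / 4`, clamped to `[0, T]`; consecutive ones agree on the overlaps by the identity
theorem.
-/

set_option autoImplicit false

open Set Filter Topology

namespace Pool.Agent.ANO2.Geo2

variable {Q : QD}

private theorem conv_rect (a b c d : ℝ) : Convex ℝ (Ioo a b ×ℂ Ioo c d) := by
  intro z hz w hw s t hs ht hst
  rw [Complex.mem_reProdIm] at hz hw ⊢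
  refine ⟨?_, ?_⟩
  · have h1 := (convex_Ioo a b) hz.1 hw.1 hs ht hst
    simpa using h1
  · have h1 := (convex_Ioo c d) hz.2 hw.2 hs ht hst
    simpa using h1

/-- An arc which starts at the centre of a flow box and is horizontal afterwards. -/
private theorem arc_right (B : Box Q) {σ : ℝ → ℂ} {t0 t : ℝ} (htt : t0 < t)
    (hσ : ∀ s ∈ Ioo t0 t, Hor Q σ s) (hB : ∀ s ∈ Icc t0 t, σ s ∈ B.img)
    (hc : ContinuousOn σ (Icc t0 t)) (h0 : (0 : ℂ) ∈ B.dom) (h1 : B.χ 0 = σ t0) :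
    ∃ e : ℝ, (e = 1 ∨ e = -1) ∧ ∀ s ∈ Icc t0 t, ((e * (s - t0) : ℝ) : ℂ) ∈ B.dom ∧
      σ s = B.χ ((e * (s - t0) : ℝ) : ℂ) := by
  obtain ⟨x, y, e, he, hxy⟩ := box_arc B htt hσ (fun s hs => hB s (Ioo_subset_Icc_self hs))
  have hline : Continuous (fun s : ℝ => (⟨x + e * s, y⟩ : ℂ)) := by
    have h2 : (fun s : ℝ => (⟨x + e * s, y⟩ : ℂ))
        = fun s : ℝ => ((x + e * s : ℝ) : ℂ) + (y : ℂ) * Complex.I := by
      funext s
      apply Complex.ext <;> simp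
    rw [h2]
    fun_prop
  have hE : EqOn (fun s => B.D (σ s)) (fun s : ℝ => (⟨x + e * s, y⟩ : ℂ)) (Ioo t0 t) := by
    intro s hs
    have h2 := hxy s hs
    change B.D (σ s) = _
    rw [h2.2, B.D_χ h2.1]
  have hDc : ContinuousOn (fun s => B.D (σ s)) (Icc t0 t) :=
    B.D_holo.continuousOn.comp hc hB
  have hcl : Icc t0 t ⊆ closure (Ioo t0 t) := by
    rw [closure_Ioo (ne_of_lt htt)]
  have hE2 : EqOn (fun s => B.D (σ s)) (fun s : ℝ => (⟨x + e * s, y⟩ : ℂ)) (Icc t0 t) :=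
    hE.of_subset_closure hDc hline.continuousOn Ioo_subset_Icc_self hcl
  have h2 : B.D (σ t0) = ⟨x + e * t0, y⟩ := hE2 (left_mem_Icc.2 htt.le)
  rw [← h1, B.D_χ h0] at h2
  have hx : x + e * t0 = 0 := by
    have h3 := congrArg Complex.re h2
    simpa using h3.symm
  have hy : y = 0 := by
    have h3 := congrArg Complex.im h2
    simpa using h3.symm
  refine ⟨e, he, fun s hs => ?_⟩
  have h3 : B.D (σ s) = ((e * (s - t0) : ℝ) : ℂ) := by
    rw [show B.D (σ s) = ⟨x + e * s, y⟩ from hE2 hs]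
    apply Complex.ext
    · rw [Complex.ofReal_re]
      change x + e * s = _
      linarith
    · rw [Complex.ofReal_im]
      exact hy
  refine ⟨?_, ?_⟩
  · rw [← h3]
    exact B.D_mem (hB s hs)
  · rw [← h3, B.χ_D (hB s hs)]

/-- The same with the direction of the velocity. -/
private theorem arc_right_dir (B : Box Q) {σ : ℝ → ℂ} {t0 t : ℝ} (htt : t0 < t)
    (hσ : ∀ s ∈ Ioo t0 t, Hor Q σ s) (hB : ∀ s ∈ Icc t0 t, σ s ∈ B.img)
    (hc : ContinuousOn σ (Icc t0 t)) (h0 : (0 : ℂ) ∈ B.dom) (h1 : B.χ 0 = σ t0) {k : ℝ}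
    (_hk : k = 1 ∨ k = -1) (hv : HasDerivAt σ (k * deriv B.χ 0) t0) :
    ((k * (t - t0) : ℝ) : ℂ) ∈ B.dom ∧ σ t = B.χ ((k * (t - t0) : ℝ) : ℂ) := by
  obtain ⟨e, he, h⟩ := arc_right B htt hσ hB hc h0 h1
  have hχ : HasDerivAt B.χ (deriv B.χ 0) 0 :=
    (B.holo.differentiableAt (B.isOpen_dom.mem_nhds h0)).hasDerivAt
  have hl : HasDerivAt (fun s : ℝ => ((e * (s - t0) : ℝ) : ℂ)) (e : ℂ) t0 := by
    have h2 : HasDerivAt (fun s : ℝ => e * (s - t0)) e t0 := by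
      simpa using ((hasDerivAt_id t0).sub_const t0).const_mul e
    exact h2.ofReal_comp
  have hχ' : HasDerivAt B.χ (deriv B.χ 0) ((e * (t0 - t0) : ℝ) : ℂ) := by
    simpa using hχ
  have h3 : HasDerivAt (fun s : ℝ => B.χ ((e * (s - t0) : ℝ) : ℂ)) (deriv B.χ 0 * e) t0 :=
    hχ'.comp t0 hl
  have h4 : HasDerivWithinAt σ (deriv B.χ 0 * e) (Icc t0 t) t0 := by
    refine h3.hasDerivWithinAt.congr (fun s hs => (h s hs).2) ?_
    exact (h t0 (left_mem_Icc.2 htt.le)).2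
  have h5 : (k : ℂ) * deriv B.χ 0 = deriv B.χ 0 * e :=
    UniqueDiffWithinAt.eq_deriv (Icc t0 t)
      ((uniqueDiffOn_Icc htt) t0 (left_mem_Icc.2 htt.le)) hv.hasDerivWithinAt h4
  have hne : deriv B.χ 0 ≠ 0 := B.deriv_ne h0
  have h6 : (k : ℂ) = e := by
    rw [mul_comm] at h5
    exact mul_left_cancel₀ hne h5
  have h7 : k = e := by exact_mod_cast h6
  rw [h7]
  exact h t (right_mem_Icc.2 htt.le)

/-- Flow boxes along a compact horizontal arc. -/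
private theorem loc {σ : ℝ → ℂ} {T : ℝ} (hσ : ∀ t ∈ Icc 0 T, Hor Q σ t) {t0 : ℝ}
    (ht0 : t0 ∈ Icc 0 T) : ∃ ρ > 0, ∃ χ : ℂ → ℂ,
      DifferentiableOn ℂ χ (Ioo (-ρ) ρ ×ℂ Ioo (-ρ) ρ) ∧
      (∀ w ∈ Ioo (-ρ) ρ ×ℂ Ioo (-ρ) ρ, χ w ∈ Q.U ∧ Q.q (χ w) * deriv χ w ^ 2 = 1) ∧
      ∀ u ∈ Ioo (-ρ) ρ, t0 + u ∈ Icc 0 T → χ (u : ℂ) = σ (t0 + u) := by
  obtain ⟨hz, v, hv, hqv⟩ := hσ t0 ht0
  obtain ⟨ρ1, hρ1, B, ha, hb, hc, hd, h0, hd0, -⟩ := box_exists Q hz hqv Filter.univ_mem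
  have hdom : B.dom = Ioo (-ρ1) ρ1 ×ℂ Ioo (-ρ1) ρ1 := by
    unfold Box.dom
    rw [ha, hb, hc, hd]
  have hmem0 : (0 : ℂ) ∈ B.dom := by
    rw [hdom, Complex.mem_reProdIm]
    simp [hρ1]
  have himg : B.img ∈ 𝓝 (σ t0) := B.isOpen_img.mem_nhds ⟨0, hmem0, h0⟩
  obtain ⟨ε, hε, hεB⟩ := Metric.eventually_nhds_iff.1 (hv.continuousAt.eventually_mem himg)
  have hmin : 0 < min ρ1 ε := lt_min hρ1 hε
  have hsub : (Ioo (-(min ρ1 ε)) (min ρ1 ε) ×ℂ Ioo (-(min ρ1 ε)) (min ρ1 ε)) ⊆ B.dom := by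
    intro w hw
    rw [hdom, Complex.mem_reProdIm]
    rw [Complex.mem_reProdIm] at hw
    have h5 := min_le_left ρ1 ε
    exact ⟨⟨by linarith [hw.1.1], by linarith [hw.1.2]⟩,
      ⟨by linarith [hw.2.1], by linarith [hw.2.2]⟩⟩
  refine ⟨min ρ1 ε, hmin, B.χ, B.holo.mono hsub, fun w hw => ⟨B.mem w (hsub hw),
    B.eq w (hsub hw)⟩, ?_⟩
  intro u hu htu
  have h5 := min_le_right ρ1 ε
  rcases lt_trichotomy u 0 with hu0 | hu0 | hu0
  · -- reversed time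
    let τ : ℝ → ℂ := fun s => σ (2 * t0 - s)
    have hτ : ∀ s ∈ Icc t0 (t0 - u), Hor Q τ s := by
      intro s hs
      apply Hor.neg_time
      apply hσ
      exact ⟨by linarith [hs.2, htu.1], by linarith [hs.1, ht0.2]⟩
    have hBτ : ∀ s ∈ Icc t0 (t0 - u), τ s ∈ B.img := by
      intro s hs
      apply hεB
      rw [Real.dist_eq, abs_lt]
      exact ⟨by linarith [hs.2, hu.1], by linarith [hs.1]⟩
    have hv2 : HasDerivAt τ (-v) t0 := by
      have h6 : HasDerivAt σ v (2 * t0 - t0) := by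
        have h7 : 2 * t0 - t0 = t0 := by ring
        rw [h7]
        exact hv
      exact HasDerivAt.comp_const_sub (2 * t0) t0 h6
    have h6 := arc_right_dir B (σ := τ) (t0 := t0) (t := t0 - u) (by linarith)
      (fun s hs => hτ s (Ioo_subset_Icc_self hs)) hBτ
      (fun s hs => (hτ s hs).continuousAt.continuousWithinAt) hmem0
      (by rw [h0]; change σ t0 = σ (2 * t0 - t0); congr 1; ring) (k := -1) (Or.inr rfl)
      (by rw [hd0]; simpa using hv2)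
    have h7 : ((-1 * (t0 - u - t0) : ℝ)) = u := by ring
    rw [h7] at h6
    rw [← h6.2]
    change σ (2 * t0 - (t0 - u)) = _
    congr 1
    ring
  · rw [hu0]
    simp [h0]
  · have h6 := arc_right_dir B (σ := σ) (t0 := t0) (t := t0 + u) (by linarith)
      (fun s hs => hσ s ⟨by linarith [hs.1, ht0.1], by linarith [hs.2, htu.2]⟩)
      (fun s hs => hεB (by
        rw [Real.dist_eq, abs_lt]
        exact ⟨by linarith [hs.1], by linarith [hs.2, hu.2]⟩))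
      (fun s hs => (hσ s ⟨by linarith [hs.1, ht0.1],
        by linarith [hs.2, htu.2]⟩).continuousAt.continuousWithinAt) hmem0 h0 (k := 1)
      (Or.inl rfl) (by rw [hd0]; simpa using hv)
    have h7 : ((1 * (t0 + u - t0) : ℝ)) = u := by ring
    rw [h7] at h6
    exact h6.2.symm

/-- The same with a uniform size. -/
private theorem unif {σ : ℝ → ℂ} {T : ℝ} (hσ : ∀ t ∈ Icc 0 T, Hor Q σ t) :
    ∃ ρ > 0, ∀ t0 ∈ Icc 0 T, ∃ χ : ℂ → ℂ,
      DifferentiableOn ℂ χ (Ioo (t0 - ρ) (t0 + ρ) ×ℂ Ioo (-ρ) ρ) ∧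
      (∀ w ∈ Ioo (t0 - ρ) (t0 + ρ) ×ℂ Ioo (-ρ) ρ, χ w ∈ Q.U ∧ Q.q (χ w) * deriv χ w ^ 2 = 1) ∧
      ∀ u ∈ Ioo (t0 - ρ) (t0 + ρ), u ∈ Icc 0 T → χ (u : ℂ) = σ u := by
  have hex : ∀ i : Icc (0 : ℝ) T, ∃ ρ > 0, ∃ χ : ℂ → ℂ,
      DifferentiableOn ℂ χ (Ioo (-ρ) ρ ×ℂ Ioo (-ρ) ρ) ∧
      (∀ w ∈ Ioo (-ρ) ρ ×ℂ Ioo (-ρ) ρ, χ w ∈ Q.U ∧ Q.q (χ w) * deriv χ w ^ 2 = 1) ∧
      ∀ u ∈ Ioo (-ρ) ρ, (i : ℝ) + u ∈ Icc 0 T → χ (u : ℂ) = σ (i + u) :=
    fun i => loc hσ i.2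
  choose r hr χ h1 h2 h3 using hex
  obtain ⟨δ, hδ, hcov⟩ := lebesgue_number_lemma_of_metric (s := Icc (0 : ℝ) T)
    (c := fun i : Icc (0 : ℝ) T => Metric.ball (i : ℝ) (r i)) isCompact_Icc
    (fun i => Metric.isOpen_ball)
    (fun t ht => mem_iUnion.2 ⟨⟨t, ht⟩, Metric.mem_ball_self (hr _)⟩)
  refine ⟨δ, hδ, fun t0 ht0 => ?_⟩
  obtain ⟨i, hi⟩ := hcov t0 ht0
  have hkey : ∀ u : ℝ, |u| < δ → |t0 + u - i| < r i := by
    intro u hu
    have h4 : t0 + u ∈ Metric.ball t0 δ := by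
      rw [Metric.mem_ball, Real.dist_eq]
      simpa using hu
    have h5 := hi h4
    rw [Metric.mem_ball, Real.dist_eq] at h5
    exact h5
  have hmaps : ∀ w ∈ Ioo (t0 - δ) (t0 + δ) ×ℂ Ioo (-δ) δ,
      w - ((i : ℝ) : ℂ) ∈ Ioo (-(r i)) (r i) ×ℂ Ioo (-(r i)) (r i) := by
    intro w hw
    rw [Complex.mem_reProdIm] at hw ⊢
    have h4 : |w.re - t0| < δ := abs_lt.2 ⟨by linarith [hw.1.1], by linarith [hw.1.2]⟩
    have h5 := hkey _ h4
    have h6 : t0 + (w.re - t0) - (i : ℝ) = w.re - i := by ring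
    rw [h6] at h5
    have h7 : |w.im| < δ := abs_lt.2 ⟨by linarith [hw.2.1], by linarith [hw.2.2]⟩
    have h8 := abs_lt.1 (hkey _ h7)
    have h9 := abs_lt.1 (hkey (-w.im) (by rwa [abs_neg]))
    have h5' := abs_lt.1 h5
    refine ⟨⟨?_, ?_⟩, ⟨?_, ?_⟩⟩
    · simpa using h5'.1
    · simpa using h5'.2
    · simp only [Complex.sub_im, Complex.ofReal_im, sub_zero]
      linarith [h8.1, h9.2]
    · simp only [Complex.sub_im, Complex.ofReal_im, sub_zero]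
      linarith [h8.2, h9.1]
  have hopen : IsOpen (Ioo (t0 - δ) (t0 + δ) ×ℂ Ioo (-δ) δ) := isOpen_Ioo.reProdIm isOpen_Ioo
  have hopen' : IsOpen (Ioo (-(r i)) (r i) ×ℂ Ioo (-(r i)) (r i)) :=
    isOpen_Ioo.reProdIm isOpen_Ioo
  have hder : ∀ w ∈ Ioo (t0 - δ) (t0 + δ) ×ℂ Ioo (-δ) δ,
      HasDerivAt (fun w : ℂ => χ i (w - ((i : ℝ) : ℂ)))
        (deriv (χ i) (w - ((i : ℝ) : ℂ))) w := by
    intro w hw
    have h4 : HasDerivAt (χ i) (deriv (χ i) (w - ((i : ℝ) : ℂ))) (w - ((i : ℝ) : ℂ)) :=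
      ((h1 i).differentiableAt (hopen'.mem_nhds (hmaps w hw))).hasDerivAt
    exact h4.comp_sub_const w _
  refine ⟨fun w => χ i (w - ((i : ℝ) : ℂ)), ?_, ?_, ?_⟩
  · intro w hw
    exact (hder w hw).differentiableAt.differentiableWithinAt
  · intro w hw
    rw [(hder w hw).deriv]
    exact h2 i _ (hmaps w hw)
  · intro u hu huT
    have h4 : |u - t0| < δ := abs_lt.2 ⟨by linarith [hu.1], by linarith [hu.2]⟩
    have h5 := hkey _ h4
    have h6 : t0 + (u - t0) - (i : ℝ) = u - i := by ring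
    rw [h6] at h5
    have h7 := h3 i (u - i) (abs_lt.1 h5) (by
      have h8 : (i : ℝ) + (u - i) = u := by ring
      rw [h8]
      exact huT)
    have h8 : (i : ℝ) + (u - i) = u := by ring
    rw [h8] at h7
    change χ i ((u : ℂ) - ((i : ℝ) : ℂ)) = σ u
    rw [← h7]
    push_cast
    rfl

/-- The statement of `strip` for the time `t`. -/
private def SP (Q : QD) (σ : ℝ → ℂ) (t : ℝ) : Prop :=
  ∃ δ > 0, ∃ χ : ℂ → ℂ, DifferentiableOn ℂ χ (Ioo (-δ) (t + δ) ×ℂ Ioo (-δ) δ) ∧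
    (∀ w ∈ Ioo (-δ) (t + δ) ×ℂ Ioo (-δ) δ, χ w ∈ Q.U ∧ Q.q (χ w) * deriv χ w ^ 2 = 1) ∧
    ∀ s ∈ Icc 0 t, χ (s : ℂ) = σ s

private theorem sp_step {σ : ℝ → ℂ} {T ρ : ℝ} (hρ : 0 < ρ) {t : ℝ} (ht : 0 < t)
    (hT : t + ρ / 2 ≤ T) {χ2 : ℂ → ℂ}
    (h21 : DifferentiableOn ℂ χ2 (Ioo (t - ρ) (t + ρ) ×ℂ Ioo (-ρ) ρ))
    (h22 : ∀ w ∈ Ioo (t - ρ) (t + ρ) ×ℂ Ioo (-ρ) ρ,
      χ2 w ∈ Q.U ∧ Q.q (χ2 w) * deriv χ2 w ^ 2 = 1)
    (h23 : ∀ u ∈ Ioo (t - ρ) (t + ρ), u ∈ Icc 0 T → χ2 (u : ℂ) = σ u)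
    (h : SP Q σ t) : SP Q σ (t + ρ / 2) := by
  obtain ⟨δ, hδ, χ1, h11, h12, h13⟩ := h
  -- a common size
  obtain ⟨η, hη, hηδ, hηρ, hηt⟩ : ∃ η > 0, η ≤ δ ∧ η ≤ ρ / 4 ∧ η ≤ t :=
    ⟨min (min δ (ρ / 4)) t, lt_min (lt_min hδ (by linarith)) ht,
      (min_le_left _ _).trans (min_le_left _ _),
      (min_le_left _ _).trans (min_le_right _ _), min_le_right _ _⟩
  -- agreement on the overlap
  have hR1 : (Ioo (t - η) (t + η) ×ℂ Ioo (-η) η) ⊆ Ioo (-δ) (t + δ) ×ℂ Ioo (-δ) δ := by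
    intro w hw
    rw [Complex.mem_reProdIm] at hw ⊢
    exact ⟨⟨by linarith [hw.1.1], by linarith [hw.1.2]⟩,
      ⟨by linarith [hw.2.1], by linarith [hw.2.2]⟩⟩
  have hR2 : (Ioo (t - η) (t + η) ×ℂ Ioo (-η) η) ⊆ Ioo (t - ρ) (t + ρ) ×ℂ Ioo (-ρ) ρ := by
    intro w hw
    rw [Complex.mem_reProdIm] at hw ⊢
    exact ⟨⟨by linarith [hw.1.1], by linarith [hw.1.2]⟩,
      ⟨by linarith [hw.2.1], by linarith [hw.2.2]⟩⟩
  have hopR : IsOpen (Ioo (t - η) (t + η) ×ℂ Ioo (-η) η) := isOpen_Ioo.reProdIm isOpen_Ioo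
  have hop1 : IsOpen (Ioo (-δ) (t + δ) ×ℂ Ioo (-δ) δ) := isOpen_Ioo.reProdIm isOpen_Ioo
  have hop2 : IsOpen (Ioo (t - ρ) (t + ρ) ×ℂ Ioo (-ρ) ρ) := isOpen_Ioo.reProdIm isOpen_Ioo
  have hagree : EqOn χ1 χ2 (Ioo (t - η) (t + η) ×ℂ Ioo (-η) η) := by
    have hA1 : AnalyticOnNhd ℂ χ1 (Ioo (t - η) (t + η) ×ℂ Ioo (-η) η) :=
      (h11.mono hR1).analyticOnNhd hopR
    have hA2 : AnalyticOnNhd ℂ χ2 (Ioo (t - η) (t + η) ×ℂ Ioo (-η) η) :=
      (h21.mono hR2).analyticOnNhd hopR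
    have hp : (((t - η / 2 : ℝ)) : ℂ) ∈ Ioo (t - η) (t + η) ×ℂ Ioo (-η) η := by
      rw [Complex.mem_reProdIm]
      refine ⟨⟨?_, ?_⟩, ⟨?_, ?_⟩⟩
      · rw [Complex.ofReal_re]; linarith
      · rw [Complex.ofReal_re]; linarith
      · rw [Complex.ofReal_im]; linarith
      · rw [Complex.ofReal_im]; linarith
    refine hA1.eqOn_of_preconnected_of_frequently_eq hA2
      (conv_rect _ _ _ _).isPreconnected hp ?_
    have htend : Tendsto (fun x : ℝ => (x : ℂ)) (𝓝[≠] (t - η / 2))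
        (𝓝[≠] (((t - η / 2 : ℝ)) : ℂ)) := by
      apply tendsto_nhdsWithin_of_tendsto_nhds_of_eventually_within
      · exact (Complex.continuous_ofReal.tendsto _).mono_left nhdsWithin_le_nhds
      · filter_upwards [self_mem_nhdsWithin] with x hx
        intro h5
        exact hx (Complex.ofReal_injective h5)
    apply htend.frequently
    apply Filter.Eventually.frequently
    have h5 : Ioo (t - η) t ∈ 𝓝 (t - η / 2) := Ioo_mem_nhds (by linarith) (by linarith)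
    filter_upwards [nhdsWithin_le_nhds h5] with x hx
    rw [h13 x ⟨by linarith [hx.1], hx.2.le⟩,
      h23 x ⟨by linarith [hx.1], by linarith [hx.2]⟩
        ⟨by linarith [hx.1], by linarith [hx.2]⟩]
  -- the glued map
  let χ : ℂ → ℂ := fun w => if w.re < t then χ1 w else χ2 w
  have hχ1 : ∀ w ∈ Ioo (-η) (t + η) ×ℂ Ioo (-η) η, χ w = χ1 w := by
    intro w hw
    by_cases hwt : w.re < t
    · exact if_pos hwt
    · have h5 : χ w = χ2 w := if_neg hwt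
      rw [h5]
      rw [Complex.mem_reProdIm] at hw
      refine (hagree ?_).symm
      rw [Complex.mem_reProdIm]
      exact ⟨⟨by linarith [not_lt.1 hwt], hw.1.2⟩, hw.2⟩
  have hopA : IsOpen (Ioo (-η) (t + η) ×ℂ Ioo (-η) η) := isOpen_Ioo.reProdIm isOpen_Ioo
  have hopB : IsOpen {w : ℂ | t < w.re} := isOpen_lt continuous_const Complex.continuous_re
  -- local description
  have hloc : ∀ w ∈ Ioo (-η) (t + ρ / 2 + η) ×ℂ Ioo (-η) η,
      (χ =ᶠ[𝓝 w] χ1 ∧ w ∈ Ioo (-δ) (t + δ) ×ℂ Ioo (-δ) δ) ∨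
      (χ =ᶠ[𝓝 w] χ2 ∧ w ∈ Ioo (t - ρ) (t + ρ) ×ℂ Ioo (-ρ) ρ) := by
    intro w hw
    rw [Complex.mem_reProdIm] at hw
    by_cases hwt : w.re < t + η
    · left
      have hwA : w ∈ Ioo (-η) (t + η) ×ℂ Ioo (-η) η := by
        rw [Complex.mem_reProdIm]
        exact ⟨⟨hw.1.1, hwt⟩, hw.2⟩
      refine ⟨?_, ?_⟩
      · filter_upwards [hopA.mem_nhds hwA] with z hz
        exact hχ1 z hz
      · rw [Complex.mem_reProdIm]
        exact ⟨⟨by linarith [hw.1.1], by linarith⟩,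
          ⟨by linarith [hw.2.1], by linarith [hw.2.2]⟩⟩
    · right
      have hwB : w ∈ {w : ℂ | t < w.re} := by
        change t < w.re
        linarith [not_lt.1 hwt]
      refine ⟨?_, ?_⟩
      · filter_upwards [hopB.mem_nhds hwB] with z hz
        have hz' : t < z.re := hz
        exact if_neg (not_lt.2 hz'.le)
      · rw [Complex.mem_reProdIm]
        exact ⟨⟨by linarith [not_lt.1 hwt], by linarith [hw.1.2]⟩,
          ⟨by linarith [hw.2.1], by linarith [hw.2.2]⟩⟩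
  refine ⟨η, hη, χ, ?_, ?_, ?_⟩
  · intro w hw
    rcases hloc w hw with ⟨h5, h6⟩ | ⟨h5, h6⟩
    · exact ((h11.differentiableAt (hop1.mem_nhds h6)).congr_of_eventuallyEq
        h5).differentiableWithinAt
    · exact ((h21.differentiableAt (hop2.mem_nhds h6)).congr_of_eventuallyEq
        h5).differentiableWithinAt
  · intro w hw
    rcases hloc w hw with ⟨h5, h6⟩ | ⟨h5, h6⟩
    · rw [h5.deriv_eq, h5.eq_of_nhds]
      exact h12 w h6
    · rw [h5.deriv_eq, h5.eq_of_nhds]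
      exact h22 w h6
  · intro s hs
    by_cases hst : s < t
    · have h5 : χ (s : ℂ) = χ1 (s : ℂ) := if_pos (by rw [Complex.ofReal_re]; exact hst)
      rw [h5]
      exact h13 s ⟨hs.1, hst.le⟩
    · have h5 : χ (s : ℂ) = χ2 (s : ℂ) := if_neg (by rw [Complex.ofReal_re]; exact hst)
      rw [h5]
      exact h23 s ⟨by linarith [not_lt.1 hst], by linarith [hs.2]⟩
        ⟨hs.1, hs.2.trans hT⟩

theorem strip {σ : ℝ → ℂ} {T : ℝ} (hT : 0 ≤ T) (hσ : ∀ t ∈ Icc 0 T, Hor Q σ t) :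
    ∃ δ > 0, ∃ χ : ℂ → ℂ, DifferentiableOn ℂ χ (Ioo (-δ) (T + δ) ×ℂ Ioo (-δ) δ) ∧
      (∀ w ∈ Ioo (-δ) (T + δ) ×ℂ Ioo (-δ) δ, χ w ∈ Q.U ∧ Q.q (χ w) * deriv χ w ^ 2 = 1) ∧
      ∀ t ∈ Icc 0 T, χ (t : ℂ) = σ t := by
  obtain ⟨ρ, hρ, hu⟩ := unif hσ
  have hbase : ∀ t ∈ Icc 0 T, t ≤ ρ / 2 → SP Q σ t := by
    intro t ht htρ
    obtain ⟨χ, h1, h2, h3⟩ := hu 0 (left_mem_Icc.2 hT)
    have hsub : (Ioo (-(ρ / 2)) (t + ρ / 2) ×ℂ Ioo (-(ρ / 2)) (ρ / 2))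
        ⊆ Ioo (0 - ρ) (0 + ρ) ×ℂ Ioo (-ρ) ρ := by
      intro w hw
      rw [Complex.mem_reProdIm] at hw ⊢
      exact ⟨⟨by linarith [hw.1.1], by linarith [hw.1.2]⟩,
        ⟨by linarith [hw.2.1], by linarith [hw.2.2]⟩⟩
    refine ⟨ρ / 2, by linarith, χ, h1.mono hsub, fun w hw => h2 w (hsub hw), ?_⟩
    intro s hs
    exact h3 s ⟨by linarith [hs.1], by linarith [hs.2]⟩ ⟨hs.1, hs.2.trans ht.2⟩
  have hall : ∀ k : ℕ, ∀ t ∈ Icc 0 T, t ≤ (k + 1) * (ρ / 2) → SP Q σ t := by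
    intro k
    induction k with
    | zero =>
      intro t ht h
      apply hbase t ht
      simpa using h
    | succ k ih =>
      intro t ht h
      by_cases htρ : t ≤ ρ / 2
      · exact hbase t ht htρ
      · have htρ' := not_le.1 htρ
        have h1 : t - ρ / 2 ∈ Icc 0 T := ⟨by linarith, by linarith [ht.2]⟩
        have h2 : t - ρ / 2 ≤ (k + 1) * (ρ / 2) := by
          push_cast at h
          linarith
        obtain ⟨χ2, h21, h22, h23⟩ := hu _ h1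
        have h3 := sp_step hρ (t := t - ρ / 2) (T := T) (by linarith) (by linarith [ht.2])
          h21 h22 h23 (ih _ h1 h2)
        have h4 : t - ρ / 2 + ρ / 2 = t := by ring
        rw [h4] at h3
        exact h3
  obtain ⟨k, hk⟩ := exists_nat_gt (T / (ρ / 2))
  have hk2 : T ≤ (k + 1) * (ρ / 2) := by
    rw [div_lt_iff₀ (by linarith)] at hk
    nlinarith
  exact hall k T (right_mem_Icc.2 hT) hk2

/-- Prolongation beyond the left end point. -/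
private theorem ext_left {σ : ℝ → ℂ} {a b : ℝ} (hab : a < b) (hc : ContinuousOn σ (Icc a b))
    (hσ : ∀ t ∈ Ioo a b, Hor Q σ t) (ha : σ a ∈ Q.U ∧ Q.q (σ a) ≠ 0) :
    ∃ (δ : ℝ) (τ : ℝ → ℂ), 0 < δ ∧ δ < b - a ∧ (∀ t ∈ Ioo (a - δ) (a + δ), Hor Q τ t) ∧
      EqOn τ σ (Ico a (a + δ)) := by
  obtain ⟨v, hv⟩ : ∃ v : ℂ, Q.q (σ a) * v ^ 2 = 1 := by
    obtain ⟨v, hv⟩ := IsAlgClosed.exists_pow_nat_eq ((Q.q (σ a))⁻¹) (n := 2) (by norm_num)
    exact ⟨v, by rw [hv, mul_inv_cancel₀ ha.2]⟩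
  obtain ⟨ρ1, hρ1, B, hBa, hBb, hBc, hBd, h0, hd0, -⟩ := box_exists Q ha.1 hv Filter.univ_mem
  have hdom : B.dom = Ioo (-ρ1) ρ1 ×ℂ Ioo (-ρ1) ρ1 := by
    unfold Box.dom
    rw [hBa, hBb, hBc, hBd]
  have hmem0 : (0 : ℂ) ∈ B.dom := by
    rw [hdom, Complex.mem_reProdIm]
    simp [hρ1]
  have himg : B.img ∈ 𝓝 (σ a) := B.isOpen_img.mem_nhds ⟨0, hmem0, h0⟩
  have hca : ContinuousWithinAt σ (Icc a b) a := hc a (left_mem_Icc.2 hab.le)
  have hev : ∀ᶠ t in 𝓝[Icc a b] a, σ t ∈ B.img := hca.eventually_mem himg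
  obtain ⟨ε, hε, hεB⟩ := Metric.mem_nhdsWithin_iff.1 hev
  obtain ⟨δ, hδ, hδρ, hδε, hδb⟩ : ∃ δ > 0, δ ≤ ρ1 ∧ δ ≤ ε / 2 ∧ δ < b - a := by
    refine ⟨min (min ρ1 (ε / 2)) ((b - a) / 2), lt_min (lt_min hρ1 (by linarith))
      (by linarith), (min_le_left _ _).trans (min_le_left _ _),
      (min_le_left _ _).trans (min_le_right _ _), ?_⟩
    have h5 := min_le_right (min ρ1 (ε / 2)) ((b - a) / 2)
    linarith
  have hsub : Icc a (a + δ) ⊆ Icc a b := Icc_subset_Icc_right (by linarith)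
  obtain ⟨e, he, h⟩ := arc_right B (σ := σ) (t0 := a) (t := a + δ) (by linarith)
    (fun s hs => hσ s ⟨hs.1, by linarith [hs.2]⟩)
    (fun s hs => hεB ⟨by
      rw [Metric.mem_ball, Real.dist_eq, abs_lt]
      exact ⟨by linarith [hs.1], by linarith [hs.2]⟩, hsub hs⟩)
    (hc.mono hsub) hmem0 h0
  refine ⟨δ, fun t => B.χ ((e * (t - a) : ℝ) : ℂ), hδ, hδb, ?_, ?_⟩
  · intro t ht
    have h5 : ∀ u : ℝ, (((-(e * a) : ℝ)) : ℂ) + ((e * u : ℝ) : ℂ) = ((e * (u - a) : ℝ) : ℂ) := by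
      intro u
      push_cast
      ring
    have h6 : (((-(e * a) : ℝ)) : ℂ) + ((e * t : ℝ) : ℂ) ∈ B.dom := by
      rw [h5, hdom, Complex.mem_reProdIm]
      rw [Complex.ofReal_re, Complex.ofReal_im]
      refine ⟨?_, by linarith, by linarith⟩
      rcases he with rfl | rfl
      · exact ⟨by linarith [ht.1], by linarith [ht.2]⟩
      · exact ⟨by linarith [ht.2], by linarith [ht.1]⟩
    have h7 := hor_of_box B he h6
    refine h7.congr (Eventually.of_forall fun u => ?_)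
    change B.χ ((e * (u - a) : ℝ) : ℂ) = B.χ ((((-(e * a) : ℝ)) : ℂ) + ((e * u : ℝ) : ℂ))
    rw [h5]
  · intro t ht
    exact (h t ⟨ht.1, ht.2.le⟩).2.symm

/-- An arc which is horizontal on the open interval, with regular end points, can be extended to an
arc which is horizontal on a larger open interval. -/
theorem extend {σ : ℝ → ℂ} {a b : ℝ} (hab : a < b) (hc : ContinuousOn σ (Icc a b))
    (hσ : ∀ t ∈ Ioo a b, Hor Q σ t) (ha : σ a ∈ Q.U ∧ Q.q (σ a) ≠ 0)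
    (hb : σ b ∈ Q.U ∧ Q.q (σ b) ≠ 0) :
    ∃ (δ : ℝ) (τ : ℝ → ℂ), 0 < δ ∧ (∀ t ∈ Ioo (a - δ) (b + δ), Hor Q τ t) ∧
      EqOn τ σ (Icc a b) := by
  obtain ⟨δ1, τ1, hδ1, hδ1b, h11, h12⟩ := ext_left hab hc hσ ha
  -- the reversed arc
  have hcr : ContinuousOn (fun u => σ (0 - u)) (Icc (-b) (-a)) := by
    refine hc.comp (by fun_prop) ?_
    intro u hu
    exact ⟨by linarith [hu.2], by linarith [hu.1]⟩
  obtain ⟨δ2, τ2, hδ2, hδ2b, h21, h22⟩ := ext_left (Q := Q) (σ := fun u => σ (0 - u))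
    (a := -b) (b := -a) (by linarith) hcr
    (fun t ht => Hor.neg_time (hσ _ ⟨by linarith [ht.2], by linarith [ht.1]⟩))
    (by
      have h5 : (0 : ℝ) - -b = b := by ring
      change σ (0 - -b) ∈ Q.U ∧ Q.q (σ (0 - -b)) ≠ 0
      rw [h5]
      exact hb)
  have h23 : ∀ t ∈ Ioo (b - δ2) (b + δ2), Hor Q (fun u => τ2 (0 - u)) t := by
    intro t ht
    apply Hor.neg_time
    apply h21
    exact ⟨by linarith [ht.2], by linarith [ht.1]⟩
  have h24 : ∀ t ∈ Ioc (b - δ2) b, τ2 (0 - t) = σ t := by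
    intro t ht
    have h5 := h22 (x := 0 - t) ⟨by linarith [ht.2], by linarith [ht.1]⟩
    have h6 : (0 : ℝ) - (0 - t) = t := by ring
    have h7 : τ2 (0 - t) = σ (0 - (0 - t)) := h5
    rw [h6] at h7
    exact h7
  let τ : ℝ → ℂ := fun t => if t < a then τ1 t else if t ≤ b then σ t else τ2 (0 - t)
  have hτ1 : ∀ t ∈ Ioo (a - δ1) (a + δ1), τ t = τ1 t := by
    intro t ht
    by_cases hta : t < a
    · exact if_pos hta
    · have h5 : τ t = σ t := by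
        change (if t < a then τ1 t else if t ≤ b then σ t else τ2 (0 - t)) = σ t
        rw [if_neg hta, if_pos (by linarith [ht.2])]
      rw [h5]
      exact (h12 ⟨not_lt.1 hta, ht.2⟩).symm
  have hτ2 : ∀ t ∈ Ioo (b - δ2) (b + δ2), τ t = τ2 (0 - t) := by
    intro t ht
    have hta : ¬ t < a := by
      intro h5
      linarith [ht.1]
    by_cases htb : t ≤ b
    · have h5 : τ t = σ t := by
        change (if t < a then τ1 t else if t ≤ b then σ t else τ2 (0 - t)) = σ t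
        rw [if_neg hta, if_pos htb]
      rw [h5]
      exact (h24 t ⟨ht.1, htb⟩).symm
    · change (if t < a then τ1 t else if t ≤ b then σ t else τ2 (0 - t)) = τ2 (0 - t)
      rw [if_neg hta, if_neg htb]
  have hτ0 : ∀ t ∈ Icc a b, τ t = σ t := by
    intro t ht
    change (if t < a then τ1 t else if t ≤ b then σ t else τ2 (0 - t)) = σ t
    rw [if_neg (not_lt.2 ht.1), if_pos ht.2]
  refine ⟨min δ1 δ2, τ, lt_min hδ1 hδ2, ?_, hτ0⟩
  intro t ht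
  have hm1 := min_le_left δ1 δ2
  have hm2 := min_le_right δ1 δ2
  by_cases hta : t < a + δ1
  · have ht' : t ∈ Ioo (a - δ1) (a + δ1) := ⟨by linarith [ht.1], hta⟩
    refine (h11 t ht').congr ?_
    filter_upwards [isOpen_Ioo.mem_nhds ht'] with s hs
    exact hτ1 s hs
  · by_cases htb : b - δ2 < t
    · have ht' : t ∈ Ioo (b - δ2) (b + δ2) := ⟨htb, by linarith [ht.2]⟩
      refine (h23 t ht').congr ?_
      filter_upwards [isOpen_Ioo.mem_nhds ht'] with s hs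
      exact hτ2 s hs
    · have ht' : t ∈ Ioo a b := ⟨by linarith [not_lt.1 hta], by linarith [not_lt.1 htb]⟩
      refine (hσ t ht').congr ?_
      filter_upwards [isOpen_Ioo.mem_nhds ht'] with s hs
      exact hτ0 s (Ioo_subset_Icc_self hs)

end Pool.Agent.ANO2.Geo2
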