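import Pool.Agent.ANO2.Geo2.NR
import Pool.Agent.ANO2.Geo2.Strip

/-!
# ANO phase 2, Geo2: long flow boxes; horizontal and vertical arcs meet at most once

* `hor_injOn`: if `σ s = σ t`, `s < t`, then by `no_return` for a flow box at `σ s` the arc
  `σ [s, t]` is in the box, so it is a piece of a line (`box_arc`; at the end points by
  continuity), which is injective.
* `long_box`: `strip` gives `χ` on `(-δ, T + δ) × (-δ, δ)`; for small `δ` it is injective: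
  otherwise
  there are `w_n ≠ w_n'` with `χ w_n = χ w_n'` and imaginary parts tending to `0`, real parts
  tending to points `t, t' ∈ [0, T]` (after restriction to `[-δ/2, T + δ/2]`; for parameters
  outside `[0, T]` use that `u ↦ χ u` is horizontal on `(-δ, T + δ)`, so `hor_injOn` applies on
  `[-δ/2, T + δ/2]`), `χ t = χ t'`, so `t = t'`, and `χ` is injective near `t` because
  `χ' t ≠ 0`.  Contradiction.
* `long_box_ver`: the same for `-q`: a box for `Q.neg` becomes a box for `Q` after a rotation by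
  `90` degrees (`Box.turn`): `χ' (w) = χ (w / i)`.
* `no_bigon`: let `B` be the long box about the vertical arc `τ` (`long_box_ver`); `σ 0 = χ 0` and
  `σ T = χ (i S)` are in `B.img`, so by `no_return` `σ` stays in `B.img` and is a piece of a
  horizontal line (`box_arc` on `(0, T)` and continuity at the end points), so
  `S = 0`; then `σ 0 = σ T` and `T = 0` by `hor_injOn`.
-/

set_option autoImplicit false

open Set Filter Topology

namespace Pool.Agent.ANO2.Geo2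

variable {Q : QD}

theorem QD.neg_neg (Q : QD) : Q.neg.neg = Q := by
  cases Q
  simp [QD.neg]


private theorem dd_cont (B : Box Q) {z : ℂ} (hz : z ∈ B.img) : ContinuousAt B.D z :=
  ((B.D_holo).differentiableAt (B.isOpen_img.mem_nhds hz)).continuousAt

private theorem arc_aux (B : Box Q) {σ : ℝ → ℂ} {T : ℝ} (hT : 0 ≤ T)
    (hσ : ∀ t ∈ Icc 0 T, Hor Q σ t) (h0 : σ 0 ∈ B.img) (h1 : σ T ∈ B.img) :
    ∃ x y e : ℝ, (e = 1 ∨ e = -1) ∧ ∀ t ∈ Icc 0 T,
      (⟨x + e * t, y⟩ : ℂ) ∈ B.dom ∧ σ t = B.χ ⟨x + e * t, y⟩ := by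
  rcases hT.eq_or_lt with rfl | hT
  · refine ⟨(B.D (σ 0)).re, (B.D (σ 0)).im, 1, Or.inl rfl, ?_⟩
    intro t ht
    have ht0 : t = 0 := le_antisymm ht.2 ht.1
    subst ht0
    have he : (⟨(B.D (σ 0)).re + 1 * 0, (B.D (σ 0)).im⟩ : ℂ) = B.D (σ 0) := by
      apply Complex.ext <;> simp
    rw [he]
    exact ⟨B.D_mem h0, (B.χ_D h0).symm⟩
  · have hin := no_return B hT.le hσ h0 h1
    obtain ⟨x, y, e, he, h⟩ := box_arc B hT (fun t ht => hσ t (Ioo_subset_Icc_self ht))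
      (fun t ht => hin t (Ioo_subset_Icc_self ht))
    have hE : EqOn (fun t : ℝ => B.D (σ t)) (fun t : ℝ => (⟨x + e * t, y⟩ : ℂ)) (Icc 0 T) := by
      refine Set.EqOn.of_subset_closure (s := Ioo 0 T) ?_ ?_ ?_ Ioo_subset_Icc_self ?_
      · intro t ht
        show B.D (σ t) = _
        rw [(h t ht).2, B.D_χ (h t ht).1]
      · intro t ht
        exact ((dd_cont B (hin t ht)).comp (hσ t ht).continuousAt).continuousWithinAt
      · have : Continuous (fun t : ℝ => (⟨x + e * t, y⟩ : ℂ)) := by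
          have h2 : (fun t : ℝ => (⟨x + e * t, y⟩ : ℂ)) =
              fun t : ℝ => ((x + e * t : ℝ) : ℂ) + (y : ℂ) * Complex.I := by
            funext t
            apply Complex.ext <;> simp
          rw [h2]
          fun_prop
        exact this.continuousOn
      · rw [closure_Ioo hT.ne]
    refine ⟨x, y, e, he, fun t ht => ?_⟩
    have h3 : B.D (σ t) = ⟨x + e * t, y⟩ := hE ht
    rw [← h3]
    exact ⟨B.D_mem (hin t ht), (B.χ_D (hin t ht)).symm⟩

private theorem seg {σ : ℝ → ℂ} {a b t t' : ℝ} (hσ : ∀ u ∈ Icc a b, Hor Q σ u)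
    (ht : t ∈ Icc a b) (ht' : t' ∈ Icc a b) : ∃ σ1 : ℝ → ℂ,
      (∀ u ∈ Icc 0 |t' - t|, Hor Q σ1 u) ∧ σ1 0 = σ t ∧ σ1 |t' - t| = σ t' := by
  rcases le_total t t' with h | h
  · rw [abs_of_nonneg (sub_nonneg.mpr h)]
    refine ⟨fun u => σ (u + t), fun u hu => ?_, by simp, by simp⟩
    apply Hor.shift
    exact hσ _ ⟨by linarith [hu.1, ht.1], by linarith [hu.2, ht'.2]⟩
  · rw [abs_of_nonpos (sub_nonpos.mpr h)]
    refine ⟨fun u => σ (t - u), fun u hu => ?_, by simp, by simp⟩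
    apply Hor.neg_time
    exact hσ _ ⟨by linarith [hu.2, ht'.1], by linarith [hu.1, ht.2]⟩

theorem hor_injOn {σ : ℝ → ℂ} {a b : ℝ} (hσ : ∀ t ∈ Icc a b, Hor Q σ t) : InjOn σ (Icc a b) := by
  intro s hs t ht hst
  by_contra hne
  obtain ⟨hU, v, -, hv⟩ := hσ s hs
  obtain ⟨ρ, hρ, B, ha, hb, hc, hd, hχ, -, -⟩ := box_exists Q hU hv (W := univ) univ_mem
  obtain ⟨σ1, h1, h2, h3⟩ := seg hσ hs ht
  have hs0 : σ s ∈ B.img := by
    refine ⟨0, ?_, hχ⟩
    rw [Box.dom, Complex.mem_reProdIm, ha, hb, hc, hd]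
    simp [hρ]
  obtain ⟨x, y, e, he, h⟩ := arc_aux B (abs_nonneg (t - s)) h1 (by rw [h2]; exact hs0)
    (by rw [h3, ← hst]; exact hs0)
  have hA := h 0 ⟨le_rfl, abs_nonneg _⟩
  have hB := h |t - s| ⟨abs_nonneg _, le_rfl⟩
  have hC : (⟨x + e * 0, y⟩ : ℂ) = ⟨x + e * |t - s|, y⟩ := by
    apply B.inj hA.1 hB.1
    rw [← hA.2, ← hB.2, h2, h3, hst]
  have hD : x + e * 0 = x + e * |t - s| := congrArg Complex.re hC
  have hE : |t - s| = 0 := by
    rcases he with rfl | rfl <;> linarith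
  exact hne (sub_eq_zero.mp (abs_eq_zero.mp hE)).symm

/-- A horizontal arc whose end points are in a flow box is a piece of a horizontal line of the
box. -/
theorem arc_in_box (B : Box Q) {σ : ℝ → ℂ} {T : ℝ} (hT : 0 ≤ T) (hσ : ∀ t ∈ Icc 0 T, Hor Q σ t)
    (h0 : σ 0 ∈ B.img) (h1 : σ T ∈ B.img) : ∃ x y e : ℝ, (e = 1 ∨ e = -1) ∧ ∀ t ∈ Icc 0 T,
      (⟨x + e * t, y⟩ : ℂ) ∈ B.dom ∧ σ t = B.χ ⟨x + e * t, y⟩ :=
  arc_aux B hT hσ h0 h1

private theorem inj_strip {χ : ℂ → ℂ} {a b a' b' δ : ℝ} (haa : a < a') (hbb : b' < b)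
    (hδ : 0 < δ) (hχ : DifferentiableOn ℂ χ (Ioo a b ×ℂ Ioo (-δ) δ))
    (hne : ∀ w ∈ Ioo a b ×ℂ Ioo (-δ) δ, deriv χ w ≠ 0)
    (hinj : InjOn (fun u : ℝ => χ (u : ℂ)) (Icc a' b')) :
    ∃ ε > 0, ε ≤ δ ∧ InjOn χ (Icc a' b' ×ℂ Ioo (-ε) ε) := by
  have hopen : IsOpen (Ioo a b ×ℂ Ioo (-δ) δ) := isOpen_Ioo.reProdIm isOpen_Ioo
  have hsub : ∀ u ∈ Icc a' b', (u : ℂ) ∈ Ioo a b ×ℂ Ioo (-δ) δ := by
    intro u hu
    rw [Complex.mem_reProdIm]
    simp only [Complex.ofReal_re, Complex.ofReal_im, mem_Ioo]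
    exact ⟨⟨by linarith [hu.1], by linarith [hu.2]⟩, by linarith, hδ⟩
  have hcomp : IsCompact ((fun u : ℝ => (u : ℂ)) '' Icc a' b') :=
    isCompact_Icc.image Complex.continuous_ofReal
  have hinj' : InjOn χ ((fun u : ℝ => (u : ℂ)) '' Icc a' b') := by
    rintro _ ⟨u, hu, rfl⟩ _ ⟨v, hv, rfl⟩ h
    exact congrArg _ (hinj hu hv h)
  obtain ⟨t, ht, hti⟩ := hinj'.exists_mem_nhdsSet hcomp
    (by
      rintro _ ⟨u, hu, rfl⟩
      exact (hχ.differentiableAt (hopen.mem_nhds (hsub u hu))).continuousAt)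
    (by
      rintro _ ⟨u, hu, rfl⟩
      have h1 : HasStrictDerivAt χ (deriv χ (u : ℂ)) (u : ℂ) :=
        (hχ.analyticAt (hopen.mem_nhds (hsub u hu))).hasStrictDerivAt
      have h2 := h1.hasStrictFDerivAt_equiv (hne _ (hsub u hu))
      refine ⟨(h2.toOpenPartialHomeomorph χ).source, ?_, ?_⟩
      · exact (h2.toOpenPartialHomeomorph χ).open_source.mem_nhds
          (h2.mem_toOpenPartialHomeomorph_source)
      · have h3 := (h2.toOpenPartialHomeomorph χ).injOn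
        rwa [h2.toOpenPartialHomeomorph_coe] at h3)
  rw [mem_nhdsSet_iff_exists] at ht
  obtain ⟨O, hO, hO1, hO2⟩ := ht
  obtain ⟨η, hη, hη'⟩ := hcomp.exists_thickening_subset_open hO hO1
  refine ⟨min η δ, lt_min hη hδ, min_le_right _ _, hti.mono ?_⟩
  intro w hw
  rw [Complex.mem_reProdIm] at hw
  apply hO2
  apply hη'
  rw [Metric.mem_thickening_iff]
  refine ⟨(w.re : ℂ), ⟨w.re, hw.1, rfl⟩, ?_⟩
  rw [Complex.dist_of_re_eq (by simp)]
  simp only [Complex.ofReal_im, Real.dist_eq, sub_zero]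
  rw [abs_lt]
  exact ⟨by linarith [hw.2.1, min_le_left η δ], by linarith [hw.2.2, min_le_left η δ]⟩

private theorem hor_real {χ : ℂ → ℂ} {O : Set ℂ} (hO : IsOpen O) (hχ : DifferentiableOn ℂ χ O)
    (h : ∀ w ∈ O, χ w ∈ Q.U ∧ Q.q (χ w) * deriv χ w ^ 2 = 1) {t : ℝ} (ht : (t : ℂ) ∈ O) :
    Hor Q (fun u : ℝ => χ (u : ℂ)) t := by
  refine ⟨(h _ ht).1, deriv χ (t : ℂ), ?_, (h _ ht).2⟩
  exact ((hχ.differentiableAt (hO.mem_nhds ht)).hasDerivAt).comp_ofReal

theorem long_box {σ : ℝ → ℂ} {T : ℝ} (hT : 0 ≤ T) (hσ : ∀ t ∈ Icc 0 T, Hor Q σ t) :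
    ∃ B : Box Q, B.a < 0 ∧ T < B.b ∧ B.c < 0 ∧ 0 < B.d ∧ ∀ t ∈ Icc 0 T, B.χ (t : ℂ) = σ t := by
  obtain ⟨δ, hδ, χ, h1, h2, h3⟩ := strip hT hσ
  have hopen : IsOpen (Ioo (-δ) (T + δ) ×ℂ Ioo (-δ) δ) := isOpen_Ioo.reProdIm isOpen_Ioo
  have hne : ∀ w ∈ Ioo (-δ) (T + δ) ×ℂ Ioo (-δ) δ, deriv χ w ≠ 0 := by
    intro w hw h0
    have := (h2 w hw).2
    rw [h0] at this
    simp at this
  have hinj : InjOn (fun u : ℝ => χ (u : ℂ)) (Icc (-(δ / 2)) (T + δ / 2)) := by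
    apply hor_injOn (Q := Q)
    intro t ht
    apply hor_real hopen h1 h2
    rw [Complex.mem_reProdIm]
    simp only [Complex.ofReal_re, Complex.ofReal_im, mem_Ioo]
    exact ⟨⟨by linarith [ht.1], by linarith [ht.2]⟩, by linarith, hδ⟩
  obtain ⟨ε, hε, hεδ, hi⟩ := inj_strip (a := -δ) (b := T + δ) (a' := -(δ / 2)) (b' := T + δ / 2)
    (by linarith) (by linarith) hδ h1 hne hinj
  have hsub : Ioo (-(δ / 2)) (T + δ / 2) ×ℂ Ioo (-ε) ε ⊆ Ioo (-δ) (T + δ) ×ℂ Ioo (-δ) δ := by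
    intro w hw
    rw [Complex.mem_reProdIm] at hw ⊢
    exact ⟨⟨by linarith [hw.1.1], by linarith [hw.1.2]⟩,
      ⟨by linarith [hw.2.1], by linarith [hw.2.2]⟩⟩
  have hsub2 : Ioo (-(δ / 2)) (T + δ / 2) ×ℂ Ioo (-ε) ε ⊆
      Icc (-(δ / 2)) (T + δ / 2) ×ℂ Ioo (-ε) ε := by
    intro w hw
    rw [Complex.mem_reProdIm] at hw ⊢
    exact ⟨Ioo_subset_Icc_self hw.1, hw.2⟩
  exact ⟨{
    a := -(δ / 2)
    b := T + δ / 2
    c := -ε
    d := ε
    hab := by linarith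
    hcd := by linarith
    χ := χ
    holo := h1.mono hsub
    inj := hi.mono hsub2
    mem := fun w hw => (h2 w (hsub hw)).1
    eq := fun w hw => (h2 w (hsub hw)).2 },
    by show -(δ / 2) < 0; linarith, by show T < T + δ / 2; linarith,
    by show -ε < 0; linarith, by show 0 < ε; exact hε, h3⟩

private theorem turn_mem {a b c d : ℝ} {w : ℂ} (hw : w ∈ Ioo (-d) (-c) ×ℂ Ioo a b) :
    -Complex.I * w ∈ Ioo a b ×ℂ Ioo c d := by
  rw [Complex.mem_reProdIm] at hw ⊢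
  have h1 : (-Complex.I * w).re = w.im := by simp
  have h2 : (-Complex.I * w).im = -w.re := by simp
  rw [h1, h2]
  exact ⟨hw.2, by linarith [hw.1.2], by linarith [hw.1.1]⟩

/-- A flow box of `-q` turned by `90` degrees is a flow box of `q`. -/
noncomputable def Box.turn (B : Box Q.neg) : Box Q where
  a := -B.d
  b := -B.c
  c := B.a
  d := B.b
  hab := neg_lt_neg B.hcd
  hcd := B.hab
  χ := fun w => B.χ (-Complex.I * w)
  holo := B.holo.comp (by fun_prop) (fun w hw => turn_mem hw)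
  inj := by
    intro w hw w' hw' h
    have h1 := B.inj (turn_mem hw) (turn_mem hw') h
    exact mul_left_cancel₀ (neg_ne_zero.mpr Complex.I_ne_zero) h1
  mem := fun w hw => B.mem _ (turn_mem hw)
  eq := by
    intro w hw
    have h1 := B.eq _ (turn_mem hw)
    have h2 : HasDerivAt B.χ (deriv B.χ (-Complex.I * w)) (-Complex.I * w) :=
      (B.holo.differentiableAt (B.isOpen_dom.mem_nhds (turn_mem hw))).hasDerivAt
    have h3 : HasDerivAt (fun w : ℂ => -Complex.I * w) (-Complex.I) w := by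
      simpa using (hasDerivAt_id w).const_mul (-Complex.I)
    have h4 : deriv (fun w : ℂ => B.χ (-Complex.I * w)) w =
        deriv B.χ (-Complex.I * w) * (-Complex.I) := (h2.comp w h3).deriv
    rw [h4]
    have h5 : Q.neg.q (B.χ (-Complex.I * w)) = - Q.q (B.χ (-Complex.I * w)) := rfl
    rw [h5] at h1
    rw [← h1, mul_pow, neg_sq, Complex.I_sq]
    ring

theorem long_box_ver {τ : ℝ → ℂ} {S : ℝ} (hS : 0 ≤ S) (hτ : ∀ t ∈ Icc 0 S, Ver Q τ t) :
    ∃ B : Box Q, B.a < 0 ∧ 0 < B.b ∧ B.c < 0 ∧ S < B.d ∧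
      ∀ t ∈ Icc 0 S, B.χ ((t : ℂ) * Complex.I) = τ t := by
  obtain ⟨B, h1, h2, h3, h4, h5⟩ := long_box (Q := Q.neg) hS hτ
  refine ⟨B.turn, ?_, ?_, h1, h2, ?_⟩
  · show -B.d < 0
    linarith
  · show 0 < -B.c
    linarith
  · intro t ht
    show B.χ (-Complex.I * ((t : ℂ) * Complex.I)) = τ t
    rw [← h5 t ht]
    congr 1
    have : -Complex.I * ((t : ℂ) * Complex.I) = -(Complex.I * Complex.I) * t := by ring
    rw [this, Complex.I_mul_I]
    ring

/-- A horizontal and a vertical arc do not bound a bigon. -/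
theorem no_bigon {σ τ : ℝ → ℂ} {T S : ℝ} (hT : 0 ≤ T) (hS : 0 ≤ S)
    (hσ : ∀ t ∈ Icc 0 T, Hor Q σ t) (hτ : ∀ t ∈ Icc 0 S, Ver Q τ t) (h0 : σ 0 = τ 0)
    (h1 : σ T = τ S) : T = 0 ∧ S = 0 := by
  obtain ⟨B, ha, hb, hc, hd, hB⟩ := long_box_ver hS hτ
  have hm : ∀ t ∈ Icc 0 S, (t : ℂ) * Complex.I ∈ B.dom := by
    intro t ht
    rw [Box.dom, Complex.mem_reProdIm]
    simp only [Complex.mul_re, Complex.ofReal_re, Complex.I_re, mul_zero, Complex.ofReal_im,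
      Complex.I_im, mul_one, sub_zero, Complex.mul_im, add_zero, mem_Ioo]
    exact ⟨⟨ha, hb⟩, by linarith [ht.1], by linarith [ht.2]⟩
  have hm0 := hm 0 ⟨le_rfl, hS⟩
  have hmS := hm S ⟨hS, le_rfl⟩
  have e0 : B.χ (((0 : ℝ) : ℂ) * Complex.I) = σ 0 := by rw [h0]; exact hB 0 ⟨le_rfl, hS⟩
  have eS : B.χ ((S : ℂ) * Complex.I) = σ T := by rw [h1]; exact hB S ⟨hS, le_rfl⟩
  obtain ⟨x, y, e, he, h⟩ := arc_aux B hT hσ ⟨_, hm0, e0⟩ ⟨_, hmS, eS⟩
  have hA := h 0 ⟨le_rfl, hT⟩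
  have hC := h T ⟨hT, le_rfl⟩
  have i0 := B.inj hA.1 hm0 (by rw [← hA.2, e0])
  have iT := B.inj hC.1 hmS (by rw [← hC.2, eS])
  have r0 := congrArg Complex.re i0
  have m0 := congrArg Complex.im i0
  have rT := congrArg Complex.re iT
  have mT := congrArg Complex.im iT
  simp only [Complex.mul_re, Complex.ofReal_re, Complex.I_re, mul_zero, Complex.ofReal_im,
    Complex.I_im, mul_one, sub_zero, Complex.mul_im, add_zero] at r0 m0 rT mT
  rw [r0, zero_add] at rT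
  constructor
  · rcases he with rfl | rfl <;> linarith
  · linarith

/-- A horizontal and a vertical arc meet at most once. -/
theorem hor_ver_once {σ τ : ℝ → ℂ} {a b c d : ℝ} (hσ : ∀ t ∈ Icc a b, Hor Q σ t)
    (hτ : ∀ t ∈ Icc c d, Ver Q τ t) {t t' s s' : ℝ} (ht : t ∈ Icc a b) (ht' : t' ∈ Icc a b)
    (hs : s ∈ Icc c d) (hs' : s' ∈ Icc c d) (h : σ t = τ s) (h' : σ t' = τ s') :
    t = t' ∧ s = s' := by
  obtain ⟨σ1, h1, h2, h3⟩ := seg hσ ht ht'
  obtain ⟨τ1, k1, k2, k3⟩ := seg (Q := Q.neg) hτ hs hs'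
  obtain ⟨e1, e2⟩ := no_bigon (Q := Q) (abs_nonneg _) (abs_nonneg _) h1 k1 (by rw [h2, k2, h])
    (by rw [h3, k3, h'])
  exact ⟨(sub_eq_zero.mp (abs_eq_zero.mp e1)).symm, (sub_eq_zero.mp (abs_eq_zero.mp e2)).symm⟩

/-! ### The relation joined by a regular horizontal arc -/

/-- `z` and `w` are joined by a horizontal arc of length `s` which contains no zero of `q` (end
points included). -/
def HC (Q : QD) (z w : ℂ) (s : ℝ) : Prop :=
  0 ≤ s ∧ ∃ σ : ℝ → ℂ, (∀ t ∈ Icc 0 s, Hor Q σ t) ∧ σ 0 = z ∧ σ s = w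

theorem HC.refl {z : ℂ} (hz : z ∈ Q.U) (h : Q.q z ≠ 0) : HC Q z z 0 := by
  obtain ⟨v, hv⟩ : ∃ v : ℂ, v ^ 2 = (Q.q z)⁻¹ :=
    IsAlgClosed.exists_pow_nat_eq _ (by norm_num)
  refine ⟨le_rfl, fun t : ℝ => z + (t : ℂ) * v, ?_, by simp, by simp⟩
  intro t ht
  have ht0 : t = 0 := le_antisymm ht.2 ht.1
  subst ht0
  refine ⟨by simpa using hz, v, ?_, ?_⟩
  · have h1 : HasDerivAt (fun t : ℝ => (t : ℂ)) 1 (0 : ℝ) := Complex.ofRealCLM.hasDerivAt
    simpa using (h1.mul_const v).const_add z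
  · show Q.q (z + ((0 : ℝ) : ℂ) * v) * v ^ 2 = 1
    rw [Complex.ofReal_zero, zero_mul, add_zero, hv, mul_inv_cancel₀ h]

theorem HC.symm {z w : ℂ} {s : ℝ} (h : HC Q z w s) : HC Q w z s := by
  obtain ⟨hs, σ, h1, h2, h3⟩ := h
  refine ⟨hs, fun u => σ (s - u), fun t ht => ?_, by simpa using h3, by simpa using h2⟩
  apply Hor.neg_time
  exact h1 _ ⟨by linarith [ht.2], by linarith [ht.1]⟩

private theorem ext_arc {σ : ℝ → ℂ} {T : ℝ} (hT : 0 ≤ T) (hσ : ∀ t ∈ Icc 0 T, Hor Q σ t) :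
    ∃ δ > 0, ∃ τ : ℝ → ℂ, (∀ t ∈ Ioo (-δ) (T + δ), Hor Q τ t) ∧ EqOn τ σ (Icc 0 T) := by
  obtain ⟨B, h1, h2, h3, h4, h5⟩ := long_box hT hσ
  refine ⟨min (-B.a) (B.b - T), lt_min (by linarith) (by linarith),
    fun u : ℝ => B.χ (u : ℂ), ?_, fun t ht => h5 t ht⟩
  intro t ht
  apply hor_real B.isOpen_dom B.holo (fun w hw => ⟨B.mem w hw, B.eq w hw⟩)
  rw [Box.dom, Complex.mem_reProdIm]
  simp only [Complex.ofReal_re, Complex.ofReal_im, mem_Ioo]
  exact ⟨⟨by linarith [ht.1, min_le_left (-B.a) (B.b - T)],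
    by linarith [ht.2, min_le_right (-B.a) (B.b - T)]⟩, h3, h4⟩

theorem HC.trans {z w z' : ℂ} {s s' : ℝ} (h : HC Q z w s) (h' : HC Q w z' s') :
    ∃ s'', HC Q z z' s'' := by
  obtain ⟨hs, σ', g1, g2, g3⟩ := h
  obtain ⟨hs', τ', k1, k2, k3⟩ := h'
  obtain ⟨δ, hδ, σ, h1, hE⟩ := ext_arc hs g1
  obtain ⟨δ', hδ', τ, h2, hE'⟩ := ext_arc hs' k1
  have z1 : σ 0 = z := by rw [← g2]; exact hE ⟨le_rfl, hs⟩
  have w1 : σ s = w := by rw [← g3]; exact hE ⟨hs, le_rfl⟩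
  have w2 : τ 0 = w := by rw [← k2]; exact hE' ⟨le_rfl, hs'⟩
  have z2 : τ s' = z' := by rw [← k3]; exact hE' ⟨hs', le_rfl⟩
  obtain ⟨r, hr, hrδ, hrδ'⟩ : ∃ r > 0, r ≤ δ ∧ r ≤ δ' :=
    ⟨min δ δ', lt_min hδ hδ', min_le_left _ _, min_le_right _ _⟩
  rcases hor_two (Q := Q) (σ := σ) (τ := τ) (r := r) (t0 := s) (s0 := 0) hr
    (fun u hu => h1 _ ⟨by linarith [hu.1], by linarith [hu.2]⟩)
    (fun u hu => h2 _ ⟨by linarith [hu.1], by linarith [hu.2]⟩) (by rw [w1, w2]) with hc | hc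
  · refine ⟨s + s', by positivity, fun t => if t ≤ s then σ t else τ (t - s), ?_, ?_, ?_⟩
    · intro t ht
      have hleft : ∀ u, u ∈ Iio (s + r) → u ∈ Ioi (s - r) ∨ u ≤ s →
          (if u ≤ s then σ u else τ (u - s)) = σ u := by
        intro u hu _
        by_cases hus : u ≤ s
        · rw [if_pos hus]
        · rw [if_neg hus]
          have := hc (u - s) ⟨by linarith [not_le.mp hus], by linarith [mem_Iio.mp hu]⟩
          rw [add_sub_cancel, zero_add] at this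
          exact this.symm
      rcases lt_or_ge t (s + r) with hts | hts
      · refine (h1 t ⟨by linarith [ht.1], by linarith⟩).congr ?_
        filter_upwards [Iio_mem_nhds hts] with u hu
        exact hleft u hu (by
          rcases le_or_gt u s with h | h
          · exact Or.inr h
          · exact Or.inl (by show s - r < u; linarith))
      · have hts' : s < t := by linarith
        have h5 : Hor Q (fun u => τ (u + (-s))) t := by
          apply Hor.shift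
          exact h2 _ ⟨by linarith, by linarith [ht.2]⟩
        refine h5.congr ?_
        filter_upwards [Ioi_mem_nhds hts'] with u hu
        rw [if_neg (not_le.mpr hu), sub_eq_add_neg]
    · show (if (0 : ℝ) ≤ s then σ 0 else τ (0 - s)) = z
      rw [if_pos hs, z1]
    · show (if s + s' ≤ s then σ (s + s') else τ (s + s' - s)) = z'
      by_cases h0 : s + s' ≤ s
      · have h00 : s' = 0 := by linarith
        rw [if_pos h0, h00, add_zero, w1, ← w2, ← z2, h00]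
      · rw [if_neg h0, add_sub_cancel_left, z2]
  · have hEq : EqOn (fun u => σ (s - u)) τ (Ioo (-r) (min s s' + r)) := by
      apply hor_eqOn (Q := Q) (t0 := 0)
      · intro t ht
        apply Hor.neg_time
        exact h1 _ ⟨by linarith [ht.2, min_le_left s s'], by linarith [ht.1]⟩
      · intro t ht
        exact h2 _ ⟨by linarith [ht.1], by linarith [ht.2, min_le_right s s']⟩
      · exact ⟨by linarith, by
          have : 0 ≤ min s s' := le_min hs hs'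
          linarith⟩
      · filter_upwards [Ioo_mem_nhds (neg_neg_of_pos hr) hr] with u hu
        have := hc (-u) ⟨by linarith [hu.2], by linarith [hu.1]⟩
        rw [← sub_eq_add_neg, zero_sub, neg_neg] at this
        exact this
    have hEq' : ∀ u ∈ Icc 0 (min s s'), σ (s - u) = τ u := fun u hu =>
      hEq ⟨by linarith [hu.1], by linarith [hu.2]⟩
    rcases le_total s' s with hle | hle
    · rw [min_eq_right hle] at hEq'
      refine ⟨s - s', by linarith, σ, fun t ht => h1 t ⟨by linarith [ht.1],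
        by linarith [ht.2]⟩, z1, ?_⟩
      rw [hEq' s' ⟨hs', le_rfl⟩, z2]
    · rw [min_eq_left hle] at hEq'
      refine ⟨s' - s, by linarith, fun u => τ (u + s), fun t ht => ?_, ?_, ?_⟩
      · apply Hor.shift
        exact h2 _ ⟨by linarith [ht.1], by linarith [ht.2]⟩
      · show τ (0 + s) = z
        rw [zero_add, ← hEq' s ⟨hs, le_rfl⟩, sub_self, z1]
      · show τ (s' - s + s) = z'
        rw [sub_add_cancel, z2]

/-- Points of a horizontal arc are horizontally connected. -/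
theorem hc_of_hor {σ : ℝ → ℂ} {a b : ℝ} (hσ : ∀ t ∈ Ioo a b, Hor Q σ t) {s t : ℝ}
    (hs : s ∈ Ioo a b) (ht : t ∈ Ioo a b) : HC Q (σ s) (σ t) |t - s| := by
  obtain ⟨σ1, h1, h2, h3⟩ := seg (Q := Q) (σ := σ) (a := min s t) (b := max s t) (t := s)
    (t' := t) (fun u hu => hσ u ⟨lt_of_lt_of_le (lt_min hs.1 ht.1) hu.1,
      lt_of_le_of_lt hu.2 (max_lt hs.2 ht.2)⟩) ⟨min_le_left _ _, le_max_left _ _⟩
    ⟨min_le_right _ _, le_max_right _ _⟩
  exact ⟨abs_nonneg _, σ1, h1, h2, h3⟩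

/-- A point which is joined to `σ t` by a horizontal arc and by a vertical arc is `σ t`. -/
theorem HC.eq_of_vc {z w : ℂ} {s s' : ℝ} (h : HC Q z w s) (h' : HC Q.neg z w s') :
    z = w ∧ s = 0 ∧ s' = 0 := by
  obtain ⟨hs, σ, g1, g2, g3⟩ := h
  obtain ⟨hs', τ, k1, k2, k3⟩ := h'
  obtain ⟨e1, e2⟩ := no_bigon hs hs' g1 k1 (by rw [g2, k2]) (by rw [g3, k3])
  exact ⟨by rw [← g2, ← g3, e1], e1, e2⟩

end Pool.Agent.ANO2.Geo2
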