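import Pool.Agent.ANO2.Geo2.Hol
import Pool.Agent.ANO2.Geo2.Chain

/-!
# ANO phase 2, Geo2: the measure lemma

Proof of `meas`.  Write `V z w` for `∃ S, HC Q.neg z w S` (an equivalence relation on its domain, by
`HC.symm`, `HC.trans`).

(1) Let `N` be the set of the `t ∈ G` such that the `s` of `h2` can be chosen with `s ∈ A`, or
`s = 0`, or `s = l`, or `s ∉ B` (and `s ∈ (0, l) \ A`).  `N` is countable: each `s ∈ A ∪ {0, l}`
serves at most one `t` (`V (c0 t) (c s)`, `V (c0 t') (c s)` imply `V (c0 t) (c0 t')`, so `t = t'` by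
`h3`); the set of the `s ∈ (0, l) \ A`, `s ∉ B` is open (`RP.loc`, `A` finite), each of its
(countably many) components is an interval on which `c` is vertical, so all `c s` in it are
`V`-related (`hc_of_hor` for `-q`), so it serves at most one `t`.  (Countably many components:
choose a rational number in each.)

(2) For `t ∈ G \ N` choose `s t ∈ (0, l) \ A`, `s t ∈ B` with `V (c0 t) (c (s t))`; by `hol` there
are `δ > 0` and `e = ± 1` with `V (c0 (t + x)) (c (s t + e x))` for `|x| < δ`, and (shrink `δ`)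
`(s t - δ, s t + δ) ⊆ B ∩ (0, l)`.  By second countability countably many intervals
`I_j = (t_j - δ_j, t_j + δ_j)` cover `G \ N`.  Put `G_j = (G \ N) ∩ I_j \ ⋃_{i < j} I_i` and
`g_j t = s_j + e_j (t - t_j)`, an isometry of `ℝ`.  `g_j (G_j)` is measurable, contained in
`B ∩ (0, l)`, of the same measure as `G_j`.  The sets `g_j (G_j)` are pairwise disjoint: if
`g_j t = g_i t'` then `V (c0 t) (c (g_j t))`, `V (c0 t') (c (g_i t'))`, so `V (c0 t) (c0 t')` and
`t = t'` by `h3`, so `i = j`.  So `vol G = ∑ vol G_j = ∑ vol (g_j (G_j)) ≤ vol (B ∩ [0, l])`.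
-/

set_option autoImplicit false

open Set Filter Topology MeasureTheory

namespace Pool.Agent.ANO2.Geo2

variable {Q : QD}

private theorem ev_hor {l : ℝ} {c : ℝ → ℂ} {A B : Set ℝ} (h : RP Q l c A B) {t : ℝ}
    (ht : t ∈ Ioo 0 l) (hA : t ∉ A) (hB : t ∈ B) :
    ∀ᶠ s in 𝓝 t, Hor Q c s ∧ s ∈ B ∧ s ∈ Ioo 0 l := by
  have h1 : ∀ᶠ s in 𝓝 t, s ∈ Ioo 0 l := isOpen_Ioo.mem_nhds ht
  have h2 : ∀ᶠ s in 𝓝 t, s ∉ A := h.fin.isClosed.isOpen_compl.mem_nhds hA
  have h3 : ∀ᶠ s in 𝓝 t, s ∈ B := by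
    rcases h.loc t ht hA with h3 | h3
    · exact h3
    · exact absurd hB h3.self_of_nhds
  filter_upwards [h1, h2, h3] with s a b d
  exact ⟨h.hor s a b d, d, a⟩

private theorem ev_ver {l : ℝ} {c : ℝ → ℂ} {A B : Set ℝ} (h : RP Q l c A B) {t : ℝ}
    (ht : t ∈ Ioo 0 l) (hA : t ∉ A) (hB : t ∉ B) : ∀ᶠ s in 𝓝 t, Hor Q.neg c s := by
  have h1 : ∀ᶠ s in 𝓝 t, s ∈ Ioo 0 l := isOpen_Ioo.mem_nhds ht
  have h2 : ∀ᶠ s in 𝓝 t, s ∉ A := h.fin.isClosed.isOpen_compl.mem_nhds hA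
  have h3 : ∀ᶠ s in 𝓝 t, s ∉ B := by
    rcases h.loc t ht hA with h3 | h3
    · exact absurd h3.self_of_nhds hB
    · exact h3
  filter_upwards [h1, h2, h3] with s a b d
  exact h.ver s a b d

private theorem mp (a b e : ℝ) (he : e = 1 ∨ e = -1) :
    MeasurePreserving (fun y : ℝ => a + e * (y - b)) volume volume := by
  rcases he with rfl | rfl
  · have h1 := measurePreserving_add_left (volume : Measure ℝ) (a - b)
    have h2 : (fun y : ℝ => a + 1 * (y - b)) = fun y => a - b + y := by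
      funext y
      ring
    rw [h2]
    exact h1
  · have h1 := Measure.measurePreserving_sub_left (volume : Measure ℝ) (a + b)
    have h2 : (fun y : ℝ => a + -1 * (y - b)) = fun y => a + b - y := by
      funext y
      ring
    rw [h2]
    exact h1

theorem meas {l0 l : ℝ} {c0 c : ℝ → ℂ} {A0 B0 A B : Set ℝ} (h0 : RP Q l0 c0 A0 B0)
    (h : RP Q l c A B) {G : Set ℝ} (hG : MeasurableSet G)
    (h1 : ∀ t ∈ G, t ∈ Ioo 0 l0 ∧ t ∉ A0 ∧ t ∈ B0)
    (h2 : ∀ t ∈ G, ∃ s ∈ Icc 0 l, ∃ S, HC Q.neg (c0 t) (c s) S)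
    (h3 : ∀ t ∈ G, ∀ t' ∈ G, ∀ S, HC Q.neg (c0 t) (c0 t') S → t = t') :
    volume G ≤ volume (B ∩ Icc 0 l) := by
  have key : ∀ t ∈ G, ∀ t' ∈ G, ∀ z S S', HC Q.neg (c0 t) z S → HC Q.neg (c0 t') z S' →
      t = t' := by
    intro t ht t' ht' z S S' a b
    obtain ⟨S'', hS⟩ := a.trans b.symm
    exact h3 t ht t' ht' S'' hS
  choose! s hs S hS using h2
  obtain ⟨N1, hN1⟩ : ∃ N1 : Set ℝ, N1 = {t | t ∈ G ∧ s t ∈ A ∪ {0, l}} := ⟨_, rfl⟩
  obtain ⟨N2, hN2⟩ : ∃ N2 : Set ℝ, N2 = {t | t ∈ G ∧ s t ∈ Ioo 0 l ∧ s t ∉ A ∧ s t ∉ B} :=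
    ⟨_, rfl⟩
  have c1 : N1.Countable := by
    refine Set.MapsTo.countable_of_injOn (f := s) (t := A ∪ {0, l}) ?_ ?_ ?_
    · intro t ht
      rw [hN1] at ht
      exact ht.2
    · intro t ht t' ht' e
      rw [hN1] at ht ht'
      have a := hS t' ht'.1
      rw [← e] at a
      exact key t ht.1 t' ht'.1 _ _ _ (hS t ht.1) a
    · exact (h.fin.union (by simp)).countable
  have c2 : N2.Countable := by
    have hr : ∀ t ∈ N2, ∃ r : ℚ, ∃ S', HC Q.neg (c0 t) (c (r : ℝ)) S' := by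
      intro t ht
      rw [hN2] at ht
      obtain ⟨δ, hδ, hv⟩ := Metric.eventually_nhds_iff.mp
        (ev_ver h ht.2.1 ht.2.2.1 ht.2.2.2)
      obtain ⟨r, hr1, hr2⟩ := exists_rat_btwn (show s t - δ < s t + δ by linarith)
      have a := hc_of_hor (Q := Q.neg) (σ := c) (a := s t - δ) (b := s t + δ) (s := s t)
        (t := (r : ℝ)) (by
          intro u hu
          apply hv
          rw [Real.dist_eq, abs_lt]
          exact ⟨by linarith [hu.1], by linarith [hu.2]⟩) ⟨by linarith, by linarith⟩ ⟨hr1, hr2⟩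
      obtain ⟨S'', b⟩ := (hS t ht.1).trans a
      exact ⟨r, S'', b⟩
    choose! r S' hr using hr
    refine Set.MapsTo.countable_of_injOn (f := r) (t := univ) (mapsTo_univ _ _) ?_
      (Set.to_countable _)
    intro t ht t' ht' e
    have a := hr t' ht'
    rw [← e] at a
    have b := hr t ht
    rw [hN2] at ht ht'
    exact key t ht.1 t' ht'.1 _ _ _ b a
  obtain ⟨H, hH⟩ : ∃ H : Set ℝ, H = G \ (N1 ∪ N2) := ⟨_, rfl⟩
  have hHm : MeasurableSet H := by
    rw [hH]
    exact hG.diff (c1.union c2).measurableSet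
  have hHG : H ⊆ G := by
    rw [hH]
    exact sdiff_subset
  have hvol : volume G ≤ volume H := by
    have a : G ⊆ H ∪ (N1 ∪ N2) := by
      rw [hH, sdiff_union_self]
      exact subset_union_left
    calc volume G ≤ volume (H ∪ (N1 ∪ N2)) := measure_mono a
      _ ≤ volume H + volume (N1 ∪ N2) := measure_union_le _ _
      _ = volume H := by rw [(c1.union c2).measure_zero, add_zero]
  refine hvol.trans ?_
  have hloc : ∀ t ∈ H, ∃ δ > 0, ∃ e : ℝ, (e = 1 ∨ e = -1) ∧ ∀ x ∈ Ioo (-δ) δ,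
      HC Q.neg (c0 (t + x)) (c (s t + e * x)) (S t) ∧ s t + x ∈ B ∧ s t + x ∈ Ioo 0 l := by
    intro t ht
    have htG := hHG ht
    have hsI : s t ∉ A ∧ s t ∈ B ∧ s t ∈ Ioo 0 l := by
      rw [hH] at ht
      have n1 : ¬ (s t ∈ A ∪ {0, l}) := fun a => ht.2 (Or.inl (by rw [hN1]; exact ⟨htG, a⟩))
      have n2 : ¬ (s t ∈ Ioo 0 l ∧ s t ∉ A ∧ s t ∉ B) :=
        fun a => ht.2 (Or.inr (by rw [hN2]; exact ⟨htG, a⟩))
      have hA : s t ∉ A := fun a => n1 (Or.inl a)
      have h00 : s t ≠ 0 := fun a => n1 (Or.inr (by simp [a]))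
      have hl : s t ≠ l := fun a => n1 (Or.inr (by simp [a]))
      have hI : s t ∈ Ioo 0 l :=
        ⟨lt_of_le_of_ne (hs t htG).1 h00.symm, lt_of_le_of_ne (hs t htG).2 hl⟩
      refine ⟨hA, ?_, hI⟩
      by_contra hB
      exact n2 ⟨hI, hA, hB⟩
    obtain ⟨a1, a2, a3⟩ := h1 t htG
    have e0 := ev_hor h0 a1 a2 a3
    have e1 := ev_hor h hsI.2.2 hsI.1 hsI.2.1
    obtain ⟨δ1, hδ1, e, he, hx⟩ := hol (hS t htG) (e0.mono fun _ a => a.1)
      (e1.mono fun _ a => a.1)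
    obtain ⟨δ2, hδ2, hv⟩ := Metric.eventually_nhds_iff.mp e1
    refine ⟨min δ1 δ2, lt_min hδ1 hδ2, e, he, fun x hx' => ⟨hx x ?_, ?_⟩⟩
    · exact ⟨by linarith [hx'.1, min_le_left δ1 δ2], by linarith [hx'.2, min_le_left δ1 δ2]⟩
    · apply (hv _).2
      rw [Real.dist_eq, add_sub_cancel_left, abs_lt]
      exact ⟨by linarith [hx'.1, min_le_right δ1 δ2], by linarith [hx'.2, min_le_right δ1 δ2]⟩
  choose! δ hδ e he hx using hloc
  obtain ⟨T, hTH, hTc, hcov⟩ := TopologicalSpace.countable_cover_nhdsWithin (s := H)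
    (f := fun t => Ioo (t - δ t) (t + δ t)) (fun t ht => mem_nhdsWithin_of_mem_nhds
      (Ioo_mem_nhds (by linarith [hδ t ht]) (by linarith [hδ t ht])))
  rcases T.eq_empty_or_nonempty with hT0 | hT0
  · have hH0 : H = ∅ := by
      rw [hT0] at hcov
      simpa using hcov
    rw [hH0]
    simp
  obtain ⟨f, hf⟩ := hTc.exists_eq_range hT0
  have hfH : ∀ n, f n ∈ H := fun n => hTH (by rw [hf]; exact mem_range_self n)
  obtain ⟨I, hI⟩ : ∃ I : ℕ → Set ℝ, I = fun n => Ioo (f n - δ (f n)) (f n + δ (f n)) := ⟨_, rfl⟩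
  have hIm : ∀ n, MeasurableSet (I n) := fun n => by
    rw [hI]
    exact measurableSet_Ioo
  obtain ⟨D, hD⟩ : ∃ D : ℕ → Set ℝ, D = fun n => H ∩ disjointed I n := ⟨_, rfl⟩
  have hDm : ∀ n, MeasurableSet (D n) := fun n => by
    rw [hD]
    exact hHm.inter (MeasurableSet.disjointed hIm n)
  have hDd : Pairwise (Function.onFun Disjoint D) := by
    rw [hD]
    intro i j hij
    exact ((disjoint_disjointed I) hij).mono inter_subset_right inter_subset_right
  have hDU : H ⊆ ⋃ n, D n := by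
    intro t ht
    have a : t ∈ ⋃ n, disjointed I n := by
      rw [iUnion_disjointed]
      have b := hcov ht
      rw [mem_iUnion₂] at b
      obtain ⟨u, hu, hu'⟩ := b
      rw [hf] at hu
      obtain ⟨n, rfl⟩ := hu
      rw [mem_iUnion]
      refine ⟨n, ?_⟩
      rw [hI]
      exact hu'
    rw [mem_iUnion] at a ⊢
    obtain ⟨n, hn⟩ := a
    refine ⟨n, ?_⟩
    rw [hD]
    exact ⟨ht, hn⟩
  have hDH : ∀ n, ∀ x ∈ D n, x ∈ H ∧ x - f n ∈ Ioo (-(δ (f n))) (δ (f n)) := by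
    intro n x hx
    rw [hD] at hx
    have a := disjointed_subset I n hx.2
    rw [hI] at a
    exact ⟨hx.1, by linarith [a.1], by linarith [a.2]⟩
  obtain ⟨E, hE⟩ : ∃ E : ℕ → Set ℝ,
      E = fun n => (fun y => f n + e (f n) * (y - s (f n))) ⁻¹' D n := ⟨_, rfl⟩
  have hEm : ∀ n, MeasurableSet (E n) := fun n => by
    rw [hE]
    exact (mp _ _ _ (he _ (hfH n))).measurable (hDm n)
  have hEv : ∀ n, volume (E n) = volume (D n) := fun n => by
    rw [hE]
    exact (mp _ _ _ (he _ (hfH n))).measure_preimage (hDm n).nullMeasurableSet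
  have hEx : ∀ n, ∀ y ∈ E n, ∃ x ∈ D n, x = f n + e (f n) * (y - s (f n)) ∧
      HC Q.neg (c0 x) (c y) (S (f n)) ∧ y ∈ B ∧ y ∈ Ioo 0 l := by
    intro n y hy
    rw [hE] at hy
    have hee : e (f n) * e (f n) = 1 := by
      rcases he _ (hfH n) with a | a <;> rw [a] <;> norm_num
    refine ⟨_, hy, rfl, ?_, ?_⟩
    · have a := (hDH n _ hy).2
      have b := (hx _ (hfH n) _ a).1
      rw [add_sub_cancel, add_sub_cancel_left, ← mul_assoc, hee, one_mul,
        add_sub_cancel] at b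
      exact b
    · have a := (hDH n _ hy).2
      rw [add_sub_cancel_left] at a
      have b : y - s (f n) ∈ Ioo (-(δ (f n))) (δ (f n)) := by
        rcases he _ (hfH n) with k | k
        · rw [k, one_mul] at a
          exact a
        · rw [k] at a
          exact ⟨by linarith [a.2], by linarith [a.1]⟩
      have d := (hx _ (hfH n) _ b).2
      rw [add_sub_cancel] at d
      exact d
  have hEd : Pairwise (Function.onFun Disjoint E) := by
    intro i j hij
    rw [Function.onFun, Set.disjoint_left]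
    intro y hy hy'
    obtain ⟨x, hx1, -, hx2, -⟩ := hEx i y hy
    obtain ⟨x', hx1', -, hx2', -⟩ := hEx j y hy'
    have a := key x (hHG (hDH i x hx1).1) x' (hHG (hDH j x' hx1').1) _ _ _ hx2 hx2'
    rw [← a] at hx1'
    exact Set.disjoint_left.mp (hDd hij) hx1 hx1'
  calc volume H ≤ volume (⋃ n, D n) := measure_mono hDU
    _ = ∑' n, volume (D n) := measure_iUnion hDd hDm
    _ = ∑' n, volume (E n) := by simp only [hEv]
    _ = volume (⋃ n, E n) := (measure_iUnion hEd hEm).symm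
    _ ≤ volume (B ∩ Icc 0 l) := by
      refine measure_mono (iUnion_subset fun n y hy => ?_)
      obtain ⟨x, -, -, -, a, b⟩ := hEx n y hy
      exact ⟨a, Ioo_subset_Icc_self b⟩

end Pool.Agent.ANO2.Geo2
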