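import Pool.Agent.ANO2.Geo2.NBBase

/-!
# ANO phase 2, Geo2: the winding of a holomorphic function along a closed curve
-/

set_option autoImplicit false

open Set Filter Topology

namespace Pool.Agent.ANO2.Geo2

theorem exists_compact_convex {U C : Set ℂ} (hU : IsOpen U) (hUc : Convex ℝ U)
    (hC : IsCompact C) (hCU : C ⊆ U) :
    ∃ K, IsCompact K ∧ Convex ℝ K ∧ C ⊆ K ∧ K ⊆ U := by
  have key : ∃ u : Set ℂ, u.Finite ∧ u ⊆ U ∧ C ⊆ convexHull ℝ u := by
    refine hC.induction_on (p := fun s => ∃ u : Set ℂ, u.Finite ∧ u ⊆ U ∧ s ⊆ convexHull ℝ u)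
      ?_ ?_ ?_ ?_
    · exact ⟨∅, finite_empty, empty_subset _, empty_subset _⟩
    · rintro s t hst ⟨u, h1, h2, h3⟩
      exact ⟨u, h1, h2, hst.trans h3⟩
    · rintro s t ⟨u, h1, h2, h3⟩ ⟨v, h4, h5, h6⟩
      exact ⟨u ∪ v, h1.union h4, union_subset h2 h5,
        union_subset (h3.trans (convexHull_mono subset_union_left))
          (h6.trans (convexHull_mono subset_union_right))⟩
    · intro x hx
      obtain ⟨u, h1, h2⟩ :=
        (convex_singleton x).exists_subset_interior_convexHull_finset_of_isCompact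
          isCompact_singleton (t := U) (by
            rw [nhdsSet_singleton]
            exact hU.mem_nhds (hCU hx))
      refine ⟨convexHull ℝ (u : Set ℂ), mem_nhdsWithin_of_mem_nhds ?_, (u : Set ℂ),
        u.finite_toSet, (subset_convexHull ℝ _).trans h2, subset_rfl⟩
      exact mem_interior_iff_mem_nhds.mp (h1 rfl)
  obtain ⟨u, h1, h2, h3⟩ := key
  exact ⟨convexHull ℝ u, h1.isCompact_convexHull ℝ, convex_convexHull ℝ u, h3,
    convexHull_min h2 hUc⟩

theorem finite_zeros {U K : Set ℂ} (hU : IsOpen U) (hUc : Convex ℝ U) (hK : IsCompact K)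
    (hKU : K ⊆ U) {g : ℂ → ℂ} (hg : DifferentiableOn ℂ g U) {z₁ : ℂ} (h1 : z₁ ∈ U)
    (h2 : g z₁ ≠ 0) : {z ∈ K | g z = 0}.Finite := by
  by_contra hinf
  obtain ⟨z₀, hz₀, hacc⟩ :=
    Set.Infinite.exists_accPt_of_subset_isCompact hinf hK (sep_subset _ _)
  have han : AnalyticOnNhd ℂ g U := hg.analyticOnNhd hU
  have hfr : ∃ᶠ z in 𝓝[≠] z₀, g z = 0 :=
    (accPt_iff_frequently_nhdsNE.mp hacc).mono (fun z hz => hz.2)
  exact h2 (han.eqOn_zero_of_preconnected_of_frequently_eq_zero hUc.isPreconnected (hKU hz₀)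
    hfr h1)

theorem wd_zero_free {P : ℝ} {γ : ℝ → ℂ} (hγ : ContinuousOn γ (Icc 0 P)) (h0 : γ 0 = γ P)
    {U K : Set ℂ} (hU : IsOpen U) (hK : IsCompact K) (hKc : Convex ℝ K)
    (hKU : K ⊆ U) (hγK : ∀ t ∈ Icc 0 P, γ t ∈ K) {g : ℂ → ℂ} (hg : DifferentiableOn ℂ g U)
    (hne : ∀ z ∈ K, g z ≠ 0) (hP : 0 ≤ P) : Wd P (fun t => g (γ t)) 0 := by
  have hO : IsOpen (U ∩ g ⁻¹' {0}ᶜ) :=
    hg.continuousOn.isOpen_inter_preimage hU isOpen_compl_singleton
  obtain ⟨δ, hδ, hsub⟩ := hK.exists_thickening_subset_open hO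
    (fun z hz => ⟨hKU hz, hne z hz⟩)
  have hKT : K ⊆ Metric.thickening δ K := Metric.self_subset_thickening hδ K
  have hTn : (Metric.thickening δ K).Nonempty := ⟨γ 0, hKT (hγK 0 (left_mem_Icc.mpr hP))⟩
  obtain ⟨l, hl, hE⟩ := Complex.exists_continuousOn_eqOn_exp_comp
    (simply_of_convex (hKc.thickening δ) hTn) Metric.isOpen_thickening
    (g := g) (hg.continuousOn.mono (fun z hz => (hsub hz).1)) (by
      rintro ⟨z, hz, h⟩
      exact (hsub hz).2 h)
  refine ⟨fun t => l (γ t), hl.comp hγ (fun t ht => hKT (hγK t ht)), fun t ht =>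
    hE (hKT (hγK t ht)), ?_⟩
  simp [h0]

theorem wd_holo {P : ℝ} {γ : ℝ → ℂ} (hγ : ContinuousOn γ (Icc 0 P)) (h0 : γ 0 = γ P)
    (hP : 0 ≤ P) {w : ℝ}
    (hind : ∀ a, (∀ t ∈ Icc 0 P, γ t ≠ a) → Wd P (fun t => γ t - a) 0 ∨
      Wd P (fun t => γ t - a) w)
    {U K : Set ℂ} (hU : IsOpen U) (hUc : Convex ℝ U) (hK : IsCompact K) (hKc : Convex ℝ K)
    (hKU : K ⊆ U) (hγK : ∀ t ∈ Icc 0 P, γ t ∈ K) :
    ∀ (n : ℕ) (g : ℂ → ℂ), DifferentiableOn ℂ g U → (∀ t ∈ Icc 0 P, g (γ t) ≠ 0) →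
      {z ∈ K | g z = 0}.ncard = n → ∃ N : ℕ, Wd P (fun t => g (γ t)) (N * w) := by
  intro n
  induction n using Nat.strong_induction_on with
  | _ n ih =>
    intro g hg hgγ hn
    have hfin := finite_zeros hU hUc hK hKU hg (hKU (hγK 0 (left_mem_Icc.mpr hP)))
      (hgγ 0 (left_mem_Icc.mpr hP))
    by_cases hem : {z ∈ K | g z = 0} = ∅
    · refine ⟨0, ?_⟩
      rw [Nat.cast_zero, zero_mul]
      apply wd_zero_free hγ h0 hU hK hKc hKU hγK hg _ hP
      intro z hz h
      have : z ∈ {z ∈ K | g z = 0} := ⟨hz, h⟩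
      rw [hem] at this
      exact this
    · obtain ⟨a, haK, hga⟩ := nonempty_iff_ne_empty.mpr hem
      have haU : a ∈ U := hKU haK
      have han : AnalyticOnNhd ℂ g U := hg.analyticOnNhd hU
      obtain ⟨p, hp⟩ := han a haU
      have hp0 : p ≠ 0 := by
        intro hp0
        have h1 := hp.locally_zero_iff.mpr hp0
        have h2 := han.eqOn_zero_of_preconnected_of_eventuallyEq_zero hUc.isPreconnected haU h1
        exact hgγ 0 (left_mem_Icc.mpr hP) (h2 (hKU (hγK 0 (left_mem_Icc.mpr hP))))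
      set g₁ := (Function.swap dslope a)^[p.order] g with hg₁
      have hg₁d : DifferentiableOn ℂ g₁ U := by
        have : ∀ m : ℕ, DifferentiableOn ℂ ((Function.swap dslope a)^[m] g) U := by
          intro m
          induction m with
          | zero => exact hg
          | succ m ihm =>
            rw [Function.iterate_succ_apply']
            exact (Complex.differentiableOn_dslope (hU.mem_nhds haU)).mpr ihm
        exact this _
      have hfac : ∀ z, g z = (z - a) ^ p.order * g₁ z := fun z => by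
        rw [hp.eq_pow_order_mul_iterate_dslope z, smul_eq_mul]
      have hg₁a : g₁ a ≠ 0 := hp.iterate_dslope_fslope_ne_zero hp0
      have hg₁γ : ∀ t ∈ Icc 0 P, g₁ (γ t) ≠ 0 := by
        intro t ht h
        apply hgγ t ht
        rw [hfac, h, mul_zero]
      have hlt : {z ∈ K | g₁ z = 0}.ncard < n := by
        rw [← hn]
        apply Set.ncard_lt_ncard _ hfin
        refine ⟨fun z hz => ⟨hz.1, ?_⟩, fun hsub => ?_⟩
        · rw [hfac, hz.2, mul_zero]
        · exact hg₁a (hsub ⟨haK, hga⟩).2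
      obtain ⟨N, hN⟩ := ih _ hlt g₁ hg₁d hg₁γ rfl
      have haγ : ∀ t ∈ Icc 0 P, γ t ≠ a := by
        intro t ht h
        apply hgγ t ht
        rw [h, hga]
      rcases hind a haγ with h1 | h1
      · refine ⟨N, ?_⟩
        have h2 := (h1.pow p.order).mul hN
        rw [mul_zero, zero_add] at h2
        exact h2.congr (fun t _ => (hfac _).symm)
      · refine ⟨p.order + N, ?_⟩
        have h2 := (h1.pow p.order).mul hN
        rw [← add_mul, ← Nat.cast_add] at h2
        exact h2.congr (fun t _ => (hfac _).symm)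

end Pool.Agent.ANO2.Geo2
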