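import Pool.Agent.ANO2.Geo2.NBBase

/-!
# ANO phase 2, Geo2: periodic extension of a simple closed curve, change of the base point
-/

set_option autoImplicit false

open Set Filter Topology MeasureTheory

namespace Pool.Agent.ANO2.Geo2

/-- The periodic extension of a function on `[0, P]`. -/
noncomputable def ext (P : ℝ) (f : ℝ → ℂ) (t : ℝ) : ℂ := f (P * Int.fract (t / P))

theorem ext_eq {P : ℝ} (hP : 0 < P) {f : ℝ → ℂ} (h0 : f 0 = f P) {t : ℝ} (ht : t ∈ Icc 0 P) :
    ext P f t = f t := by
  unfold ext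
  rcases eq_or_lt_of_le ht.2 with h | h
  · rw [h, div_self hP.ne', Int.fract_one, mul_zero, h0]
  · have : Int.fract (t / P) = t / P := by
      rw [Int.fract_eq_self]
      exact ⟨div_nonneg ht.1 hP.le, (div_lt_one hP).mpr h⟩
    rw [this, mul_div_cancel₀ _ hP.ne']

theorem ext_periodic {P : ℝ} (hP : 0 < P) (f : ℝ → ℂ) : Function.Periodic (ext P f) P := by
  intro t
  unfold ext
  rw [add_div, div_self hP.ne', Int.fract_add_one]

theorem continuous_ext {P : ℝ} (hP : 0 < P) {f : ℝ → ℂ} (hf : ContinuousOn f (Icc 0 P))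
    (h0 : f 0 = f P) : Continuous (ext P f) := by
  have h1 : ContinuousOn (fun s => f (P * s)) (Icc (0 : ℝ) 1) := by
    apply hf.comp (by fun_prop)
    intro s hs
    exact ⟨mul_nonneg hP.le hs.1, mul_le_of_le_one_right hP.le hs.2⟩
  have h2 := h1.comp_fract'' (by simp only [mul_zero, mul_one]; exact h0)
  exact h2.comp (continuous_id.div_const P)

theorem SimpleClosed.pc {P : ℝ} {γ V : ℝ → ℂ} {F : Set ℝ} (h : SimpleClosed P γ V F) :
    PC P (ext P γ) (ext P V) := by
  have hP := h.pos
  have hV := continuous_ext hP h.contV h.closedV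
  have hint : ∀ s ∈ Icc 0 P, γ s = γ 0 + ∫ x in (0 : ℝ)..s, ext P V x := by
    intro s hs
    have h1 := integral_eq_of_hasDerivAt_off_countable_of_le γ (ext P V) hs.1
      (s := F) h.fin.countable (h.cont.mono (Icc_subset_Icc_right hs.2)) (fun x hx => by
        have h2 : x ∈ Ioo 0 P := ⟨hx.1.1, hx.1.2.trans_le hs.2⟩
        rw [ext_eq hP h.closedV ⟨h2.1.le, h2.2.le⟩]
        exact h.deriv x h2 hx.2) (hV.intervalIntegrable _ _)
    rw [h1]
    ring
  have hint' : ∀ t, ext P γ t = γ 0 + ∫ x in (0 : ℝ)..t, ext P V x := by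
    intro t
    have h1 : P * Int.fract (t / P) ∈ Icc 0 P :=
      ⟨mul_nonneg hP.le (Int.fract_nonneg _), mul_le_of_le_one_right hP.le (Int.fract_lt_one _).le⟩
    have h2 : t = P * Int.fract (t / P) + ⌊t / P⌋ • P := by
      rw [Int.fract, zsmul_eq_mul]
      field_simp
      ring
    unfold ext
    rw [hint _ h1]
    congr 1
    have h3 := (ext_periodic hP V).intervalIntegral_add_zsmul_eq ⌊t / P⌋
      (P * Int.fract (t / P)) (hV.intervalIntegrable)
    have h4 : ∫ x in (P * Int.fract (t / P))..(P * Int.fract (t / P) + P), ext P V x = 0 := by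
      rw [(ext_periodic hP V).intervalIntegral_add_eq _ 0, zero_add]
      have h5 := hint P (right_mem_Icc.mpr hP.le)
      rw [← h.closed] at h5
      exact (add_eq_left.mp h5.symm)
    rw [h4, smul_zero, ← h2] at h3
    have h6 := intervalIntegral.integral_add_adjacent_intervals
      (hV.intervalIntegrable 0 (P * Int.fract (t / P)))
      (hV.intervalIntegrable (P * Int.fract (t / P)) t) (μ := volume)
    rw [h3, add_zero] at h6
    exact h6
  refine ⟨hP, hV, fun t => ?_, ext_periodic hP γ, ext_periodic hP V, fun t => ?_,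
    fun t s hs1 hs2 heq => ?_⟩
  · have h1 := (hV.integral_hasStrictDerivAt 0 t).hasDerivAt.const_add (γ 0)
    exact h1.congr_of_eventuallyEq (Eventually.of_forall hint')
  · exact h.ne _ ⟨mul_nonneg hP.le (Int.fract_nonneg _),
      mul_le_of_le_one_right hP.le (Int.fract_lt_one _).le⟩
  · unfold ext at heq
    have h1 : ∀ x : ℝ, P * Int.fract x ∈ Ico 0 P := fun x =>
      ⟨mul_nonneg hP.le (Int.fract_nonneg _), mul_lt_of_lt_one_right hP (Int.fract_lt_one _)⟩
    have h2 := h.inj _ (h1 _) _ (h1 _) heq
    have h3 := mul_left_cancel₀ hP.ne' h2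
    rw [Int.fract_eq_fract] at h3
    obtain ⟨z, hz⟩ := h3
    have h4 : s / P = z := by
      rw [← hz]
      ring
    have h5 : (0 : ℝ) < z := by
      rw [← h4]
      exact div_pos hs1 hP
    have h6 : (z : ℝ) < 1 := by
      rw [← h4]
      exact (div_lt_one hP).mpr hs2
    have h7 : (0 : ℤ) < z := by exact_mod_cast h5
    have h8 : z < 1 := by exact_mod_cast h6
    omega

theorem PC.shift {P : ℝ} {γ V : ℝ → ℂ} (h : PC P γ V) (a : ℝ) :
    PC P (fun t => γ (t + a)) (fun t => V (t + a)) where
  pos := h.pos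
  contV := h.contV.comp (by fun_prop)
  der t := (h.der (t + a)).comp_add_const t a
  per t := by
    have := h.per (t + a)
    change γ (t + P + a) = γ (t + a)
    rw [← this]
    congr 1
    ring
  perV t := by
    have := h.perV (t + a)
    change V (t + P + a) = V (t + a)
    rw [← this]
    congr 1
    ring
  ne t := h.ne _
  inj t s h1 h2 := by
    have := h.inj (t + a) s h1 h2
    rwa [show t + a + s = t + s + a by ring] at this

/-- The winding of a periodic function does not depend on the base point. -/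
theorem Wd.unshift {P : ℝ} (hP : 0 ≤ P) {f : ℝ → ℂ} (hf : Continuous f)
    (hper : Function.Periodic f P) (hne : ∀ t, f t ≠ 0) {a w : ℝ}
    (h : Wd P (fun t => f (t + a)) w) : Wd P f w := by
  obtain ⟨L, hL, hE⟩ := exists_lift f hf hne
  refine ⟨L, hL.continuousOn, fun t _ => hE t, ?_⟩
  have h1 := h.eq_of_lift hP (L := fun t => L (t + a))
    (hL.comp (by fun_prop)).continuousOn (fun t _ => hE (t + a))
  have h2 := lift_unique (S := (univ : Set ℝ)) isPreconnected_univ
    (L := fun t => L (t + P)) (M := L) (hL.comp (by fun_prop)).continuousOn hL.continuousOn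
    (fun t _ => by rw [hE, hE]; exact hper t) (mem_univ 0) (mem_univ a)
  simp only [zero_add] at h1 h2
  rw [← h1]
  congr 1
  rw [add_comm P a]
  linear_combination -h2

end Pool.Agent.ANO2.Geo2
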