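import Pool.Agent.ANO2.Geo2.NBInd
import Pool.Agent.ANO2.Geo2.NBHolo
import Pool.Agent.ANO2.Geo2.NBPer

/-!
# ANO phase 2, Geo2: the rotation of a simple closed curve with respect to `q`
-/

set_option autoImplicit false

open Set Filter Topology

namespace Pool.Agent.ANO2.Geo2

/-- The argument of `q(γ) (γ')²` changes by at least `4 π` in absolute value along a simple closed
`C¹` curve `γ` which avoids the zeros of `q`. -/
theorem gb (Q : QD) {P : ℝ} {γ V : ℝ → ℂ} {F : Set ℝ} (h : SimpleClosed P γ V F)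
    (hU : ∀ t ∈ Icc 0 P, γ t ∈ Q.U ∧ Q.q (γ t) ≠ 0) (L : ℝ → ℂ) (hL : ContinuousOn L (Icc 0 P))
    (hexp : ∀ t ∈ Icc 0 P, Complex.exp (L t) = Q.q (γ t) * V t ^ 2) :
    4 * Real.pi ≤ |(L P - L 0).im| := by
  have hP := h.pos
  have hpc := h.pc
  set g := ext P γ with hg
  set W := ext P V with hW
  have hgc := hpc.cont
  have hgU : ∀ t, g t ∈ Q.U ∧ Q.q (g t) ≠ 0 := by
    intro t
    obtain ⟨y, hy, hyt⟩ := hpc.per.exists_mem_Ico₀ hP t
    rw [hyt, hg, ext_eq hP h.closed (Ico_subset_Icc_self hy)]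
    exact hU y (Ico_subset_Icc_self hy)
  -- the lowest point
  obtain ⟨t₀, ht₀, hmin⟩ := isCompact_Icc.exists_isMinOn (nonempty_Icc.mpr hP.le)
    (f := fun t => (g t).im) (s := Icc 0 P) (Complex.continuous_im.comp hgc).continuousOn
  have hlow : ∀ t, (g t₀).im ≤ (g t).im := by
    intro t
    obtain ⟨y, hy, hyt⟩ := hpc.per.exists_mem_Ico₀ hP t
    rw [hyt]
    exact hmin (Ico_subset_Icc_self hy)
  have hs := hpc.shift t₀
  have hlow' : ∀ t, (g (0 + t₀)).im ≤ (g (t + t₀)).im := by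
    intro t
    rw [zero_add]
    exact hlow _
  obtain ⟨hV0, ε, hε, hwV⟩ := hopf hs hlow'
  have hind := ind hs hlow' hV0 hε
  -- the quadratic differential along the shifted curve
  have hcomp : IsCompact (range g) := hpc.per.compact_of_continuous hP.ne' hgc
  obtain ⟨K, hK, hKc, hgK, hKU⟩ := exists_compact_convex Q.isOpen Q.convex hcomp
    (by rintro _ ⟨t, rfl⟩; exact (hgU t).1)
  obtain ⟨N, hN⟩ := wd_holo (P := P) (γ := fun t => g (t + t₀)) (w := 2 * Real.pi * ε)
    hs.cont.continuousOn hs.closed hP.le (fun a ha => by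
      apply hind a
      intro t
      obtain ⟨y, hy, hyt⟩ := hs.per.exists_mem_Ico₀ hP t
      have := ha y (Ico_subset_Icc_self hy)
      have hyt' : g (t + t₀) = g (y + t₀) := hyt
      rw [hyt']
      exact this) Q.isOpen Q.convex hK hKc hKU (fun t _ => hgK (mem_range_self _)) _ Q.q Q.holo
      (fun t _ => (hgU _).2) rfl
  have htot := hN.mul (hwV.pow 2)
  have hqc : Continuous (fun t => Q.q (g t) * W t ^ 2) := by
    apply Continuous.mul _ (hpc.contV.pow 2)
    rw [← continuousOn_univ]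
    exact Q.holo.continuousOn.comp hgc.continuousOn (fun t _ => (hgU t).1)
  have hqp : Function.Periodic (fun t => Q.q (g t) * W t ^ 2) P := by
    intro t
    change Q.q (g (t + P)) * W (t + P) ^ 2 = Q.q (g t) * W t ^ 2
    rw [hpc.per t, hpc.perV t]
  have hqn : ∀ t, Q.q (g t) * W t ^ 2 ≠ 0 := fun t =>
    mul_ne_zero (hgU t).2 (pow_ne_zero 2 (hpc.ne t))
  have hwd : Wd P (fun t => Q.q (g t) * W t ^ 2)
      (N * (2 * Real.pi * ε) + (2 : ℕ) * (2 * Real.pi * ε)) :=
    Wd.unshift hP.le hqc hqp hqn htot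
  have hfin := hwd.eq_of_lift hP.le hL (fun t ht => by
    rw [hexp t ht, hg, hW, ext_eq hP h.closed ht, ext_eq hP h.closedV ht])
  rw [hfin]
  have hN0 : (0 : ℝ) ≤ N := Nat.cast_nonneg N
  have hpi := Real.pi_pos
  have hval : |(N : ℝ) * (2 * Real.pi * ε) + (2 : ℕ) * (2 * Real.pi * ε)| =
      (N + 2) * (2 * Real.pi) := by
    have h1 : (N : ℝ) * (2 * Real.pi * ε) + (2 : ℕ) * (2 * Real.pi * ε) =
        (N + 2) * (2 * Real.pi) * ε := by
      push_cast
      ring
    have h2 : |ε| = 1 := by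
      rcases hε with ⟨h3, -⟩ | ⟨h3, -⟩ <;> rw [h3]
      · exact abs_one
      · rw [abs_neg, abs_one]
    rw [h1, abs_mul, h2, mul_one, abs_of_nonneg (by positivity)]
  rw [hval]
  nlinarith

end Pool.Agent.ANO2.Geo2
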