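import Pool.Agent.ANO2.Geo2.Defs
import Mathlib.Analysis.Complex.BranchLogRoot

/-!
# ANO phase 2, Geo2: the change of the argument along a path

`Wd P f w`: the argument of `f` changes by `w` along `[0, P]`.
-/

set_option autoImplicit false

open Set Filter Topology

namespace Pool.Agent.ANO2.Geo2

theorem simply_of_convex {E : Type*} [AddCommGroup E] [Module ℝ E] [TopologicalSpace E]
    [ContinuousAdd E] [ContinuousSMul ℝ E] {s : Set E} (hs : Convex ℝ s) (hn : s.Nonempty) :
    IsSimplyConnected s := by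
  have := hs.contractibleSpace hn
  exact (inferInstance : SimplyConnectedSpace s)

/-- A continuous nowhere zero function on the line has a continuous logarithm. -/
theorem exists_lift (f : ℝ → ℂ) (hf : Continuous f) (h0 : ∀ t, f t ≠ 0) :
    ∃ L : ℝ → ℂ, Continuous L ∧ ∀ t, Complex.exp (L t) = f t := by
  have hs : IsSimplyConnected (univ : Set ℝ) := simply_of_convex convex_univ univ_nonempty
  obtain ⟨L, hL, hE⟩ := Complex.exists_continuousOn_eqOn_exp_comp hs isOpen_univ
    hf.continuousOn (by rintro ⟨t, -, ht⟩; exact h0 t ht)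
  exact ⟨L, continuousOn_univ.mp hL, fun t => hE (mem_univ t)⟩

/-- A continuous nowhere zero function on the plane has a continuous logarithm. -/
theorem exists_lift₂ (f : ℝ × ℝ → ℂ) (hf : Continuous f) (h0 : ∀ t, f t ≠ 0) :
    ∃ L : ℝ × ℝ → ℂ, Continuous L ∧ ∀ t, Complex.exp (L t) = f t := by
  have hs : IsSimplyConnected (univ : Set (ℝ × ℝ)) := simply_of_convex convex_univ univ_nonempty
  obtain ⟨L, hL, hE⟩ := Complex.exists_continuousOn_eqOn_exp_comp hs isOpen_univ
    hf.continuousOn (by rintro ⟨t, -, ht⟩; exact h0 t ht)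
  exact ⟨L, continuousOn_univ.mp hL, fun t => hE (mem_univ t)⟩

/-- Two continuous logarithms of the same function on a preconnected set differ by a constant. -/
theorem lift_unique {X : Type*} [TopologicalSpace X] {S : Set X} (hS : IsPreconnected S)
    {L M : X → ℂ} (hL : ContinuousOn L S) (hM : ContinuousOn M S)
    (h : ∀ t ∈ S, Complex.exp (L t) = Complex.exp (M t)) {a b : X} (ha : a ∈ S) (hb : b ∈ S) :
    L b - L a = M b - M a := by
  have hc : ContinuousOn (fun t => (L t - M t) / (2 * Real.pi * Complex.I)) S :=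
    (hL.sub hM).div_const _
  have hd : ∀ t ∈ S, ∃ n : ℤ, (L t - M t) / (2 * Real.pi * Complex.I) = n := by
    intro t ht
    obtain ⟨n, hn⟩ := Complex.exp_eq_exp_iff_exists_int.mp (h t ht)
    refine ⟨n, ?_⟩
    rw [hn, add_sub_cancel_left, mul_div_cancel_right₀]
    exact Complex.two_pi_I_ne_zero
  have key : (L a - M a) / (2 * Real.pi * Complex.I) = (L b - M b) / (2 * Real.pi * Complex.I) := by
    have hi : IsPreconnected ((fun t => (L t - M t) / (2 * Real.pi * Complex.I)) '' S) :=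
      hS.image _ hc
    have hsub : (fun t => (L t - M t) / (2 * Real.pi * Complex.I)) '' S ⊆
        range ((↑) : ℤ → ℂ) := by
      rintro _ ⟨t, ht, rfl⟩
      obtain ⟨n, hn⟩ := hd t ht
      exact ⟨n, hn.symm⟩
    have hcl : Topology.IsClosedEmbedding ((↑) : ℤ → ℂ) := Complex.isClosedEmbedding_intCast
    have hdisc : IsTotallyDisconnected (range ((↑) : ℤ → ℂ)) := by
      have := hcl.isEmbedding.isTotallyDisconnected_range
      exact this.mpr inferInstance
    exact hdisc _ hsub hi ⟨a, ha, rfl⟩ ⟨b, hb, rfl⟩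
  have h2 : L a - M a = L b - M b := by
    field_simp at key
    exact key
  linear_combination -h2

/-- The argument of `f` changes by `w` along `[0, P]`. -/
def Wd (P : ℝ) (f : ℝ → ℂ) (w : ℝ) : Prop :=
  ∃ L : ℝ → ℂ, ContinuousOn L (Icc 0 P) ∧ (∀ t ∈ Icc 0 P, Complex.exp (L t) = f t) ∧
    (L P - L 0).im = w

theorem Wd.eq_of_lift {P : ℝ} (hP : 0 ≤ P) {f : ℝ → ℂ} {w : ℝ} (h : Wd P f w) {L : ℝ → ℂ}
    (hL : ContinuousOn L (Icc 0 P)) (hE : ∀ t ∈ Icc 0 P, Complex.exp (L t) = f t) :
    (L P - L 0).im = w := by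
  obtain ⟨M, hM, hEM, hw⟩ := h
  rw [← hw, lift_unique isPreconnected_Icc hL hM (fun t ht => by rw [hE t ht, hEM t ht])
    (left_mem_Icc.mpr hP) (right_mem_Icc.mpr hP)]

theorem Wd.unique {P : ℝ} (hP : 0 ≤ P) {f : ℝ → ℂ} {w w' : ℝ} (h : Wd P f w)
    (h' : Wd P f w') : w = w' := by
  obtain ⟨M, hM, hEM, hw⟩ := h'
  exact (h.eq_of_lift hP hM hEM).symm.trans hw

theorem Wd.congr {P : ℝ} {f g : ℝ → ℂ} {w : ℝ} (h : Wd P f w)
    (hfg : ∀ t ∈ Icc 0 P, f t = g t) : Wd P g w := by
  obtain ⟨M, hM, hEM, hw⟩ := h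
  exact ⟨M, hM, fun t ht => (hEM t ht).trans (hfg t ht), hw⟩

theorem Wd.mul {P : ℝ} {f g : ℝ → ℂ} {v w : ℝ} (hf : Wd P f v) (hg : Wd P g w) :
    Wd P (fun t => f t * g t) (v + w) := by
  obtain ⟨L, hL, hEL, hv⟩ := hf
  obtain ⟨M, hM, hEM, hw⟩ := hg
  refine ⟨fun t => L t + M t, hL.add hM, fun t ht => by rw [Complex.exp_add, hEL t ht, hEM t ht],
    ?_⟩
  rw [← hv, ← hw]
  simp only [Complex.sub_im, Complex.add_im]
  ring

theorem Wd.pow {P : ℝ} {f : ℝ → ℂ} {v : ℝ} (hf : Wd P f v) (n : ℕ) :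
    Wd P (fun t => f t ^ n) (n * v) := by
  obtain ⟨L, hL, hEL, hv⟩ := hf
  refine ⟨fun t => n * L t, continuousOn_const.mul hL, fun t ht => by
    rw [Complex.exp_nat_mul, hEL t ht], ?_⟩
  rw [← hv, ← mul_sub]
  simp

/-- A function with values in the slit plane and equal end values: the argument does not
change. -/
theorem Wd.of_slit {P : ℝ} {f : ℝ → ℂ} (hf : ContinuousOn f (Icc 0 P))
    (hs : ∀ t ∈ Icc 0 P, f t ∈ Complex.slitPlane) (h0 : f 0 = f P) : Wd P f 0 := by
  refine ⟨fun t => Complex.log (f t), hf.clog hs, fun t ht =>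
    Complex.exp_log (Complex.slitPlane_ne_zero (hs t ht)), ?_⟩
  simp [h0]

/-- Nearby closed curves have the same winding. -/
theorem Wd.near {P : ℝ} {f g : ℝ → ℂ} {w : ℝ} (h : Wd P f w)
    (hf : ContinuousOn f (Icc 0 P)) (hg : ContinuousOn g (Icc 0 P))
    (hn : ∀ t ∈ Icc 0 P, ‖g t - f t‖ < ‖f t‖) (f0 : f 0 = f P) (g0 : g 0 = g P) :
    Wd P g w := by
  have hne : ∀ t ∈ Icc 0 P, f t ≠ 0 := by
    intro t ht h0
    have := hn t ht
    rw [h0] at this
    simp only [norm_zero, sub_zero] at this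
    exact absurd this (not_lt.mpr (norm_nonneg _))
  have hs : Wd P (fun t => g t / f t) 0 := by
    refine Wd.of_slit (hg.div hf hne) (fun t ht => ?_) (by rw [f0, g0])
    apply Complex.ball_one_subset_slitPlane
    have : g t / f t - 1 = (g t - f t) / f t := by
      rw [sub_div, div_self (hne t ht)]
    rw [mem_ball_iff_norm, this, norm_div, div_lt_one (norm_pos_iff.mpr (hne t ht))]
    exact hn t ht
  have := h.mul hs
  rw [add_zero] at this
  exact this.congr (fun t ht => mul_div_cancel₀ _ (hne t ht))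

/-- A closed simple regular curve of class `C¹`, parametrized periodically. -/
structure PC (P : ℝ) (γ V : ℝ → ℂ) : Prop where
  pos : 0 < P
  contV : Continuous V
  der : ∀ t, HasDerivAt γ (V t) t
  per : Function.Periodic γ P
  perV : Function.Periodic V P
  ne : ∀ t, V t ≠ 0
  inj : ∀ t h, 0 < h → h < P → γ (t + h) ≠ γ t

theorem PC.cont {P : ℝ} {γ V : ℝ → ℂ} (h : PC P γ V) : Continuous γ :=
  continuous_iff_continuousAt.mpr (fun t => (h.der t).continuousAt)

/-- The difference quotient, extended by the derivative. -/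
noncomputable def sec (V : ℝ → ℂ) (p : ℝ × ℝ) : ℂ := ∫ v in (0 : ℝ)..1, V (p.1 + p.2 * v)

theorem continuous_sec {V : ℝ → ℂ} (hV : Continuous V) : Continuous (sec V) := by
  unfold sec
  apply intervalIntegral.continuous_parametric_intervalIntegral_of_continuous'
  fun_prop

theorem sec_zero (V : ℝ → ℂ) (t : ℝ) : sec V (t, 0) = V t := by
  simp [sec]

theorem PC.sec_mul {P : ℝ} {γ V : ℝ → ℂ} (h : PC P γ V) (t s : ℝ) :
    (s : ℂ) * sec V (t, s) = γ (t + s) - γ t := by
  have h1 : ∀ v : ℝ, HasDerivAt (fun v : ℝ => γ (t + s * v)) ((s : ℂ) * V (t + s * v)) v := by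
    intro v
    have h2 : HasDerivAt (fun v : ℝ => t + s * v) s v := by
      simpa using ((hasDerivAt_id v).const_mul s).const_add t
    have h3 := (h.der (t + s * v)).scomp v h2
    simpa [Function.comp_def] using h3
  have h2 := intervalIntegral.integral_eq_sub_of_hasDerivAt (a := 0) (b := 1)
    (fun v _ => h1 v) (by
      apply Continuous.intervalIntegrable
      have := h.contV
      fun_prop)
  rw [intervalIntegral.integral_const_mul] at h2
  simp only [mul_one, mul_zero, add_zero] at h2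
  exact h2

end Pool.Agent.ANO2.Geo2
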