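import Pool.Agent.ANO2.Geo2.NBBase

/-!
# ANO phase 2, Geo2: the rotation number of a simple closed curve (Hopf)
-/

set_option autoImplicit false

open Set Filter Topology

namespace Pool.Agent.ANO2.Geo2

/-- The secant function of a closed curve on the strip, clamped outside of `0 ≤ h ≤ P`. -/
noncomputable def secant (P : ℝ) (V : ℝ → ℂ) (p : ℝ × ℝ) : ℂ :=
  if p.2 ≤ P / 2 then
    sec V (p.1, max 0 (min p.2 (P / 2))) / ((P - max 0 (min p.2 (P / 2)) : ℝ) : ℂ)
  else
    - sec V (p.1, max (P / 2) (min p.2 P) - P) / ((max (P / 2) (min p.2 P) : ℝ) : ℂ)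

theorem PC.sec_ne {P : ℝ} {γ V : ℝ → ℂ} (h : PC P γ V) (t s : ℝ) (h1 : -P < s) (h2 : s < P) :
    sec V (t, s) ≠ 0 := by
  rcases lt_trichotomy s 0 with hs | hs | hs
  · intro h0
    have h3 := h.sec_mul t s
    rw [h0, mul_zero] at h3
    have h4 := h.inj (t + s) (-s) (by linarith) (by linarith)
    rw [add_neg_cancel_right] at h4
    exact h4 (sub_eq_zero.mp h3.symm).symm
  · rw [hs, sec_zero]
    exact h.ne t
  · intro h0
    have h3 := h.sec_mul t s
    rw [h0, mul_zero] at h3
    exact h.inj t s hs h2 (sub_eq_zero.mp h3.symm)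

theorem PC.continuous_secant {P : ℝ} {γ V : ℝ → ℂ} (h : PC P γ V) :
    Continuous (secant P V) := by
  have hP := h.pos
  have hs := continuous_sec h.contV
  unfold secant
  apply Continuous.if_le _ _ continuous_snd continuous_const
  · rintro ⟨t, s⟩ hts
    simp only at hts ⊢
    subst hts
    have e1 : max 0 (min (P / 2) (P / 2)) = P / 2 := by
      rw [min_self, max_eq_right (by linarith)]
    have e2 : max (P / 2) (min (P / 2) P) = P / 2 := by
      rw [min_eq_left (by linarith), max_self]
    rw [e1, e2]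
    have h1 := h.sec_mul t (P / 2)
    have h2 := h.sec_mul t (P / 2 - P)
    have h3 : γ (t + (P / 2 - P)) = γ (t + P / 2) := by
      rw [← h.per (t + (P / 2 - P))]
      congr 1
      ring
    rw [h3, ← h1] at h2
    have h4 : ((P / 2 - P : ℝ) : ℂ) = -((P / 2 : ℝ) : ℂ) := by
      push_cast
      ring
    rw [h4] at h2
    have h5 : ((P / 2 : ℝ) : ℂ) ≠ 0 := by
      exact_mod_cast (by linarith : P / 2 ≠ 0)
    have h6 : - sec V (t, P / 2 - P) = sec V (t, P / 2) := by
      apply mul_left_cancel₀ h5
      rw [← h2]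
      ring
    rw [h6]
    congr 2
    ring
  · apply Continuous.div
    · exact hs.comp (by fun_prop)
    · exact Complex.continuous_ofReal.comp (by fun_prop)
    · rintro ⟨t, s⟩
      have : (0 : ℝ) < P - max 0 (min s (P / 2)) := by
        have : max 0 (min s (P / 2)) ≤ P / 2 := max_le (by linarith) (min_le_right _ _)
        linarith
      exact_mod_cast this.ne'
  · apply Continuous.div
    · exact (hs.comp (by fun_prop)).neg
    · exact Complex.continuous_ofReal.comp (by fun_prop)
    · rintro ⟨t, s⟩
      have : (0 : ℝ) < max (P / 2) (min s P) := lt_max_of_lt_left (by linarith)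
      exact_mod_cast this.ne'

theorem PC.secant_ne {P : ℝ} {γ V : ℝ → ℂ} (h : PC P γ V) (p : ℝ × ℝ) : secant P V p ≠ 0 := by
  have hP := h.pos
  obtain ⟨t, s⟩ := p
  unfold secant
  split_ifs with hs
  · apply div_ne_zero
    · apply h.sec_ne
      · have : (0 : ℝ) ≤ max 0 (min s (P / 2)) := le_max_left _ _
        simp only
        linarith
      · have : max 0 (min s (P / 2)) ≤ P / 2 := max_le (by linarith) (min_le_right _ _)
        simp only
        linarith
    · have : (0 : ℝ) < P - max 0 (min s (P / 2)) := by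
        have : max 0 (min s (P / 2)) ≤ P / 2 := max_le (by linarith) (min_le_right _ _)
        linarith
      exact_mod_cast this.ne'
  · apply div_ne_zero
    · rw [neg_ne_zero]
      apply h.sec_ne
      · have : P / 2 ≤ max (P / 2) (min s P) := le_max_left _ _
        simp only
        linarith
      · have : max (P / 2) (min s P) ≤ P := max_le (by linarith) (min_le_right _ _)
        simp only
        linarith
    · have : (0 : ℝ) < max (P / 2) (min s P) := lt_max_of_lt_left (by linarith)
      exact_mod_cast this.ne'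

theorem PC.secant_mul {P : ℝ} {γ V : ℝ → ℂ} (h : PC P γ V) (t s : ℝ) (h1 : 0 ≤ s) (h2 : s ≤ P) :
    ((s * (P - s) : ℝ) : ℂ) * secant P V (t, s) = γ (t + s) - γ t := by
  have hP := h.pos
  unfold secant
  split_ifs with hs
  · simp only at hs ⊢
    rw [min_eq_left hs, max_eq_right h1, ← h.sec_mul t s]
    have : ((P - s : ℝ) : ℂ) ≠ 0 := by
      exact_mod_cast (by linarith : P - s ≠ 0)
    rw [Complex.ofReal_mul]
    field_simp
  · simp only at hs ⊢
    push Not at hs
    rw [min_eq_left h2, max_eq_right hs.le]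
    have h3 := h.sec_mul t (s - P)
    have h4 : γ (t + (s - P)) = γ (t + s) := by
      rw [← h.per (t + (s - P))]
      congr 1
      ring
    rw [h4] at h3
    rw [← h3]
    have : (s : ℂ) ≠ 0 := by
      exact_mod_cast (by linarith : s ≠ 0)
    push_cast
    field_simp
    ring

theorem PC.secant_zero {P : ℝ} {γ V : ℝ → ℂ} (h : PC P γ V) (t : ℝ) :
    secant P V (t, 0) = V t / (P : ℂ) := by
  have hP := h.pos
  unfold secant
  simp only
  rw [if_pos (by linarith), min_eq_left (by linarith), max_self, sec_zero, sub_zero]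

theorem PC.secant_P {P : ℝ} {γ V : ℝ → ℂ} (h : PC P γ V) (t : ℝ) :
    secant P V (t, P) = - V t / (P : ℂ) := by
  have hP := h.pos
  unfold secant
  simp only
  rw [if_neg (by linarith), min_self, max_eq_right (by linarith), sub_self, sec_zero]

/-- The change of the argument along a path in the closed upper half plane. -/
theorem half_up {P : ℝ} (hP : 0 ≤ P) {f L : ℝ → ℂ} (hL : ContinuousOn L (Icc 0 P))
    (hE : ∀ t ∈ Icc 0 P, Complex.exp (L t) = f t) (him : ∀ t ∈ Icc 0 P, 0 ≤ (f t).im)
    {c c' : ℝ} (h0 : f 0 = c) (h1 : f P = -(c' : ℂ)) :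
    (0 < c → 0 < c' → (L P - L 0).im = Real.pi) ∧
      (c < 0 → c' < 0 → (L P - L 0).im = -Real.pi) := by
  have hf : ContinuousOn f (Icc 0 P) :=
    (Complex.continuous_exp.comp_continuousOn hL).congr (fun t ht => (hE t ht).symm)
  have hne : ∀ t ∈ Icc 0 P, f t ≠ 0 := fun t ht => by
    rw [← hE t ht]
    exact Complex.exp_ne_zero _
  have hs : ∀ t ∈ Icc 0 P, f t / Complex.I ∈ Complex.slitPlane := by
    intro t ht
    rw [Complex.mem_slitPlane_iff, Complex.div_I]
    have h2 := him t ht
    have h3 := hne t ht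
    simp only [Complex.neg_re, Complex.mul_re, Complex.I_re, mul_zero, Complex.I_im,
      mul_one, zero_sub, neg_neg, Complex.neg_im, Complex.mul_im, add_zero]
    by_cases h4 : (f t).im = 0
    · right
      intro h5
      apply h3
      apply Complex.ext
      · simpa using h5
      · simpa using h4
    · left
      exact lt_of_le_of_ne h2 (Ne.symm h4)
  have hM : ContinuousOn (fun t => Complex.log (f t / Complex.I) + Complex.log Complex.I)
      (Icc 0 P) := by
    apply ContinuousOn.add _ continuousOn_const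
    exact (hf.div_const _).clog hs
  have key := lift_unique isPreconnected_Icc hL hM (fun t ht => by
    rw [hE t ht, Complex.exp_add, Complex.exp_log (Complex.slitPlane_ne_zero (hs t ht)),
      Complex.exp_log Complex.I_ne_zero, div_mul_cancel₀ _ Complex.I_ne_zero])
    (left_mem_Icc.mpr hP) (right_mem_Icc.mpr hP)
  rw [key]
  simp only [add_sub_add_right_eq_sub, Complex.sub_im, Complex.log_im]
  rw [h0, h1]
  have e1 : (c : ℂ) / Complex.I = (c : ℂ) * (-Complex.I) := by
    rw [Complex.div_I]
    ring
  have e2 : -(c' : ℂ) / Complex.I = (c' : ℂ) * Complex.I := by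
    rw [Complex.div_I]
    ring
  rw [e1, e2]
  constructor
  · intro hc hc'
    rw [Complex.arg_real_mul _ hc, Complex.arg_real_mul _ hc', Complex.arg_I, Complex.arg_neg_I]
    ring
  · intro hc hc'
    have e3 : (c : ℂ) * (-Complex.I) = ((-c : ℝ) : ℂ) * Complex.I := by
      push_cast
      ring
    have e4 : (c' : ℂ) * Complex.I = ((-c' : ℝ) : ℂ) * (-Complex.I) := by
      push_cast
      ring
    rw [e3, e4, Complex.arg_real_mul _ (by linarith), Complex.arg_real_mul _ (by linarith),
      Complex.arg_I, Complex.arg_neg_I]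
    ring

/-- **Hopf's theorem.**  The rotation number of a simple closed curve is `±1`. -/
theorem hopf {P : ℝ} {γ V : ℝ → ℂ} (h : PC P γ V) (hlow : ∀ t, (γ 0).im ≤ (γ t).im) :
    (V 0).im = 0 ∧ ∃ ε : ℝ, ((ε = 1 ∧ 0 < (V 0).re) ∨ (ε = -1 ∧ (V 0).re < 0)) ∧
      Wd P V (2 * Real.pi * ε) := by
  have hP := h.pos
  have hPc : (P : ℂ) ≠ 0 := by exact_mod_cast hP.ne'
  -- the secants at the base point are in the closed upper half plane
  have hup : ∀ s ∈ Icc 0 P, 0 ≤ (secant P V (0, s)).im := by
    have hcl : IsClosed {s : ℝ | 0 ≤ (secant P V (0, s)).im} := by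
      apply isClosed_le continuous_const
      exact Complex.continuous_im.comp (h.continuous_secant.comp (by fun_prop))
    have hsub : Ioo 0 P ⊆ {s : ℝ | 0 ≤ (secant P V (0, s)).im} := by
      intro s hs
      have h1 := h.secant_mul 0 s hs.1.le hs.2.le
      have h2 : 0 ≤ (γ (0 + s) - γ 0).im := by
        rw [Complex.sub_im]
        linarith [hlow (0 + s)]
      rw [← h1, Complex.im_ofReal_mul] at h2
      exact nonneg_of_mul_nonneg_right h2 (mul_pos hs.1 (by linarith [hs.2]))
    have := hcl.closure_subset_iff.mpr hsub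
    rw [closure_Ioo hP.ne] at this
    exact fun s hs => this hs
  have hV0 : (V 0).im = 0 := by
    have h1 := hup 0 (left_mem_Icc.mpr hP.le)
    have h2 := hup P (right_mem_Icc.mpr hP.le)
    rw [h.secant_zero, Complex.div_ofReal_im] at h1
    rw [h.secant_P, Complex.div_ofReal_im, Complex.neg_im, neg_div] at h2
    have h3 : (V 0).im / P = 0 := by linarith
    rcases div_eq_zero_iff.mp h3 with h4 | h4
    · exact h4
    · exact absurd h4 hP.ne'
  have hre : V 0 = ((V 0).re : ℂ) := by
    apply Complex.ext
    · simp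
    · simpa using hV0
  have hre0 : (V 0).re ≠ 0 := by
    intro h0
    apply h.ne 0
    rw [hre, h0, Complex.ofReal_zero]
  refine ⟨hV0, ?_⟩
  obtain ⟨Λ, hΛ, hE⟩ := exists_lift₂ (secant P V) h.continuous_secant h.secant_ne
  -- first side of the triangle
  have s1 := half_up (f := fun s => secant P V (0, s)) (L := fun s => Λ (0, s)) hP.le
    (hΛ.comp (by fun_prop)).continuousOn (fun s _ => hE _) hup (c := (V 0).re / P)
    (c' := (V 0).re / P) (by
      rw [h.secant_zero, Complex.ofReal_div, ← hre]) (by
      rw [h.secant_P, Complex.ofReal_div, ← hre, neg_div])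
  -- second side of the triangle
  have hdiag : ∀ s ∈ Icc 0 P, secant P V (s, P - s) = - secant P V (0, s) := by
    have hcl : IsClosed {s : ℝ | secant P V (s, P - s) = - secant P V (0, s)} := by
      apply isClosed_eq
      · exact h.continuous_secant.comp (by fun_prop)
      · exact (h.continuous_secant.comp (by fun_prop)).neg
    have hsub : Ioo 0 P ⊆ {s : ℝ | secant P V (s, P - s) = - secant P V (0, s)} := by
      intro s hs
      have h1 := h.secant_mul 0 s hs.1.le hs.2.le
      have h2 := h.secant_mul s (P - s) (by linarith [hs.2]) (by linarith [hs.1])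
      have h3 : γ (s + (P - s)) = γ 0 := by
        have := h.per 0
        rw [zero_add] at this
        rw [← this]
        congr 1
        ring
      rw [zero_add] at h1
      rw [h3] at h2
      have h4 : (((P - s) * (P - (P - s)) : ℝ) : ℂ) = ((s * (P - s) : ℝ) : ℂ) := by
        congr 1
        ring
      rw [h4] at h2
      have h5 : ((s * (P - s) : ℝ) : ℂ) ≠ 0 := by
        exact_mod_cast (mul_pos hs.1 (by linarith [hs.2])).ne'
      apply mul_left_cancel₀ h5
      rw [h2, mul_neg, h1]
      ring
    have := hcl.closure_subset_iff.mpr hsub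
    rw [closure_Ioo hP.ne] at this
    exact fun s hs => this hs
  have s2 := half_up (f := fun s => secant P V (0, s))
    (L := fun s => Λ (s, P - s) + Real.pi * Complex.I) hP.le
    ((hΛ.comp (by fun_prop)).add continuous_const).continuousOn (fun s hs => by
      rw [Complex.exp_add, hE, hdiag s hs, Complex.exp_pi_mul_I]
      ring) hup (c := (V 0).re / P)
    (c' := (V 0).re / P) (by
      rw [h.secant_zero, Complex.ofReal_div, ← hre]) (by
      rw [h.secant_P, Complex.ofReal_div, ← hre, neg_div])
  simp only [sub_self, sub_zero, add_sub_add_right_eq_sub] at s2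
  have hw : ∀ w : ℝ, (Λ (P, 0) - Λ (0, 0)).im = w → Wd P V w := by
    intro w hw
    refine ⟨fun t => Λ (t, 0) + (Real.log P : ℂ), ?_, fun t _ => ?_, ?_⟩
    · exact ((hΛ.comp (by fun_prop)).add continuous_const).continuousOn
    · rw [Complex.exp_add, hE, h.secant_zero, ← Complex.ofReal_exp, Real.exp_log hP,
        div_mul_cancel₀ _ hPc]
    · rw [← hw]
      congr 1
      ring
  rcases lt_or_gt_of_ne hre0 with hneg | hpos
  · refine ⟨-1, Or.inr ⟨rfl, hneg⟩, hw _ ?_⟩
    have a1 := s1.2 (div_neg_of_neg_of_pos hneg hP) (div_neg_of_neg_of_pos hneg hP)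
    have a2 := s2.2 (div_neg_of_neg_of_pos hneg hP) (div_neg_of_neg_of_pos hneg hP)
    rw [Complex.sub_im] at a1 a2 ⊢
    linarith
  · refine ⟨1, Or.inl ⟨rfl, hpos⟩, hw _ ?_⟩
    have a1 := s1.1 (div_pos hpos hP) (div_pos hpos hP)
    have a2 := s2.1 (div_pos hpos hP) (div_pos hpos hP)
    rw [Complex.sub_im] at a1 a2 ⊢
    linarith

end Pool.Agent.ANO2.Geo2
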