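import Pool.Agent.ANO2.Geo2.NBHopf

/-!
# ANO phase 2, Geo2: winding numbers of points with respect to a simple closed curve
-/

set_option autoImplicit false

open Set Filter Topology

namespace Pool.Agent.ANO2.Geo2

theorem PC.sub_ne {P : ℝ} {γ V : ℝ → ℂ} (_h : PC P γ V) {a : ℂ} (ha : ∀ t, γ t ≠ a) (t : ℝ) :
    γ t - a ≠ 0 := sub_ne_zero.mpr (ha t)

theorem PC.closed {P : ℝ} {γ V : ℝ → ℂ} (h : PC P γ V) : γ 0 = γ P := by
  have := h.per 0
  rwa [zero_add, eq_comm] at this

theorem PC.near {P : ℝ} {γ V : ℝ → ℂ} (h : PC P γ V) {a b : ℂ} {w : ℝ}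
    (hab : ∀ t, ‖b - a‖ < ‖γ t - a‖) (hw : Wd P (fun t => γ t - a) w) :
    Wd P (fun t => γ t - b) w := by
  have hc := h.cont
  apply hw.near (by fun_prop) (by fun_prop)
  · intro t _
    have : γ t - b - (γ t - a) = -(b - a) := by ring
    rw [this, norm_neg]
    exact hab t
  · rw [h.closed]
  · rw [h.closed]

/-- The winding number is constant on preconnected sets which avoid the curve. -/
theorem PC.const {P : ℝ} {γ V : ℝ → ℂ} (h : PC P γ V) {S : Set ℂ} (hS : IsPreconnected S)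
    (hav : ∀ z ∈ S, ∀ t, γ t ≠ z) {a b : ℂ} (ha : a ∈ S) (hb : b ∈ S) {w : ℝ}
    (hw : Wd P (fun t => γ t - a) w) : Wd P (fun t => γ t - b) w := by
  have hcl : IsClosed (range γ) :=
    (h.per.compact_of_continuous h.pos.ne' h.cont).isClosed
  refine hS.induction₂' (fun x y => ∀ w, Wd P (fun t => γ t - x) w → Wd P (fun t => γ t - y) w)
    ?_ ?_ ha hb w hw
  · intro x hx
    have hx' : x ∉ range γ := by
      rintro ⟨t, ht⟩
      exact hav x hx t ht
    have hpos : 0 < Metric.infDist x (range γ) :=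
      (hcl.notMem_iff_infDist_pos ⟨γ 0, mem_range_self 0⟩).mp hx'
    have hev : ∀ᶠ y in 𝓝[S] x, ‖y - x‖ < Metric.infDist x (range γ) / 2 := by
      apply mem_nhdsWithin_of_mem_nhds
      have := Metric.ball_mem_nhds x (half_pos hpos)
      filter_upwards [this] with y hy
      rwa [mem_ball_iff_norm] at hy
    filter_upwards [hev] with y hy
    have hd : ∀ t, Metric.infDist x (range γ) ≤ ‖γ t - x‖ := by
      intro t
      rw [← dist_eq_norm, dist_comm]
      exact Metric.infDist_le_dist_of_mem (mem_range_self t)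
    refine ⟨fun w hw => h.near (fun t => ?_) hw, fun w hw => h.near (fun t => ?_) hw⟩
    · have := hd t
      linarith
    · have h1 := hd t
      have h2 : ‖γ t - x‖ ≤ ‖γ t - y‖ + ‖y - x‖ := by
        have : γ t - x = (γ t - y) + (y - x) := by ring
        rw [this]
        exact norm_add_le _ _
      rw [norm_sub_rev]
      linarith
  · intro x y z _ _ _ h1 h2 w hw
    exact h2 w (h1 w hw)

/-- Points below the curve have winding number zero. -/
theorem PC.below {P : ℝ} {γ V : ℝ → ℂ} (h : PC P γ V) {a : ℂ}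
    (ha : ∀ t, a.im < (γ t).im) : Wd P (fun t => γ t - a) 0 := by
  have hc := h.cont
  apply Wd.of_slit (by fun_prop)
  · intro t _
    rw [Complex.mem_slitPlane_iff, Complex.sub_im]
    right
    have := ha t
    intro h0
    linarith
  · rw [h.closed]

/-- There are no points of the curve on the normals at small distance. -/
theorem PC.collar {P : ℝ} {γ V : ℝ → ℂ} (h : PC P γ V) :
    ∃ δ > 0, ∀ t ∈ Icc 0 P, ∀ ρ : ℝ, ρ ≠ 0 → |ρ| < δ → ∀ s, γ s ≠ γ t + ρ * Complex.I * V t := by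
  have hP := h.pos
  have hs := continuous_sec h.contV
  have hVc := h.contV
  -- lower bound for the difference quotient
  obtain ⟨c, hc, hcb⟩ : ∃ c > 0, ∀ t ∈ Icc 0 P, ∀ x ∈ Icc (-(P / 2)) (P / 2),
      c ≤ ‖sec V (t, x)‖ := by
    have hK : IsCompact (Icc 0 P ×ˢ Icc (-(P / 2)) (P / 2)) := isCompact_Icc.prod isCompact_Icc
    obtain ⟨p, hp, hmin⟩ := hK.exists_isMinOn
      ⟨(0, 0), ⟨left_mem_Icc.mpr hP.le, by constructor <;> simp only <;> linarith⟩⟩
      (f := fun p => ‖sec V p‖) (by fun_prop)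
    refine ⟨‖sec V p‖, ?_, fun t ht x hx => hmin (show (t, x) ∈ _ from ⟨ht, hx⟩)⟩
    rw [gt_iff_lt, norm_pos_iff]
    exact h.sec_ne p.1 p.2 (by linarith [hp.2.1]) (by linarith [hp.2.2])
  -- upper bound for the speed
  obtain ⟨M, hM⟩ : ∃ M, ∀ t ∈ Icc 0 P, ‖V t‖ ≤ M :=
    isCompact_Icc.exists_bound_of_continuousOn h.contV.continuousOn
  have hM0 : 0 < M := (norm_pos_iff.mpr (h.ne 0)).trans_le (hM 0 (left_mem_Icc.mpr hP.le))
  -- uniform differentiability
  obtain ⟨η, hη, hηb⟩ : ∃ η > 0, ∀ x : ℝ, |x| < η → ∀ t ∈ Icc 0 P,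
      ‖sec V (t, x) - V t‖ < ‖V t‖ := by
    have hev : ∀ᶠ x in 𝓝 (0 : ℝ), ∀ t ∈ Icc 0 P, ‖sec V (t, x) - V t‖ < ‖V t‖ := by
      apply isCompact_Icc.eventually_forall_of_forall_eventually
      intro t _
      have hcont : Continuous (fun z : ℝ × ℝ => ‖V z.2‖ - ‖sec V (z.2, z.1) - V z.2‖) := by
        fun_prop
      have h0 : 0 < ‖V t‖ - ‖sec V (t, 0) - V t‖ := by
        rw [sec_zero, sub_self, norm_zero, sub_zero]
        exact norm_pos_iff.mpr (h.ne t)
      have := (hcont.tendsto ((0 : ℝ), t)).eventually (lt_mem_nhds h0)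
      filter_upwards [this] with z hz
      linarith
    obtain ⟨η, hη, hηb⟩ := Metric.eventually_nhds_iff.mp hev
    exact ⟨η, hη, fun x hx => hηb (by rwa [Real.dist_eq, sub_zero])⟩
  refine ⟨c * η / M, by positivity, fun t ht ρ hρ hρδ s hst => ?_⟩
  -- the parameter difference, reduced modulo the period
  set n := round ((s - t) / P) with hn
  set x := s - t - n * P with hx
  have hxP : |x| ≤ P / 2 := by
    have h1 := abs_sub_round ((s - t) / P)
    have h2 : x = P * ((s - t) / P - n) := by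
      rw [hx]
      field_simp
    rw [h2, abs_mul, abs_of_pos hP]
    nlinarith
  have hγ : γ (t + x) = γ s := by
    have h1 : t + x = s - n * P := by
      rw [hx]
      ring
    rw [h1]
    exact h.per.sub_int_mul_eq n
  have h3 := h.sec_mul t x
  rw [hγ, hst, add_sub_cancel_left] at h3
  have hx0 : x ≠ 0 := by
    intro h0
    rw [h0] at h3
    simp only [Complex.ofReal_zero, zero_mul] at h3
    have := mul_ne_zero (mul_ne_zero (Complex.ofReal_ne_zero.mpr hρ) Complex.I_ne_zero) (h.ne t)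
    exact this h3.symm
  have h4 : |x| * c ≤ |ρ| * M := by
    have h5 : ‖(x : ℂ) * sec V (t, x)‖ = ‖(ρ : ℂ) * Complex.I * V t‖ := by rw [h3]
    rw [norm_mul, norm_mul, norm_mul, Complex.norm_I, mul_one, Complex.norm_real,
      Complex.norm_real, Real.norm_eq_abs, Real.norm_eq_abs] at h5
    have h6 := hcb t ht x (abs_le.mp hxP)
    calc |x| * c ≤ |x| * ‖sec V (t, x)‖ := by gcongr
      _ = |ρ| * ‖V t‖ := h5
      _ ≤ |ρ| * M := by
        gcongr
        exact hM t ht
  have h7 : |x| < η := by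
    have h8 : |ρ| * M < c * η := by
      rw [lt_div_iff₀ hM0] at hρδ
      exact hρδ
    have h9 : |x| * c < η * c := by linarith
    exact lt_of_mul_lt_mul_right h9 hc.le
  have h10 := hηb x h7 t ht
  have hxc : (x : ℂ) ≠ 0 := Complex.ofReal_ne_zero.mpr hx0
  have h11 : sec V (t, x) = ((ρ / x : ℝ) : ℂ) * Complex.I * V t := by
    apply mul_left_cancel₀ hxc
    rw [h3]
    push_cast
    field_simp
  rw [h11] at h10
  have h12 : ((ρ / x : ℝ) : ℂ) * Complex.I * V t - V t =
      (((ρ / x : ℝ) : ℂ) * Complex.I - 1) * V t := by ring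
  rw [h12, norm_mul] at h10
  have h13 : 1 ≤ ‖((ρ / x : ℝ) : ℂ) * Complex.I - 1‖ := by
    have := Complex.abs_re_le_norm (((ρ / x : ℝ) : ℂ) * Complex.I - 1)
    simpa using this
  have h14 : ‖V t‖ ≤ ‖((ρ / x : ℝ) : ℂ) * Complex.I - 1‖ * ‖V t‖ :=
    le_mul_of_one_le_left (norm_nonneg _) h13
  linarith

/-- The jump of the logarithm across the negative half line. -/
theorem arg_jump {P : ℝ} (hP : 0 < P) {f L : ℝ → ℂ} (hL : ContinuousOn L (Icc 0 P))
    (hE : ∀ t ∈ Icc 0 P, Complex.exp (L t) = f t) (hs : ∀ t ∈ Ioo 0 P, f t ∈ Complex.slitPlane)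
    (h0r : (f 0).re < 0) (h0i : (f 0).im = 0) (hPf : f P = f 0)
    {η : ℝ} (hη : 0 < η) (hl : ∀ t ∈ Ioo 0 P, t < η → (f t).im < 0)
    (hr : ∀ t ∈ Ioo 0 P, P - η < t → 0 < (f t).im) : (L P - L 0).im = 2 * Real.pi := by
  have hf : ContinuousOn f (Icc 0 P) :=
    (Complex.continuous_exp.comp_continuousOn hL).congr (fun t ht => (hE t ht).symm)
  have hm : P / 2 ∈ Ioo 0 P := ⟨by linarith, by linarith⟩
  have key : ∀ t ∈ Ioo 0 P, (L t).im = (f t).arg + ((L (P / 2)).im - (f (P / 2)).arg) := by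
    intro t ht
    have h1 := lift_unique isPreconnected_Ioo (hL.mono Ioo_subset_Icc_self)
      (M := fun t => Complex.log (f t)) ((hf.mono Ioo_subset_Icc_self).clog hs)
      (fun x hx => by rw [hE x (Ioo_subset_Icc_self hx),
        Complex.exp_log (Complex.slitPlane_ne_zero (hs x hx))]) hm ht
    have h2 := congrArg Complex.im h1
    simp only [Complex.sub_im, Complex.log_im] at h2
    linarith
  -- the limit at the left end
  have hleft : (L 0).im = -Real.pi + ((L (P / 2)).im - (f (P / 2)).arg) := by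
    have t1 : Tendsto (fun t => (L t).im) (𝓝[Ioo 0 P] 0) (𝓝 (L 0).im) := by
      have := (hL 0 (left_mem_Icc.mpr hP.le)).mono (Ioo_subset_Icc_self (a := 0) (b := P))
      exact (Complex.continuous_im.tendsto _).comp this
    have t2 : Tendsto f (𝓝[Ioo 0 P] 0) (𝓝[{z : ℂ | z.im < 0}] (f 0)) := by
      apply tendsto_nhdsWithin_iff.mpr
      refine ⟨(hf 0 (left_mem_Icc.mpr hP.le)).mono Ioo_subset_Icc_self, ?_⟩
      have h1 : ∀ᶠ t in 𝓝[Ioo 0 P] 0, t < η := mem_nhdsWithin_of_mem_nhds (gt_mem_nhds hη)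
      filter_upwards [h1, self_mem_nhdsWithin] with t ht1 ht2
      exact hl t ht2 ht1
    have t3 := (Complex.tendsto_arg_nhdsWithin_im_neg_of_re_neg_of_im_zero h0r h0i).comp t2
    have t4 : Tendsto (fun t => (L t).im) (𝓝[Ioo 0 P] 0)
        (𝓝 (-Real.pi + ((L (P / 2)).im - (f (P / 2)).arg))) := by
      refine (t3.add_const _).congr' ?_
      filter_upwards [self_mem_nhdsWithin] with t ht
      exact (key t ht).symm
    have hne : (𝓝[Ioo 0 P] (0 : ℝ)).NeBot := by
      rw [← mem_closure_iff_nhdsWithin_neBot, closure_Ioo hP.ne]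
      exact left_mem_Icc.mpr hP.le
    exact tendsto_nhds_unique t1 t4
  have hright : (L P).im = Real.pi + ((L (P / 2)).im - (f (P / 2)).arg) := by
    have t1 : Tendsto (fun t => (L t).im) (𝓝[Ioo 0 P] P) (𝓝 (L P).im) := by
      have := (hL P (right_mem_Icc.mpr hP.le)).mono (Ioo_subset_Icc_self (a := 0) (b := P))
      exact (Complex.continuous_im.tendsto _).comp this
    have t2 : Tendsto f (𝓝[Ioo 0 P] P) (𝓝[{z : ℂ | 0 ≤ z.im}] (f 0)) := by
      apply tendsto_nhdsWithin_iff.mpr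
      refine ⟨?_, ?_⟩
      · have := (hf P (right_mem_Icc.mpr hP.le)).mono (Ioo_subset_Icc_self (a := 0) (b := P))
        rw [← hPf]
        exact this
      have h1 : ∀ᶠ t in 𝓝[Ioo 0 P] P, P - η < t :=
        mem_nhdsWithin_of_mem_nhds (lt_mem_nhds (by linarith))
      filter_upwards [h1, self_mem_nhdsWithin] with t ht1 ht2
      exact (hr t ht2 ht1).le
    have t3 := (Complex.tendsto_arg_nhdsWithin_im_nonneg_of_re_neg_of_im_zero h0r h0i).comp t2
    have t4 : Tendsto (fun t => (L t).im) (𝓝[Ioo 0 P] P)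
        (𝓝 (Real.pi + ((L (P / 2)).im - (f (P / 2)).arg))) := by
      refine (t3.add_const _).congr' ?_
      filter_upwards [self_mem_nhdsWithin] with t ht
      exact (key t ht).symm
    have hne : (𝓝[Ioo 0 P] P).NeBot := by
      rw [← mem_closure_iff_nhdsWithin_neBot, closure_Ioo hP.ne]
      exact right_mem_Icc.mpr hP.le
    exact tendsto_nhds_unique t1 t4
  rw [Complex.sub_im, hleft, hright]
  ring

/-- The jump in the opposite direction. -/
theorem arg_jump' {P : ℝ} (hP : 0 < P) {f L : ℝ → ℂ} (hL : ContinuousOn L (Icc 0 P))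
    (hE : ∀ t ∈ Icc 0 P, Complex.exp (L t) = f t) (hs : ∀ t ∈ Ioo 0 P, f t ∈ Complex.slitPlane)
    (h0r : (f 0).re < 0) (h0i : (f 0).im = 0) (hPf : f P = f 0)
    {η : ℝ} (hη : 0 < η) (hl : ∀ t ∈ Ioo 0 P, t < η → 0 < (f t).im)
    (hr : ∀ t ∈ Ioo 0 P, P - η < t → (f t).im < 0) : (L P - L 0).im = -(2 * Real.pi) := by
  have h1 := arg_jump hP (f := fun t => (starRingEnd ℂ) (f t))
    (L := fun t => (starRingEnd ℂ) (L t)) (Complex.continuous_conj.comp_continuousOn hL)
    (fun t ht => by rw [Complex.exp_conj, hE t ht]) (fun t ht => by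
      have := hs t ht
      rw [Complex.mem_slitPlane_iff] at this ⊢
      simpa using this) (by simpa using h0r) (by simpa using h0i) (by simp only [hPf]) hη
    (fun t ht h => by simpa using hl t ht h) (fun t ht h => by simpa using hr t ht h)
  rw [← map_sub, Complex.conj_im] at h1
  linarith

/-- The point just above the lowest point has winding number `±1`. -/
theorem PC.above {P : ℝ} {γ V : ℝ → ℂ} (h : PC P γ V) (hlow : ∀ t, (γ 0).im ≤ (γ t).im)
    {ε : ℝ} (hε : (ε = 1 ∧ 0 < (V 0).re) ∨ (ε = -1 ∧ (V 0).re < 0)) :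
    ∃ τ > 0, ∀ r : ℝ, 0 < r → r < τ →
      (∀ t, γ t ≠ γ 0 + r * Complex.I) → Wd P (fun t => γ t - (γ 0 + r * Complex.I))
        (2 * Real.pi * ε) := by
  have hP := h.pos
  have hc := h.cont
  have hs := continuous_sec h.contV
  -- the sign of the real part of the secant at the base point
  obtain ⟨η, hη, hηb⟩ : ∃ η > 0, ∀ x : ℝ, |x| < η → 0 < ε * (sec V (0, x)).re := by
    have hcont : Continuous (fun x : ℝ => ε * (sec V (0, x)).re) :=
      continuous_const.mul (Complex.continuous_re.comp (hs.comp (by fun_prop)))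
    have h0 : 0 < ε * (sec V (0, 0)).re := by
      rw [sec_zero]
      rcases hε with ⟨h1, h2⟩ | ⟨h1, h2⟩
      · rw [h1, one_mul]
        exact h2
      · rw [h1]
        linarith
    have := (hcont.tendsto 0).eventually (lt_mem_nhds h0)
    obtain ⟨η, hη, hηb⟩ := Metric.eventually_nhds_iff.mp this
    exact ⟨η, hη, fun x hx => hηb (by rwa [Real.dist_eq, sub_zero])⟩
  set ζ := min η (P / 2) with hζ
  have hζ0 : 0 < ζ := lt_min hη (by linarith)
  -- distance from the base point on the middle part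
  obtain ⟨m, hm, hmb⟩ : ∃ m > 0, ∀ t ∈ Icc ζ (P - ζ), m ≤ ‖γ t - γ 0‖ := by
    have hne : (Icc ζ (P - ζ)).Nonempty := by
      rw [nonempty_Icc]
      have := min_le_right η (P / 2)
      linarith
    obtain ⟨p, hp, hmin⟩ := isCompact_Icc.exists_isMinOn hne
      (f := fun t => ‖γ t - γ 0‖) (by fun_prop)
    refine ⟨‖γ p - γ 0‖, ?_, fun t ht => hmin ht⟩
    rw [gt_iff_lt, norm_pos_iff, sub_ne_zero]
    have := h.inj 0 p (by linarith [hp.1]) (by linarith [hp.2])
    rwa [zero_add] at this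
  refine ⟨m, hm, fun r hr hrm hav => ?_⟩
  have hre_small : ∀ t ∈ Ioo 0 P, t < ζ → 0 < ε * (γ t - γ 0).re := by
    intro t ht htζ
    have h1 := h.sec_mul 0 t
    rw [zero_add] at h1
    rw [← h1, Complex.re_ofReal_mul]
    have h2 := hηb t (by
      rw [abs_of_pos ht.1]
      exact htζ.trans_le (min_le_left _ _))
    have h3 := mul_pos ht.1 h2
    linarith
  have hre_large : ∀ t ∈ Ioo 0 P, P - ζ < t → ε * (γ t - γ 0).re < 0 := by
    intro t ht htζ
    have h1 := h.sec_mul 0 (t - P)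
    have h4 : γ (0 + (t - P)) = γ t := by
      rw [← h.per (0 + (t - P))]
      congr 1
      ring
    rw [h4] at h1
    rw [← h1, Complex.re_ofReal_mul]
    have h2 := hηb (t - P) (by
      rw [abs_of_neg (by linarith [ht.2])]
      have := min_le_left η (P / 2)
      linarith)
    have h3 : 0 < P - t := by linarith [ht.2]
    have h5 := mul_pos h3 h2
    linarith
  obtain ⟨L, hL, hE⟩ := exists_lift (fun t => (γ t - (γ 0 + r * Complex.I)) / Complex.I)
    (by fun_prop) (fun t => div_ne_zero (sub_ne_zero.mpr (hav t)) Complex.I_ne_zero)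
  have hfre : ∀ t, ((γ t - (γ 0 + r * Complex.I)) / Complex.I).re = (γ t).im - (γ 0).im - r := by
    intro t
    rw [Complex.div_I]
    simp
    ring
  have hfim : ∀ t, ((γ t - (γ 0 + r * Complex.I)) / Complex.I).im = -(γ t - γ 0).re := by
    intro t
    rw [Complex.div_I]
    simp
  have hslit : ∀ t ∈ Ioo 0 P,
      (γ t - (γ 0 + r * Complex.I)) / Complex.I ∈ Complex.slitPlane := by
    intro t ht
    rw [Complex.mem_slitPlane_iff, hfre, hfim]
    by_cases h0 : (γ t - γ 0).re = 0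
    · left
      have h1 : t ∈ Icc ζ (P - ζ) := by
        constructor
        · by_contra hlt
          push Not at hlt
          have := hre_small t ht hlt
          rw [h0, mul_zero] at this
          exact lt_irrefl _ this
        · by_contra hlt
          push Not at hlt
          have := hre_large t ht hlt
          rw [h0, mul_zero] at this
          exact lt_irrefl _ this
      have h2 := hmb t h1
      have h3 : ‖γ t - γ 0‖ = |(γ t - γ 0).im| := by
        have : γ t - γ 0 = ((γ t - γ 0).im : ℂ) * Complex.I := by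
          apply Complex.ext <;> simp [h0]
        rw [this, norm_mul, Complex.norm_I, mul_one, Complex.norm_real, Real.norm_eq_abs]
        simp
      rw [h3, Complex.sub_im, abs_of_nonneg (by linarith [hlow t])] at h2
      linarith
    · right
      exact neg_ne_zero.mpr h0
  have h0r : ((γ 0 - (γ 0 + r * Complex.I)) / Complex.I).re < 0 := by
    rw [hfre]
    linarith
  have h0i : ((γ 0 - (γ 0 + r * Complex.I)) / Complex.I).im = 0 := by
    rw [hfim, sub_self]
    simp
  have hw : ∀ w, (L P - L 0).im = w → Wd P (fun t => γ t - (γ 0 + r * Complex.I)) w := by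
    intro w hw
    refine ⟨fun t => L t + Complex.log Complex.I, (hL.add continuous_const).continuousOn,
      fun t _ => ?_, ?_⟩
    · rw [Complex.exp_add, hE, Complex.exp_log Complex.I_ne_zero,
        div_mul_cancel₀ _ Complex.I_ne_zero]
    · rw [add_sub_add_right_eq_sub]
      exact hw
  apply hw
  rcases hε with ⟨h1, h2⟩ | ⟨h1, h2⟩
  · subst h1
    rw [mul_one]
    apply arg_jump hP hL.continuousOn (fun t _ => hE t) hslit h0r h0i (by rw [h.closed]) hζ0
    · intro t ht htζ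
      have := hre_small t ht htζ
      rw [hfim]
      linarith
    · intro t ht htζ
      have := hre_large t ht htζ
      rw [hfim]
      linarith
  · subst h1
    rw [mul_neg_one]
    apply arg_jump' hP hL.continuousOn (fun t _ => hE t) hslit h0r h0i (by rw [h.closed]) hζ0
    · intro t ht htζ
      have := hre_small t ht htζ
      rw [hfim]
      linarith
    · intro t ht htζ
      have := hre_large t ht htζ
      rw [hfim]
      linarith

/-- The nearest point of the curve: `a` lies on the normal, and the segment from `a` to the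
curve avoids the curve. -/
theorem PC.nearest {P : ℝ} {γ V : ℝ → ℂ} (h : PC P γ V) {a : ℂ} (ha : ∀ t, γ t ≠ a) :
    ∃ t₀ ∈ Icc 0 P, ∃ ρ : ℝ, ρ ≠ 0 ∧ a = γ t₀ + ρ * Complex.I * V t₀ ∧
      ∀ r : ℝ, 0 < r → r ≤ 1 → ∀ t, γ t ≠ γ t₀ + ((r * ρ : ℝ) : ℂ) * Complex.I * V t₀ := by
  have hP := h.pos
  have hc := h.cont
  obtain ⟨t₀, ht₀, hmin⟩ := isCompact_Icc.exists_isMinOn (nonempty_Icc.mpr hP.le)
    (f := fun t => ‖γ t - a‖) (s := Icc 0 P) (by fun_prop)
  have hmin' : ∀ t, ‖γ t₀ - a‖ ≤ ‖γ t - a‖ := by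
    intro t
    obtain ⟨y, hy, hyt⟩ := h.per.exists_mem_Ico₀ hP t
    rw [hyt]
    exact hmin (Ico_subset_Icc_self hy)
  have hloc : IsLocalMin (fun t => ‖γ t - a‖ ^ 2) t₀ :=
    Eventually.of_forall (fun t => by
      simp only
      gcongr
      exact hmin' t)
  have hder : HasDerivAt (fun t => ‖γ t - a‖ ^ 2)
      (2 * inner ℝ (γ t₀ - a) (V t₀)) t₀ := ((h.der t₀).sub_const a).norm_sq
  have hzero := hloc.hasDerivAt_eq_zero hder
  have hin : (γ t₀ - a).re * (V t₀).re + (γ t₀ - a).im * (V t₀).im = 0 := by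
    have h1 : inner ℝ (γ t₀ - a) (V t₀) = 0 := by linarith
    rw [Complex.inner] at h1
    simp only [Complex.mul_re, Complex.conj_re, Complex.conj_im] at h1
    linarith
  have hVne := h.ne t₀
  set ρ : ℝ := ((a - γ t₀) / V t₀).im with hρ
  have hrepr : a - γ t₀ = ρ * Complex.I * V t₀ := by
    have h1 : ((a - γ t₀) / V t₀).re = 0 := by
      rw [Complex.div_re]
      simp only [Complex.sub_re, Complex.sub_im] at hin ⊢
      have h2 : (a.re - (γ t₀).re) * (V t₀).re / Complex.normSq (V t₀) +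
          (a.im - (γ t₀).im) * (V t₀).im / Complex.normSq (V t₀) =
          -(((γ t₀).re - a.re) * (V t₀).re + ((γ t₀).im - a.im) * (V t₀).im) /
            Complex.normSq (V t₀) := by
        ring
      rw [h2, hin]
      simp
    have h3 : (a - γ t₀) / V t₀ = ρ * Complex.I := by
      apply Complex.ext
      · rw [h1]
        simp
      · rw [hρ]
        simp
    rw [← h3, div_mul_cancel₀ _ hVne]
  have hρ0 : ρ ≠ 0 := by
    intro h0
    rw [h0] at hrepr
    simp only [Complex.ofReal_zero, zero_mul] at hrepr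
    exact ha t₀ (sub_eq_zero.mp hrepr).symm
  refine ⟨t₀, ht₀, ρ, hρ0, by rw [← hrepr]; ring, fun r hr0 hr1 t heq => ?_⟩
  have h1 := hmin' t
  have h2 : γ t - a = ((r - 1 : ℝ) : ℂ) * (ρ * Complex.I * V t₀) := by
    rw [heq]
    have : a = γ t₀ + ρ * Complex.I * V t₀ := by
      rw [← hrepr]
      ring
    rw [this]
    push_cast
    ring
  have h3 : γ t₀ - a = -(ρ * Complex.I * V t₀) := by
    rw [← hrepr]
    ring
  rw [h2, h3, norm_neg, norm_mul ((r - 1 : ℝ) : ℂ), Complex.norm_real, Real.norm_eq_abs] at h1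
  have h4 : 0 < ‖(ρ : ℂ) * Complex.I * V t₀‖ := by
    rw [norm_pos_iff]
    exact mul_ne_zero (mul_ne_zero (Complex.ofReal_ne_zero.mpr hρ0) Complex.I_ne_zero) hVne
  have h5 : |r - 1| < 1 := by
    rw [abs_lt]
    constructor <;> linarith
  nlinarith

/-- **Winding numbers of a simple closed curve** are `0` or `ε`, where `ε = ±1` is its rotation
number. -/
theorem ind {P : ℝ} {γ V : ℝ → ℂ} (h : PC P γ V) (hlow : ∀ t, (γ 0).im ≤ (γ t).im)
    (hV : (V 0).im = 0) {ε : ℝ} (hε : (ε = 1 ∧ 0 < (V 0).re) ∨ (ε = -1 ∧ (V 0).re < 0))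
    (a : ℂ) (ha : ∀ t, γ t ≠ a) :
    Wd P (fun t => γ t - a) 0 ∨ Wd P (fun t => γ t - a) (2 * Real.pi * ε) := by
  have hP := h.pos
  obtain ⟨δ, hδ, hcol⟩ := h.collar
  obtain ⟨τ, hτ, habove⟩ := h.above hlow hε
  have hVc := h.contV
  have hc := h.cont
  -- the two collars
  have hcollar : ∀ σ : ℝ, (σ = 1 ∨ σ = -1) → ∀ t ∈ Icc 0 P, ∀ r : ℝ, 0 < r → r < δ →
      ∀ t' ∈ Icc 0 P, ∀ r' : ℝ, 0 < r' → r' < δ → ∀ w,
      Wd P (fun s => γ s - (γ t + ((σ * r : ℝ) : ℂ) * Complex.I * V t)) w →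
      Wd P (fun s => γ s - (γ t' + ((σ * r' : ℝ) : ℂ) * Complex.I * V t')) w := by
    intro σ hσ t ht r hr0 hr1 t' ht' r' hr0' hr1' w hw
    have hpre : IsPreconnected ((fun p : ℝ × ℝ =>
        γ p.1 + ((σ * p.2 : ℝ) : ℂ) * Complex.I * V p.1) '' (Icc 0 P ×ˢ Ioo 0 δ)) := by
      apply (isPreconnected_Icc.prod isPreconnected_Ioo).image
      apply Continuous.continuousOn
      fun_prop
    refine h.const hpre ?_ ⟨(t, r), ⟨ht, hr0, hr1⟩, rfl⟩ ⟨(t', r'), ⟨ht', hr0', hr1'⟩, rfl⟩ hw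
    rintro z ⟨⟨x, y⟩, ⟨hx, hy⟩, rfl⟩ s
    apply hcol x hx (σ * y)
    · rcases hσ with h1 | h1 <;> rw [h1]
      · rw [one_mul]
        exact hy.1.ne'
      · rw [neg_one_mul]
        exact neg_ne_zero.mpr hy.1.ne'
    · rw [abs_mul, abs_of_pos hy.1]
      rcases hσ with h1 | h1 <;> rw [h1]
      · rw [abs_one, one_mul]
        exact hy.2
      · rw [abs_neg, abs_one, one_mul]
        exact hy.2
  -- values on the collars
  set v : ℝ := (V 0).re with hv
  have hVv : V 0 = (v : ℂ) := by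
    apply Complex.ext
    · simp [hv]
    · simpa using hV
  have hv0 : v ≠ 0 := by
    rcases hε with ⟨-, h1⟩ | ⟨-, h1⟩
    · exact h1.ne'
    · exact h1.ne
  have hva : 0 < |v| := abs_pos.mpr hv0
  set r₀ : ℝ := min (δ / 2) (τ / (2 * |v|)) with hr₀
  have hr₀0 : 0 < r₀ := lt_min (by linarith) (by positivity)
  have hr₀δ : r₀ < δ := (min_le_left _ _).trans_lt (by linarith)
  have hr₀τ : r₀ * |v| < τ := by
    have h1 : r₀ ≤ τ / (2 * |v|) := min_le_right _ _
    have h2 : r₀ * |v| ≤ τ / (2 * |v|) * |v| := by gcongr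
    have h3 : τ / (2 * |v|) * |v| = τ / 2 := by
      field_simp
    linarith
  have h0mem : (0 : ℝ) ∈ Icc 0 P := left_mem_Icc.mpr hP.le
  have hside : ∀ σ : ℝ, (σ = 1 ∨ σ = -1) → ∃ w, (w = 0 ∨ w = 2 * Real.pi * ε) ∧
      Wd P (fun s => γ s - (γ 0 + ((σ * r₀ : ℝ) : ℂ) * Complex.I * V 0)) w := by
    intro σ hσ
    have hav : ∀ s, γ s ≠ γ 0 + ((σ * r₀ : ℝ) : ℂ) * Complex.I * V 0 := by
      apply hcol 0 h0mem (σ * r₀)
      · rcases hσ with h1 | h1 <;> rw [h1]
        · rw [one_mul]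
          exact hr₀0.ne'
        · rw [neg_one_mul]
          exact neg_ne_zero.mpr hr₀0.ne'
      · rw [abs_mul, abs_of_pos hr₀0]
        rcases hσ with h1 | h1 <;> rw [h1]
        · rw [abs_one, one_mul]
          exact hr₀δ
        · rw [abs_neg, abs_one, one_mul]
          exact hr₀δ
    have heq : γ 0 + ((σ * r₀ : ℝ) : ℂ) * Complex.I * V 0 =
        γ 0 + ((σ * r₀ * v : ℝ) : ℂ) * Complex.I := by
      rw [hVv]
      push_cast
      ring
    rcases lt_or_gt_of_ne (mul_ne_zero (mul_ne_zero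
      (by rcases hσ with h1 | h1 <;> rw [h1] <;> norm_num : σ ≠ 0) hr₀0.ne') hv0) with hneg | hpos
    · refine ⟨0, Or.inl rfl, h.below (fun t => ?_)⟩
      rw [heq]
      have h1 := hlow t
      simp only [Complex.add_im, Complex.mul_im, Complex.ofReal_re, Complex.I_im, mul_one,
        Complex.ofReal_im, Complex.I_re, mul_zero, add_zero]
      linarith
    · refine ⟨2 * Real.pi * ε, Or.inr rfl, ?_⟩
      rw [heq] at hav ⊢
      apply habove (σ * r₀ * v) hpos _ hav
      have h1 : σ * r₀ * v ≤ |σ * r₀ * v| := le_abs_self _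
      rw [abs_mul, abs_mul, abs_of_pos hr₀0] at h1
      have h2 : |σ| = 1 := by
        rcases hσ with h1 | h1 <;> rw [h1]
        · exact abs_one
        · rw [abs_neg, abs_one]
      rw [h2, one_mul] at h1
      linarith
  -- the nearest point
  obtain ⟨t₀, ht₀, ρ, hρ0, harepr, hseg⟩ := h.nearest ha
  have hρa : 0 < |ρ| := abs_pos.mpr hρ0
  obtain ⟨σ, hσ, hσρ⟩ : ∃ σ : ℝ, (σ = 1 ∨ σ = -1) ∧ ρ = σ * |ρ| := by
    rcases lt_or_gt_of_ne hρ0 with h1 | h1
    · exact ⟨-1, Or.inr rfl, by rw [abs_of_neg h1]; ring⟩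
    · exact ⟨1, Or.inl rfl, by rw [abs_of_pos h1]; ring⟩
  obtain ⟨w, hw, hwd⟩ := hside σ hσ
  set r₁ : ℝ := min 1 (δ / (2 * |ρ|)) with hr₁
  have hr₁0 : 0 < r₁ := lt_min one_pos (by positivity)
  have hr₁1 : r₁ ≤ 1 := min_le_left _ _
  have hr₁δ : r₁ * |ρ| < δ := by
    have h1 : r₁ ≤ δ / (2 * |ρ|) := min_le_right _ _
    have h2 : r₁ * |ρ| ≤ δ / (2 * |ρ|) * |ρ| := by gcongr
    have h3 : δ / (2 * |ρ|) * |ρ| = δ / 2 := by
      field_simp
    linarith
  have h1 := hcollar σ hσ 0 h0mem r₀ hr₀0 hr₀δ t₀ ht₀ (r₁ * |ρ|) (mul_pos hr₁0 hρa) hr₁δ w hwd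
  have hpre : IsPreconnected ((fun r : ℝ =>
      γ t₀ + ((r * ρ : ℝ) : ℂ) * Complex.I * V t₀) '' (Ioc 0 1)) := by
    apply isPreconnected_Ioc.image
    apply Continuous.continuousOn
    fun_prop
  have h2 : γ t₀ + ((σ * (r₁ * |ρ|) : ℝ) : ℂ) * Complex.I * V t₀ =
      γ t₀ + ((r₁ * ρ : ℝ) : ℂ) * Complex.I * V t₀ := by
    have h5 : σ * (r₁ * |ρ|) = r₁ * ρ := by
      calc σ * (r₁ * |ρ|) = r₁ * (σ * |ρ|) := by ring
        _ = r₁ * ρ := by rw [← hσρ]
    rw [h5]
  rw [h2] at h1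
  have h3 : Wd P (fun s => γ s - a) w := by
    refine h.const hpre ?_ ⟨r₁, ⟨hr₁0, hr₁1⟩, rfl⟩ ⟨1, ⟨one_pos, le_refl _⟩, ?_⟩ h1
    · rintro z ⟨r, ⟨hr0, hr1⟩, rfl⟩ s
      exact hseg r hr0 hr1 s
    · simp only [one_mul]
      exact harepr.symm
  rcases hw with h4 | h4
  · left
    rwa [h4] at h3
  · right
    rwa [h4] at h3

end Pool.Agent.ANO2.Geo2
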