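import Pool.Agent.ANO2.Geo2.Close

/-!
# ANO phase 2, Geo2: a horizontal arc does not return to a flow box

Proof of `no_return`.  Suppose `σ t' ∉ B.img` for some `t' ∈ (0, T)`.  Let
`t1 = sup {t ∈ [0, t'] : σ [0, t] ⊆ B.img}`; `B.img` is open, so `0 < t1`, `σ t1 ∉ B.img` and
`σ t ∈ B.img` for `t ∈ [0, t1)`; by `box_arc` `σ t = χ (x1 + e1 t, y1)` there.  If
`x1 + e1 t1 ∈ (a, b)` then `σ t1 = χ (x1 + e1 t1, y1) ∈ B.img` by continuity, so
`x1 + e1 t1 = b` if `e1 = 1` and `= a` if `e1 = -1`.  Replacing `B` by the box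
`χ (- w)` on the negated rectangle (`Box.rot`) we may assume `e1 = 1`.

Let `(t2, β)` be the first component of the set `{t ∈ (t1, T) : σ t ∈ B.img}` : every component
which does not end at `T` has length at least `b - a` (by `box_arc` the arc crosses the whole box:
the `x`-coordinate tends to `a` or `b` at both ends by the argument above), so the components do
not accumulate and there is a first one; the set is not empty because `σ T ∈ B.img`.  So
`t1 ≤ t2 < β`, `σ t ∉ B.img` for `t ∈ [t1, t2]` and `σ t = χ (x2 + e2 t, y2)` for `t ∈ (t2, β)`;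
`x2 + e2 t2 = a` if `e2 = 1`, `= b` if `e2 = -1`.

`σ` is injective on `[ts, tr]` for the `ts < t1`, `tr > t2` chosen below: if `σ u = σ u'`,
`u < u'`, then by `hor_two` and `hor_eqOn` either `σ (u + v) = σ (u' - v)` as long as both are in
`(0, T)`, so with `m = (u + u') / 2` we have `σ (m + v) = σ (m - v)`, and the derivative of `σ` at
`m` is `0`, impossible; or `σ (u + v) = σ (u' + v)` as long as both are in `(0, T)`, so
`σ ts = σ (ts + p)` with `p = u' - u > 0`, `ts + p ≤ tr`; but `ts + p < t1` contradicts the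
injectivity of `χ`, `ts + p ∈ [t1, t2]` contradicts `σ ts ∈ B.img`, and `t2 < ts + p ≤ tr` is
excluded by the positions in the box (see below).

Case `e2 = 1`.  Choose `ts ∈ (0, t1)`, `tr ∈ (t2, min β T)` with
`Xr := x2 + tr < Xs := x1 + ts`.  Close up by the graph
`p u = (Xr + u, y2 + (y1 - y2) (3 v² - 2 v³))`, `v = u / (Xs - Xr)`, `u ∈ [0, Xs - Xr]`,
`p' u = 1 + i g'(u)`, `Λ u = 2 log (p' u)` (`p'` is in the slit plane), `Λ m = Λ 0 = 0`:
contradiction to `close_up`.  (The positions of `σ t`, `t ∈ (t2, tr]` are `≤ Xr`, those of `σ t`,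
`t ∈ [ts, t1)`, are `≥ Xs`, the graph is strictly between.)

Case `e2 = -1`.  If `y1 = y2` then `σ (t1 - v) = σ (t2 + v)` for small `v > 0`, so by `hor_eqOn`
`σ (t1 - v) = σ (t2 + v)` as long as both are in `(0, T)`, and the derivative at `(t1 + t2) / 2` is
`0`, impossible.  So `y1 ≠ y2`.  Choose `ts ∈ (0, t1)`, `tr ∈ (t2, min β T)` with
`x1 + ts = x2 - tr =: Xs`.  Close up by the half ellipse, `ρ = (Xs - a) / 2`, `m = π ρ`,
`θ = u / ρ`,
`p u = (Xs - ρ sin θ, y2 + (y1 - y2) (1 - cos θ) / 2)`,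
`p' u = - cos θ + i κ sin θ`, `κ = (y1 - y2) / (2 ρ) ≠ 0`,
`Λ u = 2 log (cos θ - i κ sin θ)` if `κ < 0` (the argument is in the closed upper half plane, where
`Complex.log` is continuous away from `0`), and the complex conjugate of
`2 log (cos θ + i κ sin θ)` if `κ > 0`.  `|Im (Λ m - Λ 0)| = 2 π < 4 π`: contradiction.
-/

set_option autoImplicit false

open Set Filter Topology

namespace Pool.Agent.ANO2.Geo2

variable {Q : QD}

/-- The flow box turned by `180` degrees. -/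
noncomputable def Box.rot (B : Box Q) : Box Q where
  a := -B.b
  b := -B.a
  c := -B.d
  d := -B.c
  hab := neg_lt_neg B.hab
  hcd := neg_lt_neg B.hcd
  χ := fun w => B.χ (-w)
  holo := by
    refine B.holo.comp differentiable_neg.differentiableOn ?_
    intro w hw
    rw [Complex.mem_reProdIm] at hw ⊢
    obtain ⟨⟨h1, h2⟩, ⟨h3, h4⟩⟩ := hw
    rw [Complex.neg_re, Complex.neg_im]
    exact ⟨⟨by linarith, by linarith⟩, ⟨by linarith, by linarith⟩⟩
  inj := by
    intro w hw w' hw' h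
    rw [Complex.mem_reProdIm] at hw hw'
    obtain ⟨⟨h1, h2⟩, ⟨h3, h4⟩⟩ := hw
    obtain ⟨⟨h5, h6⟩, ⟨h7, h8⟩⟩ := hw'
    have h9 : -w = -w' := by
      refine B.inj ?_ ?_ h
      · rw [Complex.mem_reProdIm, Complex.neg_re, Complex.neg_im]
        exact ⟨⟨by linarith, by linarith⟩, ⟨by linarith, by linarith⟩⟩
      · rw [Complex.mem_reProdIm, Complex.neg_re, Complex.neg_im]
        exact ⟨⟨by linarith, by linarith⟩, ⟨by linarith, by linarith⟩⟩
    exact neg_injective h9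
  mem := by
    intro w hw
    rw [Complex.mem_reProdIm] at hw
    obtain ⟨⟨h1, h2⟩, ⟨h3, h4⟩⟩ := hw
    refine B.mem _ ?_
    rw [Complex.mem_reProdIm, Complex.neg_re, Complex.neg_im]
    exact ⟨⟨by linarith, by linarith⟩, ⟨by linarith, by linarith⟩⟩
  eq := by
    intro w hw
    rw [Complex.mem_reProdIm] at hw
    obtain ⟨⟨h1, h2⟩, ⟨h3, h4⟩⟩ := hw
    rw [deriv_comp_neg, neg_sq]
    refine B.eq _ ?_
    rw [Complex.mem_reProdIm, Complex.neg_re, Complex.neg_im]
    exact ⟨⟨by linarith, by linarith⟩, ⟨by linarith, by linarith⟩⟩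

private theorem rot_dom (B : Box Q) {w : ℂ} : w ∈ B.rot.dom ↔ -w ∈ B.dom := by
  change w ∈ Ioo (-B.b) (-B.a) ×ℂ Ioo (-B.d) (-B.c) ↔ -w ∈ Ioo B.a B.b ×ℂ Ioo B.c B.d
  rw [Complex.mem_reProdIm, Complex.mem_reProdIm, Complex.neg_re, Complex.neg_im]
  simp only [mem_Ioo]
  constructor
  · rintro ⟨⟨h1, h2⟩, ⟨h3, h4⟩⟩
    exact ⟨⟨by linarith, by linarith⟩, ⟨by linarith, by linarith⟩⟩
  · rintro ⟨⟨h1, h2⟩, ⟨h3, h4⟩⟩
    exact ⟨⟨by linarith, by linarith⟩, ⟨by linarith, by linarith⟩⟩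

theorem Box.rot_img (B : Box Q) : B.rot.img = B.img := by
  ext z
  constructor
  · rintro ⟨w, hw, rfl⟩
    exact ⟨-w, (rot_dom B).1 hw, rfl⟩
  · rintro ⟨w, hw, rfl⟩
    refine ⟨-w, (rot_dom B).2 (by rw [neg_neg]; exact hw), ?_⟩
    change B.χ (- -w) = B.χ w
    rw [neg_neg]

/-- A horizontal arc is not traversed backwards: `σ (m + v) = σ (m - v)` is impossible near an
interior point `m`. -/
theorem no_turn {σ : ℝ → ℂ} {m : ℝ} (h : Hor Q σ m) :
    ¬ ∀ᶠ v in 𝓝 (0 : ℝ), σ (m + v) = σ (m - v) := by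
  intro he
  obtain ⟨-, v, hv, hq⟩ := h
  have h1 : HasDerivAt (fun u => σ (m + u)) v 0 := by
    have := HasDerivAt.comp_const_add m 0 (f := σ) (f' := v) (by simpa using hv)
    simpa using this
  have h2 : HasDerivAt (fun u => σ (m - u)) (-v) 0 := by
    have := HasDerivAt.comp_const_sub m 0 (f := σ) (f' := v) (by simpa using hv)
    simpa using this
  have h3 : HasDerivAt (fun u => σ (m - u)) v 0 := by
    refine h1.congr_of_eventuallyEq ?_
    filter_upwards [he] with u hu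
    exact hu.symm
  have h4 : v = -v := h3.unique h2
  have h5 : v = 0 := by
    have : (2 : ℂ) * v = 0 := by linear_combination h4
    simpa using this
  rw [h5] at hq
  simp at hq

private theorem mem_dom (B : Box Q) {x y : ℝ} :
    (⟨x, y⟩ : ℂ) ∈ B.dom ↔ (B.a < x ∧ x < B.b) ∧ (B.c < y ∧ y < B.d) := by
  change (⟨x, y⟩ : ℂ) ∈ Ioo B.a B.b ×ℂ Ioo B.c B.d ↔ _
  rw [Complex.mem_reProdIm]
  rfl

private theorem cont_line (x y e : ℝ) : Continuous fun t : ℝ => (⟨x + e * t, y⟩ : ℂ) := by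
  have h : (fun t : ℝ => (⟨x + e * t, y⟩ : ℂ)) =
      fun t : ℝ => ((x + e * t : ℝ) : ℂ) + (y : ℂ) * Complex.I := by
    funext t
    apply Complex.ext <;> simp
  rw [h]
  fun_prop

private theorem end_pt (B : Box Q) {σ : ℝ → ℂ} {α β x y e γ : ℝ} (hαβ : α < β)
    (harc : ∀ t ∈ Ioo α β, (⟨x + e * t, y⟩ : ℂ) ∈ B.dom ∧ σ t = B.χ ⟨x + e * t, y⟩)
    (hγ : γ = α ∨ γ = β) (hc : ContinuousAt σ γ) (hn : σ γ ∉ B.img) :
    x + e * γ = B.a ∨ x + e * γ = B.b := by
  have hne : (𝓝[Ioo α β] γ).NeBot := by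
    rcases hγ with rfl | rfl
    · exact left_nhdsWithin_Ioo_neBot hαβ
    · exact right_nhdsWithin_Ioo_neBot hαβ
  have hlim : Tendsto (fun t : ℝ => x + e * t) (𝓝[Ioo α β] γ) (𝓝 (x + e * γ)) := by
    have : Continuous fun t : ℝ => x + e * t := by fun_prop
    exact (this.tendsto γ).mono_left nhdsWithin_le_nhds
  have hmem : ∀ᶠ t in 𝓝[Ioo α β] γ, t ∈ Ioo α β := self_mem_nhdsWithin
  have h1 : B.a ≤ x + e * γ := by
    refine ge_of_tendsto hlim ?_
    filter_upwards [hmem] with t ht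
    exact ((mem_dom B).1 (harc t ht).1).1.1.le
  have h2 : x + e * γ ≤ B.b := by
    refine le_of_tendsto hlim ?_
    filter_upwards [hmem] with t ht
    exact ((mem_dom B).1 (harc t ht).1).1.2.le
  by_contra hcon
  rw [not_or] at hcon
  have h3 : B.a < x + e * γ := lt_of_le_of_ne h1 fun h => hcon.1 h.symm
  have h4 : x + e * γ < B.b := lt_of_le_of_ne h2 hcon.2
  have hmid : (α + β) / 2 ∈ Ioo α β := ⟨by linarith, by linarith⟩
  have hy := ((mem_dom B).1 (harc _ hmid).1).2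
  have hw : (⟨x + e * γ, y⟩ : ℂ) ∈ B.dom := (mem_dom B).2 ⟨⟨h3, h4⟩, hy⟩
  have hχ : ContinuousAt B.χ ⟨x + e * γ, y⟩ :=
    (B.holo.differentiableAt (B.isOpen_dom.mem_nhds hw)).continuousAt
  have h5 : Tendsto (fun t : ℝ => B.χ ⟨x + e * t, y⟩) (𝓝[Ioo α β] γ)
      (𝓝 (B.χ ⟨x + e * γ, y⟩)) := by
    have h6 : ContinuousAt (fun t : ℝ => B.χ ⟨x + e * t, y⟩) γ :=
      ContinuousAt.comp (f := fun t : ℝ => (⟨x + e * t, y⟩ : ℂ)) hχ (cont_line x y e).continuousAt
    exact h6.tendsto.mono_left nhdsWithin_le_nhds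
  have h7 : Tendsto σ (𝓝[Ioo α β] γ) (𝓝 (σ γ)) := hc.tendsto.mono_left nhdsWithin_le_nhds
  have h8 : Tendsto σ (𝓝[Ioo α β] γ) (𝓝 (B.χ ⟨x + e * γ, y⟩)) := by
    refine h5.congr' ?_
    filter_upwards [hmem] with t ht
    exact (harc t ht).2.symm
  have h9 := tendsto_nhds_unique h7 h8
  exact hn ⟨_, hw, h9.symm⟩

/-- the position at a right end point -/
private theorem end_right (B : Box Q) {σ : ℝ → ℂ} {α β x y e : ℝ} (hαβ : α < β)
    (he : e = 1 ∨ e = -1)
    (harc : ∀ t ∈ Ioo α β, (⟨x + e * t, y⟩ : ℂ) ∈ B.dom ∧ σ t = B.χ ⟨x + e * t, y⟩)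
    (hc : ContinuousAt σ β) (hn : σ β ∉ B.img) :
    (e = 1 ∧ x + e * β = B.b) ∨ (e = -1 ∧ x + e * β = B.a) := by
  have hmid : (α + β) / 2 ∈ Ioo α β := ⟨by linarith, by linarith⟩
  have h1 := ((mem_dom B).1 (harc _ hmid).1).1
  rcases end_pt B hαβ harc (Or.inr rfl) hc hn with h | h
  · rcases he with rfl | rfl
    · exfalso
      linarith [h1.1]
    · exact Or.inr ⟨rfl, h⟩
  · rcases he with rfl | rfl
    · exact Or.inl ⟨rfl, h⟩
    · exfalso
      linarith [h1.2]

/-- the position at a left end point -/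
private theorem end_left (B : Box Q) {σ : ℝ → ℂ} {α β x y e : ℝ} (hαβ : α < β)
    (he : e = 1 ∨ e = -1)
    (harc : ∀ t ∈ Ioo α β, (⟨x + e * t, y⟩ : ℂ) ∈ B.dom ∧ σ t = B.χ ⟨x + e * t, y⟩)
    (hc : ContinuousAt σ α) (hn : σ α ∉ B.img) :
    (e = 1 ∧ x + e * α = B.a) ∨ (e = -1 ∧ x + e * α = B.b) := by
  have hmid : (α + β) / 2 ∈ Ioo α β := ⟨by linarith, by linarith⟩
  have h1 := ((mem_dom B).1 (harc _ hmid).1).1
  rcases end_pt B hαβ harc (Or.inl rfl) hc hn with h | h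
  · rcases he with rfl | rfl
    · exact Or.inl ⟨rfl, h⟩
    · exfalso
      linarith [h1.1]
  · rcases he with rfl | rfl
    · exfalso
      linarith [h1.2]
    · exact Or.inr ⟨rfl, h⟩

/-- a horizontal arc which does not return to its starting point is injective -/
private theorem inj_of {σ : ℝ → ℂ} {T ts tr : ℝ} (hσ : ∀ t ∈ Ioo 0 T, Hor Q σ t) (h0 : 0 < ts)
    (hT : tr < T) (h : ∀ p, 0 < p → ts + p ≤ tr → σ (ts + p) ≠ σ ts) :
    InjOn σ (Icc ts tr) := by
  have key : ∀ u u' : ℝ, ts ≤ u → u < u' → u' ≤ tr → σ u ≠ σ u' := by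
    intro u u' h1 h2 h3 heq
    have hr : 0 < min u (T - u') := lt_min (by linarith) (by linarith)
    obtain ⟨r, hr', hru, hrT⟩ : ∃ r, 0 < r ∧ r ≤ u ∧ r ≤ T - u' :=
      ⟨_, hr, min_le_left _ _, min_le_right _ _⟩
    have a1 : ∀ v ∈ Ioo (-r) r, Hor Q σ (u + v) := by
      intro v hv
      exact hσ _ ⟨by linarith [hv.1], by linarith [hv.2]⟩
    have a2 : ∀ v ∈ Ioo (-r) r, Hor Q σ (u' + v) := by
      intro v hv
      exact hσ _ ⟨by linarith [hv.1], by linarith [hv.2]⟩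
    rcases hor_two hr' a1 a2 heq with h4 | h4
    · have h5 : EqOn σ (fun t => σ (t + (u' - u))) (Ioo 0 (T - (u' - u))) := by
        refine hor_eqOn (Q := Q) (t0 := u) ?_ ?_ ?_ ?_
        · intro t ht
          exact hσ t ⟨ht.1, by linarith [ht.2]⟩
        · intro t ht
          exact Hor.shift (hσ _ ⟨by linarith [ht.1], by linarith [ht.2]⟩)
        · exact ⟨by linarith, by linarith⟩
        · have h6 : Ioo (u - r) (u + r) ∈ 𝓝 u := Ioo_mem_nhds (by linarith) (by linarith)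
          filter_upwards [h6] with t ht
          have h7 := h4 (t - u) ⟨by linarith [ht.1], by linarith [ht.2]⟩
          have h8 : u + (t - u) = t := by ring
          have h9 : u' + (t - u) = t + (u' - u) := by ring
          rw [h8, h9] at h7
          exact h7
      have h6 := h5 (show ts ∈ Ioo 0 (T - (u' - u)) from ⟨h0, by linarith⟩)
      exact h (u' - u) (by linarith) (by linarith) h6.symm
    · have h5 : EqOn (fun v => σ (v + u)) (fun v => σ (u' - v)) (Ioo (-r) (u' - u + r)) := by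
        refine hor_eqOn (Q := Q) (t0 := 0) ?_ ?_ ?_ ?_
        · intro t ht
          exact Hor.shift (hσ _ ⟨by linarith [ht.1], by linarith [ht.2]⟩)
        · intro t ht
          exact Hor.neg_time (hσ _ ⟨by linarith [ht.2], by linarith [ht.1]⟩)
        · exact ⟨by linarith, by linarith⟩
        · have h6 : Ioo (-r) r ∈ 𝓝 (0 : ℝ) := Ioo_mem_nhds (by linarith) (by linarith)
          filter_upwards [h6] with t ht
          have h7 := h4 t ht
          rw [add_comm t u]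
          exact h7
      refine no_turn (hσ ((u + u') / 2) ⟨by linarith, by linarith⟩) ?_
      have h6 : Ioo (-r) r ∈ 𝓝 (0 : ℝ) := Ioo_mem_nhds (by linarith) (by linarith)
      filter_upwards [h6] with w hw
      have h7 := h5 (show (u' - u) / 2 + w ∈ Ioo (-r) (u' - u + r) from
        ⟨by linarith [hw.1], by linarith [hw.2]⟩)
      have h8 : (u' - u) / 2 + w + u = (u + u') / 2 + w := by ring
      have h9 : u' - ((u' - u) / 2 + w) = (u + u') / 2 - w := by ring
      change σ ((u' - u) / 2 + w + u) = σ (u' - ((u' - u) / 2 + w)) at h7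
      rw [h8, h9] at h7
      exact h7
  intro u hu u' hu' heq
  rcases lt_trichotomy u u' with h1 | h1 | h1
  · exact absurd heq (key u u' hu.1 h1 hu'.2)
  · exact h1
  · exact absurd heq.symm (key u' u hu'.1 h1 hu.2)

private theorem pair_deriv {f g : ℝ → ℝ} {f' g' u : ℝ} (hf : HasDerivAt f f' u)
    (hg : HasDerivAt g g' u) : HasDerivAt (fun t => (⟨f t, g t⟩ : ℂ)) ⟨f', g'⟩ u := by
  have h : (fun t => (⟨f t, g t⟩ : ℂ)) = fun t => (f t : ℂ) + (g t : ℂ) * Complex.I := by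
    funext t
    apply Complex.ext <;> simp
  have h' : (⟨f', g'⟩ : ℂ) = (f' : ℂ) + (g' : ℂ) * Complex.I := by
    apply Complex.ext <;> simp
  rw [h, h']
  exact hf.ofReal_comp.add (hg.ofReal_comp.mul_const _)

private theorem arc_deriv (B : Box Q) {σ : ℝ → ℂ} {x y e t : ℝ}
    (hd : (⟨x + e * t, y⟩ : ℂ) ∈ B.dom)
    (hev : ∀ᶠ s in 𝓝 t, σ s = B.χ ⟨x + e * s, y⟩) :
    deriv σ t = deriv B.χ ⟨x + e * t, y⟩ * (e : ℂ) := by
  have h1 : HasDerivAt B.χ (deriv B.χ ⟨x + e * t, y⟩) ⟨x + e * t, y⟩ :=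
    (B.holo.differentiableAt (B.isOpen_dom.mem_nhds hd)).hasDerivAt
  have h2 : HasDerivAt (fun s : ℝ => (⟨x + e * s, y⟩ : ℂ)) ⟨e, 0⟩ t := by
    refine pair_deriv ?_ (hasDerivAt_const t y)
    simpa using ((hasDerivAt_id t).const_mul e).const_add x
  have h3 := HasDerivAt.comp t h1 h2
  have h4 : (⟨e, 0⟩ : ℂ) = (e : ℂ) := by
    apply Complex.ext <;> simp
  rw [h4] at h3
  have h5 : HasDerivAt σ (deriv B.χ ⟨x + e * t, y⟩ * (e : ℂ)) t :=
    h3.congr_of_eventuallyEq hev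
  exact h5.deriv

/-! ### closing by a graph -/

/-- the closing curve of the first kind -/
private noncomputable def gr (X y2 d m u : ℝ) : ℂ :=
  ⟨X + u, y2 + d * (3 * (u / m) ^ 2 - 2 * (u / m) ^ 3)⟩

private noncomputable def gr' (d m u : ℝ) : ℂ := ⟨1, d * (6 * (u / m) - 6 * (u / m) ^ 2) / m⟩

private theorem gr_deriv (X y2 d m u : ℝ) : HasDerivAt (gr X y2 d m) (gr' d m u) u := by
  unfold gr gr'
  refine pair_deriv ?_ ?_
  · simpa using (hasDerivAt_id u).const_add X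
  · have h1 : HasDerivAt (fun t : ℝ => t / m) (1 / m) u := (hasDerivAt_id u).div_const m
    have h2 := ((h1.pow 2).const_mul 3).sub ((h1.pow 3).const_mul 2)
    have h3 := (h2.const_mul d).const_add y2
    refine h3.congr_deriv ?_
    simp only [Nat.cast_ofNat]
    ring

private theorem gr_range {v : ℝ} (h0 : 0 ≤ v) (h1 : v ≤ 1) :
    0 ≤ 3 * v ^ 2 - 2 * v ^ 3 ∧ 3 * v ^ 2 - 2 * v ^ 3 ≤ 1 := by
  constructor
  · have : 3 * v ^ 2 - 2 * v ^ 3 = v ^ 2 * (3 - 2 * v) := by ring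
    rw [this]
    exact mul_nonneg (sq_nonneg v) (by linarith)
  · have : 1 - (3 * v ^ 2 - 2 * v ^ 3) = (1 - v) ^ 2 * (1 + 2 * v) := by ring
    have h2 : 0 ≤ (1 - v) ^ 2 * (1 + 2 * v) := mul_nonneg (sq_nonneg _) (by linarith)
    linarith

private theorem between {c d y1 y2 s : ℝ} (h1 : c < y1 ∧ y1 < d) (h2 : c < y2 ∧ y2 < d)
    (hs0 : 0 ≤ s) (hs1 : s ≤ 1) : c < y2 + (y1 - y2) * s ∧ y2 + (y1 - y2) * s < d := by
  have h3 : y2 + (y1 - y2) * s = (1 - s) * y2 + s * y1 := by ring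
  rw [h3]
  rcases eq_or_lt_of_le hs0 with h | h
  · rw [← h]
    constructor <;> linarith [h2.1, h2.2]
  · constructor
    · nlinarith [h1.1, h2.1, mul_pos h (sub_pos.2 h1.1),
        mul_nonneg (sub_nonneg.2 hs1) (sub_pos.2 h2.1).le]
    · nlinarith [h1.2, h2.2, mul_pos h (sub_pos.2 h1.2),
        mul_nonneg (sub_nonneg.2 hs1) (sub_pos.2 h2.2).le]

private theorem close_graph (B : Box Q) {σ : ℝ → ℂ} {s r X y1 y2 m : ℝ} (hsr : s < r)
    (hm : 0 < m) (hσ : ∀ t ∈ Icc s r, Hor Q σ t) (hinj : InjOn σ (Icc s r))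
    (hXa : B.a < X) (hXb : X + m < B.b) (hy1 : B.c < y1 ∧ y1 < B.d) (hy2 : B.c < y2 ∧ y2 < B.d)
    (hr : B.χ ⟨X, y2⟩ = σ r) (hs : B.χ ⟨X + m, y1⟩ = σ s)
    (hvr : deriv σ r = deriv B.χ ⟨X, y2⟩) (hvs : deriv σ s = deriv B.χ ⟨X + m, y1⟩)
    (hdis : ∀ x y : ℝ, X < x → x < X + m → (⟨x, y⟩ : ℂ) ∈ B.dom →
      ∀ t ∈ Icc s r, B.χ ⟨x, y⟩ ≠ σ t) : False := by
  have hpd : ∀ u ∈ Icc 0 m, gr X y2 (y1 - y2) m u ∈ B.dom := by
    intro u hu
    have h0 : 0 ≤ u / m := div_nonneg hu.1 hm.le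
    have h1 : u / m ≤ 1 := (div_le_one hm).2 hu.2
    obtain ⟨h2, h3⟩ := gr_range h0 h1
    exact (mem_dom B).2 ⟨⟨by linarith [hu.1], by linarith [hu.2]⟩, between hy1 hy2 h2 h3⟩
  have hmm : m / m = 1 := div_self hm.ne'
  have e0 : gr X y2 (y1 - y2) m 0 = ⟨X, y2⟩ := by
    unfold gr
    apply Complex.ext <;> simp
  have em : gr X y2 (y1 - y2) m m = ⟨X + m, y1⟩ := by
    unfold gr
    rw [hmm]
    apply Complex.ext
    · rfl
    · change y2 + (y1 - y2) * (3 * 1 ^ 2 - 2 * 1 ^ 3) = y1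
      ring
  have d0 : gr' (y1 - y2) m 0 = 1 := by
    unfold gr'
    apply Complex.ext <;> simp
  have dm : gr' (y1 - y2) m m = 1 := by
    unfold gr'
    rw [hmm]
    apply Complex.ext <;> simp
  have hslit : ∀ u, gr' (y1 - y2) m u ∈ Complex.slitPlane := by
    intro u
    left
    change (0 : ℝ) < 1
    norm_num
  have hcont : Continuous (gr' (y1 - y2) m) := by
    have h : gr' (y1 - y2) m = fun u : ℝ => (1 : ℂ) +
        (((y1 - y2) * (6 * (u / m) - 6 * (u / m) ^ 2) / m : ℝ) : ℂ) * Complex.I := by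
      funext u
      unfold gr'
      apply Complex.ext
      · simp only [Complex.add_re, Complex.ofReal_re, Complex.mul_re, Complex.ofReal_im,
          Complex.I_re, Complex.I_im, Complex.one_re]
        ring
      · simp only [Complex.add_im, Complex.ofReal_re, Complex.mul_im, Complex.ofReal_im,
          Complex.I_re, Complex.I_im, Complex.one_im]
        ring
    rw [h]
    fun_prop
  have key := close_up B hsr hm hσ hinj (gr X y2 (y1 - y2) m) (gr' (y1 - y2) m)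
    (fun u _ => gr_deriv X y2 (y1 - y2) m u) hcont.continuousOn hpd ?_ ?_ (by rw [e0]; exact hr)
    (by rw [em]; exact hs) (by rw [e0, d0, mul_one]; exact hvr)
    (by rw [em, dm, mul_one]; exact hvs) ?_
    (fun u => 2 * Complex.log (gr' (y1 - y2) m u)) ?_ ?_
  · rw [d0, dm, sub_self] at key
    simp only [Complex.zero_im, abs_zero] at key
    linarith [Real.pi_pos]
  · intro u _ h
    have := hslit u
    rw [h] at this
    exact Complex.zero_notMem_slitPlane this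
  · intro u _ u' _ h
    have := congrArg Complex.re h
    change X + u = X + u' at this
    linarith
  · intro u hu t ht
    exact hdis _ _ (by linarith [hu.1]) (by linarith [hu.2]) (hpd u ⟨hu.1.le, hu.2.le⟩) t ht
  · exact (continuous_const.mul (hcont.clog hslit)).continuousOn
  · intro u _
    rw [two_mul, Complex.exp_add, Complex.exp_log (Complex.slitPlane_ne_zero (hslit u)), sq]

/-! ### closing by a half ellipse -/

/-- the closing curve of the second kind -/
private noncomputable def el (X y2 d ρ u : ℝ) : ℂ :=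
  ⟨X - ρ * Real.sin (u / ρ), y2 + d * ((1 - Real.cos (u / ρ)) / 2)⟩

private noncomputable def el' (d ρ u : ℝ) : ℂ :=
  ⟨-Real.cos (u / ρ), d / (2 * ρ) * Real.sin (u / ρ)⟩

private theorem el_deriv (X y2 d : ℝ) {ρ : ℝ} (hρ : 0 < ρ) (u : ℝ) :
    HasDerivAt (el X y2 d ρ) (el' d ρ u) u := by
  have h1 : HasDerivAt (fun t : ℝ => t / ρ) (1 / ρ) u := (hasDerivAt_id u).div_const ρ
  unfold el el'
  refine pair_deriv ?_ ?_
  · have h2 := ((h1.sin).const_mul ρ).const_sub X
    refine h2.congr_deriv ?_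
    field_simp
  · have h2 := ((((h1.cos).const_sub 1).div_const 2).const_mul d).const_add y2
    refine h2.congr_deriv ?_
    field_simp

/-- a continuous logarithm on the closed upper half plane -/
private theorem log_upper {w : ℝ → ℂ} {s : Set ℝ} (hw : ContinuousOn w s)
    (h0 : ∀ u ∈ s, w u ≠ 0) (him : ∀ u ∈ s, 0 ≤ (w u).im) :
    ContinuousOn (fun u => Complex.log (w u)) s := by
  intro u hu
  by_cases hs : w u ∈ Complex.slitPlane
  · exact (hw u hu).clog hs
  · have h1 : (w u).re < 0 ∧ (w u).im = 0 := by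
      rw [Complex.mem_slitPlane_iff, not_or, not_not, not_lt] at hs
      refine ⟨lt_of_le_of_ne hs.1 fun h => h0 u hu ?_, hs.2⟩
      exact Complex.ext h hs.2
    have h2 := Complex.continuousWithinAt_log_of_re_neg_of_im_zero h1.1 h1.2
    exact ContinuousWithinAt.comp (t := {z : ℂ | 0 ≤ z.im}) h2 (hw u hu) him

private theorem close_ellipse (B : Box Q) {σ : ℝ → ℂ} {s r X y1 y2 : ℝ} (hsr : s < r)
    (hσ : ∀ t ∈ Icc s r, Hor Q σ t) (hinj : InjOn σ (Icc s r))
    (hXa : B.a < X) (hXb : X < B.b) (hy1 : B.c < y1 ∧ y1 < B.d) (hy2 : B.c < y2 ∧ y2 < B.d)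
    (hne : y1 ≠ y2)
    (hr : B.χ ⟨X, y2⟩ = σ r) (hs : B.χ ⟨X, y1⟩ = σ s)
    (hvr : deriv σ r = deriv B.χ ⟨X, y2⟩ * (-1)) (hvs : deriv σ s = deriv B.χ ⟨X, y1⟩)
    (hdis : ∀ x y : ℝ, y ≠ y1 → y ≠ y2 → (⟨x, y⟩ : ℂ) ∈ B.dom →
      ∀ t ∈ Icc s r, B.χ ⟨x, y⟩ ≠ σ t) : False := by
  obtain ⟨ρ, hρ, hρX⟩ : ∃ ρ : ℝ, 0 < ρ ∧ B.a < X - ρ := ⟨(X - B.a) / 2, by linarith, by linarith⟩
  have hm : 0 < Real.pi * ρ := mul_pos Real.pi_pos hρ
  have hθ : ∀ u ∈ Icc 0 (Real.pi * ρ), u / ρ ∈ Icc 0 Real.pi := by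
    intro u hu
    exact ⟨div_nonneg hu.1 hρ.le, (div_le_iff₀ hρ).2 hu.2⟩
  have hsin : ∀ u ∈ Icc 0 (Real.pi * ρ), 0 ≤ Real.sin (u / ρ) := fun u hu =>
    Real.sin_nonneg_of_mem_Icc (hθ u hu)
  have hpd : ∀ u ∈ Icc 0 (Real.pi * ρ), el X y2 (y1 - y2) ρ u ∈ B.dom := by
    intro u hu
    have h1 := hsin u hu
    have h2 := Real.sin_le_one (u / ρ)
    have h3 := Real.cos_le_one (u / ρ)
    have h4 := Real.neg_one_le_cos (u / ρ)
    refine (mem_dom B).2 ⟨⟨?_, ?_⟩, between hy1 hy2 (by linarith) (by linarith)⟩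
    · nlinarith
    · nlinarith
  have hpm : Real.pi * ρ / ρ = Real.pi := by field_simp
  have e0 : el X y2 (y1 - y2) ρ 0 = ⟨X, y2⟩ := by
    unfold el
    apply Complex.ext <;> simp
  have em : el X y2 (y1 - y2) ρ (Real.pi * ρ) = ⟨X, y1⟩ := by
    unfold el
    rw [hpm]
    apply Complex.ext
    · simp
    · simp only [Real.cos_pi]
      ring
  have d0 : el' (y1 - y2) ρ 0 = -1 := by
    unfold el'
    apply Complex.ext <;> simp
  have dm : el' (y1 - y2) ρ (Real.pi * ρ) = 1 := by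
    unfold el'
    rw [hpm]
    apply Complex.ext <;> simp
  have hκ : (y1 - y2) / (2 * ρ) ≠ 0 := div_ne_zero (sub_ne_zero.2 hne) (by positivity)
  have hn0 : ∀ u ∈ Icc 0 (Real.pi * ρ), el' (y1 - y2) ρ u ≠ 0 := by
    intro u hu h
    have h1 := congrArg Complex.re h
    have h2 := congrArg Complex.im h
    change -Real.cos (u / ρ) = 0 at h1
    change (y1 - y2) / (2 * ρ) * Real.sin (u / ρ) = 0 at h2
    have h3 : Real.sin (u / ρ) = 0 := (mul_eq_zero.1 h2).resolve_left hκ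
    have h4 := Real.sin_sq_add_cos_sq (u / ρ)
    rw [h3, neg_eq_zero.1 h1] at h4
    norm_num at h4
  have hcont : Continuous (el' (y1 - y2) ρ) := by
    have h : el' (y1 - y2) ρ = fun u : ℝ => ((-Real.cos (u / ρ) : ℝ) : ℂ) +
        (((y1 - y2) / (2 * ρ) * Real.sin (u / ρ) : ℝ) : ℂ) * Complex.I := by
      funext u
      unfold el'
      apply Complex.ext
      · simp only [Complex.add_re, Complex.ofReal_re, Complex.mul_re, Complex.ofReal_im,
          Complex.I_re, Complex.I_im]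
        ring
      · simp only [Complex.add_im, Complex.ofReal_re, Complex.mul_im, Complex.ofReal_im,
          Complex.I_re, Complex.I_im]
        ring
    rw [h]
    fun_prop
  have hpi : InjOn (el X y2 (y1 - y2) ρ) (Icc 0 (Real.pi * ρ)) := by
    intro u hu u' hu' h
    have h1 := congrArg Complex.im h
    change y2 + (y1 - y2) * ((1 - Real.cos (u / ρ)) / 2) =
      y2 + (y1 - y2) * ((1 - Real.cos (u' / ρ)) / 2) at h1
    have h2 : (y1 - y2) * (Real.cos (u / ρ) - Real.cos (u' / ρ)) = 0 := by linarith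
    have h3 := sub_eq_zero.1 ((mul_eq_zero.1 h2).resolve_left (sub_ne_zero.2 hne))
    have h4 := Real.injOn_cos (hθ u hu) (hθ u' hu') h3
    have h5 := congrArg (fun z => z * ρ) h4
    simpa [div_mul_cancel₀ _ hρ.ne'] using h5
  have hdis' : ∀ u ∈ Ioo 0 (Real.pi * ρ), ∀ t ∈ Icc s r,
      B.χ (el X y2 (y1 - y2) ρ u) ≠ σ t := by
    intro u hu t ht
    have h1 : u / ρ ∈ Ioo 0 Real.pi := ⟨div_pos hu.1 hρ, (div_lt_iff₀ hρ).2 hu.2⟩
    have h2 : Real.cos (u / ρ) < 1 := by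
      have := Real.strictAntiOn_cos (left_mem_Icc.2 Real.pi_pos.le) ⟨h1.1.le, h1.2.le⟩ h1.1
      rwa [Real.cos_zero] at this
    have h3 : -1 < Real.cos (u / ρ) := by
      have := Real.strictAntiOn_cos ⟨h1.1.le, h1.2.le⟩ (right_mem_Icc.2 Real.pi_pos.le) h1.2
      rwa [Real.cos_pi] at this
    refine hdis _ _ ?_ ?_ (hpd u ⟨hu.1.le, hu.2.le⟩) t ht
    · intro h
      have h4 : (y1 - y2) * ((1 + Real.cos (u / ρ)) / 2) = 0 := by linarith
      rcases mul_eq_zero.1 h4 with h5 | h5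
      · exact hne (sub_eq_zero.1 h5)
      · linarith
    · intro h
      have h4 : (y1 - y2) * ((1 - Real.cos (u / ρ)) / 2) = 0 := by linarith
      rcases mul_eq_zero.1 h4 with h5 | h5
      · exact hne (sub_eq_zero.1 h5)
      · linarith
  have hmid : ∀ Λ : ℝ → ℂ, ContinuousOn Λ (Icc 0 (Real.pi * ρ)) →
      (∀ u ∈ Icc 0 (Real.pi * ρ), Complex.exp (Λ u) = el' (y1 - y2) ρ u ^ 2) →
      4 * Real.pi ≤ |(Λ (Real.pi * ρ) - Λ 0).im| := by
    intro Λ hΛ hexp
    exact close_up B hsr hm hσ hinj (el X y2 (y1 - y2) ρ) (el' (y1 - y2) ρ)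
      (fun u _ => el_deriv X y2 (y1 - y2) hρ u) hcont.continuousOn hpd hn0 hpi
      (by rw [e0]; exact hr) (by rw [em]; exact hs) (by rw [e0, d0]; exact hvr)
      (by rw [em, dm, mul_one]; exact hvs) hdis' Λ hΛ hexp
  rcases lt_or_gt_of_ne hκ with hneg | hpos
  · -- the argument `- p'` is in the closed upper half plane
    have h1 : ContinuousOn (fun u => Complex.log (-el' (y1 - y2) ρ u))
        (Icc 0 (Real.pi * ρ)) := by
      refine log_upper hcont.neg.continuousOn (fun u hu => neg_ne_zero.2 (hn0 u hu)) ?_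
      intro u hu
      change 0 ≤ -((y1 - y2) / (2 * ρ) * Real.sin (u / ρ))
      nlinarith [hsin u hu]
    have key := hmid (fun u => 2 * Complex.log (-el' (y1 - y2) ρ u))
      (continuousOn_const.mul h1) ?_
    · rw [d0, dm, neg_neg] at key
      simp only [Complex.log_one, Complex.log_neg_one, mul_zero, sub_zero, Complex.mul_im,
        Complex.re_ofNat, Complex.im_ofNat, Complex.ofReal_im, Complex.ofReal_re, Complex.I_re,
        Complex.I_im, mul_one, zero_mul, add_zero] at key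
      rw [abs_of_pos (by positivity)] at key
      linarith [Real.pi_pos]
    · intro u hu
      rw [two_mul, Complex.exp_add, Complex.exp_log (neg_ne_zero.2 (hn0 u hu))]
      ring
  · have h1 : ContinuousOn (fun u => Complex.log (-(starRingEnd ℂ) (el' (y1 - y2) ρ u)))
        (Icc 0 (Real.pi * ρ)) := by
      refine log_upper (Complex.continuous_conj.comp hcont).neg.continuousOn
        (fun u hu => neg_ne_zero.2 ((map_ne_zero _).2 (hn0 u hu))) ?_
      intro u hu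
      change 0 ≤ -(-((y1 - y2) / (2 * ρ) * Real.sin (u / ρ)))
      nlinarith [hsin u hu]
    have key := hmid
      (fun u => (starRingEnd ℂ) (2 * Complex.log (-(starRingEnd ℂ) (el' (y1 - y2) ρ u))))
      (Complex.continuous_conj.comp_continuousOn (continuousOn_const.mul h1)) ?_
    · rw [d0, dm] at key
      simp only [map_neg, map_one, neg_neg, Complex.log_one, Complex.log_neg_one, mul_zero,
        map_zero, sub_zero, Complex.conj_im, Complex.mul_im,
        Complex.re_ofNat, Complex.im_ofNat, Complex.ofReal_im, Complex.ofReal_re, Complex.I_re,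
        Complex.I_im, mul_one, zero_mul, add_zero, abs_neg] at key
      rw [abs_of_pos (by positivity)] at key
      linarith [Real.pi_pos]
    · intro u hu
      rw [Complex.exp_conj, two_mul, Complex.exp_add,
        Complex.exp_log (neg_ne_zero.2 ((map_ne_zero _).2 (hn0 u hu)))]
      rw [neg_mul_neg, map_mul, Complex.conj_conj, sq]

/-! ### the proof -/

private theorem aux (B : Box Q) {σ : ℝ → ℂ} {T t1 t2 β x1 y1 : ℝ}
    (hσ : ∀ t ∈ Ioo 0 T, Hor Q σ t) (h1 : 0 < t1) (h12 : t1 ≤ t2) (h2β : t2 < β) (hβ : β ≤ T)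
    (harc : ∀ t ∈ Ioo 0 t1, (⟨x1 + 1 * t, y1⟩ : ℂ) ∈ B.dom ∧ σ t = B.χ ⟨x1 + 1 * t, y1⟩)
    (hout : ∀ t ∈ Icc t1 t2, σ t ∉ B.img) (hin : ∀ t ∈ Ioo t2 β, σ t ∈ B.img) : False := by
  have hH1 : Hor Q σ t1 := hσ t1 ⟨h1, by linarith⟩
  have hH2 : Hor Q σ t2 := hσ t2 ⟨by linarith, by linarith⟩
  have hb : x1 + 1 * t1 = B.b := by
    rcases end_right B h1 (Or.inl rfl) harc hH1.continuousAt
      (hout t1 ⟨le_rfl, h12⟩) with h | h
    · exact h.2
    · have := h.1
      norm_num at this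
  obtain ⟨x2, y2, e2, he2, harc2⟩ := box_arc B h2β
    (fun t ht => hσ t ⟨by linarith [ht.1], by linarith [ht.2]⟩) hin
  have hab := B.hab
  have hy1 : B.c < y1 ∧ y1 < B.d :=
    ((mem_dom B).1 (harc (t1 / 2) ⟨by linarith, by linarith⟩).1).2
  have hy2 : B.c < y2 ∧ y2 < B.d :=
    ((mem_dom B).1 (harc2 ((t2 + β) / 2) ⟨by linarith, by linarith⟩).1).2
  rcases end_left B h2β he2 harc2 hH2.continuousAt (hout t2 ⟨h12, le_rfl⟩) with ⟨he, h2⟩ | ⟨he, h2⟩
  · -- the arc returns in the same direction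
    subst he
    obtain ⟨ts, hts0, hts1, htsX⟩ : ∃ ts, 0 < ts ∧ ts < t1 ∧ (B.a + B.b) / 2 < x1 + 1 * ts := by
      refine ⟨max (t1 / 2) (t1 - (B.b - B.a) / 4), lt_max_of_lt_left (by linarith),
        max_lt (by linarith) (by linarith), ?_⟩
      have := le_max_right (t1 / 2) (t1 - (B.b - B.a) / 4)
      linarith
    obtain ⟨tr, htr2, htrβ, htrX⟩ : ∃ tr, t2 < tr ∧ tr < β ∧ x2 + 1 * tr < (B.a + B.b) / 2 := by
      refine ⟨min ((t2 + β) / 2) (t2 + (B.b - B.a) / 4), lt_min (by linarith) (by linarith),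
        min_lt_of_left_lt (by linarith), ?_⟩
      have := min_le_right ((t2 + β) / 2) (t2 + (B.b - B.a) / 4)
      linarith
    have hm : 0 < (x1 + 1 * ts) - (x2 + 1 * tr) := by linarith
    have hds : (⟨x1 + 1 * ts, y1⟩ : ℂ) ∈ B.dom ∧ σ ts = B.χ ⟨x1 + 1 * ts, y1⟩ :=
      harc ts ⟨hts0, hts1⟩
    have hdr : (⟨x2 + 1 * tr, y2⟩ : ℂ) ∈ B.dom ∧ σ tr = B.χ ⟨x2 + 1 * tr, y2⟩ :=
      harc2 tr ⟨htr2, htrβ⟩
    have hXm : (x2 + 1 * tr) + ((x1 + 1 * ts) - (x2 + 1 * tr)) = x1 + 1 * ts := by ring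
    have hinj : InjOn σ (Icc ts tr) := by
      refine inj_of hσ hts0 (by linarith) ?_
      intro p hp hpr heq
      rw [hds.2] at heq
      rcases lt_or_ge (ts + p) t1 with h | h
      · obtain ⟨a1, a2⟩ := harc (ts + p) ⟨by linarith, h⟩
        rw [a2] at heq
        have a3 := congrArg Complex.re (B.inj a1 hds.1 heq)
        change x1 + 1 * (ts + p) = x1 + 1 * ts at a3
        linarith
      · rcases le_or_gt (ts + p) t2 with h' | h'
        · exact hout _ ⟨h, h'⟩ ⟨_, hds.1, heq.symm⟩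
        · obtain ⟨a1, a2⟩ := harc2 (ts + p) ⟨h', by linarith⟩
          rw [a2] at heq
          have a3 := congrArg Complex.re (B.inj a1 hds.1 heq)
          change x2 + 1 * (ts + p) = x1 + 1 * ts at a3
          linarith
    refine close_graph B (s := ts) (r := tr) (X := x2 + 1 * tr) (y1 := y1) (y2 := y2)
      (m := (x1 + 1 * ts) - (x2 + 1 * tr)) (by linarith) hm
      (fun t ht => hσ t ⟨by linarith [ht.1], by linarith [ht.2]⟩) hinj
      ((mem_dom B).1 hdr.1).1.1 (by rw [hXm]; exact ((mem_dom B).1 hds.1).1.2) hy1 hy2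
      hdr.2.symm (by rw [hXm]; exact hds.2.symm) ?_ ?_ ?_
    · have h := arc_deriv B (σ := σ) (t := tr) hdr.1 (by
        filter_upwards [Ioo_mem_nhds htr2 htrβ] with t ht
        exact (harc2 t ht).2)
      rw [h]
      simp
    · rw [hXm]
      have h := arc_deriv B (σ := σ) (t := ts) hds.1 (by
        filter_upwards [Ioo_mem_nhds hts0 hts1] with t ht
        exact (harc t ht).2)
      rw [h]
      simp
    · intro x y hx1 hx2 hd t ht heq
      rw [hXm] at hx2
      rcases lt_or_ge t t1 with h | h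
      · obtain ⟨a1, a2⟩ := harc t ⟨by linarith [ht.1], h⟩
        rw [a2] at heq
        have a3 := congrArg Complex.re (B.inj hd a1 heq)
        change x = x1 + 1 * t at a3
        linarith [ht.1]
      · rcases le_or_gt t t2 with h' | h'
        · exact hout _ ⟨h, h'⟩ ⟨_, hd, heq⟩
        · obtain ⟨a1, a2⟩ := harc2 t ⟨h', by linarith [ht.2]⟩
          rw [a2] at heq
          have a3 := congrArg Complex.re (B.inj hd a1 heq)
          change x = x2 + 1 * t at a3
          linarith [ht.2]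
  · -- the arc returns in the opposite direction
    subst he
    obtain ⟨δ, hδ, hδ1, hδβ⟩ : ∃ δ, 0 < δ ∧ δ < t1 ∧ t2 + δ < β := by
      refine ⟨min t1 (β - t2) / 2, ?_, ?_, ?_⟩
      · exact half_pos (lt_min h1 (by linarith))
      · have := min_le_left t1 (β - t2)
        linarith
      · have h3 := min_le_right t1 (β - t2)
        linarith
    have hyne : y1 ≠ y2 := by
      intro hy
      have h5 : EqOn (fun v => σ (t1 - v)) (fun v => σ (v + t2))
          (Ioo (-(t2 - t1) - δ) δ) := by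
        refine hor_eqOn (Q := Q) (t0 := δ / 2) ?_ ?_ ?_ ?_
        · intro v hv
          exact Hor.neg_time (hσ _ ⟨by linarith [hv.2], by linarith [hv.1]⟩)
        · intro v hv
          exact Hor.shift (hσ _ ⟨by linarith [hv.1], by linarith [hv.2]⟩)
        · exact ⟨by linarith, by linarith⟩
        · have h6 : Ioo 0 δ ∈ 𝓝 (δ / 2) := Ioo_mem_nhds (by linarith) (by linarith)
          filter_upwards [h6] with v hv
          rw [(harc (t1 - v) ⟨by linarith [hv.2], by linarith [hv.1]⟩).2,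
            (harc2 (v + t2) ⟨by linarith [hv.1], by linarith [hv.2]⟩).2, hy]
          have h7 : x1 + 1 * (t1 - v) = x2 + -1 * (v + t2) := by linarith
          rw [h7]
      refine no_turn (hσ ((t1 + t2) / 2) ⟨by linarith, by linarith⟩) ?_
      have h6 : Ioo (-δ) δ ∈ 𝓝 (0 : ℝ) := Ioo_mem_nhds (by linarith) (by linarith)
      filter_upwards [h6] with w hw
      have h7 := h5 (show -((t2 - t1) / 2) + w ∈ Ioo (-(t2 - t1) - δ) δ from
        ⟨by linarith [hw.1], by linarith [hw.2]⟩)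
      have h8 : t1 - (-((t2 - t1) / 2) + w) = (t1 + t2) / 2 - w := by ring
      have h9 : -((t2 - t1) / 2) + w + t2 = (t1 + t2) / 2 + w := by ring
      change σ (t1 - (-((t2 - t1) / 2) + w)) = σ (-((t2 - t1) / 2) + w + t2) at h7
      rw [h8, h9] at h7
      exact h7.symm
    have hds := harc (t1 - δ) ⟨by linarith, by linarith⟩
    have hdr := harc2 (t2 + δ) ⟨by linarith, by linarith⟩
    have hX : x2 + -1 * (t2 + δ) = x1 + 1 * (t1 - δ) := by linarith
    have hinj : InjOn σ (Icc (t1 - δ) (t2 + δ)) := by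
      refine inj_of hσ (by linarith) (by linarith) ?_
      intro p hp hpr heq
      rw [hds.2] at heq
      rcases lt_or_ge (t1 - δ + p) t1 with h | h
      · obtain ⟨a1, a2⟩ := harc (t1 - δ + p) ⟨by linarith, h⟩
        rw [a2] at heq
        have a3 := congrArg Complex.re (B.inj a1 hds.1 heq)
        change x1 + 1 * (t1 - δ + p) = x1 + 1 * (t1 - δ) at a3
        linarith
      · rcases le_or_gt (t1 - δ + p) t2 with h' | h'
        · exact hout _ ⟨h, h'⟩ ⟨_, hds.1, heq.symm⟩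
        · obtain ⟨a1, a2⟩ := harc2 (t1 - δ + p) ⟨h', by linarith⟩
          rw [a2] at heq
          have a3 := congrArg Complex.im (B.inj a1 hds.1 heq)
          exact hyne a3.symm
    refine close_ellipse B (s := t1 - δ) (r := t2 + δ) (X := x1 + 1 * (t1 - δ)) (y1 := y1)
      (y2 := y2) (by linarith) (fun t ht => hσ t ⟨by linarith [ht.1], by linarith [ht.2]⟩) hinj
      ((mem_dom B).1 hds.1).1.1 ((mem_dom B).1 hds.1).1.2 hy1 hy2 hyne
      (by rw [← hX]; exact hdr.2.symm) hds.2.symm ?_ ?_ ?_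
    · have h := arc_deriv B (σ := σ) (t := t2 + δ) hdr.1 (by
        filter_upwards [Ioo_mem_nhds (show t2 < t2 + δ by linarith) hδβ] with t ht
        exact (harc2 t ht).2)
      rw [h, hX]
      simp
    · have h := arc_deriv B (σ := σ) (t := t1 - δ) hds.1 (by
        filter_upwards [Ioo_mem_nhds (show 0 < t1 - δ by linarith)
          (show t1 - δ < t1 by linarith)] with t ht
        exact (harc t ht).2)
      rw [h]
      simp
    · intro x y hya hyb hd t ht heq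
      rcases lt_or_ge t t1 with h | h
      · obtain ⟨a1, a2⟩ := harc t ⟨by linarith [ht.1], h⟩
        rw [a2] at heq
        exact hya (congrArg Complex.im (B.inj hd a1 heq))
      · rcases le_or_gt t t2 with h' | h'
        · exact hout _ ⟨h, h'⟩ ⟨_, hd, heq⟩
        · obtain ⟨a1, a2⟩ := harc2 t ⟨h', by linarith [ht.2]⟩
          rw [a2] at heq
          exact hyb (congrArg Complex.im (B.inj hd a1 heq))

/-- a first and a last time outside of an open set, around a given time -/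
private theorem gap {σ : ℝ → ℂ} {T u v : ℝ} {W : Set ℂ} (hW : IsOpen W)
    (hc : ∀ t ∈ Icc 0 T, ContinuousAt σ t) (hu : 0 ≤ u) (huv : u ≤ v) (hv : v ≤ T)
    (hu' : σ u ∉ W) (hv' : σ v ∈ W) :
    ∃ l, u ≤ l ∧ l < v ∧ σ l ∉ W ∧ ∀ t, l < t → t ≤ v → σ t ∈ W := by
  have hcl : IsClosed {t ∈ Icc u v | σ t ∉ W} := by
    have hcon : ContinuousOn σ (Icc u v) := fun t ht =>
      (hc t ⟨by linarith [ht.1], by linarith [ht.2]⟩).continuousWithinAt
    exact hcon.preimage_isClosed_of_isClosed isClosed_Icc hW.isClosed_compl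
  have hne : {t ∈ Icc u v | σ t ∉ W}.Nonempty := ⟨u, ⟨le_rfl, huv⟩, hu'⟩
  have hbd : BddAbove {t ∈ Icc u v | σ t ∉ W} := ⟨v, fun t ht => ht.1.2⟩
  obtain ⟨h1, h2⟩ := hcl.csSup_mem hne hbd
  refine ⟨_, h1.1, lt_of_le_of_ne h1.2 ?_, h2, ?_⟩
  · intro h
    rw [h] at h2
    exact h2 hv'
  · intro t ht1 ht2
    by_contra h
    have := le_csSup hbd (show t ∈ {t ∈ Icc u v | σ t ∉ W} from
      ⟨⟨by linarith [h1.1], ht2⟩, h⟩)
    linarith

/-- the first time outside -/
private theorem gap_right {σ : ℝ → ℂ} {T u v : ℝ} {W : Set ℂ} (hW : IsOpen W)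
    (hc : ∀ t ∈ Icc 0 T, ContinuousAt σ t) (hu : 0 ≤ u) (huv : u ≤ v) (hv : v ≤ T)
    (hu' : σ u ∈ W) (hv' : σ v ∉ W) :
    ∃ l, u < l ∧ l ≤ v ∧ σ l ∉ W ∧ ∀ t, u ≤ t → t < l → σ t ∈ W := by
  have hcl : IsClosed {t ∈ Icc u v | σ t ∉ W} := by
    have hcon : ContinuousOn σ (Icc u v) := fun t ht =>
      (hc t ⟨by linarith [ht.1], by linarith [ht.2]⟩).continuousWithinAt
    exact hcon.preimage_isClosed_of_isClosed isClosed_Icc hW.isClosed_compl
  have hne : {t ∈ Icc u v | σ t ∉ W}.Nonempty := ⟨v, ⟨huv, le_rfl⟩, hv'⟩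
  have hbd : BddBelow {t ∈ Icc u v | σ t ∉ W} := ⟨u, fun t ht => ht.1.1⟩
  obtain ⟨h1, h2⟩ := hcl.csInf_mem hne hbd
  refine ⟨_, lt_of_le_of_ne h1.1 ?_, h1.2, h2, ?_⟩
  · intro h
    rw [← h] at h2
    exact h2 hu'
  · intro t ht1 ht2
    by_contra h
    have := csInf_le hbd (show t ∈ {t ∈ Icc u v | σ t ∉ W} from
      ⟨⟨ht1, by linarith [h1.2]⟩, h⟩)
    linarith

theorem no_return (B : Box Q) {σ : ℝ → ℂ} {T : ℝ} (hT : 0 ≤ T) (hσ : ∀ t ∈ Icc 0 T, Hor Q σ t)
    (h0 : σ 0 ∈ B.img) (h1 : σ T ∈ B.img) : ∀ t ∈ Icc 0 T, σ t ∈ B.img := by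
  intro t' ht'
  by_contra hn
  have hc : ∀ t ∈ Icc 0 T, ContinuousAt σ t := fun t ht => (hσ t ht).continuousAt
  have hW := B.isOpen_img
  -- the first time outside
  obtain ⟨t1, a1, a2, a3, a4⟩ := gap_right hW hc le_rfl ht'.1 ht'.2 h0 hn
  have ht1T : t1 < T := by
    rcases eq_or_lt_of_le (a2.trans ht'.2) with h | h
    · rw [h] at a3
      exact absurd h1 a3
    · exact h
  -- the first return
  have hex : ∃ t2 β, t1 ≤ t2 ∧ t2 < β ∧ β ≤ T ∧ (∀ t ∈ Icc t1 t2, σ t ∉ B.img) ∧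
      ∀ t ∈ Ioo t2 β, σ t ∈ B.img := by
    have hne : {t | t1 ≤ t ∧ t ≤ T ∧ σ t ∈ B.img}.Nonempty := ⟨T, ht1T.le, le_rfl, h1⟩
    have hbd : BddBelow {t | t1 ≤ t ∧ t ≤ T ∧ σ t ∈ B.img} := ⟨t1, fun t ht => ht.1⟩
    obtain ⟨t2, ht2⟩ : ∃ t2, t2 = sInf {t | t1 ≤ t ∧ t ≤ T ∧ σ t ∈ B.img} := ⟨_, rfl⟩
    have b1 : t1 ≤ t2 := by
      rw [ht2]
      exact le_csInf hne fun t ht => ht.1
    have b2 : ∀ t, t1 ≤ t → t < t2 → σ t ∉ B.img := by
      intro t c1 c2 c3
      have c4 : t2 ≤ T := by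
        rw [ht2]
        exact csInf_le hbd ⟨ht1T.le, le_rfl, h1⟩
      have := csInf_le hbd (show t ∈ {t | t1 ≤ t ∧ t ≤ T ∧ σ t ∈ B.img} from
        ⟨c1, by linarith, c3⟩)
      rw [← ht2] at this
      linarith
    have b3 : t2 ≤ T := by
      rw [ht2]
      exact csInf_le hbd ⟨ht1T.le, le_rfl, h1⟩
    have b4 : σ t2 ∉ B.img := by
      intro c
      rcases eq_or_lt_of_le b1 with c1 | c1
      · rw [← c1] at c
        exact a3 c
      · have c2 : ∀ᶠ t in 𝓝 t2, σ t ∈ B.img :=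
          (hc t2 ⟨by linarith, b3⟩).eventually (hW.mem_nhds c)
        have c3 : ∀ᶠ t in 𝓝[<] t2, σ t ∈ B.img := c2.filter_mono nhdsWithin_le_nhds
        have c4 : ∀ᶠ t in 𝓝[<] t2, t ∈ Ioo t1 t2 := Ioo_mem_nhdsLT c1
        obtain ⟨t, c5, c6⟩ := (c3.and c4).exists
        exact b2 t c6.1.le c6.2 c5
    have b5 : t2 < T := by
      rcases eq_or_lt_of_le b3 with c | c
      · rw [c] at b4
        exact absurd h1 b4
      · exact c
    -- a return point close to `t2`
    have hab := B.hab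
    have b6 : ∀ ε > 0, ∃ r, t2 < r ∧ r < t2 + ε ∧ r ≤ T ∧ σ r ∈ B.img := by
      intro ε hε
      obtain ⟨r, c1, c2⟩ := (csInf_lt_iff hbd hne).1
        (show sInf {t | t1 ≤ t ∧ t ≤ T ∧ σ t ∈ B.img} < t2 + ε by rw [← ht2]; linarith)
      refine ⟨r, ?_, c2, c1.2.1, c1.2.2⟩
      have c3 : t2 ≤ r := by
        rw [ht2]
        exact csInf_le hbd c1
      rcases eq_or_lt_of_le c3 with c4 | c4
      · rw [← c4] at c1
        exact absurd c1.2.2 b4
      · exact c4
    obtain ⟨r, c1, c2, c3, c4⟩ := b6 (B.b - B.a) (by linarith)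
    obtain ⟨l, d1, d2, d3, d4⟩ := gap hW hc (by linarith) c1.le c3 b4 c4
    have d5 : l = t2 := by
      by_contra hne'
      have d6 : t2 < l := lt_of_le_of_ne d1 fun h => hne' h.symm
      obtain ⟨r', f1, f2, f3, f4⟩ := b6 (l - t2) (by linarith)
      obtain ⟨l', g1, g2, g3, g4⟩ := gap hW hc (by linarith) f1.le f3 b4 f4
      obtain ⟨β', k1, k2, k3, k4⟩ := gap_right hW hc (by linarith) (show r' ≤ l by linarith)
        (by linarith) f4 d3
      have k5 : l' < β' := by linarith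
      have k6 : ∀ t ∈ Ioo l' β', σ t ∈ B.img := by
        intro t ht
        rcases le_or_gt t r' with k | k
        · exact g4 t ht.1 k
        · exact k4 t k.le ht.2
      obtain ⟨x, y, e, he, harc⟩ := box_arc B k5
        (fun t ht => hσ t ⟨by linarith [ht.1], by linarith [ht.2]⟩) k6
      have k7 := end_left B k5 he harc (hc l' ⟨by linarith, by linarith⟩) g3
      have k8 := end_right B k5 he harc (hc β' ⟨by linarith, by linarith⟩) k3
      rcases k7 with ⟨k7, k7'⟩ | ⟨k7, k7'⟩ <;> rcases k8 with ⟨k8, k8'⟩ | ⟨k8, k8'⟩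
      · rw [k7] at k7' k8'
        linarith
      · rw [k7] at k8
        norm_num at k8
      · rw [k7] at k8
        norm_num at k8
      · rw [k7] at k7' k8'
        linarith
    rw [d5] at d4
    refine ⟨t2, r, b1, c1, c3, ?_, ?_⟩
    · intro t ht
      rcases eq_or_lt_of_le ht.2 with h | h
      · rw [h]
        exact b4
      · exact b2 t ht.1 h
    · intro t ht
      exact d4 t ht.1 ht.2.le
  obtain ⟨t2, β, b1, b2, b3, b4, b5⟩ := hex
  obtain ⟨x1, y1, e1, he1, harc⟩ := box_arc B a1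
    (fun t ht => hσ t ⟨ht.1.le, by linarith [ht.2]⟩) (fun t ht => a4 t ht.1.le ht.2)
  have hσ' : ∀ t ∈ Ioo 0 T, Hor Q σ t := fun t ht => hσ t ⟨ht.1.le, ht.2.le⟩
  rcases he1 with rfl | rfl
  · exact aux B hσ' a1 b1 b2 b3 harc b4 b5
  · have hR := B.rot_img
    refine aux B.rot (x1 := -x1) (y1 := -y1) hσ' a1 b1 b2 b3 ?_ (by rw [hR]; exact b4)
      (by rw [hR]; exact b5)
    intro t ht
    obtain ⟨c1, c2⟩ := harc t ht
    have c3 : -(⟨-x1 + 1 * t, -y1⟩ : ℂ) = ⟨x1 + -1 * t, y1⟩ := by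
      apply Complex.ext
      · simp only [Complex.neg_re]
        ring
      · simp
    refine ⟨(rot_dom B).2 (by rw [c3]; exact c1), ?_⟩
    change σ t = B.χ (-(⟨-x1 + 1 * t, -y1⟩ : ℂ))
    rw [c3]
    exact c2

end Pool.Agent.ANO2.Geo2
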