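import Pool.Agent.ANO2.Geo2.AffB
import Pool.Agent.ANO2.Geo2.LeafA

/-!
# ANO phase 2, Geo2: the signed distance from an invariant leaf

Situation: `φ` is affine with factor `l < 1` and fixes the regular point `w`, preserving the local
orientations there: `D (φ z) = str l (D z)` near `w` for a branch `D` of `∫ √q` with `D w = 0`.

* `fixed_leaf`: by `two_rays` there is a complete horizontal leaf `σ`, `σ 0 = w`, or a horizontal
  arc `σ` on `(-δ, T)` with `σ 0 = w` which tends to a zero `s` of `q` at `T`.  In the second case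
  `σ' u = φ (σ (u / l))` is horizontal on `(-δ l, T l)`; near `0` `D (σ u) = e u` (`e = ± 1`), so
  `D (σ' u) = str l (e u / l) = e u = D (σ u)` and `σ' = σ` near `0`, so `σ' = σ` on `(- δ l, T l)`
  (`hor_eqOn`); for `u → T l` we get `φ s = σ (T l)` (`φ` is continuous at `s`), `0 < T l < T`, so
  `q (φ s) ≠ 0`, while `q (φ s) = 0` by `Aff.zero`: contradiction.  In the first case
  the same argument gives `φ (σ (u / l)) = σ u` for all `u`, that is `φ (σ u) = σ (l u)`.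
-/

set_option autoImplicit false

open Set Filter Topology

namespace Pool.Agent.ANO2.Geo2

variable {Q : QD}

/-- `φ` fixes the regular point `w` and preserves the local orientations. -/
def FixReg (Q : QD) (φ : ℂ → ℂ) (l : ℝ) (w : ℂ) : Prop :=
  w ∈ Q.U ∧ Q.q w ≠ 0 ∧ φ w = w ∧ ∃ D : ℂ → ℂ, AnalyticAt ℂ D w ∧ D w = 0 ∧
    (∀ᶠ z in 𝓝 w, deriv D z ^ 2 = Q.q z) ∧ ∀ᶠ z in 𝓝 w, D (φ z) = str l (D z)

theorem FixReg.neg {φ : ℂ → ℂ} {l : ℝ} {w : ℂ} (h : FixReg Q φ l w) :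
    FixReg Q.neg φ l⁻¹ w := by
  obtain ⟨hw, hq, hφ, D, h1, h2, h3, h4⟩ := h
  refine ⟨hw, neg_ne_zero.2 hq, hφ, fun z => Complex.I * D z, analyticAt_const.mul h1, ?_, ?_, ?_⟩
  · show Complex.I * D w = 0
    rw [h2, mul_zero]
  · filter_upwards [h3] with z hz
    rw [deriv_const_mul_field, mul_pow, hz, Complex.I_sq]
    show -1 * Q.q z = -Q.q z
    ring
  · filter_upwards [h4] with z hz
    show Complex.I * D (φ z) = str l⁻¹ (Complex.I * D z)
    rw [hz]
    apply Complex.ext <;> simp [str]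

private theorem fix_near {φ φ' : ℂ → ℂ} {l : ℝ} (h : Aff Q φ φ' l) {w : ℂ}
    (hw : FixReg Q φ l w) {σ : ℝ → ℂ} {δ T : ℝ} (hδ : 0 < δ) (hT : 0 < T) (h0 : σ 0 = w)
    (hσ : ∀ t ∈ Ioo (-δ) T, Hor Q σ t) : (fun u => φ (σ (u / l))) =ᶠ[𝓝 0] σ := by
  obtain ⟨hwU, hwq, hφw, D, hDa, hD0, hDq, hDφ⟩ := hw
  obtain ⟨v, hv⟩ : ∃ v : ℂ, v ^ 2 = (Q.q w)⁻¹ :=
    IsAlgClosed.exists_pow_nat_eq _ (by norm_num)
  obtain ⟨ρ, hρ, B, ha, hb, hc, hd, hχ, -, -⟩ :=
    box_exists Q hwU (v := v) (by rw [hv, mul_inv_cancel₀ hwq]) (W := univ) univ_mem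
  have h0dom : (0 : ℂ) ∈ B.dom := by
    rw [Box.dom, Complex.mem_reProdIm, ha, hb, hc, hd]
    simp [hρ]
  have hwimg : w ∈ B.img := ⟨0, h0dom, hχ⟩
  have himgn : B.img ∈ 𝓝 w := B.isOpen_img.mem_nhds hwimg
  have hBa : AnalyticAt ℂ B.D w := B.D_holo.analyticAt himgn
  have hBq : ∀ᶠ z in 𝓝 w, deriv B.D z ^ 2 = Q.q z := by
    filter_upwards [himgn] with z hz
    exact B.deriv_D hz
  obtain ⟨e', c, he', hbr⟩ := branch_unique hDa hBa hDq hBq hwq
  have hee : e' * e' = 1 := by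
    rcases he' with rfl | rfl <;> norm_num
  have hσ0 : ContinuousAt σ 0 := (hσ 0 ⟨by linarith, hT⟩).continuousAt
  have hσt : Tendsto σ (𝓝 0) (𝓝 w) := by
    have h1 := hσ0.tendsto
    rwa [h0] at h1
  have hev : ∀ᶠ t in 𝓝 (0 : ℝ), σ t ∈ B.img := hσt.eventually_mem himgn
  have hev2 : ∀ᶠ t in 𝓝 (0 : ℝ), t ∈ Ioo (-δ) T := Ioo_mem_nhds (by linarith) hT
  obtain ⟨η, hη, hball⟩ := Metric.eventually_nhds_iff_ball.1 (hev.and hev2)
  have hIoo : ∀ t ∈ Ioo (-η) η, σ t ∈ B.img ∧ t ∈ Ioo (-δ) T := fun t ht =>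
    hball t (by rw [Real.ball_eq_Ioo, zero_sub, zero_add]; exact ht)
  obtain ⟨x, y, e, he, harc⟩ := box_arc B (a := -η) (b := η) (by linarith)
    (fun t ht => hσ t (hIoo t ht).2) (fun t ht => (hIoo t ht).1)
  have hDσ : ∀ t ∈ Ioo (-η) η, B.D (σ t) = ⟨x + e * t, y⟩ := fun t ht => by
    rw [(harc t ht).2, B.D_χ (harc t ht).1]
  have hDw : B.D w = ⟨x, y⟩ := by
    have h1 := hDσ 0 ⟨by linarith, hη⟩
    rw [h0, mul_zero, add_zero] at h1
    exact h1
  have hbrw : B.D w = c := by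
    have h1 := hbr.self_of_nhds
    rw [hD0, mul_zero, zero_add] at h1
    exact h1
  have hkey : ∀ᶠ t in 𝓝 (0 : ℝ), D (σ t) = e' * ((e * t : ℝ) : ℂ) := by
    filter_upwards [hσt.eventually hbr, Ioo_mem_nhds (neg_neg_of_pos hη) hη] with t ht1 ht2
    have h1 := hDσ t ht2
    have h2 : B.D (σ t) - c = ((e * t : ℝ) : ℂ) := by
      rw [h1, ← hbrw, hDw]
      apply Complex.ext <;> simp
    calc D (σ t) = e' * e' * D (σ t) := by rw [hee, one_mul]
      _ = e' * (B.D (σ t) - c) := by rw [ht1]; ring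
      _ = e' * ((e * t : ℝ) : ℂ) := by rw [h2]
  have hlpos := h.pos
  have htends : Tendsto (fun u : ℝ => u / l) (𝓝 0) (𝓝 0) := by
    have h1 := (continuous_id.div_const l).tendsto (0 : ℝ)
    simpa using h1
  have hτ : ∀ᶠ u in 𝓝 (0 : ℝ), D (φ (σ (u / l))) = e' * ((e * u : ℝ) : ℂ) := by
    filter_upwards [htends.eventually (hσt.eventually hDφ), htends.eventually hkey] with u h1 h2
    rw [h1, h2]
    have h3 : l * (e * (u / l)) = e * u := by
      field_simp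
    rcases he' with rfl | rfl
    · apply Complex.ext
      · simp [str, h3]
      · simp [str]
    · apply Complex.ext
      · simp [str, h3]
      · simp [str]
  have hφc : ContinuousAt φ w := h.cont.continuousAt (Q.isOpen.mem_nhds hwU)
  have hφt : Tendsto φ (𝓝 w) (𝓝 w) := by
    have h1 := hφc.tendsto
    rwa [hφw] at h1
  have hτt : Tendsto (fun u => φ (σ (u / l))) (𝓝 0) (𝓝 w) := hφt.comp (hσt.comp htends)
  filter_upwards [hτt.eventually hbr, hσt.eventually hbr, hτ, hkey, hτt.eventually_mem himgn,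
    hev] with u h1 h2 h3 h4 h5 h6
  have h7 : B.D (φ (σ (u / l))) = B.D (σ u) := by
    rw [h1, h2, h3, h4]
  show φ (σ (u / l)) = σ u
  rw [← B.χ_D h5, h7, B.χ_D h6]

theorem fixed_leaf (hP : Proper Q) {φ φ' : ℂ → ℂ} {l : ℝ} (h : Aff Q φ φ' l) (hl : l < 1) {w : ℂ}
    (hw : FixReg Q φ l w) : ∃ σ : ℝ → ℂ, Leaf Q σ ∧ σ 0 = w ∧ ∀ u, φ (σ u) = σ (l * u) := by
  have hlpos := h.pos
  rcases two_rays hP hw.1 hw.2.1 with ⟨σ, hL, h0⟩ | ⟨σ, δ, T, s, hδ, hT, h0, hσ, hs, hqs, hlim⟩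
  · refine ⟨σ, hL, h0, fun u => ?_⟩
    have h1 := fix_near h hw one_pos one_pos h0 (fun t _ => hL t)
    have h2 : ∀ t, Hor Q (fun u => φ (σ (u / l))) t := by
      intro t
      have h3 := h.hor (hL (t / l))
      rwa [mul_div_cancel₀ _ hlpos.ne'] at h3
    have h3 := hor_eqOn (a := -(|l * u| + 1)) (b := |l * u| + 1) (t0 := 0) (fun t _ => h2 t)
      (fun t _ => hL t) ⟨by linarith [abs_nonneg (l * u)], by linarith [abs_nonneg (l * u)]⟩ h1
    have h4 := h3 (x := l * u) ⟨by linarith [neg_abs_le (l * u)], by linarith [le_abs_self (l * u)]⟩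
    have h5 : φ (σ (l * u / l)) = σ (l * u) := h4
    rwa [mul_div_cancel_left₀ _ hlpos.ne'] at h5
  · exfalso
    have h1 := fix_near h hw hδ hT h0 hσ
    have h2 : ∀ t ∈ Ioo (-(l * δ)) (l * T), Hor Q (fun u => φ (σ (u / l))) t := by
      intro t ht
      have h3 := h.hor (hσ (t / l) ⟨by
        rw [lt_div_iff₀ hlpos]
        linarith [ht.1], by
        rw [div_lt_iff₀ hlpos]
        linarith [ht.2]⟩)
      rwa [mul_div_cancel₀ _ hlpos.ne'] at h3
    have hlT : l * T < T := by nlinarith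
    have hlT0 : 0 < l * T := mul_pos hlpos hT
    have hlδ : l * δ < δ := by nlinarith
    have hlδ0 : 0 < l * δ := mul_pos hlpos hδ
    have h3 := hor_eqOn (a := -(l * δ)) (b := l * T) (t0 := 0) h2
      (fun t ht => hσ t ⟨by linarith [ht.1], by linarith [ht.2]⟩) ⟨by linarith, hlT0⟩ h1
    have hreg := hσ (l * T) ⟨by linarith, hlT⟩
    have hφs : ContinuousAt φ s := h.cont.continuousAt (Q.isOpen.mem_nhds hs)
    have hdiv : Tendsto (fun u : ℝ => u / l) (𝓝[<] (l * T)) (𝓝[<] T) := by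
      refine tendsto_nhdsWithin_iff.2 ⟨?_, ?_⟩
      · have h4 := ((continuous_id.div_const l).tendsto (l * T)).mono_left
          (nhdsWithin_le_nhds (s := Iio (l * T)))
        simpa [mul_div_cancel_left₀ _ hlpos.ne'] using h4
      · filter_upwards [self_mem_nhdsWithin] with u hu
        show u / l < T
        rw [div_lt_iff₀ hlpos]
        have hu' : u < l * T := hu
        linarith
    have hA : Tendsto (fun u => φ (σ (u / l))) (𝓝[<] (l * T)) (𝓝 (φ s)) :=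
      hφs.tendsto.comp (hlim.comp hdiv)
    have hB : Tendsto σ (𝓝[<] (l * T)) (𝓝 (σ (l * T))) :=
      hreg.continuousAt.tendsto.mono_left nhdsWithin_le_nhds
    have hC : Tendsto (fun u => φ (σ (u / l))) (𝓝[<] (l * T)) (𝓝 (σ (l * T))) := by
      refine hB.congr' ?_
      filter_upwards [Ioo_mem_nhdsLT (show (0 : ℝ) < l * T from hlT0)] with u hu
      exact (h3 ⟨by linarith [hu.1], hu.2⟩).symm
    have hD : φ s = σ (l * T) := tendsto_nhds_unique hA hC
    exact hreg.q_ne (by rw [← hD]; exact h.zero hs hqs)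

end Pool.Agent.ANO2.Geo2
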