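import Pool.Agent.ANO2.Geo2.Chain
import Pool.Agent.ANO2.Geo2.Normal

/-!
# ANO phase 2, Geo2: any two points are joined by a rectilinear path

* `joins_small`: chart `(n, ψ)` at `s` (`normal_form`), `ψ` is a homeomorphism from a neighbourhood of
  `s` onto a ball of radius `ρ` about `0`, with inverse `ψ⁻¹`.  For `z` near `s` let
  `ψ z = r exp (i θ)`, `θ = j π/n + θ'` with `0 ≤ θ' < π/n`, `j` an integer, and put
  `X + i Y = r^(n/2) exp (i n θ' / 2)`, `X, Y ≥ 0`.  On the closed quadrant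
  `{X', Y' ≥ 0}` put `E (X' + i Y') = |X' + i Y'|^(2/n) exp (i (2/n) arg (X' + i Y') + i j π/n)`, a
  continuous map, holomorphic off `0`, `E(0) = 0`, `ψ⁻¹ ∘ E` sends horizontal lines to arcs with
  `q v² = i^(..)`: `q (dz)² = (d (ψ^(n/2)))² = (exp (i j π / 2) d (X' + i Y'))² = (-1)^j (d w)²`.  So
  the two segments `0 → X → X + i Y` give a rectilinear path of two segments from `s` to `z`
  (for odd `j` the first one is vertical and the second one horizontal), of total length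
  `X + Y ≤ 2 r^(n/2)`.
* `joins_exists`: the set of points of `U` which can be joined to `z` is open and closed in
  `U` by `joins_small`; `U` is connected (convex).
-/

set_option autoImplicit false

open Set Filter Topology MeasureTheory

namespace Pool.Agent.ANO2.Geo2

variable {Q : QD}

/-- The exponent `2 / n`, as a real number. -/
private noncomputable def smE (n : ℕ) : ℝ := 2 / (n : ℝ)

private theorem smE_pos {n : ℕ} (hn : 2 ≤ n) : 0 < smE n := by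
  unfold smE
  have : (0 : ℝ) < n := by
    have : 0 < n := by omega
    exact_mod_cast this
  positivity

private theorem smE_mul {n : ℕ} (hn : 2 ≤ n) : (n : ℂ) * ((smE n : ℝ) : ℂ) = 2 := by
  unfold smE
  have h : (n : ℂ) ≠ 0 := by
    have : n ≠ 0 := by omega
    exact_mod_cast this
  push_cast
  field_simp

/-- The data of the local inverse of a chart. -/
private structure SmInv (Q : QD) (n : ℕ) (g D : ℂ → ℂ) (ρ : ℝ) : Prop where
  two : 2 ≤ n
  mem : ∀ w, ‖w‖ < ρ → g w ∈ Q.U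
  der : ∀ w, ‖w‖ < ρ → HasDerivAt g (D w)⁻¹ w
  ne : ∀ w, ‖w‖ < ρ → D w ≠ 0
  eq : ∀ w, ‖w‖ < ρ → Q.q (g w) = ((n : ℂ) / 2) ^ 2 * w ^ (n - 2) * D w ^ 2

private theorem SmInv.hol {n : ℕ} {g D : ℂ → ℂ} {ρ : ℝ} (h : SmInv Q n g D ρ) {c W : ℂ}
    (hW : W ∈ Complex.slitPlane) (hlt : ‖W ^ ((smE n : ℝ) : ℂ) * c‖ < ρ) :
    ∃ v, HasDerivAt (fun W => g (W ^ ((smE n : ℝ) : ℂ) * c)) v W ∧
      Q.q (g (W ^ ((smE n : ℝ) : ℂ) * c)) * v ^ 2 = c ^ n := by
  set a : ℂ := ((smE n : ℝ) : ℂ) with ha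
  have hW0 : W ≠ 0 := Complex.slitPlane_ne_zero hW
  have h1 : HasDerivAt (fun W : ℂ => W ^ a * c) (a * W ^ (a - 1) * 1 * c) W :=
    ((hasDerivAt_id W).cpow_const hW).mul_const c
  have h2 : HasDerivAt (fun W : ℂ => g (W ^ a * c))
      ((D (W ^ a * c))⁻¹ * (a * W ^ (a - 1) * 1 * c)) W :=
    HasDerivAt.comp W (h.der _ hlt) h1
  refine ⟨_, h2, ?_⟩
  rw [h.eq _ hlt]
  have hD := h.ne _ hlt
  set d := D (W ^ a * c)
  have h3 : W ^ (a - 1) = W ^ a / W := by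
    rw [Complex.cpow_sub _ _ hW0, Complex.cpow_one]
  have h4 : (W ^ a) ^ n = W ^ 2 := by
    rw [← Complex.cpow_nat_mul, ha, smE_mul h.two]
    exact_mod_cast Complex.cpow_natCast W 2
  have h5 : (n : ℂ) * a = 2 := smE_mul h.two
  obtain ⟨m, rfl⟩ : ∃ m, n = m + 2 := ⟨n - 2, by have := h.two; omega⟩
  have h6 : m + 2 - 2 = m := by omega
  rw [h6, h3]
  have h7 : ((m + 2 : ℕ) : ℂ) / 2 * a = 1 := by
    rw [div_mul_eq_mul_div, h5]
    norm_num
  calc (((m + 2 : ℕ) : ℂ) / 2) ^ 2 * (W ^ a * c) ^ m * d ^ 2 *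
        (d⁻¹ * (a * (W ^ a / W) * 1 * c)) ^ 2
      = (((m + 2 : ℕ) : ℂ) / 2 * a) ^ 2 * (d * d⁻¹) ^ 2 * ((W ^ a) ^ (m + 2) / W ^ 2) *
        c ^ (m + 2) := by
        rw [pow_add (W ^ a) m 2, pow_add c m 2]
        ring
    _ = c ^ (m + 2) := by
        rw [h7, mul_inv_cancel₀ hD, h4, div_self (pow_ne_zero 2 hW0)]
        ring

private theorem SmInv.cont {n : ℕ} {g D : ℂ → ℂ} {ρ : ℝ} (h : SmInv Q n g D ρ) {c W : ℂ}
    (hW : 0 ≤ W.re) (hlt : ‖W ^ ((smE n : ℝ) : ℂ) * c‖ < ρ) :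
    ContinuousAt (fun W => g (W ^ ((smE n : ℝ) : ℂ) * c)) W := by
  have h1 : ContinuousAt (fun W : ℂ => W ^ ((smE n : ℝ) : ℂ) * c) W := by
    refine ContinuousAt.mul ?_ continuousAt_const
    apply Complex.continuousAt_cpow_const_of_re_pos (Or.inl hW)
    rw [Complex.ofReal_re]
    exact smE_pos h.two
  exact ContinuousAt.comp (g := g) (h.der _ hlt).continuousAt h1

private theorem sm_norm {n : ℕ} {c W : ℂ} (hc : ‖c‖ = 1) :
    ‖W ^ ((smE n : ℝ) : ℂ) * c‖ = ‖W‖ ^ smE n := by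
  rw [norm_mul, hc, mul_one, Complex.norm_cpow_real]

/-- The first segment. -/
private theorem SmInv.seg1 {n : ℕ} {g D : ℂ → ℂ} {ρ : ℝ} (h : SmInv Q n g D ρ) {c : ℂ}
    (hc : ‖c‖ = 1) {X : ℝ} (hX : X ^ smE n < ρ) :
    let σ : ℝ → ℂ := fun t => g ((t : ℂ) ^ ((smE n : ℝ) : ℂ) * c)
    ContinuousOn σ (Icc 0 X) ∧ (∀ t ∈ Icc 0 X, σ t ∈ Q.U) ∧
      ∀ t ∈ Ioo 0 X, σ t ∈ Q.U ∧ ∃ v, HasDerivAt σ v t ∧ Q.q (σ t) * v ^ 2 = c ^ n := by
  intro σ
  have hlt : ∀ t ∈ Icc 0 X, ‖(t : ℂ) ^ ((smE n : ℝ) : ℂ) * c‖ < ρ := by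
    intro t ht
    rw [sm_norm hc, Complex.norm_real, Real.norm_eq_abs, abs_of_nonneg ht.1]
    exact lt_of_le_of_lt (Real.rpow_le_rpow ht.1 ht.2 (smE_pos h.two).le) hX
  refine ⟨?_, fun t ht => h.mem _ (hlt t ht), ?_⟩
  · intro t ht
    apply ContinuousAt.continuousWithinAt
    have h1 := h.cont (c := c) (W := (t : ℂ)) (by simpa using ht.1) (hlt t ht)
    exact ContinuousAt.comp (f := fun t : ℝ => (t : ℂ)) h1 Complex.continuous_ofReal.continuousAt
  · intro t ht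
    have ht' : t ∈ Icc 0 X := ⟨ht.1.le, ht.2.le⟩
    refine ⟨h.mem _ (hlt t ht'), ?_⟩
    have hs : (t : ℂ) ∈ Complex.slitPlane := by
      rw [Complex.mem_slitPlane_iff]
      left
      simpa using ht.1
    obtain ⟨v, hv, hq⟩ := h.hol hs (hlt t ht')
    exact ⟨v, hv.comp_ofReal, hq⟩

/-- The second segment. -/
private theorem SmInv.seg2 {n : ℕ} {g D : ℂ → ℂ} {ρ : ℝ} (h : SmInv Q n g D ρ) {c : ℂ}
    (hc : ‖c‖ = 1) {X Y : ℝ} (hX0 : 0 ≤ X) (hX : ‖(X : ℂ) + Y * Complex.I‖ ^ smE n < ρ) :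
    let σ : ℝ → ℂ := fun t => g (((X : ℂ) + t * Complex.I) ^ ((smE n : ℝ) : ℂ) * c)
    ContinuousOn σ (Icc 0 Y) ∧ (∀ t ∈ Icc 0 Y, σ t ∈ Q.U) ∧
      ∀ t ∈ Ioo 0 Y, σ t ∈ Q.U ∧ ∃ v, HasDerivAt σ v t ∧ Q.q (σ t) * v ^ 2 = - c ^ n := by
  intro σ
  have hlt : ∀ t ∈ Icc 0 Y, ‖((X : ℂ) + t * Complex.I) ^ ((smE n : ℝ) : ℂ) * c‖ < ρ := by
    intro t ht
    rw [sm_norm hc]
    refine lt_of_le_of_lt (Real.rpow_le_rpow (norm_nonneg _) ?_ (smE_pos h.two).le) hX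
    rw [Complex.norm_add_mul_I, Complex.norm_add_mul_I]
    apply Real.sqrt_le_sqrt
    have := pow_le_pow_left₀ ht.1 ht.2 2
    linarith
  have hre : ∀ t : ℝ, ((X : ℂ) + t * Complex.I).re = X := by
    intro t
    simp
  have him : ∀ t : ℝ, ((X : ℂ) + t * Complex.I).im = t := by
    intro t
    simp
  refine ⟨?_, fun t ht => h.mem _ (hlt t ht), ?_⟩
  · intro t ht
    apply ContinuousAt.continuousWithinAt
    have h1 := h.cont (c := c) (W := (X : ℂ) + t * Complex.I) (by rw [hre]; exact hX0) (hlt t ht)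
    have h2 : Continuous (fun t : ℝ => (X : ℂ) + t * Complex.I) := by fun_prop
    exact ContinuousAt.comp (f := fun t : ℝ => (X : ℂ) + t * Complex.I) h1 h2.continuousAt
  · intro t ht
    have ht' : t ∈ Icc 0 Y := ⟨ht.1.le, ht.2.le⟩
    refine ⟨h.mem _ (hlt t ht'), ?_⟩
    have hs : (X : ℂ) + t * Complex.I ∈ Complex.slitPlane := by
      rw [Complex.mem_slitPlane_iff]
      right
      rw [him]
      exact ht.1.ne'
    obtain ⟨v, hv, hq⟩ := h.hol hs (hlt t ht')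
    have h3 : HasDerivAt (fun w : ℂ => (X : ℂ) + w * Complex.I) (1 * Complex.I) (t : ℂ) :=
      ((hasDerivAt_id (t : ℂ)).mul_const Complex.I).const_add (X : ℂ)
    have h4 := HasDerivAt.comp (t : ℂ) hv h3
    refine ⟨_, h4.comp_ofReal, ?_⟩
    calc Q.q (σ t) * (v * (1 * Complex.I)) ^ 2 = Q.q (σ t) * v ^ 2 * Complex.I ^ 2 := by ring
      _ = - c ^ n := by
        rw [Complex.I_sq]
        have : Q.q (σ t) * v ^ 2 = c ^ n := hq
        rw [this]
        ring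

/-- The two segments together. -/
private theorem SmInv.joins {n : ℕ} {g D : ℂ → ℂ} {ρ : ℝ} (h : SmInv Q n g D ρ) {c : ℂ}
    (hc : ‖c‖ = 1) (hcn : c ^ n = 1 ∨ c ^ n = -1) {X Y : ℝ} (hX0 : 0 ≤ X) (hY0 : 0 ≤ Y)
    (hX : ‖(X : ℂ) + Y * Complex.I‖ ^ smE n < ρ) :
    ∃ x y, Joins Q (g 0) (g (((X : ℂ) + Y * Complex.I) ^ ((smE n : ℝ) : ℂ) * c)) x y ∧
      x + y = X + Y := by
  have hX1 : X ^ smE n < ρ := by
    refine lt_of_le_of_lt (Real.rpow_le_rpow hX0 ?_ (smE_pos h.two).le) hX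
    have := Complex.abs_re_le_norm ((X : ℂ) + Y * Complex.I)
    simp only [Complex.add_re, Complex.ofReal_re, Complex.mul_re, Complex.I_re, mul_zero,
      Complex.ofReal_im, Complex.I_im, mul_one, sub_self, add_zero] at this
    exact (le_abs_self X).trans this
  obtain ⟨a1, a2, a3⟩ := h.seg1 hc hX1
  obtain ⟨b1, b2, b3⟩ := h.seg2 hc hX0 hX
  have e0 : g (((0 : ℝ) : ℂ) ^ ((smE n : ℝ) : ℂ) * c) = g 0 := by
    have : ((smE n : ℝ) : ℂ) ≠ 0 := by exact_mod_cast (smE_pos h.two).ne'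
    rw [Complex.ofReal_zero, Complex.zero_cpow this, zero_mul]
  have e1 : g (((X : ℂ) + ((0 : ℝ) : ℂ) * Complex.I) ^ ((smE n : ℝ) : ℂ) * c) =
      g ((X : ℂ) ^ ((smE n : ℝ) : ℂ) * c) := by
    rw [Complex.ofReal_zero, zero_mul, add_zero]
  rcases hcn with h1 | h1
  · have j1 := joins_hor (Q := Q) hX0 a1 a2 (fun t ht => by
      obtain ⟨hm, v, hv, hq⟩ := a3 t ht
      exact ⟨hm, v, hv, by rw [hq, h1]⟩)
    have j2 := joins_ver (Q := Q) hY0 b1 b2 (fun t ht => by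
      obtain ⟨hm, v, hv, hq⟩ := b3 t ht
      refine ⟨hm, v, hv, ?_⟩
      change - Q.q _ * v ^ 2 = 1
      rw [neg_mul, hq, h1]
      ring)
    simp only [e0] at j1
    simp only [e1] at j2
    exact ⟨_, _, j1.trans j2, by ring⟩
  · have j1 := joins_ver (Q := Q) hX0 a1 a2 (fun t ht => by
      obtain ⟨hm, v, hv, hq⟩ := a3 t ht
      refine ⟨hm, v, hv, ?_⟩
      change - Q.q _ * v ^ 2 = 1
      rw [neg_mul, hq, h1]
      ring)
    have j2 := joins_hor (Q := Q) hY0 b1 b2 (fun t ht => by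
      obtain ⟨hm, v, hv, hq⟩ := b3 t ht
      exact ⟨hm, v, hv, by rw [hq, h1]; ring⟩)
    simp only [e0] at j1
    simp only [e1] at j2
    exact ⟨_, _, j1.trans j2, by ring⟩

/-- The choice of the sector. -/
private theorem sm_sector {n : ℕ} (hn : 2 ≤ n) {w : ℂ} (hw : w ≠ 0) :
    ∃ (c : ℂ) (X Y : ℝ), ‖c‖ = 1 ∧ (c ^ n = 1 ∨ c ^ n = -1) ∧ 0 ≤ X ∧ 0 ≤ Y ∧
      ((X : ℂ) + Y * Complex.I) ^ ((smE n : ℝ) : ℂ) * c = w ∧
      ‖(X : ℂ) + Y * Complex.I‖ = ‖w‖ ^ ((n : ℝ) / 2) := by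
  have hn0 : (0 : ℝ) < n := by
    have : 0 < n := by omega
    exact_mod_cast this
  have hpi := Real.pi_pos
  set j : ℤ := ⌊(n : ℝ) * w.arg / Real.pi⌋ with hj
  set t : ℝ := w.arg - j * Real.pi / n with ht
  have hj1 : (j : ℝ) ≤ (n : ℝ) * w.arg / Real.pi := Int.floor_le _
  have hj2 : (n : ℝ) * w.arg / Real.pi < j + 1 := Int.lt_floor_add_one _
  have ht0 : 0 ≤ (n : ℝ) * t / 2 := by
    have : (j : ℝ) * Real.pi ≤ (n : ℝ) * w.arg := by
      rwa [le_div_iff₀ hpi] at hj1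
    have h2 : (n : ℝ) * t = n * w.arg - j * Real.pi := by
      rw [ht]
      field_simp
    rw [h2]
    linarith
  have ht1 : (n : ℝ) * t / 2 ≤ Real.pi / 2 := by
    have : (n : ℝ) * w.arg < (j + 1) * Real.pi := by
      rwa [div_lt_iff₀ hpi] at hj2
    have h2 : (n : ℝ) * t = n * w.arg - j * Real.pi := by
      rw [ht]
      field_simp
    rw [h2]
    linarith
  set c : ℂ := Complex.exp (((j * Real.pi / n : ℝ) : ℂ) * Complex.I) with hc
  set L : ℂ := ((((n : ℝ) / 2 * Real.log ‖w‖ : ℝ) : ℂ)) + (((n : ℝ) * t / 2 : ℝ) : ℂ) * Complex.I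
    with hL
  have hLre : L.re = (n : ℝ) / 2 * Real.log ‖w‖ := by simp [hL]
  have hLim : L.im = (n : ℝ) * t / 2 := by simp [hL]
  have hLog : Complex.log (Complex.exp L) = L := by
    apply Complex.log_exp
    · rw [hLim]
      linarith
    · rw [hLim]
      linarith
  have hW : (((Complex.exp L).re : ℝ) : ℂ) + (((Complex.exp L).im : ℝ) : ℂ) * Complex.I =
      Complex.exp L := Complex.re_add_im _
  refine ⟨c, (Complex.exp L).re, (Complex.exp L).im, ?_, ?_, ?_, ?_, ?_, ?_⟩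
  · rw [hc, Complex.norm_exp_ofReal_mul_I]
  · rw [hc, ← Complex.exp_nat_mul]
    have h1 : (n : ℂ) * (((j * Real.pi / n : ℝ) : ℂ) * Complex.I) = j * (Real.pi * Complex.I) := by
      have h0 : (n : ℂ) ≠ 0 := by exact_mod_cast hn0.ne'
      push_cast
      field_simp
    rw [h1, Complex.exp_int_mul, Complex.exp_pi_mul_I]
    rcases Int.even_or_odd j with h2 | h2
    · left
      exact h2.neg_one_zpow
    · right
      exact h2.neg_one_zpow
  · rw [Complex.exp_re, hLim]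
    have : 0 ≤ Real.cos ((n : ℝ) * t / 2) :=
      Real.cos_nonneg_of_neg_pi_div_two_le_of_le (by linarith) ht1
    positivity
  · rw [Complex.exp_im, hLim]
    have : 0 ≤ Real.sin ((n : ℝ) * t / 2) :=
      Real.sin_nonneg_of_nonneg_of_le_pi ht0 (by linarith)
    positivity
  · rw [hW, Complex.cpow_def_of_ne_zero (Complex.exp_ne_zero _), hLog, hc, ← Complex.exp_add]
    have h0 : (n : ℂ) ≠ 0 := by exact_mod_cast hn0.ne'
    have h1 : L * ((smE n : ℝ) : ℂ) + ((j * Real.pi / n : ℝ) : ℂ) * Complex.I =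
        Complex.log w := by
      rw [hL, ht, Complex.log]
      unfold smE
      push_cast
      field_simp
      ring
    rw [h1, Complex.exp_log hw]
  · rw [hW, Complex.norm_exp, hLre, Real.rpow_def_of_pos (norm_pos_iff.2 hw)]
    congr 1
    ring

theorem joins_small (Q : QD) {s : ℂ} (hs : s ∈ Q.U) {ε : ℝ} (hε : 0 < ε) :
    ∀ᶠ z in 𝓝 s, ∃ x y, Joins Q s z x y ∧ x + y < ε := by
  obtain ⟨n, ψ, hC⟩ := normal_form Q hs
  have hd : HasStrictDerivAt ψ (deriv ψ s) s := hC.analytic.hasStrictDerivAt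
  set g : ℂ → ℂ := hd.localInverse ψ (deriv ψ s) s hC.deriv_ne with hg
  have g0 : g 0 = s := by
    have := (hd.eventually_left_inverse hC.deriv_ne).self_of_nhds
    rwa [hC.zero] at this
  have gc : ContinuousAt g 0 := by
    have := (hd.to_localInverse hC.deriv_ne).hasDerivAt.continuousAt
    rwa [hC.zero] at this
  have hleft : ∀ᶠ x in 𝓝 s, g (ψ x) = x := hd.eventually_left_inverse hC.deriv_ne
  have hright : ∀ᶠ w in 𝓝 (0 : ℂ), ψ (g w) = w := by
    have := hd.eventually_right_inverse hC.deriv_ne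
    rwa [hC.zero] at this
  have hdc : ContinuousAt (deriv ψ) s := hC.analytic.deriv.continuousAt
  have hgood : ∀ᶠ x in 𝓝 s, x ∈ Q.U ∧ AnalyticAt ℂ ψ x ∧ deriv ψ x ≠ 0 ∧
      (∀ᶠ y in 𝓝 x, g (ψ y) = y) ∧
      Q.q x = ((n : ℂ) / 2) ^ 2 * ψ x ^ (n - 2) * deriv ψ x ^ 2 := by
    filter_upwards [Q.isOpen.mem_nhds hs, hC.analytic.eventually_analyticAt,
      hdc.eventually_ne hC.deriv_ne, hleft.eventually_nhds, hC.eq] with x h1 h2 h3 h4 h5
    exact ⟨h1, h2, h3, h4, h5⟩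
  have hball : ∀ᶠ w in 𝓝 (0 : ℂ), (g w ∈ Q.U ∧ AnalyticAt ℂ ψ (g w) ∧ deriv ψ (g w) ≠ 0 ∧
      (∀ᶠ y in 𝓝 (g w), g (ψ y) = y) ∧
      Q.q (g w) = ((n : ℂ) / 2) ^ 2 * ψ (g w) ^ (n - 2) * deriv ψ (g w) ^ 2) ∧
      ψ (g w) = w := by
    have h1 : Tendsto g (𝓝 0) (𝓝 s) := by
      have h2 : Tendsto g (𝓝 0) (𝓝 (g 0)) := gc
      rwa [g0] at h2
    exact (h1.eventually hgood).and hright
  obtain ⟨ρ, hρ, hρ'⟩ := Metric.eventually_nhds_iff_ball.1 hball
  have hI : SmInv Q n g (fun w => deriv ψ (g w)) ρ := by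
    refine ⟨hC.two_le, ?_, ?_, ?_, ?_⟩
    · intro w hw
      exact (hρ' w (by simpa using hw)).1.1
    · intro w hw
      obtain ⟨⟨-, h2, h3, h4, -⟩, h6⟩ := hρ' w (by simpa using hw)
      have h7 := (h2.hasStrictDerivAt.to_local_left_inverse h3 h4).hasDerivAt
      rwa [h6] at h7
    · intro w hw
      exact (hρ' w (by simpa using hw)).1.2.2.1
    · intro w hw
      obtain ⟨⟨-, -, -, -, h5⟩, h6⟩ := hρ' w (by simpa using hw)
      rw [h5, h6]
  have hn0 : (0 : ℝ) < n := by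
    have : 0 < n := by have := hC.two_le; omega
    exact_mod_cast this
  have hψc : ContinuousAt (fun z => ‖ψ z‖) s := hC.analytic.continuousAt.norm
  have hψ0 : ‖ψ s‖ = 0 := by rw [hC.zero, norm_zero]
  have hev1 : ∀ᶠ z in 𝓝 s, ‖ψ z‖ < ρ := by
    apply hψc.eventually_lt_const
    change ‖ψ s‖ < ρ
    rw [hψ0]
    exact hρ
  have hev2 : ∀ᶠ z in 𝓝 s, ‖ψ z‖ ^ ((n : ℝ) / 2) < ε / 2 := by
    have h1 : ContinuousAt (fun z => ‖ψ z‖ ^ ((n : ℝ) / 2)) s :=
      hψc.rpow_const (Or.inr (by positivity))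
    apply h1.eventually_lt_const
    change ‖ψ s‖ ^ ((n : ℝ) / 2) < ε / 2
    rw [hψ0, Real.zero_rpow (by positivity)]
    positivity
  filter_upwards [hleft, hev1, hev2] with z hz h1 h2
  by_cases h0 : ψ z = 0
  · have : z = s := by rw [← hz, h0, g0]
    rw [this]
    exact ⟨0, 0, Joins.refl hs, by simpa using hε⟩
  · obtain ⟨c, X, Y, hc, hcn, hX, hY, he, hnorm⟩ := sm_sector hC.two_le h0
    have h3 : ‖(X : ℂ) + Y * Complex.I‖ ^ smE n < ρ := by
      rw [hnorm, ← Real.rpow_mul (norm_nonneg _)]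
      have : (n : ℝ) / 2 * smE n = 1 := by
        unfold smE
        field_simp
      rw [this, Real.rpow_one]
      exact h1
    obtain ⟨x, y, hj, hxy⟩ := hI.joins hc hcn hX hY h3
    rw [he, hz, g0] at hj
    refine ⟨x, y, hj, ?_⟩
    rw [hxy]
    have h4 : X ≤ ‖(X : ℂ) + Y * Complex.I‖ := by
      have := Complex.abs_re_le_norm ((X : ℂ) + Y * Complex.I)
      simp only [Complex.add_re, Complex.ofReal_re, Complex.mul_re, Complex.I_re, mul_zero,
        Complex.ofReal_im, Complex.I_im, mul_one, sub_self, add_zero] at this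
      exact (le_abs_self X).trans this
    have h5 : Y ≤ ‖(X : ℂ) + Y * Complex.I‖ := by
      have := Complex.abs_im_le_norm ((X : ℂ) + Y * Complex.I)
      simp only [Complex.add_im, Complex.ofReal_im, Complex.mul_im, Complex.ofReal_re,
        Complex.I_im, mul_one, Complex.I_re, mul_zero, add_zero, zero_add] at this
      exact (le_abs_self Y).trans this
    rw [hnorm] at h4 h5
    linarith

theorem joins_exists (Q : QD) {z w : ℂ} (hz : z ∈ Q.U) (hw : w ∈ Q.U) :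
    ∃ x y, Joins Q z w x y := by
  have hc : IsPreconnected Q.U := Q.convex.isPreconnected
  refine hc.induction₂' (fun a b => ∃ x y, Joins Q a b x y) ?_ ?_ hz hw
  · intro a ha
    apply Filter.Eventually.filter_mono nhdsWithin_le_nhds
    filter_upwards [joins_small Q ha one_pos] with b hb
    obtain ⟨x, y, hj, -⟩ := hb
    exact ⟨⟨x, y, hj⟩, ⟨x, y, hj.symm⟩⟩
  · rintro a b c - - - ⟨x, y, h1⟩ ⟨x', y', h2⟩
    exact ⟨_, _, h1.trans h2⟩

end Pool.Agent.ANO2.Geo2
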