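import Pool.Agent.ANO2.Geo2.SideA
import Pool.Agent.ANO2.Geo2.Sep
import Pool.Agent.ANO2.Geo2.Small

/-!
# ANO phase 2, Geo2: the two sides of an invariant leaf

* `side_inv`.  Let `L, R` be as in `sep`, `Λ = range σ`.  `φ z ∈ Λ ↔ z ∈ Λ`.  For `t : ℝ` let `P t`
be the statement: for
  all `z` near `σ t`, `z ∈ R → φ z ∈ R` and `z ∈ L → φ z ∈ L`, and `P' t`: for all `z` near `σ t`,
  `z ∈ R → φ z ∈ L` and `z ∈ L → φ z ∈ R`.  Both are open conditions on `t` (`σ` is continuous).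
  They exclude each other (every neighbourhood of `σ t` contains points of `R`: `sep`).  One of them
  holds for every `t`: let `B` be a flow box about `σ t` (`box_exists` with `z0 = σ t`, `v` the
  velocity of `σ`), `B.χ 0 = σ t`, `W ⊆ B.img` the image of a smaller square; the set
  `{y > 0}` of the square has a connected image which does not meet `Λ` (`leaf_box`), so it
  is contained in `L` or in `R`; the same for `{y < 0}`; by `sep` for the vertical arc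
  `τ u = B.χ (i u)` they are on different sides.  The images under `φ` of the two halves are
  connected and do not meet `Λ`, so each is contained in `L` or in `R`; by `sep` for the
  vertical arc `u ↦ φ (τ (l u))` (`Aff.ver`), which passes through `φ (σ t) = σ (l t)`,
  they are on different sides.  So `P t` or `P' t`.  `P 0` holds: for small `y > 0` the
  points `τ y = D⁻¹ (i e y)` and `φ (τ y) = D⁻¹ (i e y / l) = τ (y / l)` are on the same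
  side (both are in the upper half of the square).  `ℝ` is connected, so `P t` for all `t`.
  Let now `z ∈ R`, and let `c` be a rectilinear path from `z` to `w`; let `t0` be the first time
with
  `c t0 ∈ Λ`, `c t0 = σ t`.  `c` on `[0, t0)` is connected and does not meet `Λ`, so it is
  in `R`, and `φ ∘ c` on `[0, t0)` is in `L` or in `R`; near `t0` it is in `R` by `P t`.  So
`φ z ∈ R`.
-/

set_option autoImplicit false

open Set Filter Topology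

namespace Pool.Agent.ANO2.Geo2

variable {Q : QD}

/-- The upper half of a flow box. -/
private def hfP (B : Box Q) : Set ℂ := B.χ '' (B.dom ∩ {w | 0 < w.im})

/-- The lower half of a flow box. -/
private def hfM (B : Box Q) : Set ℂ := B.χ '' (B.dom ∩ {w | w.im < 0})

/-- The vertical line through `B.χ 0`. -/
private noncomputable def ax (B : Box Q) (u : ℝ) : ℂ :=
  B.χ (0 + ((1 * u : ℝ) : ℂ) * Complex.I)

private theorem dom_convex (B : Box Q) : Convex ℝ B.dom :=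
  ((convex_Ioo B.a B.b).linear_preimage Complex.reLm).inter
    ((convex_Ioo B.c B.d).linear_preimage Complex.imLm)

private theorem hfP_pre (B : Box Q) : IsPreconnected (hfP B) := by
  apply IsPreconnected.image
  · exact ((dom_convex B).inter (convex_halfSpace_im_gt 0)).isPreconnected
  · exact B.holo.continuousOn.mono inter_subset_left

private theorem hfM_pre (B : Box Q) : IsPreconnected (hfM B) := by
  apply IsPreconnected.image
  · exact ((dom_convex B).inter (convex_halfSpace_im_lt 0)).isPreconnected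
  · exact B.holo.continuousOn.mono inter_subset_left

private theorem hfP_U (B : Box Q) : hfP B ⊆ Q.U := by
  rintro _ ⟨w, hw, rfl⟩
  exact B.mem w hw.1

private theorem hfM_U (B : Box Q) : hfM B ⊆ Q.U := by
  rintro _ ⟨w, hw, rfl⟩
  exact B.mem w hw.1

private theorem ax_dom (B : Box Q) (h0 : (0 : ℂ) ∈ B.dom) :
    ∀ᶠ u in 𝓝 (0 : ℝ), (0 + ((1 * u : ℝ) : ℂ) * Complex.I) ∈ B.dom := by
  have hc : Continuous fun u : ℝ => (0 + ((1 * u : ℝ) : ℂ) * Complex.I) := by fun_prop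
  exact hc.continuousAt.eventually_mem (B.isOpen_dom.mem_nhds (by simpa using h0))

private theorem ax_ver (B : Box Q) (h0 : (0 : ℂ) ∈ B.dom) :
    ∀ᶠ u in 𝓝 (0 : ℝ), Ver Q (ax B) u :=
  (ax_dom B h0).mono fun _ hu => ver_of_box B (w := 0) (e := 1) (Or.inl rfl) hu

private theorem ax_P (B : Box Q) (h0 : (0 : ℂ) ∈ B.dom) :
    ∀ᶠ u in 𝓝[>] (0 : ℝ), ax B u ∈ hfP B := by
  filter_upwards [nhdsWithin_le_nhds (ax_dom B h0), self_mem_nhdsWithin] with u hu hu0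
  exact ⟨_, ⟨hu, by simpa using hu0⟩, rfl⟩

private theorem ax_M (B : Box Q) (h0 : (0 : ℂ) ∈ B.dom) :
    ∀ᶠ u in 𝓝[<] (0 : ℝ), ax B u ∈ hfM B := by
  filter_upwards [nhdsWithin_le_nhds (ax_dom B h0), self_mem_nhdsWithin] with u hu hu0
  exact ⟨_, ⟨hu, by simpa using hu0⟩, rfl⟩

private theorem ax_zero (B : Box Q) : ax B 0 = B.χ 0 := by
  simp [ax]

private theorem half_notMem {σ : ℝ → ℂ} (hσ : Leaf Q σ) (B : Box Q) (h0 : (0 : ℂ) ∈ B.dom)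
    (hB : B.χ 0 ∈ range σ) {w : ℂ} (hw : w ∈ B.dom) : B.χ w ∈ range σ ↔ w.im = 0 := by
  obtain ⟨x, y⟩ := w
  have h1 : (⟨0, 0⟩ : ℂ) ∈ B.dom := h0
  exact leaf_box hσ B h1 hB hw

/-- A pair of connected sets on the two sides of a vertical arc. -/
private theorem two_sides {L R K K' : Set ℂ} {α : ℝ → ℂ} (hL : IsOpen L) (hR : IsOpen R)
    (hd : Disjoint L R) (hK : IsPreconnected K) (hK' : IsPreconnected K') (h1 : K ⊆ L ∪ R)
    (h2 : K' ⊆ L ∪ R) (h3 : ∀ᶠ u in 𝓝[>] (0 : ℝ), α u ∈ K)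
    (h4 : ∀ᶠ u in 𝓝[<] (0 : ℝ), α u ∈ K')
    (hs : ((∀ᶠ t in 𝓝[<] (0 : ℝ), α t ∈ L) ∧ (∀ᶠ t in 𝓝[>] (0 : ℝ), α t ∈ R)) ∨
      ((∀ᶠ t in 𝓝[<] (0 : ℝ), α t ∈ R) ∧ (∀ᶠ t in 𝓝[>] (0 : ℝ), α t ∈ L))) :
    (K ⊆ R ∧ K' ⊆ L) ∨ (K ⊆ L ∧ K' ⊆ R) := by
  have hdis : ∀ z, z ∈ L → z ∈ R → False := fun z ha hb => Set.disjoint_left.1 hd ha hb
  have hKc := IsPreconnected.subset_or_subset hL hR hd h1 hK
  have hKc' := IsPreconnected.subset_or_subset hL hR hd h2 hK'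
  have pos : ∀ S T : Set ℂ, (∀ z, z ∈ S → z ∈ T → False) → K ⊆ S →
      (∀ᶠ t in 𝓝[>] (0 : ℝ), α t ∈ T) → False := by
    intro S T hST hKS hT
    obtain ⟨u, hu1, hu2⟩ := (h3.and hT).exists
    exact hST _ (hKS hu1) hu2
  have neg : ∀ S T : Set ℂ, (∀ z, z ∈ S → z ∈ T → False) → K' ⊆ S →
      (∀ᶠ t in 𝓝[<] (0 : ℝ), α t ∈ T) → False := by
    intro S T hST hKS hT
    obtain ⟨u, hu1, hu2⟩ := (h4.and hT).exists
    exact hST _ (hKS hu1) hu2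
  rcases hs with ⟨ha, hb⟩ | ⟨ha, hb⟩
  · left
    refine ⟨?_, ?_⟩
    · rcases hKc with h | h
      · exact (pos L R hdis h hb).elim
      · exact h
    · rcases hKc' with h | h
      · exact h
      · exact (neg R L (fun z x y => hdis z y x) h ha).elim
  · right
    refine ⟨?_, ?_⟩
    · rcases hKc with h | h
      · exact h
      · exact (pos R L (fun z x y => hdis z y x) h hb).elim
    · rcases hKc' with h | h
      · exact (neg L R hdis h ha).elim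
      · exact h

/-- The behaviour of `φ` near a point of the leaf. -/
private theorem ev_of {σ : ℝ → ℂ} (hσ : Leaf Q σ) (B : Box Q) (h0 : (0 : ℂ) ∈ B.dom)
    {p : ℂ} (hp : B.χ 0 = p) (hpr : p ∈ range σ) {φ : ℂ → ℂ} {X Y X' Y' : Set ℂ}
    (hd : ∀ z, z ∈ X → z ∈ Y → False) (hX : ∀ z ∈ X, z ∉ range σ) (hY : ∀ z ∈ Y, z ∉ range σ)
    (h1 : hfP B ⊆ X) (h2 : hfM B ⊆ Y) (h3 : φ '' hfP B ⊆ X') (h4 : φ '' hfM B ⊆ Y') :
    ∀ᶠ z in 𝓝 p, (z ∈ X → φ z ∈ X') ∧ (z ∈ Y → φ z ∈ Y') := by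
  have hpi : p ∈ B.img := ⟨0, h0, hp⟩
  filter_upwards [B.isOpen_img.mem_nhds hpi] with z hz
  obtain ⟨w, hw, rfl⟩ := hz
  rcases lt_trichotomy w.im 0 with h | h | h
  · have hm : B.χ w ∈ hfM B := ⟨w, ⟨hw, h⟩, rfl⟩
    exact ⟨fun hx => (hd _ hx (h2 hm)).elim, fun _ => h4 ⟨_, hm, rfl⟩⟩
  · have hr : B.χ w ∈ range σ := (half_notMem hσ B h0 (hp ▸ hpr) hw).2 h
    exact ⟨fun hx => (hX _ hx hr).elim, fun hy => (hY _ hy hr).elim⟩
  · have hm : B.χ w ∈ hfP B := ⟨w, ⟨hw, h⟩, rfl⟩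
    exact ⟨fun _ => h3 ⟨_, hm, rfl⟩, fun hy => (hd _ (h1 hm) hy).elim⟩

/-- In a flow box about a point of the leaf `φ` does not mix the two sides. -/
private theorem loc_side {σ : ℝ → ℂ} (hσ : Leaf Q σ) {L R : Set ℂ} (hL : IsOpen L)
    (hR : IsOpen R) (hd : Disjoint L R) (hU : L ∪ R = Q.U \ range σ)
    (hsep : ∀ (τ : ℝ → ℂ) (t0 : ℝ), (∀ᶠ t in 𝓝 t0, Ver Q τ t) → τ t0 ∈ range σ →
      ((∀ᶠ t in 𝓝[<] t0, τ t ∈ L) ∧ (∀ᶠ t in 𝓝[>] t0, τ t ∈ R)) ∨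
      ((∀ᶠ t in 𝓝[<] t0, τ t ∈ R) ∧ (∀ᶠ t in 𝓝[>] t0, τ t ∈ L)))
    {φ φ' : ℂ → ℂ} {l : ℝ} (h : Aff Q φ φ' l) (h1 : ∀ u, φ (σ u) = σ (l * u)) (B : Box Q)
    (h0 : (0 : ℂ) ∈ B.dom) {t : ℝ} (hB : B.χ 0 = σ t) :
    ((hfP B ⊆ R ∧ hfM B ⊆ L) ∨ (hfP B ⊆ L ∧ hfM B ⊆ R)) ∧
      ((φ '' hfP B ⊆ R ∧ φ '' hfM B ⊆ L) ∨ (φ '' hfP B ⊆ L ∧ φ '' hfM B ⊆ R)) := by
  have hBr : B.χ 0 ∈ range σ := ⟨t, hB.symm⟩
  have hinv : ∀ z ∈ Q.U, φ z ∈ range σ → z ∈ range σ := by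
    rintro z hz ⟨u, hu⟩
    refine ⟨u / l, ?_⟩
    have h2 : φ (σ (u / l)) = φ z := by
      rw [h1, ← hu, mul_div_cancel₀ u h.pos.ne']
    have h3 := congrArg φ' h2
    rw [h.left _ (hσ (u / l)).mem, h.left _ hz] at h3
    exact h3
  have hPn : ∀ z ∈ hfP B, z ∉ range σ := by
    rintro _ ⟨w, hw, rfl⟩ hr
    have h2 := (half_notMem hσ B h0 hBr hw.1).1 hr
    have h3 : 0 < w.im := hw.2
    linarith
  have hMn : ∀ z ∈ hfM B, z ∉ range σ := by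
    rintro _ ⟨w, hw, rfl⟩ hr
    have h2 := (half_notMem hσ B h0 hBr hw.1).1 hr
    have h3 : w.im < 0 := hw.2
    linarith
  have hlim : Tendsto (fun u : ℝ => l * u) (𝓝 0) (𝓝 0) := by
    have h2 : Continuous fun u : ℝ => l * u := by fun_prop
    have h3 := h2.tendsto 0
    rwa [mul_zero] at h3
  have hlimP : Tendsto (fun u : ℝ => l * u) (𝓝[>] 0) (𝓝[>] 0) := by
    refine tendsto_nhdsWithin_iff.2 ⟨hlim.mono_left nhdsWithin_le_nhds, ?_⟩
    filter_upwards [self_mem_nhdsWithin] with u hu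
    exact mul_pos h.pos hu
  have hlimM : Tendsto (fun u : ℝ => l * u) (𝓝[<] 0) (𝓝[<] 0) := by
    refine tendsto_nhdsWithin_iff.2 ⟨hlim.mono_left nhdsWithin_le_nhds, ?_⟩
    filter_upwards [self_mem_nhdsWithin] with u hu
    exact mul_neg_of_pos_of_neg h.pos hu
  refine ⟨?_, ?_⟩
  · refine two_sides hL hR hd (hfP_pre B) (hfM_pre B) ?_ ?_ (ax_P B h0) (ax_M B h0)
      (hsep (ax B) 0 (ax_ver B h0) (by rw [ax_zero]; exact hBr))
    · intro z hz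
      rw [hU]
      exact ⟨hfP_U B hz, hPn z hz⟩
    · intro z hz
      rw [hU]
      exact ⟨hfM_U B hz, hMn z hz⟩
  · have hv : ∀ᶠ u in 𝓝 (0 : ℝ), Ver Q (fun u => φ (ax B (l * u))) u := by
      filter_upwards [hlim.eventually (ax_ver B h0)] with u hu
      have h2 := h.ver hu
      rwa [mul_div_cancel_left₀ u h.pos.ne'] at h2
    refine two_sides (α := fun u => φ (ax B (l * u))) hL hR hd
      ((hfP_pre B).image _ (h.cont.mono (hfP_U B)))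
      ((hfM_pre B).image _ (h.cont.mono (hfM_U B))) ?_ ?_ ?_ ?_
      (hsep (fun u => φ (ax B (l * u))) 0 hv ?_)
    · rintro _ ⟨z, hz, rfl⟩
      rw [hU]
      exact ⟨h.maps (hfP_U B hz), fun hr => hPn z hz (hinv z (hfP_U B hz) hr)⟩
    · rintro _ ⟨z, hz, rfl⟩
      rw [hU]
      exact ⟨h.maps (hfM_U B hz), fun hr => hMn z hz (hinv z (hfM_U B hz) hr)⟩
    · filter_upwards [hlimP.eventually (ax_P B h0)] with u hu
      exact ⟨_, hu, rfl⟩
    · filter_upwards [hlimM.eventually (ax_M B h0)] with u hu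
      exact ⟨_, hu, rfl⟩
    · rw [mul_zero, ax_zero, hB, h1]
      exact ⟨_, rfl⟩

private theorem str_neg (l : ℝ) (z : ℂ) : str l (-z) = -str l z := by
  apply Complex.ext <;> simp [str]

/-- Near the fixed point `φ` maps points of the upper half to the upper half. -/
private theorem same_side {φ φ' : ℂ → ℂ} {l : ℝ} (h : Aff Q φ φ' l) {w : ℂ}
    (hw : FixReg Q φ l w) (B : Box Q) (h0 : (0 : ℂ) ∈ B.dom) (hB : B.χ 0 = w) :
    ∃ z ∈ hfP B, φ z ∈ hfP B := by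
  obtain ⟨hwU, hq, hfix, D, hD, hD0, hDq, hDφ⟩ := hw
  have hwi : w ∈ B.img := ⟨0, h0, hB⟩
  have hBn : B.img ∈ 𝓝 w := B.isOpen_img.mem_nhds hwi
  have hBD : AnalyticAt ℂ B.D w := B.D_holo.analyticAt hBn
  have hBq : ∀ᶠ z in 𝓝 w, deriv B.D z ^ 2 = Q.q z := by
    filter_upwards [hBn] with z hz
    exact B.deriv_D hz
  obtain ⟨e, c, he, hec⟩ := branch_unique hD hBD hDq hBq hq
  have hBD0 : B.D w = 0 := by
    rw [← hB]
    exact B.D_χ h0
  have hc : c = 0 := by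
    have h2 := hec.self_of_nhds
    rw [hBD0, hD0, mul_zero, zero_add] at h2
    exact h2.symm
  have hφc : Tendsto φ (𝓝 w) (𝓝 w) := by
    have h2 : ContinuousAt φ w := h.cont.continuousAt (Q.isOpen.mem_nhds hwU)
    have h3 : Tendsto φ (𝓝 w) (𝓝 (φ w)) := h2
    rwa [hfix] at h3
  have hall : ∀ᶠ z in 𝓝 w, B.D (φ z) = str l (B.D z) ∧ φ z ∈ B.img := by
    filter_upwards [hec, hDφ, hφc.eventually hec, hφc.eventually hBn] with z h2 h3 h4 h5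
    refine ⟨?_, h5⟩
    rw [h4, h3, h2, hc, add_zero, add_zero]
    rcases he with rfl | rfl
    · rw [one_mul, one_mul]
    · rw [neg_one_mul, neg_one_mul, str_neg]
  have hax : Tendsto (ax B) (𝓝[>] 0) (𝓝 w) := by
    have hv := (ax_ver B h0).self_of_nhds
    have h2 : ContinuousAt (ax B) 0 := Hor.continuousAt (Q := Q.neg) hv
    have h3 : Tendsto (ax B) (𝓝 0) (𝓝 (ax B 0)) := h2
    rw [ax_zero, hB] at h3
    exact h3.mono_left nhdsWithin_le_nhds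
  have e1 : ∀ᶠ u in 𝓝[>] (0 : ℝ), (0 + ((1 * u : ℝ) : ℂ) * Complex.I) ∈ B.dom :=
    (ax_dom B h0).filter_mono nhdsWithin_le_nhds
  have e2 : ∀ᶠ u in 𝓝[>] (0 : ℝ), u ∈ Ioi (0 : ℝ) := self_mem_nhdsWithin
  obtain ⟨u, hu1, ⟨hu2, hu3⟩, hu4, hu5⟩ := ((ax_P B h0).and ((hax.eventually hall).and
    (e1.and e2))).exists
  refine ⟨ax B u, hu1, ?_⟩
  have h2 : B.D (ax B u) = 0 + ((1 * u : ℝ) : ℂ) * Complex.I := B.D_χ hu4
  rw [h2] at hu2
  have h3 : (B.D (φ (ax B u))).im = l⁻¹ * u := by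
    rw [hu2]
    simp [str]
  refine ⟨B.D (φ (ax B u)), ⟨B.D_mem hu3, ?_⟩, B.χ_D hu3⟩
  change 0 < (B.D (φ (ax B u))).im
  rw [h3]
  exact mul_pos (inv_pos.2 h.pos) hu5

theorem side_inv (hP : Proper Q) {φ φ' : ℂ → ℂ} {l : ℝ} (h : Aff Q φ φ' l) (hl : l < 1) {w : ℂ}
    (hw : FixReg Q φ l w) {σ : ℝ → ℂ} (hσ : Leaf Q σ) (h0 : σ 0 = w)
    (h1 : ∀ u, φ (σ u) = σ (l * u)) : ∃ L R : Set ℂ, IsOpen L ∧ IsOpen R ∧
    Disjoint L R ∧ L ∪ R = Q.U \ range σ ∧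
    (∀ (τ : ℝ → ℂ) (t0 : ℝ), (∀ᶠ t in 𝓝 t0, Ver Q τ t) → τ t0 ∈ range σ →
      ((∀ᶠ t in 𝓝[<] t0, τ t ∈ L) ∧ (∀ᶠ t in 𝓝[>] t0, τ t ∈ R)) ∨
      ((∀ᶠ t in 𝓝[<] t0, τ t ∈ R) ∧ (∀ᶠ t in 𝓝[>] t0, τ t ∈ L))) ∧
    (∀ z ∈ L, φ z ∈ L) ∧ (∀ z ∈ R, φ z ∈ R) := by
  have _ := hP
  have _ := hl
  obtain ⟨L, R, hL, hR, hd, hU, hsep⟩ := sep hσ
  refine ⟨L, R, hL, hR, hd, hU, hsep, ?_⟩
  have hdis : ∀ z, z ∈ L → z ∈ R → False := fun z ha hb => Set.disjoint_left.1 hd ha hb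
  have hdis' : ∀ z, z ∈ R → z ∈ L → False := fun z ha hb => hdis z hb ha
  have hLR : ∀ z, z ∈ L ∪ R ↔ z ∈ Q.U ∧ z ∉ range σ := by
    intro z
    rw [hU]
    exact Iff.rfl
  have hLU : ∀ z ∈ L, z ∈ Q.U ∧ z ∉ range σ := fun z hz => (hLR z).1 (Or.inl hz)
  have hRU : ∀ z ∈ R, z ∈ Q.U ∧ z ∉ range σ := fun z hz => (hLR z).1 (Or.inr hz)
  have hinv : ∀ z ∈ Q.U, φ z ∈ range σ → z ∈ range σ := by
    rintro z hz ⟨u, hu⟩
    refine ⟨u / l, ?_⟩
    have h2 : φ (σ (u / l)) = φ z := by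
      rw [h1, ← hu, mul_div_cancel₀ u h.pos.ne']
    have h3 := congrArg φ' h2
    rw [h.left _ (hσ (u / l)).mem, h.left _ hz] at h3
    exact h3
  have hφLR : ∀ z, z ∈ Q.U → z ∉ range σ → φ z ∈ L ∨ φ z ∈ R := fun z hz hzr =>
    (hLR (φ z)).2 ⟨h.maps hz, fun hr => hzr (hinv z hz hr)⟩
  have hbox : ∀ t, ∃ B : Box Q, (0 : ℂ) ∈ B.dom ∧ B.χ 0 = σ t := by
    intro t
    obtain ⟨htU, v, -, hv⟩ := hσ t
    obtain ⟨ρ, hρ, B, ha, hb, hc, hd', hχ, -, -⟩ := box_exists Q htU hv (W := univ) univ_mem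
    refine ⟨B, ?_, hχ⟩
    rw [Box.dom, Complex.mem_reProdIm, ha, hb, hc, hd']
    simp [hρ]
  -- the two kinds of points
  obtain ⟨S, hS⟩ : ∃ S : Set ℂ, S = {z | ∀ᶠ z' in 𝓝 z, (z' ∈ R → φ z' ∈ R) ∧
      (z' ∈ L → φ z' ∈ L)} := ⟨_, rfl⟩
  obtain ⟨T, hT⟩ : ∃ T : Set ℂ, T = {z | ∀ᶠ z' in 𝓝 z, (z' ∈ R → φ z' ∈ L) ∧
      (z' ∈ L → φ z' ∈ R)} := ⟨_, rfl⟩
  have hSm : ∀ z, z ∈ S ↔ ∀ᶠ z' in 𝓝 z, (z' ∈ R → φ z' ∈ R) ∧ (z' ∈ L → φ z' ∈ L) := by
    intro z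
    rw [hS]
    exact Iff.rfl
  have hTm : ∀ z, z ∈ T ↔ ∀ᶠ z' in 𝓝 z, (z' ∈ R → φ z' ∈ L) ∧ (z' ∈ L → φ z' ∈ R) := by
    intro z
    rw [hT]
    exact Iff.rfl
  have hSo : IsOpen S := by
    rw [hS]
    exact isOpen_setOfPred_eventually_nhds
  have hTo : IsOpen T := by
    rw [hT]
    exact isOpen_setOfPred_eventually_nhds
  have hcφ : ∀ z ∈ Q.U, ContinuousAt φ z := fun z hz =>
    h.cont.continuousAt (Q.isOpen.mem_nhds hz)
  -- points of the leaf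
  have hleaf : ∀ t, (σ t ∈ S ∨ σ t ∈ T) := by
    intro t
    obtain ⟨B, hB0, hB⟩ := hbox t
    have hpr : σ t ∈ range σ := ⟨t, rfl⟩
    obtain ⟨h2, h3⟩ := loc_side hσ hL hR hd hU hsep h h1 B hB0 hB
    rcases h2 with ⟨h4, h5⟩ | ⟨h4, h5⟩
    · rcases h3 with ⟨h6, h7⟩ | ⟨h6, h7⟩
      · left
        exact (hSm _).2 (ev_of hσ B hB0 hB hpr hdis' (fun z hz => (hRU z hz).2)
          (fun z hz => (hLU z hz).2) h4 h5 h6 h7)
      · right
        exact (hTm _).2 (ev_of hσ B hB0 hB hpr hdis' (fun z hz => (hRU z hz).2)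
          (fun z hz => (hLU z hz).2) h4 h5 h6 h7)
    · rcases h3 with ⟨h6, h7⟩ | ⟨h6, h7⟩
      · right
        exact (hTm _).2 ((ev_of hσ B hB0 hB hpr hdis (fun z hz => (hLU z hz).2)
          (fun z hz => (hRU z hz).2) h4 h5 h6 h7).mono fun z hz => hz.symm)
      · left
        exact (hSm _).2 ((ev_of hσ B hB0 hB hpr hdis (fun z hz => (hLU z hz).2)
          (fun z hz => (hRU z hz).2) h4 h5 h6 h7).mono fun z hz => hz.symm)
  have hwS : w ∈ S := by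
    obtain ⟨B, hB0, hB⟩ := hbox 0
    have hpr : σ 0 ∈ range σ := ⟨0, rfl⟩
    obtain ⟨h2, h3⟩ := loc_side hσ hL hR hd hU hsep h h1 B hB0 hB
    obtain ⟨z, hz1, hz2⟩ := same_side h hw B hB0 (hB.trans h0)
    rw [← h0]
    rcases h2 with ⟨h4, h5⟩ | ⟨h4, h5⟩
    · rcases h3 with ⟨h6, h7⟩ | ⟨h6, h7⟩
      · exact (hSm _).2 (ev_of hσ B hB0 hB hpr hdis' (fun z hz => (hRU z hz).2)
          (fun z hz => (hLU z hz).2) h4 h5 h6 h7)
      · exact (hdis (φ z) (h6 ⟨z, hz1, rfl⟩) (h4 hz2)).elim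
    · rcases h3 with ⟨h6, h7⟩ | ⟨h6, h7⟩
      · exact (hdis (φ z) (h4 hz2) (h6 ⟨z, hz1, rfl⟩)).elim
      · exact (hSm _).2 ((ev_of hσ B hB0 hB hpr hdis (fun z hz => (hLU z hz).2)
          (fun z hz => (hRU z hz).2) h4 h5 h6 h7).mono fun z hz => hz.symm)
  have hcov : Q.U ⊆ S ∪ T := by
    intro z hz
    by_cases hzr : z ∈ range σ
    · obtain ⟨t, rfl⟩ := hzr
      exact hleaf t
    · have hzc := hcφ z hz
      rcases (hLR z).2 ⟨hz, hzr⟩ with hzL | hzR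
      · rcases hφLR z hz hzr with h2 | h2
        · left
          rw [hSm]
          filter_upwards [hL.mem_nhds hzL, hzc.eventually_mem (hL.mem_nhds h2)] with z' h3 h4
          exact ⟨fun h5 => (hdis _ h3 h5).elim, fun _ => h4⟩
        · right
          rw [hTm]
          filter_upwards [hL.mem_nhds hzL, hzc.eventually_mem (hR.mem_nhds h2)] with z' h3 h4
          exact ⟨fun h5 => (hdis _ h3 h5).elim, fun _ => h4⟩
      · rcases hφLR z hz hzr with h2 | h2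
        · right
          rw [hTm]
          filter_upwards [hR.mem_nhds hzR, hzc.eventually_mem (hL.mem_nhds h2)] with z' h3 h4
          exact ⟨fun _ => h4, fun h5 => (hdis _ h5 h3).elim⟩
        · left
          rw [hSm]
          filter_upwards [hR.mem_nhds hzR, hzc.eventually_mem (hR.mem_nhds h2)] with z' h3 h4
          exact ⟨fun _ => h4, fun h5 => (hdis _ h5 h3).elim⟩
  have hST : Disjoint (Q.U ∩ S) (Q.U ∩ T) := by
    rw [Set.disjoint_left]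
    rintro z ⟨hzU, hzS⟩ ⟨-, hzT⟩
    rw [hSm] at hzS
    rw [hTm] at hzT
    have hno : ∀ᶠ z' in 𝓝 z, z' ∉ L ∧ z' ∉ R := by
      filter_upwards [hzS, hzT] with z' h2 h3
      exact ⟨fun h4 => hdis _ (h2.2 h4) (h3.2 h4), fun h4 => hdis _ (h3.1 h4) (h2.1 h4)⟩
    by_cases hzr : z ∈ range σ
    · obtain ⟨t, rfl⟩ := hzr
      obtain ⟨B, hB0, hB⟩ := hbox t
      have hax : Tendsto (ax B) (𝓝[>] 0) (𝓝 (σ t)) := by
        have hv := (ax_ver B hB0).self_of_nhds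
        have h2 : ContinuousAt (ax B) 0 := Hor.continuousAt (Q := Q.neg) hv
        have h3 : Tendsto (ax B) (𝓝 0) (𝓝 (ax B 0)) := h2
        rw [ax_zero, hB] at h3
        exact h3.mono_left nhdsWithin_le_nhds
      obtain ⟨h2, -⟩ := loc_side hσ hL hR hd hU hsep h h1 B hB0 hB
      obtain ⟨u, hu1, hu2⟩ := ((ax_P B hB0).and (hax.eventually hno)).exists
      rcases h2 with ⟨h4, -⟩ | ⟨h4, -⟩
      · exact hu2.2 (h4 hu1)
      · exact hu2.1 (h4 hu1)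
    · have h2 := hno.self_of_nhds
      rcases (hLR z).2 ⟨hzU, hzr⟩ with h3 | h3
      · exact h2.1 h3
      · exact h2.2 h3
  have hUS : Q.U ⊆ Q.U ∩ S := by
    have hpc : IsPreconnected Q.U := Q.convex.isPreconnected
    refine hpc.subset_left_of_subset_union (Q.isOpen.inter hSo) (Q.isOpen.inter hTo) hST ?_ ?_
    · intro z hz
      rcases hcov hz with h2 | h2
      · exact Or.inl ⟨hz, h2⟩
      · exact Or.inr ⟨hz, h2⟩
    · exact ⟨w, hw.1, hw.1, hwS⟩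
  refine ⟨fun z hz => ?_, fun z hz => ?_⟩
  · have h2 := (hSm z).1 (hUS (hLU z hz).1).2
    exact h2.self_of_nhds.2 hz
  · have h2 := (hSm z).1 (hUS (hRU z hz).1).2
    exact h2.self_of_nhds.1 hz

end Pool.Agent.ANO2.Geo2
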