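import Pool.Agent.ANO2.Geo2.SurfA
import Pool.Agent.ANO2.Geo2.AffD
import Pool.Agent.ANO2.Geo2.Geo

/-!
# ANO phase 2, Geo2: the pseudo-distances on the universal cover of a closed surface

`d1 (a, b) := d1 (qd h) a b = dU h a b + dS h a b` (`geo`, `proper_qd`).

* `dU_inv`, `dS_inv`: `Aff.du`, `Aff.ds` with `mob_aff` (`lift_coe`).  `dU_f`, `dS_f`: with
  `pa_aff`.
* `continuous_dU`: `|dU a b - dU a' b'| ≤ dU a a' + dU b b' ≤ d1 a a' + d1 b b'` (`dU_symm`,
  `dU_triangle`) and `d1_small`.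
* `upper`: let `K` be the compact set of `S.cocompact`; the function `dU + dS` is continuous, so it
  is bounded on the compact set `{(a, b) : a ∈ K, dist a b ≤ R}` (closed subset of `K ×` a
  thickening, `ProperSpace ℍ`); in general choose `γ` with `γ • a ∈ K` and use the invariance.
* `lower`: `m` of `leave_unif`; if `dU a b + dS a b < m` there is a path of length `< m` from `a`
  to `b` (`geo`, `exists_d1`), so `dist a b < r`.
* `proper`: `m` of `leave_mul` with `r = 1`; `n` with `2 R < n m`; if `dU a b ≤ R`, `dS a b ≤ R`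
  there is a path of length `< n m` (`geo`, `exists_d1`), so `dist a b ≤ n`.
* `eq_of_zero`: `Geo2.eq_of_zero`.
-/

set_option autoImplicit false

open Set Filter Topology MeasureTheory
open scoped UpperHalfPlane MatrixGroups

namespace Pool.Agent.ANO2.Geo2

open Pool.Agent.ANO

variable {S : ClosedSurface} {q : ℂ → ℂ}

/-- The horizontal pseudo-distance on `ℍ`. -/
noncomputable def dU (h : IsQuadDiff S q) (a b : ℍ) : ℝ := du (qd h) a b

/-- The vertical pseudo-distance on `ℍ`. -/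
noncomputable def dS (h : IsQuadDiff S q) (a b : ℍ) : ℝ := ds (qd h) a b

theorem d1_eq (h : IsQuadDiff S q) (a b : ℍ) : d1 (qd h) a b = dU h a b + dS h a b :=
  geo (proper_qd h) (mem_qd h a) (mem_qd h b)

theorem dU_nonneg (h : IsQuadDiff S q) (a b : ℍ) : 0 ≤ dU h a b :=
  du_nonneg _ _

theorem dS_nonneg (h : IsQuadDiff S q) (a b : ℍ) : 0 ≤ dS h a b :=
  ds_nonneg _ _

theorem dU_symm (h : IsQuadDiff S q) (a b : ℍ) : dU h a b = dU h b a :=
  du_symm _ _

theorem dS_symm (h : IsQuadDiff S q) (a b : ℍ) : dS h a b = dS h b a :=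
  ds_symm _ _

theorem dU_triangle (h : IsQuadDiff S q) (a b c : ℍ) : dU h a c ≤ dU h a b + dU h b c :=
  du_triangle (mem_qd h a) (mem_qd h b) (mem_qd h c)

theorem dS_triangle (h : IsQuadDiff S q) (a b c : ℍ) : dS h a c ≤ dS h a b + dS h b c :=
  ds_triangle (mem_qd h a) (mem_qd h b) (mem_qd h c)

theorem dU_inv (h : IsQuadDiff S q) {γ : SL(2, ℝ)} (hγ : γ ∈ S.Γ) (a b : ℍ) :
    dU h (γ • a) (γ • b) = dU h a b := by
  have h1 := (mob_aff h hγ).du (mem_qd h a) (mem_qd h b)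
  rw [lift_coe, lift_coe, one_mul] at h1
  exact h1

theorem dS_inv (h : IsQuadDiff S q) {γ : SL(2, ℝ)} (hγ : γ ∈ S.Γ) (a b : ℍ) :
    dS h (γ • a) (γ • b) = dS h a b := by
  have h1 := (mob_aff h hγ).ds (mem_qd h a) (mem_qd h b)
  rw [lift_coe, lift_coe, inv_one, one_mul] at h1
  exact h1

theorem dU_f {S : SurfaceMap} {l : ℝ} (h : IsPA S q l) (a b : ℍ) :
    dU h.quad (S.f a) (S.f b) = l * dU h.quad a b := by
  have h1 := (pa_aff h).du (mem_qd h.quad a) (mem_qd h.quad b)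
  rw [lift_coe, lift_coe] at h1
  exact h1

theorem dS_f {S : SurfaceMap} {l : ℝ} (h : IsPA S q l) (a b : ℍ) :
    l * dS h.quad (S.f a) (S.f b) = dS h.quad a b := by
  have h1 := (pa_aff h).ds (mem_qd h.quad a) (mem_qd h.quad b)
  rw [lift_coe, lift_coe] at h1
  have hl : l ≠ 0 := (zero_lt_one.trans h.one_lt).ne'
  have h2 : dS h.quad (S.f a) (S.f b) = l⁻¹ * dS h.quad a b := h1
  rw [h2, mul_inv_cancel_left₀ hl]

private theorem cont_SurfB (h : IsQuadDiff S q) {f : ℍ → ℍ → ℝ} (hs : ∀ a b, f a b = f b a)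
    (ht : ∀ a b c, f a c ≤ f a b + f b c) (hd : ∀ a b, f a b ≤ d1 (qd h) a b) :
    Continuous fun p : ℍ × ℍ => f p.1 p.2 := by
  have hsm : ∀ (a : ℍ) (ε : ℝ), 0 < ε → ∀ᶠ b : ℍ in 𝓝 a, f a b < ε := by
    intro a ε hε
    have h1 := UpperHalfPlane.continuous_coe.continuousAt.eventually
      (d1_small (qd h) (mem_qd h a) hε)
    filter_upwards [h1] with b hb
    exact lt_of_le_of_lt (hd a b) hb
  rw [continuous_iff_continuousAt]
  rintro ⟨a, b⟩
  rw [Metric.continuousAt_iff']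
  intro ε hε
  have h1 := (continuous_fst.continuousAt (x := (a, b))).eventually (hsm a (ε / 2) (half_pos hε))
  have h2 := (continuous_snd.continuousAt (x := (a, b))).eventually (hsm b (ε / 2) (half_pos hε))
  filter_upwards [h1, h2] with p hp1 hp2
  rw [Real.dist_eq, abs_lt]
  have t1 := ht p.1 a p.2
  have t2 := ht a b p.2
  have t3 := ht a p.1 b
  have t4 := ht p.1 p.2 b
  have s1 := hs p.1 a
  have s2 := hs p.2 b
  constructor <;> linarith

theorem continuous_dU (h : IsQuadDiff S q) : Continuous fun p : ℍ × ℍ => dU h p.1 p.2 :=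
  cont_SurfB h (dU_symm h) (dU_triangle h) fun a b => by
    rw [d1_eq]
    linarith [dS_nonneg h a b]

theorem continuous_dS (h : IsQuadDiff S q) : Continuous fun p : ℍ × ℍ => dS h p.1 p.2 :=
  cont_SurfB h (dS_symm h) (dS_triangle h) fun a b => by
    rw [d1_eq]
    linarith [dU_nonneg h a b]

theorem upper (h : IsQuadDiff S q) (R : ℝ) : ∃ C : ℝ, ∀ a b : ℍ, dist a b ≤ R →
    dU h a b ≤ C ∧ dS h a b ≤ C := by
  obtain ⟨K, hK, hcov⟩ := S.cocompact
  have hL : IsCompact (Metric.cthickening R K) :=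
    Metric.isCompact_of_isClosed_isBounded Metric.isClosed_cthickening hK.isBounded.cthickening
  have hcont : Continuous fun p : ℍ × ℍ => dU h p.1 p.2 + dS h p.1 p.2 :=
    (continuous_dU h).add (continuous_dS h)
  obtain ⟨C, hC⟩ := (hK.prod hL).exists_bound_of_continuousOn hcont.continuousOn
  refine ⟨C, fun a b hab => ?_⟩
  obtain ⟨γ, hγ, ha⟩ := hcov a
  have hd : dist (γ • a) (γ • b) ≤ R := by
    rw [dist_smul]
    exact hab
  have hb : γ • b ∈ Metric.cthickening R K :=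
    Metric.mem_cthickening_of_dist_le _ (γ • a) R K ha (by rw [dist_comm]; exact hd)
  have h1 := hC (γ • a, γ • b) ⟨ha, hb⟩
  have h2 := (le_abs_self _).trans h1
  simp only [dU_inv h hγ, dS_inv h hγ] at h2
  have h3 := dU_nonneg h a b
  have h4 := dS_nonneg h a b
  exact ⟨by linarith, by linarith⟩

theorem lower (h : IsQuadDiff S q) {r : ℝ} (hr : 0 < r) : ∃ m > 0, ∀ a b : ℍ, r ≤ dist a b →
    m ≤ dU h a b + dS h a b := by
  obtain ⟨m, hm, hp⟩ := leave_unif h hr
  refine ⟨m, hm, fun a b hab => ?_⟩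
  by_contra hcon
  have hlt := not_le.mp hcon
  rw [← d1_eq] at hlt
  obtain ⟨l, c, A, B, hc, h0, h1, hl⟩ := exists_d1 (mem_qd h a) (mem_qd h b)
    (ε := m - d1 (qd h) a b) (by linarith)
  have h2 := hp l c A B hc (by linarith) l ⟨hc.nonneg, le_rfl⟩ a b h0.symm h1.symm
  linarith

theorem proper (h : IsQuadDiff S q) (R : ℝ) : ∃ C : ℝ, ∀ a b : ℍ, dU h a b ≤ R → dS h a b ≤ R →
    dist a b ≤ C := by
  obtain ⟨m, hm, hp⟩ := leave_mul h one_pos
  obtain ⟨n, hn⟩ := exists_nat_gt (2 * R / m)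
  rw [div_lt_iff₀ hm] at hn
  refine ⟨n * 1, fun a b h1 h2 => ?_⟩
  have h3 := d1_eq h a b
  obtain ⟨l, c, A, B, hc, e0, e1, hl⟩ := exists_d1 (mem_qd h a) (mem_qd h b)
    (ε := n * m - 2 * R) (by linarith)
  exact hp n l c A B hc (by linarith) l ⟨hc.nonneg, le_rfl⟩ a b e0.symm e1.symm

theorem eq_of_dU_dS (h : IsQuadDiff S q) {a b : ℍ} (h1 : dU h a b = 0) (h2 : dS h a b = 0) :
    a = b :=
  UpperHalfPlane.ext (eq_of_zero (proper_qd h) (mem_qd h a) (mem_qd h b) h1 h2)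

end Pool.Agent.ANO2.Geo2
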